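import Pool.Agent.Lib.MP_45f16c_ag.EX.BR
import Pool.Agent.Lib.MP_45f16c_ag.AS.An

/-! The maximum principle. -/

set_option autoImplicit false
open Metric MeasureTheory MvPolynomial Filter Real
open scoped ComplexConjugate Matrix Topology

namespace Pool.Agent.Lib.MP_45f16c_ag.EX

open AS

noncomputable section

namespace An2Aux

open AnAux

/-- The two maximum principles, with abstract constants. -/
theorem core (hJ : JmpStmt) (hB : BadStmt) {ν N' m q D N₁ : ℕ}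
    {Y : Fin N' → (Fin ν → ℂ) →ₗ[ℂ] (Fin ν → ℂ)} {f : ℂ → Fin ν → ℂ} {γ : ℂ → ℂ}
    {a : (Fin N' × Fin ν) × Fin m → ℂ} {κ σ σ' s t A B C τ E T x L₁ L₂ : ℝ} {X : ℂ → ℝ}
    (hf : Differentiable ℂ f) (hγ : Differentiable ℂ γ) (hne : ∀ z ∈ DD1, f z ≠ 0)
    (ha : ∀ k, ‖a k‖ ≤ 2)
    (hroot : ∀ ρ b (z z' : ℂ), ‖z‖ ≤ 1 → ‖z' - z‖ ≤ s → (∀ k, z ≠ a ((ρ, b), k)) →
      ‖Y ρ (f z') b‖ ≤ ‖Y ρ (f z) b‖ * (E * Rz (fun k => a ((ρ, b), k)) σ' z))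
    (hosc : ∀ z ∈ DD1, ∀ z' ∈ DD1, ‖z' - z‖ ≤ σ → ‖f z'‖ ≤ exp B * ‖f z‖)
    (hβ : ∀ ρ z₀, closedBall z₀ s ⊆ DD1 →
      (∀ z ∈ closedBall z₀ s, ‖Y ρ (f z)‖ ≤ exp (-(A / 2)) * ‖f z‖) → Tch f z₀ t ≤ τ)
    (hann : ∀ z ∈ DD1, 1 - σ' < ‖z‖ → ‖γ z‖ ≤ exp (2 * B) * ‖f z‖)
    (h0 : exp (T / 2) * ‖f 0‖ ≤ ‖γ 0‖) (X0 : ∀ z ∈ DD1, 0 ≤ X z)
    (hup : ∀ z ∈ DD1, 3 / 2 * X z ≤ exp L₁)
    (hlow : ∀ z ∈ DD1, (∀ ρ, exp (-A) * ‖f z‖ ≤ ‖Y ρ (f z)‖) → exp (-L₂) ≤ X z)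
    (hP : ∀ z ∈ DD1, ∃ (P : ℂ → ℂ) (e : ℕ), Differentiable ℂ P ∧ e ≤ q ∧
      3 / 2 * X z * ‖f z‖ ^ e ≤ C * ‖P z‖ ∧ ∀ z' ∈ DD1, ‖P z'‖ ≤ C * X z' * ‖f z'‖ ^ e)
    (hN : 1 ≤ N₁) (hσ : 0 < σ') (hσσ : σ' ≤ σ) (hσ1 : σ ≤ 1) (hs : s ≤ σ') (ht : 0 < t)
    (htσ : t ≤ σ') (hκ : 0 ≤ κ) (hC : 1 ≤ C) (hE : 0 ≤ E) (hB0 : 0 ≤ B) (hτ : 0 ≤ τ)
    (hL₁ : 0 ≤ L₁) (hL₂ : 0 ≤ L₂) (n1 : 3 * E * exp B ≤ exp (A / 4))
    (n2 : (C ^ (2 * N₁)) ^ 2 * exp ((N₁ * (q + D) : ℕ) * B) < exp (A / 4 * 1))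
    (n3 : (C ^ (2 * N₁)) ^ 2 * exp ((N₁ * (q + D) : ℕ) * τ) < exp (κ * t ^ 2))
    (n7 : (Fintype.card ((Fin N' × Fin ν) × Fin m) : ℝ) * (1 * log (3 / σ)) ≤ x)
    (n8 : N₁ * L₁ + N₁ * L₂ + (N₁ * D : ℕ) * (2 * B) + κ < (N₁ * D : ℕ) * (T / 2 - B) - x) :
    ∃ (M : ℝ) (z₀ : ℂ), 0 < M ∧ ‖z₀‖ ≤ 1 - σ' ∧ (∀ ρ, exp (-A) * ‖f z₀‖ ≤ ‖Y ρ (f z₀)‖) ∧
      M < (3 / 2 * X z₀) ^ N₁ * (‖γ z₀ ^ (N₁ * D)‖ / ‖f z₀‖ ^ (N₁ * D) * Wz a 1 κ z₀) ∧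
      ∀ z ∈ DD1, X z ^ N₁ * (‖γ z ^ (N₁ * D)‖ / ‖f z‖ ^ (N₁ * D) * Wz a 1 κ z) ≤ M := by
  have hC1 : 1 ≤ C ^ (2 * N₁) := one_le_pow₀ hC
  have hpos : ∀ z ∈ DD1, 0 < ‖f z‖ := fun z hz => norm_pos_iff.2 (hne z hz)
  have h0m : (0 : ℂ) ∈ DD1 := mem_closedBall_self zero_le_one
  have nb : ∀ d' : ℕ, d' ≤ N₁ * (q + D) → ∀ {U : ℂ → ℂ} {z₀ : ℂ}, Differentiable ℂ U →
      ‖z₀‖ ≤ 1 - σ' → (∀ z ∈ DD1, ‖U z‖ / ‖f z‖ ^ d' * Wz a 1 κ z ≤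
        C ^ (2 * N₁) * (‖U z₀‖ / ‖f z₀‖ ^ d' * Wz a 1 κ z₀)) →
      0 < ‖U z₀‖ / ‖f z₀‖ ^ d' * Wz a 1 κ z₀ → ∀ ρ, exp (-A) * ‖f z₀‖ ≤ ‖Y ρ (f z₀)‖ := by
    intro d' hd' U z₀ hU hz₀ hmax hp ρ
    have e : ‖U z₀‖ / (‖f z₀‖ ^ d' / C ^ (2 * N₁)) * Wz a 1 κ z₀ =
        C ^ (2 * N₁) * (‖U z₀‖ / ‖f z₀‖ ^ d' * Wz a 1 κ z₀) := by
      rw [div_div_eq_mul_div]; ring
    refine le_trans ?_ (notBad hB (d := d') (C := C ^ (2 * N₁)) (U := fun z (_ : Unit) => U z)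
      (G := fun z => if z = z₀ then ‖f z‖ ^ d' / C ^ (2 * N₁) else ‖f z‖ ^ d') hf hne hroot
      (fun z hz z' hz' h => hosc z hz z' hz' (h.trans hσσ)) hβ hσ hs ht htσ one_pos hκ
      (by positivity) hE n1 (lt_of_le_of_lt (by gcongr) n2) (lt_of_le_of_lt (by gcongr) n3)
      (differentiable_pi.2 fun _ => hU) hz₀ (fun z hz => ?_) ?_ ρ)
    · have := mul_nonneg (exp_pos (-A)).le (norm_nonneg (f z₀))
      linarith
    · have h1 := le_mul_of_one_le_left (pow_pos (hpos z hz) d').le hC1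
      simp only [pi_norm_const, if_true]
      split_ifs with h
      · exact ⟨(div_le_self (by positivity) hC1).trans h1,
          by rw [mul_div_cancel₀ _ (by positivity)], by rw [h]⟩
      · exact ⟨h1, h1, e ▸ hmax z hz⟩
    · simp only [pi_norm_const, if_true]
      rw [e]
      positivity
  obtain ⟨R, hR⟩ : ∃ R : ℂ → ℝ, ∀ z, R z = ‖γ z ^ (N₁ * D)‖ / ‖f z‖ ^ (N₁ * D) * Wz a 1 κ z :=
    ⟨_, fun _ => rfl⟩
  have R0 : ∀ z, 0 ≤ R z := fun z => hR z ▸ mul_nonneg (by positivity) (Wz_nonneg _ _ _ _)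
  have hγa : ∀ z ∈ DD1, 1 - σ' < ‖z‖ → R z ≤ exp ((N₁ * D : ℕ) * (2 * B) + κ) := fun z hz h => by
    have h1 := hann z hz h
    have h2 := Wz_le ha zero_le_one hκ (mem_closedBall_zero_iff.1 hz)
    have h3 := Wz_nonneg a 1 κ z
    rw [hR, div_mul_eq_mul_div, div_le_iff₀ (pow_pos (hpos z hz) _)]
    calc _ ≤ (exp (2 * B) * ‖f z‖) ^ (N₁ * D) * exp κ := by rw [norm_pow]; gcongr
      _ = _ := by rw [exp_add, exp_nat_mul, mul_pow]; ring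
  -- the first maximum
  obtain ⟨z₁, hz₁, hm₁⟩ := (isCompact_closedBall (0 : ℂ) 1).exists_isMaxOn ⟨0, h0m⟩
    (f := fun z => ‖γ z ^ (N₁ * D)‖ / ‖f z‖ ^ (N₁ * D) * Wz a 1 κ z)
    (((hγ.continuous.pow _).norm.continuousOn.div (hf.continuous.norm.pow _).continuousOn
      fun z hz => (pow_pos (hpos z hz) _).ne').mul (Wz_cont a zero_le_one κ).continuousOn)
  have hM₁ : _ ≤ R z₁ := (start hJ hf hγ hne (hσ.trans_le hσσ) hσ1 zero_le_one hκ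
    (fun z hz => hosc 0 h0m z (closedBall_subset_closedBall hσ1 hz)
      (mem_closedBall_iff_norm.1 hz)) h0 n7 hm₁).trans_eq (hR z₁).symm
  have hm : ∀ z ∈ DD1, R z ≤ R z₁ := fun z hz => by rw [hR, hR]; exact hm₁ hz
  have l1 : 0 ≤ N₁ * L₁ := by positivity
  have l2 : 0 ≤ N₁ * L₂ := by positivity
  have hin₁ : ‖z₁‖ ≤ 1 - σ' := by
    by_contra h
    have := exp_le_exp.1 (hM₁.trans (hγa z₁ hz₁ (not_le.1 h)))
    linarith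
  have hg₁ := hlow z₁ hz₁ (nb (N₁ * D) (Nat.mul_le_mul_left _ (Nat.le_add_left _ _))
    (U := fun z => γ z ^ (N₁ * D)) (hγ.pow _) hin₁ (fun z hz => by
      rw [← hR, ← hR]
      exact (hm z hz).trans (le_mul_of_one_le_left (R0 _) hC1))
    (hR z₁ ▸ (exp_pos _).trans_le hM₁))
  -- the supremum
  simp only [← hR]
  have hX1 : ∀ z ∈ DD1, (3 / 2 * X z) ^ N₁ ≤ exp (N₁ * L₁) := fun z hz => by
    rw [exp_nat_mul]
    exact pow_le_pow_left₀ (by linarith [X0 z hz]) (hup z hz) _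
  have hbd : BddAbove ((fun z => X z ^ N₁ * R z) '' DD1) :=
    ⟨exp (N₁ * L₁) * R z₁, by
      rintro _ ⟨z, hz, rfl⟩
      exact mul_le_mul ((pow_le_pow_left₀ (X0 z hz) (by linarith [X0 z hz]) _).trans (hX1 z hz))
        (hm z hz) (R0 z) (exp_pos _).le⟩
  obtain ⟨M, hM, hM'⟩ : ∃ M : ℝ, (∀ z ∈ DD1, X z ^ N₁ * R z ≤ M) ∧
      ∀ M' < M, ∃ z ∈ DD1, M' < X z ^ N₁ * R z :=
    ⟨_, fun z hz => le_csSup hbd ⟨z, hz, rfl⟩, fun M' h => by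
      obtain ⟨_, ⟨z, hz, rfl⟩, h⟩ := exists_lt_of_lt_csSup (Set.Nonempty.image _ ⟨0, h0m⟩) h
      exact ⟨z, hz, h⟩⟩
  have hM₂ : exp (-(N₁ * L₂)) * exp ((N₁ * D : ℕ) * (T / 2 - B) - x) ≤ M := by
    refine le_trans (mul_le_mul ?_ hM₁ (exp_pos _).le (pow_nonneg (X0 _ hz₁) _)) (hM z₁ hz₁)
    rw [← mul_neg, exp_nat_mul]
    exact pow_le_pow_left₀ (exp_pos _).le hg₁ _
  have M0 : 0 < M := lt_of_lt_of_le (by positivity) hM₂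
  have h32 : (1 : ℝ) < (3 / 2) ^ N₁ := one_lt_pow₀ (by norm_num) (by omega)
  obtain ⟨z₀, hz₀, hlt⟩ := hM' _ (div_lt_self M0 h32)
  rw [div_lt_iff₀' (by positivity), ← mul_assoc, ← mul_pow] at hlt
  have hin : ‖z₀‖ ≤ 1 - σ' := by
    by_contra h
    have h1 := (hM₂.trans_lt hlt).trans_le
      (mul_le_mul (hX1 z₀ hz₀) (hγa z₀ hz₀ (not_le.1 h)) (R0 _) (exp_pos _).le)
    rw [← exp_add, ← exp_add, exp_lt_exp] at h1
    linarith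
  refine ⟨M, z₀, M0, hin, ?_, hlt, hM⟩
  obtain ⟨P, e, dP, he, p1, p2⟩ := hP z₀ hz₀
  have e1 : ∀ z, ‖P z ^ N₁ * γ z ^ (N₁ * D)‖ / ‖f z‖ ^ (N₁ * (e + D)) * Wz a 1 κ z =
      (‖P z‖ / ‖f z‖ ^ e) ^ N₁ * R z := fun z => by
    rw [hR, norm_mul, norm_pow (P z), mul_add, pow_add, div_pow, ← pow_mul, mul_comm e,
      ← div_mul_div_comm, mul_assoc]
  have e2 : M < C ^ N₁ * ((‖P z₀‖ / ‖f z₀‖ ^ e) ^ N₁ * R z₀) := by
    refine hlt.trans_le ?_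
    rw [← mul_assoc, ← mul_pow, ← mul_div_assoc]
    exact mul_le_mul_of_nonneg_right (pow_le_pow_left₀ (by linarith [X0 _ hz₀])
      ((le_div_iff₀ (pow_pos (hpos _ hz₀) _)).2 p1) _) (R0 _)
  refine nb (N₁ * (e + D)) (Nat.mul_le_mul_left _ (by omega))
    (U := fun z => P z ^ N₁ * γ z ^ (N₁ * D)) ((dP.pow _).mul (hγ.pow _)) hin (fun z hz => ?_) ?_
  · rw [e1, e1]
    calc _ ≤ (C * X z) ^ N₁ * R z := mul_le_mul_of_nonneg_right (pow_le_pow_left₀ (by positivity)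
          ((div_le_iff₀ (pow_pos (hpos _ hz) _)).2 (p2 z hz)) _) (R0 _)
      _ = C ^ N₁ * (X z ^ N₁ * R z) := by rw [mul_pow, mul_assoc]
      _ ≤ C ^ N₁ * (C ^ N₁ * ((‖P z₀‖ / ‖f z₀‖ ^ e) ^ N₁ * R z₀)) :=
        mul_le_mul_of_nonneg_left ((hM z hz).trans e2.le) (by positivity)
      _ = _ := by rw [← mul_assoc, ← pow_add, two_mul]
  · rw [e1]
    exact (mul_pos_iff_of_pos_left (by positivity)).1 (M0.trans e2)

/-- The bound in terms of the weight. -/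
theorem Xf_eq {ν N₁ D : ℕ} {J : Type} [Fintype J] (a : J → ℂ) {f : ℂ → Fin ν → ℂ} (γ : ℂ → ℂ)
    (κ : ℝ) {M : ℝ} {z : ℂ} (hN : 1 ≤ N₁) (hM : 0 < M) (hf : f z ≠ 0)
    (hG : γ z ^ (N₁ * D) * ∏ k, (z - a k) / 3 ≠ 0) :
    Xf (log M) (fun z => κ * ‖z‖ ^ 2) N₁ D f (fun z => γ z ^ (N₁ * D) * ∏ k, (z - a k) / 3) z ^ N₁ *
      (‖γ z ^ (N₁ * D)‖ / ‖f z‖ ^ (N₁ * D) * Wz a 1 κ z) = M := by
  have h := Xf_pow (μ := log M) (χ := fun z => κ * ‖z‖ ^ 2) (D := D) (f := f)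
    (G := fun z => γ z ^ (N₁ * D) * ∏ k, (z - a k) / 3) hN hG
  rw [exp_sub, exp_add, exp_log hM, ← Nat.cast_mul, exp_nat_mul, exp_lg hf, norm_mul,
    norm_prod, eq_div_iff (exp_pos _).ne'] at h
  have hp := pow_pos (norm_pos_iff.2 hf) (N₁ * D)
  rw [Wz, div_mul_eq_mul_div, ← mul_div_assoc, div_eq_iff hp.ne', ← h]
  simp only [rpow_one, norm_div, Complex.norm_ofNat]
  ring

end An2Aux

open AnAux An2Aux in
theorem an2S (hR : RootsStmt) (hJ : JmpStmt) (hA : AnnStmt) (hB : BadStmt) : An2Stmt := by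
  intro ν q D b K t τ C₁ C' hν hq hD hK ht hC₁ hC'
  have hD' : (1 : ℝ) ≤ D := by exact_mod_cast hD
  have hq' : (1 : ℝ) ≤ q := by exact_mod_cast hq
  obtain ⟨g₁, hg₁, hsm⟩ := small b (c := (q + D) * (100 * q * ν * K)) (e := t / 16) (by positivity)
  refine ⟨min g₁ (min (1 / 36) (t / (32 * (q + D + K)))), by positivity, fun g hg hg' => ?_⟩
  have g1 := hsm g hg (hg'.trans (min_le_left _ _))
  have g2 : g ≤ 1 / 36 := hg'.trans ((min_le_right _ _).trans (min_le_left _ _))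
  have g3 := hg'.trans ((min_le_right _ _).trans (min_le_right _ _))
  rw [le_div_iff₀ (by positivity)] at g3
  obtain ⟨σ, hσ⟩ : ∃ σ : ℝ, σ = g ^ b := ⟨_, rfl⟩
  have hσ0 : 0 < σ := by rw [hσ]; positivity
  have hσ1 : σ ≤ 1 := by rw [hσ]; exact pow_le_one₀ hg.le (by linarith)
  rw [← hσ] at g1 ⊢
  have hl : 0 ≤ log (3 / σ) := log_nonneg ((one_le_div hσ0).2 (by linarith))
  obtain ⟨N₁, hN₁, N1, N2⟩ : ∃ N₁ : ℕ, 1 ≤ N₁ ∧ 100 * q * ν * K * log (3 / σ) ≤ N₁ ∧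
      (N₁ : ℝ) ≤ 100 * q * ν * K * log (3 / σ) + 2 :=
    ⟨⌈100 * q * ν * K * log (3 / σ)⌉₊ + 1, by omega,
      (Nat.le_ceil _).trans (by push_cast; linarith), by
        have := Nat.ceil_lt_add_one (show 0 ≤ 100 * q * ν * K * log (3 / σ) by positivity)
        push_cast; linarith⟩
  have hN' : (1 : ℝ) ≤ N₁ := by exact_mod_cast hN₁
  have gK : 0 < g * K := by positivity
  have gq : g ≤ g * q := le_mul_of_one_le_right hg.le hq'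
  have gD : g ≤ g * D := le_mul_of_one_le_right hg.le hD'
  have g4 : (N₁ * (q + D) : ℕ) * g ≤ t / 8 := by
    have := mul_le_mul_of_nonneg_right N2 (show 0 ≤ (q + D) * g by positivity)
    push_cast
    linarith
  obtain ⟨σ', hσ'⟩ : ∃ σ' : ℝ, σ' = g * σ ^ 2 / (4 * K) := ⟨_, rfl⟩
  have hσ'0 : 0 < σ' := by rw [hσ']; positivity
  have hσg : σ' ≤ g * σ := by
    rw [hσ', div_le_iff₀ (by positivity), sq, ← mul_assoc]
    gcongr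
    linarith
  have hσσ : σ' ≤ σ := hσg.trans (mul_le_of_le_one_left hσ0.le (by linarith))
  obtain ⟨s, hs⟩ : ∃ s : ℝ, s = g * σ' / C₁ := ⟨_, rfl⟩
  have hs0 : 0 < s := by rw [hs]; positivity
  have hCs : C₁ * s = g * σ' := by rw [hs]; field_simp
  have hs1 : g * σ' ≤ σ' := mul_le_of_le_one_left hσ'0.le (by linarith)
  have hs2 : s ≤ σ' := (le_mul_of_one_le_left hs0.le hC₁).trans (hCs ▸ hs1)
  refine ⟨N₁, σ', s, hN₁, hσ'0, hσg.trans (mul_le_of_le_one_right hg.le hσ1), hσσ, hs0, ?_⟩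
  have ht8 : 0 < t / 8 := by positivity
  filter_upwards [eventually_gt_atTop 0, ev 3 ht8, ev ((C' ^ (2 * N₁)) ^ 2) ht8,
    ev ((C' ^ (2 * N₁)) ^ 2 * exp ((N₁ * (q + D) : ℕ) * |τ|))
      (show 0 < N₁ * s ^ 2 / 100 by positivity)] with T hT e1 e2 e3
  intro a m U f γ Bz Nz ha hm hf hγ habs hosc hcirc h0 hz hβ
  have hfd : Differentiable ℂ f := differentiable_pi.2 fun a => (hf a).differentiable
  have hne : ∀ z ∈ DD1, f z ≠ 0 := fun z hz =>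
    norm_pos_iff.1 ((exp_pos _).trans_le (habs z hz).1)
  have : Nonempty (Fin ν) := ⟨⟨0, hν⟩⟩
  obtain ⟨Y, hY⟩ : ∃ Y : Fin a → (Fin ν → ℂ) →ₗ[ℂ] (Fin ν → ℂ), ∀ i x, ‖Y i x‖ = ‖U i ⬝ᵥ x‖ :=
    ⟨fun i => Matrix.mulVecLin (Matrix.of fun _ => U i), fun i x => pi_norm_const (U i ⬝ᵥ x)⟩
  choose r hr hroot using fun k : Fin a × Fin ν => hR m _ (pd_Y (Y k.1) hf k.2)
  choose! X X0 XB XN using fun z h => (hz z h).2.2.1
  have hgT : 0 < g * T := by positivity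
  obtain ⟨M, z₀, M0, hin, good, hlt, hM⟩ := core hJ hB (Y := Y) (a := fun k => r k.1 k.2) (q := q)
    (D := D) (κ := N₁ * T / 100) (s := g * σ') (A := t * T) (τ := |τ|) (E := exp (K * (g * T)))
    (x := N₁ * T / 100) (L₁ := D * T / 4) (L₂ := D * T / 100) hfd hγ hne (fun k => hr _ _)
    (fun ρ b z z' hz hz' hk => by
      refine (hroot (ρ, b) z z' σ' _ hz hσ'0 (hσσ.trans hσ1) hz' hk).trans ?_
      have h1 := one_le_Rz _ σ' hk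
      have h2 : m * (g * σ') / σ' ≤ K * (g * T) := by
        rw [mul_div_assoc, mul_div_assoc, div_self hσ'0.ne']
        have := mul_le_mul_of_nonneg_right hm hg.le
        linarith
      gcongr) hosc
    (fun ρ z₀ h1 h2 => (hβ ρ z₀ (hCs ▸ h1) fun z hz => hY _ _ ▸ h2 z (hCs ▸ hz)).trans
      (le_abs_self _))
    (fun z hz h => by
      refine (hA ν f γ (K * T) (g * T) σ hfd hγ hσ0 hgT.le habs hosc hcirc z hz).trans ?_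
      have h1 : 4 * (K * T) * (1 - ‖z‖) / σ ^ 2 ≤ 4 * (K * T) * σ' / σ ^ 2 := by
        gcongr; linarith
      have h2 : 4 * (K * T) * σ' / σ ^ 2 = g * T := by rw [hσ']; field_simp
      gcongr
      linarith) h0 X0 (fun z h => (hz z h).2.2.2.1 _ (XN z h))
    (fun z h h' => (hz z h).2.2.2.2.1 (fun i => hY _ _ ▸ h' i) _ (X0 z h) (XB z h))
    (fun z h => by
      obtain ⟨P, e, p1, p2, p3, p4⟩ := (hz z h).2.2.2.2.2 _ (XN z h)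
      exact ⟨P, e, p1, p2, p3, fun z' h' => p4 z' h' _ (X0 z' h') (XB z' h')⟩)
    hN₁ hσ'0 hσσ hσ1 hs1 hs0 hs2 (by positivity) hC' (exp_pos _).le hgT.le (abs_nonneg _)
    (by positivity) (by positivity)
    (by
      have h1 : (g * K + g) * T ≤ t / 8 * T := by gcongr; linarith
      calc _ ≤ exp (t / 8 * T) * exp (K * (g * T)) * exp (g * T) := by gcongr
        _ ≤ _ := by rw [← exp_add, ← exp_add, exp_le_exp]; linarith)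
    (by
      have h1 := mul_le_mul_of_nonneg_right g4 hT.le
      calc _ < exp (t / 8 * T) * exp ((N₁ * (q + D) : ℕ) * (g * T)) := by gcongr
        _ ≤ _ := by rw [← exp_add, exp_le_exp]; linarith)
    (e3.trans_eq (by congr 1; ring))
    (by
      have h2 : (a : ℝ) ≤ q := by exact_mod_cast ha
      have h3 := mul_le_mul_of_nonneg_right N1 hT.le
      simp only [Fintype.card_prod, Fintype.card_fin]
      push_cast
      calc _ ≤ q * ν * (K * T) * (1 * log (3 / σ)) := by gcongr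
        _ ≤ _ := by linarith)
    (by
      have h0 : 0 < N₁ * T := by positivity
      have h1 := le_mul_of_one_le_left h0.le hD'
      have h2 := mul_le_mul_of_nonneg_right g2 (h0.le.trans h1)
      push_cast
      linarith)
  have hz₀ : z₀ ∈ DD1 := sub_cB hin hσ'0.le (mem_closedBall_self le_rfl)
  have hG : γ z₀ ^ (N₁ * D) * ∏ k : (Fin a × Fin ν) × Fin m, (z₀ - r k.1 k.2) / 3 ≠ 0 := by
    have h1 := right_ne_zero_of_mul (M0.trans hlt).ne'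
    refine mul_ne_zero (fun h => h1 (by rw [h, norm_zero, zero_div, zero_mul]))
      (Finset.prod_ne_zero_iff.2 fun k _ h => h1 ?_)
    rw [Wz, Finset.prod_eq_zero (Finset.mem_univ k) (by simpa using h), zero_mul, mul_zero]
  refine ⟨fun z => γ z ^ (N₁ * D) * ∏ k : (Fin a × Fin ν) × Fin m, (z - r k.1 k.2) / 3, log M, z₀,
    (hγ.pow _).mul (by fun_prop), hin, hG, fun i => hY _ _ ▸ good i,
    (hz z₀ hz₀).2.1 _ _ ?_ (XN z₀ hz₀), fun z h h' => (hz z h).1 _ _ ?_ (XB z h)⟩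
  · have h1 := Xf_eq (fun k : (Fin a × Fin ν) × Fin m => r k.1 k.2) γ (N₁ * T / 100) hN₁ M0
      (hne z₀ hz₀) hG
    rw [← h1] at hlt
    exact (lt_of_pow_lt_pow_left₀ _ (by linarith [X0 z₀ hz₀]) (lt_of_mul_lt_mul_right hlt
      (mul_nonneg (by positivity) (Wz_nonneg _ _ _ _)))).le
  · have h1 := Xf_eq (fun k : (Fin a × Fin ν) × Fin m => r k.1 k.2) γ (N₁ * T / 100) hN₁ M0
      (hne z h) h'
    have h2 := hM z h
    rw [← h1] at h2 M0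
    exact (pow_le_pow_iff_left₀ (X0 z h) (Xf_pos _ _ _ _ _ _ _).le (by omega)).1
      (le_of_mul_le_mul_right h2
        ((mul_pos_iff_of_pos_left (pow_pos (Xf_pos _ _ _ _ _ _ _) _)).1 M0))

end

end Pool.Agent.Lib.MP_45f16c_ag.EX
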