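import Pool.Agent.Lib.MP_45f16c_ag.EX.BR

/-! A priori bounds and extension. -/

set_option autoImplicit false
open Metric MeasureTheory MvPolynomial Filter Real
open scoped ComplexConjugate Matrix Topology

namespace Pool.Agent.Lib.MP_45f16c_ag.EX

open AS

noncomputable section

theorem apS : ApStmt := by
  intro ν d j T x η R
  refine ⟨fun Λ hΛ hη hT N I l₀ _ l G β hA => ?_, fun α X CH E S hx hX hB hF => ?_⟩
  · have hp := prod_nn Finset.univ l G
    have h0 := nl_nonneg l₀
    have hs : ∀ e, 0 ≤ scf j x e := fun e => pow_nonneg (norm_nonneg _) _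
    have hs' : 0 ≤ ∏ i, scf j x (I i) := Finset.prod_nonneg fun i _ => hs _
    by_cases hd : dt I (cols T (T (LL l₀ ^ (d + 1))) l G) = 0
    · rw [hd, norm_zero, mul_zero]
      positivity
    have hN : N + 1 ≤ ν + j := by simpa using le_card_of_dt hd
    have key : ∀ g : MP ν, g.IsHomogeneous (d + 1) → ∀ A, n1 g ≤ A → ∀ e,
        ‖T g e‖ ≤ Λ ^ wv ν j e * scf j x e * A := fun g hg A hA e => by
      refine le_trans ?_ (mul_le_mul_of_nonneg_left hA (by have := hs e; positivity))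
      rcases e with e | e
      · simpa [scf, wv] using (hT g hg).1 e
      · simpa [scf, wv] using (hT g hg).2 e
    have h1 := norm_dt_le I (cols T (T (LL l₀ ^ (d + 1))) l G)
      (r := fun i => Λ ^ wv ν j (I i) * scf j x (I i))
      (A := Fin.cons (nl l₀ ^ (d + 1)) fun k => nl (l k) * n1 (G k)) fun k i => by
        refine Fin.cases ?_ (fun k => ?_) k
        · exact key _ (LL_pow_hom _ _) _ (n1_LL_pow_le _ _) _
        · exact key _ (hom_LL_mul _ (hA.2.1 k)) _ (n1_LL_mul_le _ _) _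
    rw [Finset.prod_mul_distrib, Finset.prod_pow_eq_pow_sum, Fin.prod_cons] at h1
    have h2 : Λ ^ ∑ i, wv ν j (I i) ≤ Λ ^ ν := pow_le_pow_right₀ hΛ (sum_wv_le (injective_of_dt hd))
    have h3 : ((N + 1).factorial : ℝ) ≤ (ν + j).factorial := by exact_mod_cast Nat.factorial_le hN
    have h4 : exp (η * rew β) ≤ exp (η * (ν + j) ^ 2) := by
      refine exp_le_exp.2 (mul_le_mul_of_nonneg_left ?_ hη)
      exact_mod_cast (rew_le β).trans (Nat.pow_le_pow_left (by omega) 2)
    calc _ ≤ exp (η * (ν + j) ^ 2) * ((ν + j).factorial * (Λ ^ ν * ∏ i, scf j x (I i)) *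
          (nl l₀ ^ (d + 1) * ∏ k, nl (l k) * n1 (G k))) := by
          refine mul_le_mul h4 (h1.trans ?_) (norm_nonneg _) (exp_pos _).le
          gcongr
      _ = _ := by ring
  · obtain ⟨a, -, ha⟩ := exists_max hx
    obtain ⟨H, h1, h2, h3⟩ := hF
    have h4 := h3 _ (LL_pow_hom (Pi.single a 1) (d + 1))
    have h5 : n1 (LL (Pi.single a (1 : ℂ)) ^ (d + 1)) = 1 := by
      rw [LL_single, X_pow_eq_monomial, n1_monomial, norm_one]
    have h6 : ‖H ⬝ᵥ T (LL (Pi.single a 1) ^ (d + 1))‖ ≤ X * ∑ e, ‖H e‖ * scf j x e := by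
      rw [Finset.mul_sum]
      refine norm_sum_le_of_le _ fun e _ => ?_
      by_cases he : e ∈ R
      · have := hB 0 (fun _ => e) (Pi.single a 1) (fun _ => he) Fin.elim0 Fin.elim0 Fin.elim0
          ⟨fun k => k.elim0, fun k => k.elim0, fun k => k.elim0⟩
        rw [dt_one, nl_single] at this
        rw [norm_mul, mul_left_comm]
        exact mul_le_mul_of_nonneg_left (by simpa [rew, cols] using this) (norm_nonneg _)
      · simp [h1 e he]
    rw [h5, map_pow (eval x), eval_LL, single_dotProduct, one_mul] at h4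
    have h7 := norm_sub_le (H ⬝ᵥ T (LL (Pi.single a 1) ^ (d + 1)) + α * x a ^ (d + 1))
      (H ⬝ᵥ T (LL (Pi.single a 1) ^ (d + 1)))
    rw [add_sub_cancel_left, norm_mul, norm_pow, ha] at h7
    linarith [mul_le_mul_of_nonneg_left h2 hX]

theorem extS : ExtStmt := by
  intro ν d j T f η X₀ R z₀ hT hf h0 ⟨N, I, l₀, l, G, β, hI, hA, hl, hn, h⟩
  rcases le_or_gt X₀ 0 with hX | hX
  · exact ⟨0, 0, differentiable_zero, by omega, by simpa using hX, fun z X hX _ => by
      simp only [Pi.zero_apply, norm_zero]; positivity⟩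
  rw [prod_scf] at h
  have hp := norm_pos_iff.2 h0
  have hd : dt I (cols (T z₀) (T z₀ (LL l₀ ^ (d + 1))) l G) ≠ 0 := fun e => by
    rw [e, norm_zero, mul_zero, mul_zero] at h
    exact absurd h (not_le.2 (by positivity))
  have hN : N + 1 ≤ ν + j := by simpa using le_card_of_dt hd
  have hw := sum_wv_le (injective_of_dt hd)
  obtain ⟨a, -, ha⟩ := exists_max h0
  have hnm : ∀ w : ℂ, ‖(exp (η * rew β) : ℂ) * w‖ = exp (η * rew β) * ‖w‖ := fun w => by
    rw [norm_mul, Complex.norm_real, Real.norm_of_nonneg (exp_pos _).le]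
  refine ⟨fun z => (exp (η * rew β) : ℝ) *
    dt I (Fin.cons (T z (LL l₀ ^ (d + 1))) (xc (T z) a (f z) l G)), N + ∑ i, wv ν j (I i),
    ?_, by omega, ?_, fun z X hX hB => ?_⟩
  · refine Differentiable.const_mul (differentiableOn_univ.1 ?_) _
    exact differentiableOn_dt_cons I (hT _ _ (HolP.const _ _))
      (hT.xc hf.differentiableOn a l fun k => HolP.const _ _)
  · have h2 : (2 : ℝ) ≤ 2 ^ (ν + j) := le_self_pow₀ one_le_two (by omega)
    simp only [hnm]
    rw [dt_xc a hA.1, norm_mul, norm_pow, ha, pow_add]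
    calc _ = ‖f z₀‖ ^ N * (X₀ * ‖f z₀‖ ^ ∑ i, wv ν j (I i)) := by ring
      _ ≤ ‖f z₀‖ ^ N * (2 ^ (ν + j) * _) := by
          refine mul_le_mul_of_nonneg_left (h.trans ?_) (by positivity)
          exact mul_le_mul_of_nonneg_right h2 (by positivity)
      _ = _ := by ring
  · have h1 := hB N I l₀ hI (fun k => ex a (f z) (l k)) G β ⟨fun k => ex_dot _ _ _, hA.2⟩
    rw [cols_ex, prod_scf] at h1
    have h2 : (2 : ℝ) ^ N ≤ 2 ^ (ν + j) := pow_le_pow_right₀ one_le_two (by omega)
    have h3 : ∏ k, nl (ex a (f z) (l k)) * n1 (G k) ≤ ∏ _k : Fin N, 2 * ‖f z‖ :=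
      Finset.prod_le_prod (fun k _ => mul_nonneg (nl_nonneg _) (n1_nonneg _)) fun k _ =>
        (mul_le_of_le_one_right (nl_nonneg _) (hn k).2).trans
          ((nl_ex_le _ _ _).trans (mul_le_of_le_one_right (by positivity) (hn k).1))
    rw [Finset.prod_const, Finset.card_univ, Fintype.card_fin, mul_pow] at h3
    have h4 : nl l₀ ^ (d + 1) ≤ 1 := pow_le_one₀ (nl_nonneg _) hl
    have h5 := prod_nn Finset.univ (fun k => ex a (f z) (l k)) G
    simp only [hnm]
    calc _ ≤ _ := h1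
      _ ≤ X * ‖f z‖ ^ (∑ i, wv ν j (I i)) * 1 * (2 ^ (ν + j) * ‖f z‖ ^ N) := by
          refine mul_le_mul (by gcongr) (h3.trans (by gcongr)) h5 (by positivity)
      _ = _ := by ring

end

end Pool.Agent.Lib.MP_45f16c_ag.EX
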