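import Pool.Agent.Lib.MP_45f16c_ag.EX.BR

/-! Counting blocks. -/

set_option autoImplicit false
open Metric MeasureTheory MvPolynomial Filter Real
open scoped ComplexConjugate Matrix Topology

namespace Pool.Agent.Lib.MP_45f16c_ag.EX

open AS

noncomputable section

namespace CntAux

theorem nb_eq {N : ℕ} (β : Fin N → ℕ) : (nb β : ℚ) = ∑ k, (sz β k : ℚ)⁻¹ := by
  rw [nb, Finset.card_eq_sum_ones, Nat.cast_sum]
  refine Eq.trans (Finset.sum_congr rfl fun b hb => ?_) (Finset.sum_comp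
    (fun b => ((Finset.univ.filter fun k' => β k' = b).card : ℚ)⁻¹) β).symm
  obtain ⟨k, -, rfl⟩ := Finset.mem_image.1 hb
  rw [nsmul_eq_mul, Nat.cast_one]
  exact (mul_inv_cancel₀ (Nat.cast_ne_zero.2 (Nat.one_le_iff_ne_zero.1 (one_le_sz β k)))).symm

theorem term {p s : ℕ} (hp : 4 ≤ p) (hs : 1 ≤ s) :
    (s : ℚ)⁻¹ ≤ (if 4 * s ≤ p then 1 else 0) + 4 / p ∧
    2 * (s : ℚ)⁻¹ ≤ (if s = 1 then 1 else 0) + (if 4 * s ≤ p then 1 else 0) + 2 * (4 / p) := by
  have p0 : (0 : ℚ) < p := by exact_mod_cast (by omega : 0 < p)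
  have s0 : (1 : ℚ) ≤ s := by exact_mod_cast hs
  have h0 : (0 : ℚ) ≤ 4 / p := by positivity
  have h1 : (s : ℚ)⁻¹ ≤ 1 := inv_le_one_of_one_le₀ s0
  by_cases h : 4 * s ≤ p
  · rw [if_pos h]
    refine ⟨by linarith, ?_⟩
    split_ifs with e
    · linarith
    · have : (2 : ℚ) ≤ s := by exact_mod_cast (by omega : 2 ≤ s)
      have : (s : ℚ)⁻¹ ≤ 2⁻¹ := inv_anti₀ two_pos this
      linarith
  · have h2 : (s : ℚ)⁻¹ ≤ 4 / p := by
      rw [inv_eq_one_div, div_le_div_iff₀ (by linarith) p0]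
      exact_mod_cast (by omega : 1 * p ≤ 4 * s)
    rw [if_neg h, if_neg (by omega : s ≠ 1)]
    exact ⟨by linarith, by linarith⟩

end CntAux

theorem cntS : CntStmt := by
  intro N p e β hp hN
  have p0 : (0 : ℚ) < p := by exact_mod_cast (by omega : 0 < p)
  have h0 : (N : ℚ) * (4 / p) ≤ e := by
    rw [← mul_div_assoc, div_le_iff₀ p0]
    exact_mod_cast (by linarith : N * 4 ≤ e * p)
  have h1 := Finset.sum_le_sum (s := Finset.univ) fun k _ => (CntAux.term hp (one_le_sz β k)).1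
  have h2 := Finset.sum_le_sum (s := Finset.univ) fun k _ => (CntAux.term hp (one_le_sz β k)).2
  simp only [← Finset.mul_sum, ← CntAux.nb_eq, Finset.sum_add_distrib, Finset.sum_boole,
    Finset.sum_const, Finset.card_univ, Fintype.card_fin, nsmul_eq_mul] at h1 h2
  constructor
  · exact_mod_cast h1.trans (add_le_add le_rfl h0)
  · exact_mod_cast h2.trans (add_le_add le_rfl (mul_le_mul_of_nonneg_left h0 zero_le_two))

theorem caseS (hS : SmStmt) (hC : CntStmt) : CaseStmt := by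
  intro ν j dF p e a d T x η J hn had hae hη hT hK N I c₀ B l G β hI hA hN hB B0 hB'
  have hD : dt I (cols T c₀ l G) ≠ 0 := fun h => by
    rw [h, norm_zero, mul_zero, mul_zero] at hB'
    exact hB'.not_gt B0
  have h1 := hS ν d j p e N T x η B J I c₀ l G β hn.p4 hη hT hK hI hA hN hB B0 hB'
  have h2 : N + 1 ≤ ν + j := by simpa using le_card_of_dt hD
  have h3 := sum_wv_le (injective_of_dt hD)
  obtain ⟨p4, pe, e1, e2, -, jp, d1, d2⟩ := hn
  obtain ⟨h4, h5⟩ := hC N p e β p4 (by omega)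
  refine (le_or_gt _ _).imp_right fun h => ⟨Finset.univ.filter fun k => sz β k = 1,
    fun k hk => (Finset.mem_filter.1 hk).2, by omega, ?_⟩
  generalize (Finset.univ.filter fun k => sz β k = 1).card = s at h5
  generalize ∑ i, wv ν j (I i) = w at h h3
  obtain ⟨t, rfl⟩ : ∃ t, s = t + 1 := ⟨s - 1, by omega⟩
  have k1 : w + nb β + e ≤ d + 1 + (5 * e + 3) := by omega
  have k2 : 9 * ν ≤ 10 * t := by omega
  have k3 : 100 * (5 * e + 3) ≤ 6 * ν := by omega
  have k4 : 4 * dF * (5 * e + 3) ≤ (t + 1) * t := by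
    have a1 := Nat.mul_le_mul d2 k3
    have a2 := Nat.mul_le_mul k2 k2
    nlinarith
  rw [Nat.add_sub_cancel]
  exact (Nat.mul_le_mul_left _ k1).trans (by rw [mul_add]; omega)

end

end Pool.Agent.Lib.MP_45f16c_ag.EX
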