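import Pool.Agent.Lib.MP_45f16c_ag.EX.BR
import Pool.Agent.Lib.MP_45f16c_ag.AS.An
import Pool.Agent.Lib.MP_45f16c_ag.Three

-- part Pool.Agent.Lib.MP_45f16c_ag.EX.SlowC
section

/-! Slow discs. -/

set_option autoImplicit false
open Metric MeasureTheory MvPolynomial Filter Real
open scoped ComplexConjugate Matrix Topology

namespace Pool.Agent.Lib.MP_45f16c_ag.EX

open AS

noncomputable section

namespace SlowCAux

theorem mle {x y a b : ℝ} (h1 : x ≤ exp a) (h2 : y ≤ exp b) (hy : 0 ≤ y) :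
    x * y ≤ exp (a + b) := by
  rw [exp_add]
  exact mul_le_mul h1 h2 hy (exp_pos a).le

theorem ele {x a b : ℝ} (h1 : x ≤ exp a) (h : a ≤ b) : x ≤ exp b := h1.trans (exp_le_exp.2 h)

theorem le_exp {A κ : ℝ} (hA : 0 ≤ A) (hκ : 1 ≤ κ) : A ≤ exp (A * κ) :=
  ((le_add_of_nonneg_right zero_le_one).trans (add_one_le_exp A)).trans
    (exp_le_exp.2 (le_mul_of_one_le_right hA hκ))

theorem pow_le_exp {a : ℝ} {k : ℕ} (h0 : 0 ≤ a) (ha : a ≤ 2.7 ^ k) (m : ℕ) :
    a ^ m ≤ exp (k * m) := by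
  rw [mul_comm, exp_nat_mul]
  refine pow_le_pow_left₀ h0 (ha.trans ?_) m
  rw [← exp_one_pow]
  exact pow_le_pow_left₀ (by norm_num) (le_trans (by norm_num) exp_one_gt_d9.le) k

theorem pow_le {x a : ℝ} (h0 : 0 ≤ x) (h : x ≤ exp a) (d : ℕ) : x ^ d ≤ exp (d * a) := by
  rw [exp_nat_mul]
  exact pow_le_pow_left₀ h0 h d

end SlowCAux

open SlowCAux

theorem slowCS (hP : PiZStmt) (hQ : QfStmt) : SlowCStmt := by
  intro ν d η c₀ h4 hd hη hc
  obtain ⟨q, rfl⟩ : ∃ q, ν = q + 4 := ⟨ν - 4, by omega⟩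
  obtain ⟨C, hC, H⟩ := hP q d η (by omega) hη
  obtain ⟨M, hM0, hM⟩ : ∃ M : ℝ, 0 ≤ M ∧ ∀ c ∈ Usm (q + 4) d η, n1 (form c) ≤ M :=
    ⟨Fintype.card (Mon (q + 4) d), Nat.cast_nonneg _, fun c hc =>
      (n1_form_le c).trans (mul_le_of_le_one_right (Nat.cast_nonneg _) hc.1)⟩
  have d1 : (1 : ℝ) ≤ d := by exact_mod_cast (by omega : 1 ≤ d)
  obtain ⟨B, hB⟩ : ∃ B : ℝ, B = 3 ^ d * (M + 1) := ⟨_, rfl⟩
  obtain ⟨a, ha⟩ : ∃ a : ℝ, a = c₀ * C⁻¹ ^ d / 2 := ⟨_, rfl⟩
  have a0 : 0 < a := by rw [ha]; positivity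
  have B1 : 1 ≤ B := hB ▸ one_le_mul_of_one_le_of_one_le (one_le_pow₀ (by norm_num)) (by linarith)
  have A0 : 0 < B / a := by positivity
  have dC : C ≤ d * C := le_mul_of_one_le_left (by linarith) d1
  have dd : 0 ≤ d * (C + d) := by positivity
  refine ⟨B / a + (1 + d * (C + d)) + d * C, by linarith, ?_⟩
  intro c hU hN f ξ z₁ κ δ E t S hE t1 t2 hf
  have k1 := S.k1
  have δ1 : 1 ≤ δ := k1.trans S.k2
  have hE' : E ≤ exp (-((B / a + d * C) * δ)) := hE.trans (exp_le_exp.2 (by nlinarith))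
  obtain ⟨u, du, hu, h1⟩ := H c hU f ξ z₁ κ δ E S (hE'.trans (exp_le_exp.2 (by nlinarith)))
  obtain ⟨Q, dQ, hq⟩ := hQ _ d _ (form_isHomogeneous c)
  obtain ⟨U, nU, hN⟩ := hN (f z₁) (u z₁)
  have hM := hM c hU
  have onX := S.onX
  generalize form c = F at hq hN hM onX
  have sub : ∀ z : ℂ, ‖z‖ ≤ t → z ∈ DD1 ∧ z ∈ ball (0 : ℂ) (5 / 12) := fun z hz =>
    ⟨mem_closedBall_zero_iff.2 (by linarith), mem_ball_zero_iff.2 (by linarith)⟩
  have err : ∀ z : ℂ, ‖z‖ ≤ t → ‖u z‖ ^ d * ‖eval (f z) F‖ ≤ exp (-(B / a * δ)) := fun z hz =>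
    ele (mle (pow_le (norm_nonneg _) (hu z (sub z hz).2).1 d)
      ((onX z (sub z hz).1).trans hE') (norm_nonneg _)) (le_of_eq (by ring))
  have z1 : ‖z₁‖ ≤ t := by linarith [S.z1]
  have top : ‖Q (U, f z₁, u z₁)‖ ≤ B * exp ((1 + d * (C + d)) * κ) := by
    refine Complex.norm_le_of_forall_mem_frontier_norm_le (f := fun z => Q (U, f z, u z))
      (U := ball 0 t) isBounded_ball (DifferentiableOn.diffContOnCl_ball (U := ball 0 (5 / 12))
        (dQ.comp_differentiableOn ((differentiableOn_const U).prodMk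
          (S.df.differentiableOn.prodMk du))) (closedBall_subset_ball (by linarith)))
      (fun z hz => ?_) ?_
    · rw [frontier_ball _ (by linarith), mem_sphere_zero_iff_norm] at hz
      have e1 := hf z hz
      have e2 : ‖bv (f z) (u z)‖ ≤ exp ((C + d) * κ) := by
        have e3 : exp (-(d * κ)) ≤ ‖f z‖ ^ (d - 1) := by
          refine le_trans ?_ (pow_le_pow_left₀ (exp_pos _).le e1 _)
          rw [← exp_nat_mul, exp_le_exp, Nat.cast_sub (by omega), Nat.cast_one]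
          nlinarith
        have e4 := (mul_le_mul_of_nonneg_left e3 (norm_nonneg _)).trans (hu z (sub z hz.le).2).2
        rwa [exp_neg, ← div_eq_mul_inv, div_le_iff₀ (exp_pos _), ← exp_add, ← add_mul] at e4
      have e5 : 1 ≤ exp (d * ((C + d) * κ)) := one_le_exp (by positivity)
      have e6 := (err z hz.le).trans (exp_le_one_iff.2 (neg_nonpos.2 (by positivity)))
      have e7 := mul_le_mul hM (pow_le (norm_nonneg _) e2 d) (by positivity) hM0
      have e8 : ‖Q (U, f z, u z)‖ * exp (-κ) ≤ B * exp (d * ((C + d) * κ)) := by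
        refine (mul_le_mul_of_nonneg_left e1 (norm_nonneg _)).trans (((hq U _ _).2 nU).trans ?_)
        rw [hB, mul_assoc]
        exact mul_le_mul_of_nonneg_left (by linarith) (by positivity)
      rw [exp_neg, ← div_eq_mul_inv, div_le_iff₀ (exp_pos _), mul_assoc, ← exp_add] at e8
      exact e8.trans (le_of_eq (by congr 2; ring))
    · rw [closure_ball _ (by linarith)]
      exact mem_closedBall_zero_iff.2 z1
  have x0 : 0 < ‖f z₁‖ := (exp_pos _).trans_le (S.abs z₁ (sub z₁ z1).1).1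
  have low : C⁻¹ ≤ ‖bv (f z₁) (u z₁)‖ := by
    rw [inv_le_iff_one_le_mul₀' (by linarith)]
    refine le_of_mul_le_mul_right (a := ‖f z₁‖ ^ (2 * q + 4)) ?_ (by positivity)
    rw [one_mul]
    exact h1.trans (mul_le_mul_of_nonneg_left (pow_le_pow_of_le_one x0.le S.f1 (by omega))
      (by positivity))
  have e1 : 2 * a ≤ ‖eval (ct U (f z₁) (u z₁)) F‖ := by
    rw [ha, mul_div_cancel₀ _ two_ne_zero]
    exact le_trans (mul_le_mul_of_nonneg_left (pow_le_pow_left₀ (by positivity) low d) hc.le) hN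
  have e2 : ‖(-(U ⬝ᵥ u z₁)) ^ d * eval (f z₁) F‖ ≤ a := by
    rw [norm_mul, norm_pow, norm_neg]
    refine (mul_le_mul_of_nonneg_right (pow_le_pow_left₀ (norm_nonneg _) ((norm_dot_le _ _).trans
      (mul_le_of_le_one_left (norm_nonneg _) nU)) d) (norm_nonneg _)).trans ((err z₁ z1).trans ?_)
    rw [exp_neg]
    refine (inv_anti₀ A0 (le_exp A0.le δ1)).trans ?_
    rw [inv_div]
    exact div_le_self a0.le B1
  have e3 : a ≤ ‖f z₁‖ * (B * exp ((1 + d * (C + d)) * κ)) := by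
    have e4 := norm_sub_norm_le (eval (ct U (f z₁) (u z₁)) F) ((-(U ⬝ᵥ u z₁)) ^ d * eval (f z₁) F)
    rw [← (hq U _ _).1, norm_mul (U ⬝ᵥ f z₁)] at e4
    have e5 := mul_le_mul ((norm_dot_le U (f z₁)).trans (mul_le_of_le_one_left x0.le nU)) top
      (norm_nonneg _) x0.le
    linarith
  rw [exp_neg, inv_le_iff_one_le_mul₀' (exp_pos _)]
  have e6 : B / a * exp ((1 + d * (C + d)) * κ) ≤
      exp ((B / a + (1 + d * (C + d)) + d * C) * κ) :=
    ele (mle (le_exp A0.le k1) le_rfl (exp_pos _).le) (by nlinarith)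
  refine le_trans ?_ (mul_le_mul_of_nonneg_right e6 x0.le)
  rw [div_mul_eq_mul_div, div_mul_eq_mul_div, le_div_iff₀ a0]
  linarith

theorem noSlow2S (hS : SlowCStmt) (hT : StartStmt) (hP : PMStmt) : NoSlow2Stmt := by
  intro ν d η c₀ K h4 hd hη hc hK
  obtain ⟨C, hC, H⟩ := hS ν d η c₀ h4 hd hη hc
  refine ⟨1 / (100 * C), 17 * C * K + d, by positivity, ?_⟩
  filter_upwards [eventually_ge_atTop (100 * C)] with T hT' c hU hN f ξ S
  obtain ⟨s, hs⟩ : ∃ s : ℝ, s = 1 / (100 * C) * T := ⟨_, rfl⟩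
  have e0 : 100 * (C * s) = T := by rw [hs]; field_simp
  have s1 : 1 ≤ s := by
    rw [hs, one_div, inv_mul_eq_div, le_div_iff₀ (by positivity)]
    linarith
  have s2 : s ≤ C * s := le_mul_of_one_le_left (by linarith) hC
  have KT : T ≤ K * T := le_mul_of_one_le_left (by linarith) hK
  obtain ⟨⟨m, hm, pf⟩, dξ, abs, hξ, err, onX, ⟨z₀, hz₀, big⟩, small⟩ := S
  rw [← hs] at hm abs hξ big
  have two : (2 : ℝ) ≤ exp 1 := le_trans (by norm_num) exp_one_gt_d9.le
  rcases hT ν m f pf (fun z hz => norm_pos_iff.1 ((exp_pos _).trans_le (abs z hz).1)) with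
    h | ⟨z₁, h1, h2, h3⟩
  · have := exp_le_exp.1 (big.trans ((h z₀ hz₀).trans (mle (mle two
      (pow_le_exp (k := 9) (by norm_num) (by norm_num) m) (by positivity)) small (norm_nonneg _))))
    push_cast at this
    linarith
  have h4 := h2.trans (mle (mle two
    (pow_le_exp (k := 1) (by norm_num) (by norm_num) m) (by positivity)) small (norm_nonneg _))
  push_cast at h4
  obtain ⟨a, -, ha⟩ := exists_max (norm_pos_iff.1 ((exp_pos _).trans_le big))
  obtain ⟨t, ⟨t1, t2⟩, ht⟩ := hP Unit m (fun _ z => f z a) (1 / 4) (3 / 8) (fun _ => pf a)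
    (by norm_num) (by norm_num) (by norm_num)
  have ee : ∀ z ∈ DD1, exp (-((17 * C * K + d) * T)) * ‖f z‖ ^ d ≤
      exp (-((17 * C * K + d) * T) + d * s) := fun z hz =>
    mle le_rfl (pow_le (norm_nonneg _) (abs z hz).2 d) (by positivity)
  have := H c hU hN f ξ z₁ (10 * s) (17 * (K * T)) _ t
    ⟨differentiable_pi.2 fun a => (pf a).differentiable, dξ, by linarith, by linarith,
      fun z hz => ⟨(abs z hz).1, ele (abs z hz).2 (by linarith)⟩,
      fun z hz n => ele (hξ z hz n) (by linarith),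
      fun z hz n => (err z hz n).trans (ee z hz), fun z hz => (onX z hz).trans (ee z hz), h1,
      h4.trans (exp_le_one_iff.2 (by linarith)), h3⟩
    (exp_le_exp.2 (by
      have := mul_le_mul_of_nonneg_left (show s ≤ T by linarith) (Nat.cast_nonneg (α := ℝ) d)
      linarith)) t1 t2 fun z hz => by
      have e1 := ht () z z₀ hz (mem_closedBall_zero_iff.1 hz₀)
      rw [ha, Fintype.card_unit, mul_one] at e1
      have e2 := big.trans (e1.trans (mul_le_mul
        (pow_le_exp (k := 8) (by norm_num) (by norm_num) m) (norm_le_pi_norm (f z) a)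
        (norm_nonneg _) (exp_pos _).le))
      rw [← div_le_iff₀' (exp_pos _), ← exp_sub] at e2
      refine le_trans (exp_le_exp.2 ?_) e2
      push_cast
      linarith
  have := exp_le_exp.1 (this.trans h4)
  linarith

end

end Pool.Agent.Lib.MP_45f16c_ag.EX
end

-- part Pool.Agent.Lib.MP_45f16c_ag.EX.Sub
section

/-! Substitution and decomposition of forms. -/

set_option autoImplicit false
open Metric MeasureTheory MvPolynomial Filter Real
open scoped ComplexConjugate Matrix Topology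

namespace Pool.Agent.Lib.MP_45f16c_ag.EX

open AS

noncomputable section

namespace SubAux

variable {ν : ℕ} {p q : Fin ν → Fin ν → ℂ} {B : ℝ}

theorem step (hpq : ∀ a, p a + q a = Pi.single a 1) (hB : 1 ≤ B) {k : ℕ} (a : Fin ν) {R : MP ν}
    (G : Fin ν → MP ν) (hR : R.IsHomogeneous k) (h1 : n1 R ≤ 1)
    (hG : ∀ b, (LL (p a) * G b).IsHomogeneous k ∧ n1 (LL (p a) * G b) ≤ k * B ^ k)
    (e : R = aeval (fun a => LL (p a)) R + ∑ b, LL (q b) * G b) :
    ∃ G : Fin ν → MP ν, (∀ b, (G b).IsHomogeneous k ∧ n1 (G b) ≤ (k + 1) * B ^ k) ∧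
      X a * R = aeval (fun a => LL (p a)) (X a * R) + ∑ b, LL (q b) * G b := by
  have hk : 1 ≤ B ^ k := one_le_pow₀ hB
  refine ⟨fun b => LL (p a) * G b + if b = a then R else 0, fun b => ⟨(hG b).1.add ?_, ?_⟩, ?_⟩
  · split_ifs
    · exact hR
    · exact isHomogeneous_zero _ _ _
  · have : n1 (if b = a then R else 0) ≤ 1 := by
      split_ifs
      · exact h1
      · rw [n1_zero]; exact zero_le_one
    have h2 := n1_add_le (LL (p a) * G b) (if b = a then R else 0)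
    have h3 := (hG b).2
    linarith
  · have hX : (X a : MP ν) = LL (p a) + LL (q a) := by rw [← LL_add, hpq, LL_single]
    rw [map_mul, aeval_X]
    simp only [mul_add, Finset.sum_add_distrib, mul_ite, mul_zero, Finset.sum_ite_eq',
      Finset.mem_univ, if_true, mul_left_comm _ (LL (p a)), ← Finset.mul_sum]
    rw [← add_assoc, ← mul_add, ← e, hX, add_mul]

theorem split {k : ℕ} {m : Fin ν →₀ ℕ} (h : m.degree = k + 1) :
    ∃ (a : Fin ν) (m' : Fin ν →₀ ℕ), m'.degree = k ∧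
      (monomial m 1 : MP ν) = X a * monomial m' 1 := by
  have h0 : m ≠ 0 := fun e => by simp [e] at h
  obtain ⟨a, ha⟩ := Finsupp.ne_iff.1 h0
  have e : m = Finsupp.single a 1 + (m - Finsupp.single a 1) :=
    (add_tsub_cancel_of_le (Finsupp.single_le_iff.2 (Nat.one_le_iff_ne_zero.2 ha))).symm
  refine ⟨a, m - Finsupp.single a 1, ?_, ?_⟩
  · rw [e, map_add, Finsupp.degree_single] at h
    omega
  · conv_lhs => rw [e, monomial_single_add, pow_one]

theorem mono (hpq : ∀ a, p a + q a = Pi.single a 1) (hp : ∀ a, nl (p a) ≤ B) (hB : 1 ≤ B)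
    (k : ℕ) : ∀ m : Fin ν →₀ ℕ, m.degree = k + 1 →
    ∃ G : Fin ν → MP ν, (∀ b, (G b).IsHomogeneous k ∧ n1 (G b) ≤ (k + 1) * B ^ k) ∧
      (monomial m 1 : MP ν) = aeval (fun a => LL (p a)) (monomial m (1 : ℂ)) +
        ∑ b, LL (q b) * G b := by
  induction k with
  | zero =>
    intro m hm
    obtain ⟨a, m', h1, h2⟩ := split hm
    rw [h2]
    refine step hpq hB a (fun _ => 0) (isHomogeneous_monomial _ h1) (by simp [n1_monomial])
      (fun b => by simp [n1_zero, isHomogeneous_zero]) ?_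
    rw [(Finsupp.degree_eq_zero_iff _).1 h1]
    simp
  | succ k ih =>
    intro m hm
    obtain ⟨a, m', h1, h2⟩ := split hm
    obtain ⟨G, hG, e⟩ := ih m' h1
    rw [h2]
    refine step hpq hB a G (isHomogeneous_monomial _ h1) (by simp [n1_monomial])
      (fun b => ⟨hom_LL_mul _ (hG b).1, (n1_LL_mul_le _ _).trans ?_⟩) e
    refine (mul_le_mul (hp a) (hG b).2 (n1_nonneg _) (by linarith)).trans (le_of_eq ?_)
    push_cast
    ring

theorem eval_sub (z : Fin ν → ℂ) (g : MP ν) :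
    eval z (aeval (fun a => LL (p a)) g) = eval (fun a => p a ⬝ᵥ z) g := by
  induction g using MvPolynomial.induction_on with
  | C a => simp
  | add P Q hP hQ => simp only [map_add, hP, hQ]
  | mul_X P a hP => simp only [map_mul, hP, aeval_X, eval_X, eval_LL]

end SubAux

theorem subS : SubStmt := by
  intro ν k p q B P hpq hp hB hP
  have h := fun m : P.support => SubAux.mono hpq hp hB k m.1 (degree_of_mem hP m.2)
  choose G hG e using h
  refine ⟨fun a => ∑ m : P.support, coeff m.1 P • G m a, fun a => ⟨?_, ?_⟩, ?_⟩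
  · exact IsHomogeneous.sum _ _ _ fun m _ => hom_smul _ (hG m a).1
  · refine (n1_sum_le _ _).trans ?_
    rw [n1, ← Finset.sum_coe_sort P.support, Finset.mul_sum]
    refine Finset.sum_le_sum fun m _ => ?_
    rw [n1_smul, mul_comm]
    exact mul_le_mul_of_nonneg_right (hG m a).2 (norm_nonneg _)
  · have hP' : P = ∑ m : P.support, coeff m.1 P • monomial m.1 (1 : ℂ) := by
      conv_lhs => rw [P.as_sum, ← Finset.sum_coe_sort P.support]
      simp [smul_monomial]
    calc P = ∑ m : P.support, coeff m.1 P • (aeval (fun a => LL (p a)) (monomial m.1 (1 : ℂ)) +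
          ∑ b, LL (q b) * G m b) :=
          hP'.trans (Finset.sum_congr rfl fun m _ => congrArg _ (e m))
      _ = aeval (fun a => LL (p a)) (∑ m : P.support, coeff m.1 P • monomial m.1 (1 : ℂ)) +
          ∑ a, LL (q a) * ∑ m : P.support, coeff m.1 P • G m a := by
          simp only [smul_add, Finset.sum_add_distrib, map_sum, map_smul, Finset.mul_sum,
            Finset.smul_sum, mul_smul_comm]
          rw [Finset.sum_comm]
      _ = _ := by rw [← hP']

theorem decS (hS : SubStmt) : DecStmt := by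
  intro ν k x g hg
  refine ⟨fun a₁ hx ha h0 => ?_, fun u hu hv => ?_⟩
  · have hx1 : 0 < ‖x a₁‖ := ha ▸ norm_pos_iff.2 hx
    obtain ⟨G, hG, e⟩ := hS ν k (fun a => (x a / x a₁) • Pi.single a₁ 1) (sh x a₁) 1 g
      (fun a => by simp [sh])
      (fun a => by
        rw [nl_smul, nl_single, norm_one, mul_one, norm_div, div_le_one hx1, ha]
        exact norm_le_pi_norm x a) le_rfl hg
    refine ⟨G, fun a => by simpa using hG a, ?_⟩
    have : aeval (fun a => LL ((x a / x a₁) • Pi.single a₁ (1 : ℂ) : Fin ν → ℂ)) g = 0 := by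
      refine MvPolynomial.funext fun z => ?_
      have e' : (fun a => ((x a / x a₁) • Pi.single a₁ (1 : ℂ) : Fin ν → ℂ) ⬝ᵥ z) =
          (z a₁ / x a₁) • x := funext fun a => by
        simp only [smul_dotProduct, single_dotProduct, smul_eq_mul, Pi.smul_apply]
        ring
      rw [SubAux.eval_sub, e', eval_smul_of_isHomogeneous hg, h0, mul_zero, map_zero]
    rwa [this, zero_add] at e
  · obtain ⟨b, b', y, y', -, -, -, -, hy, hy', -, -, -, -, ex, eu, ⟨s, t, es⟩, ⟨s', t', es'⟩, -⟩ :=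
      frame hu
    have hp : ∀ a, nl (y a • Pi.single b 1 + y' a • Pi.single b' 1 : Fin ν → ℂ) ≤ 2 := fun a => by
      refine (nl_add_le _ _).trans ?_
      rw [nl_smul, nl_smul, nl_single, nl_single, norm_one, mul_one, mul_one]
      linarith [norm_le_pi_norm y a, norm_le_pi_norm y' a]
    have hd : ∀ a (z : Fin ν → ℂ), (y a • Pi.single b 1 + y' a • Pi.single b' 1 : Fin ν → ℂ) ⬝ᵥ z =
        (z b • y + z b' • y') a := fun a z => by
      simp only [add_dotProduct, smul_dotProduct, single_dotProduct, smul_eq_mul, Pi.add_apply,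
        Pi.smul_apply]
      ring
    obtain ⟨G, hG, e⟩ := hS ν k (fun a => y a • Pi.single b 1 + y' a • Pi.single b' 1)
      (fun a => Pi.single a 1 - (y a • Pi.single b 1 + y' a • Pi.single b' 1)) 2 g
      (fun a => by simp) hp one_le_two hg
    refine ⟨fun a => Pi.single a 1 - (y a • Pi.single b 1 + y' a • Pi.single b' 1), G,
      fun a => ⟨?_, ?_, ?_, hG a⟩, ?_⟩
    · rw [sub_dotProduct, hd, ← ex, single_dotProduct, one_mul, sub_self]
    · rw [sub_dotProduct, hd, ← eu, single_dotProduct, one_mul, sub_self]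
    · refine (nl_sub_le _ _).trans ?_
      rw [nl_single, norm_one]
      linarith [hp a]
    · have : aeval (fun a => LL (y a • Pi.single b 1 + y' a • Pi.single b' 1 : Fin ν → ℂ)) g =
          0 := by
        refine MvPolynomial.funext fun z => ?_
        have e' : (fun a => (y a • Pi.single b 1 + y' a • Pi.single b' 1 : Fin ν → ℂ) ⬝ᵥ z) =
            (z b * s + z b' * s') • x + (z b * t + z b' * t') • u := by
          rw [funext fun a => hd a z]
          show z b • y + z b' • y' = _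
          rw [es, es']
          module
        rw [SubAux.eval_sub, e', hv, map_zero]
      rwa [this, zero_add] at e

end

end Pool.Agent.Lib.MP_45f16c_ag.EX
end

-- part Pool.Agent.Lib.MP_45f16c_ag.EX.Bin
section

/-! Restriction to a plane. -/

set_option autoImplicit false
open Metric MeasureTheory MvPolynomial Filter Real
open scoped ComplexConjugate Matrix Topology

namespace Pool.Agent.Lib.MP_45f16c_ag.EX

open AS

noncomputable section

namespace BinAux

/-- Binary forms with a bound for the coefficients. -/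
def Ex (k : ℕ) (A : ℝ) (φ : ℂ → ℂ → ℂ) : Prop :=
  ∃ c : Fin (k + 1) → ℂ, ∑ e, ‖c e‖ ≤ A ∧ ∀ s t : ℂ, φ s t = ∑ e, c e * s ^ (e : ℕ) * t ^ (k - e)

theorem Ex.mul {k : ℕ} {A B : ℝ} {φ : ℂ → ℂ → ℂ} (h : Ex k A φ) {a b : ℂ} (ha : ‖a‖ ≤ B)
    (hb : ‖b‖ ≤ B) : Ex (k + 1) (2 * B * A) fun s t => (s * a + t * b) * φ s t := by
  obtain ⟨c, h1, h2⟩ := h
  have h0 : 0 ≤ ∑ e, ‖c e‖ := Finset.sum_nonneg fun _ _ => norm_nonneg _
  have hB : 0 ≤ B := (norm_nonneg _).trans ha
  refine ⟨fun e => a * (Fin.cons 0 c : Fin (k + 2) → ℂ) e + b * (Fin.snoc c 0 : Fin (k + 2) → ℂ) e,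
    ?_, fun s t => ?_⟩
  · refine (Finset.sum_le_sum fun e _ => norm_add_le _ _).trans ?_
    simp only [Finset.sum_add_distrib, norm_mul, ← Finset.mul_sum]
    rw [Fin.sum_univ_succ, Fin.sum_univ_castSucc (n := k + 1)]
    simp only [Fin.cons_zero, Fin.cons_succ, Fin.snoc_castSucc, Fin.snoc_last, norm_zero,
      zero_add, add_zero]
    have h3 := mul_le_mul ha h1 h0 hB
    have h4 := mul_le_mul hb h1 h0 hB
    linarith
  · simp only [add_mul, Finset.sum_add_distrib, h2, Finset.mul_sum]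
    rw [Fin.sum_univ_succ (n := k + 1), Fin.sum_univ_castSucc (n := k + 1)]
    simp only [Fin.cons_zero, Fin.cons_succ, Fin.snoc_castSucc, Fin.snoc_last, mul_zero, zero_mul,
      zero_add, add_zero, Fin.val_succ, Fin.val_castSucc, Nat.add_sub_add_right]
    congr 1 <;> refine Finset.sum_congr rfl fun e _ => ?_
    · ring
    · rw [show k + 1 - (e : ℕ) = k - e + 1 by have := e.2; omega]
      ring

theorem mono {ν : ℕ} {p q : Fin ν → ℂ} {B : ℝ} (hp : ‖p‖ ≤ B) (hq : ‖q‖ ≤ B) (k : ℕ) :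
    ∀ m : Fin ν →₀ ℕ, m.degree = k →
      Ex k ((2 * B) ^ k) fun s t => eval (s • p + t • q) (monomial m (1 : ℂ)) := by
  induction k with
  | zero =>
    intro m hm
    rw [(Finsupp.degree_eq_zero_iff _).1 hm]
    exact ⟨fun _ => 1, by simp, fun s t => by simp⟩
  | succ k ih =>
    intro m hm
    obtain ⟨a, m', h1, h2⟩ := SubAux.split hm
    have := (ih m' h1).mul ((norm_le_pi_norm p a).trans hp) ((norm_le_pi_norm q a).trans hq)
    rw [h2, pow_succ']
    simpa only [map_mul, eval_X, Pi.add_apply, Pi.smul_apply, smul_eq_mul] using this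

end BinAux

theorem binS : BinStmt := by
  intro ν k p q B G hp hq hG
  have h := fun m : G.support => BinAux.mono hp hq k m.1 (degree_of_mem hG m.2)
  choose c h1 h2 using h
  refine ⟨fun e => ∑ m : G.support, coeff m.1 G * c m e, ?_, fun s t => ?_⟩
  · refine (Finset.sum_le_sum fun e _ => norm_sum_le _ _).trans ?_
    rw [Finset.sum_comm, n1, ← Finset.sum_coe_sort G.support, Finset.mul_sum]
    refine Finset.sum_le_sum fun m _ => ?_
    simp only [norm_mul, ← Finset.mul_sum]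
    rw [mul_comm]
    exact mul_le_mul_of_nonneg_right (h1 m) (norm_nonneg _)
  · have hG' : G = ∑ m : G.support, coeff m.1 G • monomial m.1 (1 : ℂ) := by
      conv_lhs => rw [G.as_sum, ← Finset.sum_coe_sort G.support]
      simp [smul_monomial]
    conv_lhs => rw [hG']
    simp only [map_sum, smul_eval, h2, Finset.mul_sum, Finset.sum_mul, mul_assoc]
    exact Finset.sum_comm

end

end Pool.Agent.Lib.MP_45f16c_ag.EX
end

-- part Pool.Agent.Lib.MP_45f16c_ag.EX.MM
section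

/-! Minimum modulus. -/

set_option autoImplicit false
open Metric MeasureTheory MvPolynomial Filter Real
open scoped ComplexConjugate Matrix Topology

namespace Pool.Agent.Lib.MP_45f16c_ag.EX

open AS

noncomputable section

namespace MMAux

/-- The inequality of Harnack for the logarithm of a bounded function without zeros. -/
theorem harnack {g : ℂ → ℂ} (hg : AnalyticOnNhd ℂ g (closedBall 0 (11 / 5)))
    (h0 : ∀ z ∈ closedBall (0 : ℂ) (11 / 5), g z ≠ 0)
    (h1 : ∀ z ∈ closedBall (0 : ℂ) (11 / 5), ‖g z‖ ≤ 1) {w : ℂ} (hw : ‖w‖ ≤ 2) :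
    21 * log ‖g 0‖ ≤ log ‖g w‖ := by
  have e : |(11 / 5 : ℝ)| = 11 / 5 := abs_of_pos (by norm_num)
  have hw' : w ∈ ball (0 : ℂ) (11 / 5) := mem_ball_zero_iff.2 (by linarith)
  have hs : sphere (0 : ℂ) |11 / 5| ⊆ closedBall 0 (11 / 5) := e.symm ▸ sphere_subset_closedBall
  have c : ContinuousOn (fun z => log ‖g z‖) (sphere 0 |11 / 5|) :=
    (hg.continuousOn.mono hs).norm.log fun z hz => norm_ne_zero_iff.2 (h0 z (hs hz))
  rw [← PoisAux.log_eq hg h0 hw', ← AnalyticOnNhd.circleAverage_log_norm_of_ne_zero (R := 11 / 5)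
    (e.symm ▸ hg) (e.symm ▸ h0), ← smul_eq_mul, ← circleAverage_fun_smul]
  refine circleAverage_mono (c.const_smul (21 : ℝ)).circleIntegrable'
    ((PoisAux.ker_cont hw').mul c).circleIntegrable' fun z hz => ?_
  refine mul_le_mul_of_nonpos_right ?_ (log_nonpos (norm_nonneg _) (h1 z (hs hz)))
  rw [poissonKernel_eq_re_herglotzRieszKernel]
  refine (re_herglotzRieszKernel_le (e ▸ hz) hw').trans ?_
  rw [sub_zero, div_le_iff₀ (by linarith)]
  linarith

theorem fac_eq {a z : ℂ} (hz : ‖z‖ = 12 / 5) :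
    ‖(((12 / 5 : ℝ) : ℂ) ^ 2 - conj a * z) / (12 / 5 : ℝ)‖ = ‖z - a‖ := by
  have h := PoisAux.key (12 / 5) z a
  rw [hz, sub_self, zero_mul, sub_eq_zero, ← mul_pow] at h
  rw [norm_div, (pow_left_inj₀ (norm_nonneg _) (by positivity) two_ne_zero).1 h, Complex.norm_real,
    norm_of_nonneg (by norm_num)]
  ring

theorem fac_bd {a z : ℂ} (ha : ‖a‖ ≤ 9 / 4) (hz : ‖z‖ ≤ 11 / 5) :
    (((12 / 5 : ℝ) : ℂ) ^ 2 - conj a * z) / (12 / 5 : ℝ) ≠ 0 ∧
      ‖(((12 / 5 : ℝ) : ℂ) ^ 2 - conj a * z) / (12 / 5 : ℝ)‖ ≤ 5 := by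
  have h1 : ‖conj a * z‖ ≤ 9 / 4 * (11 / 5) := by
    rw [norm_mul, Complex.norm_conj]
    exact mul_le_mul ha hz (norm_nonneg _) (by norm_num)
  have h2 : ‖((12 / 5 : ℝ) : ℂ)‖ = 12 / 5 := by
    rw [Complex.norm_real, norm_of_nonneg (by norm_num)]
  have h3 : ‖((12 / 5 : ℝ) : ℂ) ^ 2‖ = (12 / 5) ^ 2 := by rw [norm_pow, h2]
  refine ⟨div_ne_zero (sub_ne_zero.2 fun e => ?_) (by norm_num), ?_⟩
  · rw [← e, h3] at h1
    norm_num at h1
  · rw [norm_div, h2, div_le_iff₀ (by norm_num)]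
    linarith [norm_sub_le (((12 / 5 : ℝ) : ℂ) ^ 2) (conj a * z)]

end MMAux

open MMAux in
theorem mMS (hF : FactStmt) (hP : PoisStmt) (hR : RadStmt) : MMStmt := by
  have _ := hP
  refine ⟨325, by norm_num, fun h Ω hΩ hd hb => ?_⟩
  by_cases h0 : h 0 = 0
  · exact ⟨1, ⟨le_rfl, one_le_two⟩, fun z _ => by rw [h0, norm_zero]; positivity⟩
  have p0 := norm_pos_iff.2 h0
  have b0 : (0 : ℂ) ∈ BB := mem_ball_self (by norm_num)
  obtain ⟨k, a, ψ, ha, hψ, hψ0, hf⟩ := hF h 0 (9 / 4) (5 / 2) (by norm_num) hd ⟨0, b0, h0⟩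
  simp only [mem_closedBall_zero_iff] at ha
  obtain ⟨M, hM⟩ : ∃ M : ℝ, M = exp Ω * ‖h 0‖ := ⟨_, rfl⟩
  have M0 : 0 < M := by rw [hM]; positivity
  let g : ℂ → ℂ := fun z =>
    (∏ i, (((12 / 5 : ℝ) : ℂ) ^ 2 - conj (a i) * z) / (12 / 5 : ℝ)) * ψ z / M
  have ng : ∀ z, ‖g z‖ =
      (∏ i, ‖(((12 / 5 : ℝ) : ℂ) ^ 2 - conj (a i) * z) / (12 / 5 : ℝ)‖) * ‖ψ z‖ / M := fun z => by
    simp only [g]
    rw [norm_div, norm_mul, norm_prod, Complex.norm_real M, norm_of_nonneg M0.le]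
  have nh : ∀ z ∈ BB, ‖h z‖ = (∏ i, ‖z - a i‖) * ‖ψ z‖ := fun z hz => by
    rw [hf z hz, norm_mul, norm_prod]
  have dg : DifferentiableOn ℂ g BB :=
    ((DifferentiableOn.fun_finsetProd fun i _ => by fun_prop).mul hψ).div_const _
  have s1 : closedBall (0 : ℂ) (12 / 5) ⊆ BB := closedBall_subset_ball (by norm_num)
  have g1 : ∀ z ∈ closedBall (0 : ℂ) (12 / 5), ‖g z‖ ≤ 1 := fun z hz => by
    refine Complex.norm_le_of_forall_mem_frontier_norm_le (U := ball 0 (12 / 5)) isBounded_ball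
      (dg.diffContOnCl_ball s1) (fun w hw => ?_) (by rwa [closure_ball _ (by norm_num)])
    rw [frontier_ball _ (by norm_num)] at hw
    have w1 := s1 (sphere_subset_closedBall hw)
    rw [ng, Finset.prod_congr rfl fun i _ => fac_eq (mem_sphere_zero_iff_norm.1 hw), ← nh w w1,
      div_le_one M0, hM]
    exact hb w w1
  have s2 : closedBall (0 : ℂ) (11 / 5) ⊆ closedBall 0 (12 / 5) :=
    closedBall_subset_closedBall (by norm_num)
  have g0 : ∀ z ∈ closedBall (0 : ℂ) (11 / 5), g z ≠ 0 := fun z hz => div_ne_zero (mul_ne_zero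
    (Finset.prod_ne_zero_iff.2 fun i _ => (fac_bd (ha i) (mem_closedBall_zero_iff.1 hz)).1)
    (hψ0 z (closedBall_subset_closedBall (by norm_num) hz))) (by exact_mod_cast M0.ne')
  have g2 : exp (k / 16 - Ω) ≤ ‖g 0‖ := by
    have e1 : exp (1 / 16) ≤ 16 / 15 := by
      have := add_one_le_exp (-(1 / 16) : ℝ)
      rw [exp_neg, le_inv_comm₀ (by norm_num) (exp_pos _)] at this
      exact this.trans (by norm_num)
    rw [ng, le_div_iff₀ M0, hM, ← mul_assoc, ← exp_add, sub_add_cancel, nh 0 b0, ← mul_assoc,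
      div_eq_mul_one_div, exp_nat_mul, ← Fin.prod_const, ← Finset.prod_mul_distrib]
    refine mul_le_mul_of_nonneg_right (Finset.prod_le_prod (fun _ _ => by positivity)
      fun i _ => ?_) (norm_nonneg _)
    rw [mul_zero, sub_zero, zero_sub, norm_neg, sq, mul_div_cancel_right₀ _ (by norm_num),
      Complex.norm_real, norm_of_nonneg (by norm_num : (0 : ℝ) ≤ 12 / 5)]
    exact (mul_le_mul e1 (ha i) (norm_nonneg _) (by norm_num)).trans (by norm_num)
  have hk : (k : ℝ) ≤ 16 * Ω := by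
    have := exp_le_one_iff.1 (g2.trans (g1 0 (mem_closedBall_self (by norm_num))))
    linarith
  obtain ⟨t, ht, hp⟩ := hR (Fin k) (fun i => ‖a i‖) 1 2 one_lt_two
  refine ⟨t, ht, fun z hz => ?_⟩
  have z1 := mem_sphere_zero_iff_norm.1 hz
  have z2 : ‖z‖ ≤ 2 := z1 ▸ ht.2
  have z3 : z ∈ closedBall (0 : ℂ) (11 / 5) := mem_closedBall_zero_iff.2 (by linarith)
  have g3 : exp (-(21 * Ω)) ≤ ‖g z‖ := by
    have a1 := harnack ((dg.analyticOnNhd isOpen_ball).mono (s2.trans s1)) g0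
      (fun w hw => g1 w (s2 hw)) z2
    have a2 := (le_log_iff_exp_le ((exp_pos _).trans_le g2)).2 g2
    have a3 : (0 : ℝ) ≤ k := k.cast_nonneg
    exact (le_log_iff_exp_le (norm_pos_iff.2 (g0 z z3))).1 (by linarith)
  have g4 : ‖g z‖ * M ≤ 20 ^ k * ‖h z‖ := by
    rw [ng, div_mul_cancel₀ _ M0.ne', nh z (s1 (s2 z3)), ← mul_assoc]
    refine mul_le_mul_of_nonneg_right ?_ (norm_nonneg _)
    have a1 : ∏ i, |t - ‖a i‖| ≤ ∏ i, ‖z - a i‖ := Finset.prod_le_prod (fun _ _ => abs_nonneg _)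
      fun i _ => z1 ▸ abs_norm_sub_norm_le _ _
    rw [Fintype.card_fin] at hp
    calc _ ≤ ∏ _i : Fin k, (5 : ℝ) := Finset.prod_le_prod (fun _ _ => norm_nonneg _)
          fun i _ => (fac_bd (ha i) (by linarith)).2
      _ = 20 ^ k * ((2 - 1) / 4) ^ k := by rw [Fin.prod_const, ← mul_pow]; norm_num
      _ ≤ _ := mul_le_mul_of_nonneg_left (hp.trans a1) (by positivity)
  have g5 : (20 : ℝ) ^ k ≤ exp (304 * Ω) :=
    calc (20 : ℝ) ^ k ≤ exp 19 ^ k :=
          pow_le_pow_left₀ (by norm_num) (by linarith [add_one_le_exp (19 : ℝ)]) k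
      _ = exp (k * 19) := (exp_nat_mul _ _).symm
      _ ≤ _ := exp_le_exp.2 (by linarith)
  calc ‖h 0‖ = exp (20 * Ω) * (exp (-(21 * Ω)) * M) := by
        rw [hM, ← mul_assoc, ← mul_assoc, ← exp_add, ← exp_add,
          show 20 * Ω + -(21 * Ω) + Ω = 0 by ring, exp_zero, one_mul]
    _ ≤ exp (20 * Ω) * (exp (304 * Ω) * ‖h z‖) := mul_le_mul_of_nonneg_left
        (((mul_le_mul_of_nonneg_right g3 M0.le).trans g4).trans
          (mul_le_mul_of_nonneg_right g5 (norm_nonneg _))) (exp_pos _).le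
    _ ≤ _ := by
        rw [← mul_assoc, ← exp_add]
        exact mul_le_mul_of_nonneg_right (exp_le_exp.2 (by linarith)) (norm_nonneg _)

end

end Pool.Agent.Lib.MP_45f16c_ag.EX
end

-- part Pool.Agent.Lib.MP_45f16c_ag.EX.SubM
section

/-! Sub-mean inequality and dual form. -/

set_option autoImplicit false
open Metric MeasureTheory MvPolynomial Filter Real
open scoped ComplexConjugate Matrix Topology

namespace Pool.Agent.Lib.MP_45f16c_ag.EX

open AS

noncomputable section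

namespace SubMAux

theorem mean (hP : PoisStmt) {t : ℝ} (ht : t ∈ Set.Icc (1 : ℝ) 2) {ν : ℕ} {x : ℂ → Fin ν → ℂ}
    (hx : DifferentiableOn ℂ x BB) (h0 : ∀ z ∈ BB, x z ≠ 0) :
    lg x 0 ≤ circleAverage (lg x) 0 t := by
  have t0 : 0 < t := by linarith [ht.1]
  refine (hP ν x 0 t (5 / 2) t0 (by linarith [ht.2]) hx h0 0 (mem_ball_self t0)).trans_eq ?_
  exact circleAverage_congr_sphere fun z hz => by simp [GaugeAux.pk_center t0 hz]

end SubMAux

theorem subMS (hP : PoisStmt) : SubMStmt := by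
  refine fun t ht => ⟨fun h φ hh h0 hφ hb => ?_, fun ν x hx h0 =>
    sub_nonneg.2 (SubMAux.mean hP ht hx h0)⟩
  have t0 : 0 < t := by linarith [ht.1]
  obtain ⟨e, he, hb'⟩ := (isCompact_sphere (0 : ℂ) t).exists_forall_le' hφ.rexp
    (a := 0) fun z _ => exp_pos _
  let f : ℂ → Fin 2 → ℂ := fun z => ![h z, (e : ℂ)]
  have hf : DifferentiableOn ℂ f BB := differentiableOn_pi.2 fun i => by
    fin_cases i
    · exact hh
    · exact differentiableOn_const _
  have hf0 : ∀ z, f z ≠ 0 := fun z e' => by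
    have := congrFun e' 1
    simp only [f, Matrix.cons_val_one, Matrix.cons_val_zero, Pi.zero_apply,
      Complex.ofReal_eq_zero] at this
    exact he.ne' this
  have hs : sphere (0 : ℂ) t ⊆ BB := sphere_subset_ball (by linarith [ht.2])
  refine (log_le_log (norm_pos_iff.2 h0) (norm_le_pi_norm (f 0) 0)).trans
    ((SubMAux.mean hP ht hf fun z _ => hf0 z).trans (circleAverage_mono
      ((continuousOn_lg (hf.continuousOn.mono hs) fun z _ => hf0 z).circleIntegrable t0.le)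
      (hφ.circleIntegrable t0.le) fun z hz => ?_))
  rw [abs_of_pos t0] at hz
  rw [lg, log_le_iff_le_exp (norm_pos_iff.2 (hf0 z))]
  refine (pi_norm_le_iff_of_nonneg (exp_pos _).le).2 fun i => ?_
  fin_cases i
  · exact hb z hz
  · show ‖(e : ℂ)‖ ≤ _
    rw [Complex.norm_real, Real.norm_of_nonneg he.le]
    exact hb' z hz

theorem corS (hD : DivStmt) : CorStmt := by
  intro ν
  obtain ⟨C, hC, h⟩ := hD ν 5 (by norm_num)
  refine ⟨ν * C + 1, le_add_of_nonneg_left (by positivity), fun x δ hδ hx hb => ?_⟩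
  have hs : ball (0 : ℂ) 5 ⊆ ball 0 6 := ball_subset_ball (by norm_num)
  obtain ⟨b, hb1, hb2⟩ := h x (fun _ => 1) (exp (2 * δ)) (one_le_exp (by positivity)) (hx.mono hs)
    (differentiableOn_const _) fun z hz => by
      have h1 := (hb z (hs hz)).1
      have hc : closedBall z 1 ⊆ ball 0 6 := closedBall_subset_ball' (by
        have := mem_ball.1 hz
        linarith)
      refine ⟨norm_pos_iff.1 ((exp_pos _).trans_le h1), ?_, ?_⟩
      · have h2 := Complex.norm_deriv_le_of_forall_mem_sphere_norm_le one_pos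
          (hx.diffContOnCl_ball hc) fun w hw => (hb w (hc (sphere_subset_closedBall hw))).2
        rw [div_one] at h2
        refine h2.trans (le_trans (le_of_eq ?_) (mul_le_mul_of_nonneg_left h1 (exp_pos _).le))
        rw [← exp_add]; congr 1; ring
      · refine le_trans (le_of_eq ?_) (mul_le_mul_of_nonneg_left
          (pow_le_pow_left₀ (exp_pos _).le h1 2) (exp_pos _).le)
        rw [← exp_nat_mul, ← exp_add]; simp
  refine ⟨b, hb1, fun z hz => ⟨(hb2 z hz).1, (nl_le _).trans ?_⟩⟩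
  have h1 := (hb z (ball_subset_ball (by norm_num) hz)).2
  have h2 : ‖b z‖ ≤ C * exp (5 * δ) := by
    refine (hb2 z hz).2.trans ((mul_le_mul_of_nonneg_left h1 (by positivity)).trans_eq ?_)
    rw [mul_assoc, ← exp_nat_mul, ← exp_add]; congr 2; push_cast; ring
  have := mul_le_mul_of_nonneg_left h2 (Nat.cast_nonneg (α := ℝ) ν)
  nlinarith [exp_pos (5 * δ)]

end

end Pool.Agent.Lib.MP_45f16c_ag.EX
end

-- part Pool.Agent.Lib.MP_45f16c_ag.EX.DLA
section

/-! Duality on a circle: auxiliary lemmas. -/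

set_option autoImplicit false
open Metric MeasureTheory MvPolynomial Filter Real
open scoped ComplexConjugate Matrix Topology

namespace Pool.Agent.Lib.MP_45f16c_ag.EX

open AS

noncomputable section

namespace DLAux

theorem fourier_nat (n : ℕ) (x : AddCircle (1 : ℝ)) :
    fourier (n : ℤ) x = (fourier 1 x) ^ n := by
  induction n with
  | zero => simp
  | succ n ih => rw [Nat.cast_succ, fourier_add, ih, pow_succ]

theorem span_rep {t : ℝ} (ht : 0 < t) (g : C(AddCircle (1 : ℝ), ℂ))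
    (hg : g ∈ Submodule.span ℂ (Set.range (@fourier (1 : ℝ)))) :
    ∃ y u : ℂ → ℂ, Differentiable ℂ y ∧ Differentiable ℂ u ∧
      ∀ x, g x = y (t * fourier 1 x) + conj (u (t * fourier 1 x)) := by
  have ht' : (t : ℂ) ≠ 0 := by exact_mod_cast ht.ne'
  induction hg using Submodule.span_induction with
  | mem g hg =>
    obtain ⟨n, rfl⟩ := hg
    obtain ⟨m, rfl | rfl⟩ := n.eq_nat_or_neg
    · refine ⟨fun z => (z / t) ^ m, fun _ => 0, by fun_prop, by fun_prop, fun x => ?_⟩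
      beta_reduce
      rw [fourier_nat, mul_div_cancel_left₀ _ ht', map_zero, add_zero]
    · refine ⟨fun _ => 0, fun z => (z / t) ^ m, by fun_prop, by fun_prop, fun x => ?_⟩
      beta_reduce
      rw [fourier_neg, fourier_nat, mul_div_cancel_left₀ _ ht', zero_add]
  | zero => exact ⟨fun _ => 0, fun _ => 0, by fun_prop, by fun_prop, fun x => by simp⟩
  | add g h _ _ ihg ihh =>
    obtain ⟨y, u, hy, hu, e⟩ := ihg
    obtain ⟨y', u', hy', hu', e'⟩ := ihh
    refine ⟨fun z => y z + y' z, fun z => u z + u' z, by fun_prop, by fun_prop, fun x => ?_⟩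
    rw [ContinuousMap.add_apply, e, e', map_add]
    ring
  | smul c g _ ih =>
    obtain ⟨y, u, hy, hu, e⟩ := ih
    refine ⟨fun z => c * y z, fun z => conj c * u z, by fun_prop, by fun_prop, fun x => ?_⟩
    rw [ContinuousMap.smul_apply, e, map_mul, Complex.conj_conj, smul_eq_mul]
    ring

theorem mem_sph {t : ℝ} (ht : 0 < t) (x : AddCircle (1 : ℝ)) :
    (t : ℂ) * fourier 1 x ∈ sphere (0 : ℂ) t := by
  rw [mem_sphere_zero_iff_norm, norm_mul, fourier_one, Circle.norm_coe, mul_one,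
    Complex.norm_real, Real.norm_of_nonneg ht.le]

theorem sph_surj {t : ℝ} {z : ℂ} (hz : z ∈ sphere (0 : ℂ) t) :
    ∃ x : AddCircle (1 : ℝ), (t : ℂ) * fourier 1 x = z := by
  refine ⟨((z.arg / (2 * π) : ℝ) : AddCircle (1 : ℝ)), ?_⟩
  rw [fourier_coe_apply]
  rw [mem_sphere_zero_iff_norm] at hz
  have hp : (π : ℂ) ≠ 0 := by exact_mod_cast pi_pos.ne'
  have : (2 * π * Complex.I * ((1 : ℤ) : ℂ) * ((z.arg / (2 * π) : ℝ) : ℂ) / ((1 : ℝ) : ℂ))
      = z.arg * Complex.I := by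
    push_cast
    field_simp
  rw [this, ← hz]
  exact Complex.norm_mul_exp_arg_mul_I z

/-- Approximation on a circle by a holomorphic plus an antiholomorphic function. -/
theorem approx {t : ℝ} (ht : 0 < t) {f : ℂ → ℂ} (hf : ContinuousOn f (sphere 0 t)) (c : ℂ)
    {δ : ℝ} (hδ : 0 < δ) :
    ∃ y u : ℂ → ℂ, Differentiable ℂ y ∧ Differentiable ℂ u ∧ y 0 = c ∧
      ∀ z ∈ sphere (0 : ℂ) t, ‖f z - y z - conj (u z)‖ ≤ δ := by
  let F : C(AddCircle (1 : ℝ), ℂ) := ⟨fun x => f (t * fourier 1 x),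
    hf.comp_continuous (continuous_const.mul (fourier 1).continuous) (mem_sph ht)⟩
  have hF : F ∈ (Submodule.span ℂ (Set.range (@fourier (1 : ℝ)))).topologicalClosure := by
    rw [span_fourier_closure_eq_top]
    trivial
  obtain ⟨g, hg, hd⟩ := Metric.mem_closure_iff.1 hF δ hδ
  obtain ⟨y, u, hy, hu, e⟩ := span_rep ht g hg
  refine ⟨fun z => y z - (y 0 - c), fun z => u z + conj (y 0 - c), by fun_prop, by fun_prop,
    by simp, fun z hz => ?_⟩
  obtain ⟨x, rfl⟩ := sph_surj hz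
  have h1 := (ContinuousMap.dist_apply_le_dist x).trans hd.le
  rw [dist_eq_norm, e x] at h1
  refine le_of_eq_of_le (congrArg norm ?_) h1
  simp only [F, ContinuousMap.coe_mk, map_add, Complex.conj_conj]
  ring

/-! ### Pointwise algebra -/

section pt
variable {ν : ℕ} {I : Type} [Fintype I]

/-- The quadratic form. -/
def qq (P : I → Fin ν → ℂ) (ε : ℝ) (w : Fin ν → ℂ) : ℝ :=
  ∑ i, ‖w ⬝ᵥ P i‖ ^ 2 + ε ^ 2 * ∑ a, ‖w a‖ ^ 2

/-- Its polar vector. -/
def YY (P : I → Fin ν → ℂ) (ε : ℝ) (w : Fin ν → ℂ) : Fin ν → ℂ :=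
  fun a => ∑ i, conj (w ⬝ᵥ P i) * P i a + (ε : ℂ) ^ 2 * conj (w a)

theorem dot_YY (P : I → Fin ν → ℂ) (ε : ℝ) (w u : Fin ν → ℂ) :
    u ⬝ᵥ YY P ε w = ∑ i, conj (w ⬝ᵥ P i) * (u ⬝ᵥ P i) + (ε : ℂ) ^ 2 * ∑ a, conj (w a) * u a := by
  have h1 : ∀ i, conj (w ⬝ᵥ P i) * (u ⬝ᵥ P i) = ∑ a, u a * (conj (w ⬝ᵥ P i) * P i a) := by
    intro i
    generalize conj (w ⬝ᵥ P i) = c
    rw [dotProduct, Finset.mul_sum]
    exact Finset.sum_congr rfl fun a _ => by ring
  simp only [h1]
  rw [Finset.sum_comm, Finset.mul_sum, ← Finset.sum_add_distrib, dotProduct]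
  refine Finset.sum_congr rfl fun a _ => ?_
  rw [YY, mul_add, Finset.mul_sum]
  ring

theorem nsq_add (a b : ℂ) : ‖a + b‖ ^ 2 = ‖a‖ ^ 2 + 2 * (conj a * b).re + ‖b‖ ^ 2 := by
  simp only [Complex.sq_norm, Complex.normSq_apply, Complex.add_re, Complex.add_im,
    Complex.mul_re, Complex.conj_re, Complex.conj_im]
  ring

theorem nsq_add_le (a b : ℂ) : ‖a + b‖ ^ 2 ≤ 2 * ‖a‖ ^ 2 + 2 * ‖b‖ ^ 2 := by
  have h := norm_add_le a b
  have h0 := norm_nonneg (a + b)
  nlinarith [sq_nonneg (‖a‖ - ‖b‖)]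

theorem re_dot_YY (P : I → Fin ν → ℂ) (ε : ℝ) (w u : Fin ν → ℂ) :
    (u ⬝ᵥ YY P ε w).re = ∑ i, (conj (w ⬝ᵥ P i) * (u ⬝ᵥ P i)).re
      + ε ^ 2 * ∑ a, (conj (w a) * u a).re := by
  rw [dot_YY, Complex.add_re, Complex.re_sum, ← Complex.ofReal_pow, Complex.re_ofReal_mul,
    Complex.re_sum]

theorem qq_add (P : I → Fin ν → ℂ) (ε : ℝ) (w u : Fin ν → ℂ) :
    qq P ε (w + u) = qq P ε w + 2 * (u ⬝ᵥ YY P ε w).re + qq P ε u := by
  rw [re_dot_YY]
  simp only [qq, add_dotProduct, Pi.add_apply, nsq_add, Finset.sum_add_distrib,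
    ← Finset.mul_sum]
  ring

theorem qq_smul (P : I → Fin ν → ℂ) (ε : ℝ) (c : ℂ) (w : Fin ν → ℂ) :
    qq P ε (c • w) = ‖c‖ ^ 2 * qq P ε w := by
  simp only [qq, smul_dotProduct, Pi.smul_apply, smul_eq_mul, norm_mul, mul_pow,
    ← Finset.mul_sum]
  ring

theorem conj_mul_re (a : ℂ) : (conj a * a).re = ‖a‖ ^ 2 := by
  simp only [Complex.sq_norm, Complex.normSq_apply, Complex.mul_re, Complex.conj_re,
    Complex.conj_im]
  ring

theorem re_self (P : I → Fin ν → ℂ) (ε : ℝ) (w : Fin ν → ℂ) :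
    (w ⬝ᵥ YY P ε w).re = qq P ε w := by
  rw [re_dot_YY]
  simp only [conj_mul_re, qq]

theorem qq_nonneg (P : I → Fin ν → ℂ) (ε : ℝ) (w : Fin ν → ℂ) : 0 ≤ qq P ε w := by
  unfold qq
  positivity

theorem qq_le {P : I → Fin ν → ℂ} {ε : ℝ} (h0 : 0 < ε) (h1 : ε ≤ 1) (hP : ∀ i, ‖P i‖ ≤ 1)
    (w : Fin ν → ℂ) : qq P ε w ≤ (Fintype.card I * ν + 1) * ∑ a, ‖w a‖ ^ 2 := by
  have hS : 0 ≤ ∑ a, ‖w a‖ ^ 2 := by positivity
  have h2 : ∀ i, ‖w ⬝ᵥ P i‖ ^ 2 ≤ ν * ∑ a, ‖w a‖ ^ 2 := by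
    intro i
    have h3 : ‖w ⬝ᵥ P i‖ ≤ ∑ a, ‖w a‖ := by
      refine (norm_sum_le _ _).trans (Finset.sum_le_sum fun a _ => ?_)
      rw [norm_mul]
      exact mul_le_of_le_one_right (norm_nonneg _) ((norm_le_pi_norm _ a).trans (hP i))
    have h4 := sq_sum_le_card_mul_sum_sq (s := Finset.univ) (f := fun a => ‖w a‖)
    rw [Finset.card_univ, Fintype.card_fin] at h4
    exact (pow_le_pow_left₀ (norm_nonneg _) h3 2).trans h4
  have h5 : ∑ i, ‖w ⬝ᵥ P i‖ ^ 2 ≤ Fintype.card I * (ν * ∑ a, ‖w a‖ ^ 2) := by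
    refine (Finset.sum_le_sum fun i _ => h2 i).trans ?_
    rw [Finset.sum_const, Finset.card_univ, nsmul_eq_mul]
  have h6 : ε ^ 2 ≤ 1 := pow_le_one₀ h0.le h1
  unfold qq
  nlinarith

theorem YY_le {P : I → Fin ν → ℂ} {ε : ℝ} (h0 : 0 < ε) (h1 : ε ≤ 1) (hP : ∀ i, ‖P i‖ ≤ 1)
    (w : Fin ν → ℂ) (a : Fin ν) : ‖YY P ε w a‖ ^ 2 ≤ (Fintype.card I + 1) * qq P ε w := by
  let f : Option I → ℝ := fun o => o.elim (ε * ‖w a‖) fun i => ‖w ⬝ᵥ P i‖
  have h4 := sq_sum_le_card_mul_sum_sq (s := Finset.univ) (f := f)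
  rw [Finset.card_univ, Fintype.card_option, Fintype.sum_option, Fintype.sum_option] at h4
  simp only [f, Option.elim] at h4
  have h3 : ‖YY P ε w a‖ ≤ ε * ‖w a‖ + ∑ i, ‖w ⬝ᵥ P i‖ := by
    rw [add_comm]
    refine (norm_add_le _ _).trans (add_le_add ?_ ?_)
    · refine (norm_sum_le _ _).trans (Finset.sum_le_sum fun i _ => ?_)
      rw [norm_mul, Complex.norm_conj]
      exact mul_le_of_le_one_right (norm_nonneg _) ((norm_le_pi_norm _ a).trans (hP i))
    · rw [norm_mul, Complex.norm_conj, norm_pow, Complex.norm_real, Real.norm_of_nonneg h0.le]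
      exact mul_le_mul_of_nonneg_right (by nlinarith) (norm_nonneg _)
  have h5 : ‖w a‖ ^ 2 ≤ ∑ b, ‖w b‖ ^ 2 :=
    Finset.single_le_sum (f := fun b => ‖w b‖ ^ 2) (fun _ _ => by positivity) (Finset.mem_univ a)
  refine (pow_le_pow_left₀ (norm_nonneg _) h3 2).trans (h4.trans ?_)
  push_cast
  refine mul_le_mul_of_nonneg_left ?_ (by positivity)
  unfold qq
  rw [mul_pow]
  nlinarith [sq_nonneg ε]

theorem dot_le {q : Fin ν → ℂ} (hq : nl q ≤ 1) (w : Fin ν → ℂ) :
    ‖q ⬝ᵥ w‖ ^ 2 ≤ ∑ a, ‖w a‖ ^ 2 := by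
  have hS : 0 ≤ ∑ a, ‖w a‖ ^ 2 := by positivity
  have h1 : ∀ a, ‖w a‖ ≤ √(∑ a, ‖w a‖ ^ 2) := fun a => Real.le_sqrt_of_sq_le
    (Finset.single_le_sum (f := fun b => ‖w b‖ ^ 2) (fun _ _ => by positivity)
      (Finset.mem_univ a))
  have h2 : ‖q ⬝ᵥ w‖ ≤ √(∑ a, ‖w a‖ ^ 2) := by
    refine (norm_sum_le _ _).trans ?_
    refine (Finset.sum_le_sum fun a _ => (norm_mul_le _ _).trans
      (mul_le_mul_of_nonneg_left (h1 a) (norm_nonneg _))).trans ?_
    rw [← Finset.sum_mul]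
    exact mul_le_of_le_one_left (Real.sqrt_nonneg _) hq
  exact (pow_le_pow_left₀ (norm_nonneg _) h2 2).trans (Real.sq_sqrt hS).le

theorem dot_YY_le {P : I → Fin ν → ℂ} (ε : ℝ) {q : Fin ν → ℂ} (hq : nl q ≤ 1)
    (hP : ∀ i, q ⬝ᵥ P i = 0) (w : Fin ν → ℂ) : ‖q ⬝ᵥ YY P ε w‖ ^ 2 ≤ ε ^ 2 * qq P ε w := by
  have h1 := dot_le hq fun a => conj (w a)
  simp only [Complex.norm_conj] at h1
  have h2 : q ⬝ᵥ YY P ε w = (ε : ℂ) ^ 2 * (q ⬝ᵥ fun a => conj (w a)) := by
    rw [dot_YY]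
    simp only [hP, mul_zero, Finset.sum_const_zero, zero_add]
    simp only [dotProduct, mul_comm]
  have h3 : 0 ≤ ∑ i, ‖w ⬝ᵥ P i‖ ^ 2 := by positivity
  rw [h2, norm_mul, norm_pow, Complex.norm_real, Real.norm_eq_abs, sq_abs, mul_pow]
  unfold qq
  have h4 := sq_nonneg ε
  nlinarith [mul_le_mul_of_nonneg_left h1 (mul_nonneg h4 h4), mul_nonneg h4 h3]

theorem norm_sq_le {y : Fin ν → ℂ} {C : ℝ} (hC : 0 ≤ C) (h : ∀ a, ‖y a‖ ^ 2 ≤ C) :
    ‖y‖ ^ 2 ≤ C := by
  have h1 : ‖y‖ ≤ √C := (pi_norm_le_iff_of_nonneg (Real.sqrt_nonneg _)).2 fun a =>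
    Real.le_sqrt_of_sq_le (h a)
  exact (pow_le_pow_left₀ (norm_nonneg _) h1 2).trans (Real.sq_sqrt hC).le

theorem re_lower {Y y u : Fin ν → ℂ} {δ : ℝ} (h : ∀ a, ‖Y a - y a - conj (u a)‖ ≤ δ) :
    2 * (u ⬝ᵥ y).re + 3 / 2 * ∑ a, ‖u a‖ ^ 2 ≤ 2 * (u ⬝ᵥ Y).re + 2 * ν * δ ^ 2 := by
  have h1 : ∀ a, 2 * (u a * y a).re + 3 / 2 * ‖u a‖ ^ 2 ≤ 2 * (u a * Y a).re + 2 * δ ^ 2 := by
    intro a
    have e : u a * Y a = u a * y a + conj (u a) * u a + u a * (Y a - y a - conj (u a)) := by ring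
    have h2 : |(u a * (Y a - y a - conj (u a))).re| ≤ ‖u a‖ * δ :=
      (Complex.abs_re_le_norm _).trans ((norm_mul_le _ _).trans
        (mul_le_mul_of_nonneg_left (h a) (norm_nonneg _)))
    rw [e, Complex.add_re, Complex.add_re, conj_mul_re]
    nlinarith [neg_le_of_abs_le h2, sq_nonneg (‖u a‖ - 2 * δ)]
  have h3 := Finset.sum_le_sum fun a (_ : a ∈ Finset.univ) => h1 a
  simp only [Finset.sum_add_distrib, ← Finset.mul_sum, Finset.sum_const, Finset.card_univ,
    Fintype.card_fin, nsmul_eq_mul] at h3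
  simp only [dotProduct, Complex.re_sum]
  linarith

theorem rem_le {Y y u : Fin ν → ℂ} {δ : ℝ} (h : ∀ a, ‖Y a - y a - conj (u a)‖ ≤ δ) :
    ∑ a, ‖(y - Y) a‖ ^ 2 ≤ 2 * ∑ a, ‖u a‖ ^ 2 + 2 * ν * δ ^ 2 := by
  have h1 : ∀ a, ‖(y - Y) a‖ ^ 2 ≤ 2 * ‖u a‖ ^ 2 + 2 * δ ^ 2 := by
    intro a
    have e : Y a - y a = conj (u a) + (Y a - y a - conj (u a)) := by ring
    rw [Pi.sub_apply, norm_sub_rev, e]
    have h2 := nsq_add_le (conj (u a)) (Y a - y a - conj (u a))
    rw [Complex.norm_conj] at h2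
    have h3 := pow_le_pow_left₀ (norm_nonneg _) (h a) 2
    linarith
  have h3 := Finset.sum_le_sum fun a (_ : a ∈ Finset.univ) => h1 a
  simp only [Finset.sum_add_distrib, ← Finset.mul_sum, Finset.sum_const, Finset.card_univ,
    Fintype.card_fin, nsmul_eq_mul] at h3
  linarith

end pt

/-! ### Averages -/

theorem av_le {t : ℝ} (ht : 0 < t) {f g h : ℂ → ℝ} {a b c : ℝ}
    (hf : ContinuousOn f (sphere 0 t)) (hg : ContinuousOn g (sphere 0 t))
    (hh : ContinuousOn h (sphere 0 t))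
    (H : ∀ z ∈ sphere (0 : ℂ) t, f z ≤ a * g z + b * h z + c) :
    circleAverage f 0 t ≤ a * circleAverage g 0 t + b * circleAverage h 0 t + c := by
  have i1 : CircleIntegrable (fun z => a • g z) 0 t := (hg.const_smul a).circleIntegrable ht.le
  have i2 : CircleIntegrable (fun z => b • h z) 0 t := (hh.const_smul b).circleIntegrable ht.le
  have i3 : CircleIntegrable (fun _ : ℂ => c) 0 t := circleIntegrable_const _ _ _
  have i4 : CircleIntegrable (fun z => a • g z + b • h z) 0 t := i1.add i2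
  have h1 := circleAverage_mono (hf.circleIntegrable ht.le) (i4.add i3)
    (fun z hz => H z (by rwa [abs_of_pos ht] at hz))
  rw [circleAverage_add i4 i3, circleAverage_fun_add i1 i2, circleAverage_fun_smul,
    circleAverage_fun_smul, circleAverage_const] at h1
  exact h1

theorem re_mean {h : ℂ → ℂ} (hh : Differentiable ℂ h) {t : ℝ} (ht : 0 < t) :
    circleAverage (fun z => (h z).re) 0 t = (h 0).re := by
  have h2 : CircleIntegrable h 0 t := hh.continuous.continuousOn.circleIntegrable ht.le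
  have h3 := Complex.reCLM.circleAverage_comp_comm h2
  rw [hh.diffContOnCl.circleAverage] at h3
  exact h3

section main
variable {ν : ℕ} {I : Type} [Fintype I] {p : I → ℂ → Fin ν → ℂ} {t ε : ℝ}

theorem cont_dot {s : Set ℂ} {U V : ℂ → Fin ν → ℂ} (hU : ContinuousOn U s)
    (hV : ContinuousOn V s) : ContinuousOn (fun z => U z ⬝ᵥ V z) s :=
  continuousOn_finsetSum _ fun a _ => (continuousOn_pi.1 hU a).mul (continuousOn_pi.1 hV a)

theorem cont_sq {s : Set ℂ} {U : ℂ → Fin ν → ℂ} (hU : ContinuousOn U s) :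
    ContinuousOn (fun z => ∑ a, ‖U z a‖ ^ 2) s :=
  continuousOn_finsetSum _ fun a _ => (continuousOn_pi.1 hU a).norm.pow 2

theorem cont_qq {s : Set ℂ} (hp : ∀ i, ContinuousOn (p i) s) {U : ℂ → Fin ν → ℂ}
    (hU : ContinuousOn U s) : ContinuousOn (fun z => qq (fun i => p i z) ε (U z)) s :=
  (continuousOn_finsetSum _ fun i _ => (cont_dot hU (hp i)).norm.pow 2).add
    (continuousOn_const.mul (cont_sq hU))

theorem cont_YY {s : Set ℂ} (hp : ∀ i, ContinuousOn (p i) s) {U : ℂ → Fin ν → ℂ}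
    (hU : ContinuousOn U s) : ContinuousOn (fun z => YY (fun i => p i z) ε (U z)) s :=
  continuousOn_pi.2 fun a => (continuousOn_finsetSum _ fun i _ =>
    (Complex.continuous_conj.comp_continuousOn (cont_dot hU (hp i))).mul
      (continuousOn_pi.1 (hp i) a)).add (continuousOn_const.mul
        (Complex.continuous_conj.comp_continuousOn (continuousOn_pi.1 hU a)))

/-- The averaged quadratic form. -/
def QQ (p : I → ℂ → Fin ν → ℂ) (t ε : ℝ) (U : ℂ → Fin ν → ℂ) : ℝ :=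
  circleAverage (fun z => qq (fun i => p i z) ε (U z)) 0 t

theorem QQ_nonneg (U : ℂ → Fin ν → ℂ) : 0 ≤ QQ p t ε U :=
  circleAverage_nonneg_of_nonneg fun _ _ => qq_nonneg _ _ _

theorem QQ_smul (c : ℂ) (U : ℂ → Fin ν → ℂ) :
    QQ p t ε (fun z => c • U z) = ‖c‖ ^ 2 * QQ p t ε U := by
  unfold QQ
  simp only [qq_smul]
  exact circleAverage_fun_smul (a := ‖c‖ ^ 2)

theorem phi_le {v : Fin ν → ℂ} {B : ℝ} (hB : 0 < B)
    (h : ∀ U : ℂ → Fin ν → ℂ, Differentiable ℂ U → U 0 ⬝ᵥ v = 1 → (B ^ 2)⁻¹ < QQ p t ε U)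
    {U : ℂ → Fin ν → ℂ} (hU : Differentiable ℂ U) :
    2 * (U 0 ⬝ᵥ v).re ≤ QQ p t ε U + B ^ 2 := by
  have hQ := QQ_nonneg (p := p) (t := t) (ε := ε) U
  by_cases h0 : U 0 ⬝ᵥ v = 0
  · rw [h0, Complex.zero_re, mul_zero]
    positivity
  have h1 := h (fun z => (U 0 ⬝ᵥ v)⁻¹ • U z) (hU.fun_const_smul _)
    (by rw [smul_dotProduct, smul_eq_mul, inv_mul_cancel₀ h0])
  rw [QQ_smul, norm_inv] at h1
  have h2 := Complex.re_le_norm (U 0 ⬝ᵥ v)
  have h3 : 0 < ‖U 0 ⬝ᵥ v‖ := norm_pos_iff.2 h0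
  generalize ‖U 0 ⬝ᵥ v‖ = r at *
  generalize QQ p t ε U = Q at *
  have h4 : r ^ 2 ≤ B ^ 2 * Q := by
    rw [inv_pow, ← div_eq_inv_mul, lt_div_iff₀ (by positivity), inv_mul_eq_div,
      div_lt_iff₀ (by positivity)] at h1
    linarith
  have h5 : 2 * r ≤ Q + B ^ 2 := by
    refine (pow_le_pow_iff_left₀ (by positivity) (by positivity) two_ne_zero).1 ?_
    nlinarith [sq_nonneg (Q - B ^ 2)]
  linarith

theorem near (ht : 0 < t) (hp : ∀ i, ContinuousOn (p i) (sphere 0 t)) {v : Fin ν → ℂ} {B η : ℝ}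
    (hη : 0 < η) (h : ∀ U : ℂ → Fin ν → ℂ, Differentiable ℂ U →
      2 * (U 0 ⬝ᵥ v).re ≤ QQ p t ε U + B ^ 2) :
    ∃ W : ℂ → Fin ν → ℂ, Differentiable ℂ W ∧ ∀ U : ℂ → Fin ν → ℂ, Differentiable ℂ U →
      2 * (U 0 ⬝ᵥ v).re ≤ 2 * circleAverage
        (fun z => (U z ⬝ᵥ YY (fun i => p i z) ε (W z)).re) 0 t + QQ p t ε U + η := by
  let S : Set ℝ := {r | ∃ U : ℂ → Fin ν → ℂ, Differentiable ℂ U ∧
    r = 2 * (U 0 ⬝ᵥ v).re - QQ p t ε U}
  have hb : BddAbove S := ⟨B ^ 2, by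
    rintro r ⟨U, hU, rfl⟩
    linarith [h U hU]⟩
  have hn : S.Nonempty := ⟨_, fun _ => 0, differentiable_const _, rfl⟩
  obtain ⟨r, ⟨W, hW, rfl⟩, hr⟩ := exists_lt_of_lt_csSup hn (sub_lt_self (sSup S) hη)
  refine ⟨W, hW, fun U hU => ?_⟩
  have h1 : 2 * ((W 0 + U 0) ⬝ᵥ v).re - QQ p t ε (fun z => W z + U z) ≤ sSup S :=
    le_csSup hb ⟨fun z => W z + U z, hW.add hU, rfl⟩
  have cW := hW.continuous.continuousOn (s := sphere 0 t)
  have cU := hU.continuous.continuousOn (s := sphere 0 t)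
  have c1 := cont_qq (ε := ε) hp cW
  have c2 := cont_qq (ε := ε) hp cU
  have c3 := Complex.continuous_re.comp_continuousOn (cont_dot cU (cont_YY (ε := ε) hp cW))
  have h2 := av_le ht (cont_qq (ε := ε) hp (cW.add cU)) (c1.add c2) c3 (a := 1) (b := 2) (c := 0)
    fun z _ => by
      simp only [Pi.add_apply, Function.comp_apply]
      rw [qq_add]
      linarith
  rw [circleAverage_add (c1.circleIntegrable ht.le) (c2.circleIntegrable ht.le)] at h2
  rw [add_dotProduct, Complex.add_re] at h1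
  unfold QQ at h1 hr ⊢
  simp only [Pi.add_apply, Function.comp_def] at h2
  linarith

end main

end DLAux

end

end Pool.Agent.Lib.MP_45f16c_ag.EX
end

-- part Pool.Agent.Lib.MP_45f16c_ag.EX.DL
section

/-! Duality on a circle. -/

set_option autoImplicit false
open Metric MeasureTheory MvPolynomial Filter Real
open scoped ComplexConjugate Matrix Topology

namespace Pool.Agent.Lib.MP_45f16c_ag.EX

open AS

noncomputable section

open DLAux in
theorem dLS : DLStmt := by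
  intro ν I _ p v t ε B ht h0 h1 hB hp hp1
  rw [or_iff_not_imp_left]
  intro hno
  have hphi : ∀ U : ℂ → Fin ν → ℂ, Differentiable ℂ U →
      2 * (U 0 ⬝ᵥ v).re ≤ QQ p t ε U + B ^ 2 := fun U hU =>
    phi_le hB (fun U hU e => lt_of_not_ge fun hle => hno ⟨U, hU, e, hle⟩) hU
  obtain ⟨K, hK⟩ : ∃ K : ℝ, K = Fintype.card I * ν + 1 := ⟨_, rfl⟩
  have hK1 : 1 ≤ K := by
    rw [hK]
    have : (0 : ℝ) ≤ Fintype.card I * ν := by positivity
    linarith
  have hK0 : 0 < K := by linarith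
  obtain ⟨W, hW, hnear⟩ := near ht hp (η := ε ^ 2 * B ^ 2 / (32 * K)) (by positivity) hphi
  have cW := hW.continuous.continuousOn (s := sphere 0 t)
  have cY := cont_YY (ε := ε) hp cW
  have cq := cont_qq (ε := ε) hp cW
  have he : ε ^ 2 ≤ 1 := pow_le_one₀ h0.le h1
  have hB2 : 0 < B ^ 2 := by positivity
  have hE : 0 < ε ^ 2 * B ^ 2 := by positivity
  have hEB : ε ^ 2 * B ^ 2 ≤ B ^ 2 := mul_le_of_le_one_left hB2.le he
  have hη : ε ^ 2 * B ^ 2 / (32 * K) ≤ ε ^ 2 * B ^ 2 / 32 :=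
    div_le_div_of_nonneg_left hE.le (by norm_num) (by linarith)
  have hQW : QQ p t ε W ≤ 3 / 2 * B ^ 2 := by
    have h2 := hnear (fun z => ((-(1 / 4) : ℝ) : ℂ) • W z) (hW.fun_const_smul _)
    have h3 : circleAverage (fun z => ((((-(1 / 4) : ℝ) : ℂ) • W z) ⬝ᵥ
        YY (fun i => p i z) ε (W z)).re) 0 t = -(1 / 4) * QQ p t ε W := by
      simp only [smul_dotProduct, smul_eq_mul, Complex.re_ofReal_mul, re_self]
      exact circleAverage_fun_smul (a := (-(1 / 4) : ℝ))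
    rw [h3, QQ_smul, smul_dotProduct, smul_eq_mul, Complex.re_ofReal_mul, Complex.norm_real,
      Real.norm_eq_abs, sq_abs] at h2
    linarith [hphi W hW]
  obtain ⟨δ, hδ, hδ2⟩ : ∃ δ : ℝ, 0 < δ ∧ ν * δ ^ 2 ≤ ε ^ 2 * B ^ 2 / 40 := by
    refine ⟨√(ε ^ 2 * B ^ 2 / 40 / (ν + 1)), Real.sqrt_pos.2 (by positivity), ?_⟩
    rw [Real.sq_sqrt (by positivity), ← mul_div_assoc, div_le_iff₀ (by positivity)]
    nlinarith
  choose y u hy hu hy0 hap using fun a =>
    approx ht (continuousOn_pi.1 cY a) (v a) hδ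
  have dy : Differentiable ℂ fun z a => y a z := differentiable_pi.2 hy
  have du : Differentiable ℂ fun z a => u a z := differentiable_pi.2 hu
  have cy := dy.continuous.continuousOn (s := sphere 0 t)
  have cu := du.continuous.continuousOn (s := sphere 0 t)
  have hv : (fun a => y a 0) = v := funext hy0
  have hA : circleAverage (fun z => ∑ a, ‖u a z‖ ^ 2) 0 t ≤ ε ^ 2 * B ^ 2 / 16
      + 4 * (ν * δ ^ 2) := by
    have h2 := hnear (fun z => ((-K⁻¹ : ℝ) : ℂ) • fun a => u a z) (du.fun_const_smul _)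
    have h3 : circleAverage (fun z => ((((-K⁻¹ : ℝ) : ℂ) • fun a => u a z) ⬝ᵥ
        YY (fun i => p i z) ε (W z)).re) 0 t = -K⁻¹ * circleAverage
          (fun z => ((fun a => u a z) ⬝ᵥ YY (fun i => p i z) ε (W z)).re) 0 t := by
      simp only [smul_dotProduct, smul_eq_mul, Complex.re_ofReal_mul]
      exact circleAverage_fun_smul (a := (-K⁻¹ : ℝ))
    rw [h3, QQ_smul, smul_dotProduct, smul_eq_mul, Complex.re_ofReal_mul, Complex.norm_real,
      Real.norm_eq_abs, sq_abs] at h2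
    have h4 : QQ p t ε (fun z a => u a z) ≤
        K * circleAverage (fun z => ∑ a, ‖u a z‖ ^ 2) 0 t := by
      have := av_le ht (cont_qq (ε := ε) hp cu) (cont_sq cu) (cont_sq cu) (a := K) (b := 0)
        (c := 0) fun z hz => by
          have := qq_le h0 h1 (fun i => hp1 i z hz) fun a => u a z
          rw [← hK] at this
          linarith
      unfold QQ
      linarith
    have h5 : circleAverage (fun z => ((fun a => u a z) ⬝ᵥ fun a => y a z).re) 0 t =
        ((fun a => u a 0) ⬝ᵥ v).re := by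
      rw [← hv]
      exact re_mean (h := fun z => (fun a => u a z) ⬝ᵥ fun a => y a z)
        (Differentiable.fun_sum fun a _ => (hu a).mul (hy a)) ht
    have h6 := av_le ht (cont_sq cu)
      (Complex.continuous_re.comp_continuousOn (cont_dot cu cY))
      (Complex.continuous_re.comp_continuousOn (cont_dot cu cy)) (a := 4 / 3) (b := -(4 / 3))
      (c := 4 / 3 * (ν * δ ^ 2)) fun z hz => by
        have := re_lower (Y := YY (fun i => p i z) ε (W z)) (y := fun a => y a z)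
          (u := fun a => u a z) fun a => hap a z hz
        simp only [Function.comp_apply]
        linarith
    simp only [Function.comp_def] at h6
    rw [h5] at h6
    generalize circleAverage (fun z => ∑ a, ‖u a z‖ ^ 2) 0 t = A at *
    generalize circleAverage (fun z => ((fun a => u a z) ⬝ᵥ
      YY (fun i => p i z) ε (W z)).re) 0 t = X at *
    generalize ((fun a => u a 0) ⬝ᵥ v).re = Z at *
    generalize QQ p t ε (fun z a => u a z) = Q at *
    generalize ε ^ 2 * B ^ 2 = E at *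
    have h7 := mul_le_mul_of_nonneg_left h2 hK0.le
    have h8 : K * (2 * (-K⁻¹ * X) + (-K⁻¹) ^ 2 * Q + E / (32 * K))
        = -2 * X + K⁻¹ * Q + E / 32 := by
      field_simp
    have h9 : K * (2 * (-K⁻¹ * Z)) = -2 * Z := by
      field_simp
    have h10 : K⁻¹ * Q ≤ A := by
      rw [inv_mul_le_iff₀ hK0]
      exact h4
    rw [h8, h9] at h7
    linarith
  have hR : circleAverage (fun z => ∑ a, ‖((fun a => y a z) - YY (fun i => p i z) ε (W z)) a‖ ^ 2)
      0 t ≤ ε ^ 2 * B ^ 2 / 2 := by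
    have := av_le ht (cont_sq (cy.sub cY)) (cont_sq cu) (cont_sq cu) (a := 2) (b := 0)
      (c := 2 * (ν * δ ^ 2)) fun z hz => by
        have := rem_le (Y := YY (fun i => p i z) ε (W z)) (y := fun a => y a z)
          (u := fun a => u a z) fun a => hap a z hz
        simp only [Pi.sub_apply] at this ⊢
        linarith
    simp only [Pi.sub_apply] at this ⊢
    linarith
  refine ⟨fun z a => y a z, dy, hv, ?_, fun q hq hq1 => ?_⟩
  · have hc : (0 : ℝ) ≤ Fintype.card I := by positivity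
    have := av_le (f := fun z => ‖fun a => y a z‖ ^ 2) ht (cy.norm.pow 2) cq (cont_sq (cy.sub cY))
      (a := 2 * (Fintype.card I + 1))
      (b := 2) (c := 0) fun z hz => by
        have h2 := qq_nonneg (fun i => p i z) ε (W z)
        refine norm_sq_le (by positivity) fun a => ?_
        have h3 := YY_le h0 h1 (fun i => hp1 i z hz) (W z) a
        have h4 := nsq_add_le (YY (fun i => p i z) ε (W z) a)
          (y a z - YY (fun i => p i z) ε (W z) a)
        have h5 := Finset.single_le_sum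
          (f := fun b => ‖y b z - YY (fun i => p i z) ε (W z) b‖ ^ 2)
          (fun _ _ => by positivity) (Finset.mem_univ a)
        rw [add_sub_cancel] at h4
        simp only [Pi.sub_apply]
        linarith
    unfold QQ at hQW
    simp only [Pi.sub_apply] at this hR ⊢
    nlinarith [mul_le_mul_of_nonneg_left hQW (by positivity : (0 : ℝ) ≤ Fintype.card I + 1),
      mul_nonneg hc hB2.le]
  · have := av_le (f := fun z => ‖q z ⬝ᵥ fun a => y a z‖ ^ 2) ht
      ((cont_dot hq cy).norm.pow 2) cq (cont_sq (cy.sub cY)) (a := 2 * ε ^ 2)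
      (b := 2) (c := 0) fun z hz => by
        have h3 := dot_YY_le ε (hq1 z hz).1 (hq1 z hz).2 (W z)
        have h4 := nsq_add_le (q z ⬝ᵥ YY (fun i => p i z) ε (W z))
          (q z ⬝ᵥ ((fun a => y a z) - YY (fun i => p i z) ε (W z)))
        have h5 := dot_le (hq1 z hz).1 ((fun a => y a z) - YY (fun i => p i z) ε (W z))
        rw [← dotProduct_add, add_sub_cancel] at h4
        simp only [Pi.sub_apply] at h5 ⊢
        linarith
    unfold QQ at hQW
    simp only [Pi.sub_apply] at this hR ⊢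
    nlinarith [mul_le_mul_of_nonneg_left hQW (sq_nonneg ε)]

end

end Pool.Agent.Lib.MP_45f16c_ag.EX
end
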