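import Pool.Agent.Lib.MP_45f16c_ag.EX.BR

/-! The lemma of Flanders. -/

set_option autoImplicit false
open Metric MeasureTheory MvPolynomial Filter Real
open scoped ComplexConjugate Matrix Topology

namespace Pool.Agent.Lib.MP_45f16c_ag.EX

open AS

noncomputable section

namespace FlAux

variable {ν d : ℕ} {κ : Type}

/-- All minors of size `k` are bounded by `M`. -/
def Bk (d : ℕ) (ψ : MP ν →ₗ[ℂ] (κ → ℂ)) (x : Fin ν → ℂ) (σ : Finset κ) (k : ℕ) (M : ℝ) : Prop :=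
  ∀ (r : Fin k → κ) (l : Fin k → Fin ν → ℂ) (G : MP ν), (∀ i, r i ∈ σ) → (∀ i, l i ⬝ᵥ x = 0) →
    G.IsHomogeneous d → ‖dt r fun i => ψ (LL (l i) * G)‖ ≤ M * ∏ i, nl (l i) * n1 G

variable {ψ : MP ν →ₗ[ℂ] (κ → ℂ)} {x : Fin ν → ℂ} {σ : Finset κ} {k : ℕ} {M M' : ℝ}

theorem Bk.mono (h : Bk d ψ x σ k M) (hM : M ≤ M') : Bk d ψ x σ k M' := fun r l G h1 h2 h3 =>
  (h r l G h1 h2 h3).trans (mul_le_mul_of_nonneg_right hM
    (Finset.prod_nonneg fun _ _ => mul_nonneg (nl_nonneg _) (n1_nonneg _)))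

theorem Bk.le (h : Bk d ψ x σ k M) (hM : 0 ≤ M) {r : Fin k → κ} {l : Fin k → Fin ν → ℂ} {G : MP ν}
    (h1 : ∀ i, r i ∈ σ) (h2 : ∀ i, l i ⬝ᵥ x = 0) (h3 : G.IsHomogeneous d) (h4 : ∀ i, nl (l i) ≤ 1)
    {a : ℝ} (h5 : n1 G ≤ a) : ‖dt r fun i => ψ (LL (l i) * G)‖ ≤ M * a ^ k := by
  refine (h r l G h1 h2 h3).trans (mul_le_mul_of_nonneg_left ?_ hM)
  refine (Finset.prod_le_prod (g := fun _ => a)
    (fun _ _ => mul_nonneg (nl_nonneg _) (n1_nonneg _)) fun i _ => ?_).trans_eq (by simp)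
  exact (mul_le_of_le_one_left (n1_nonneg _) (h4 i)).trans h5

theorem ex_bk [Fintype κ] (k : ℕ) : ∃ M, Bk d ψ x σ k M := by
  obtain ⟨B, hB, h⟩ := exists_bound ψ (d + 1)
  refine ⟨k.factorial * B ^ k, fun r l G _ _ hG => ?_⟩
  refine (norm_dt_le' r _ (A := fun i => B * (nl (l i) * n1 G)) fun i =>
    (h _ (hom_LL_mul _ hG)).trans (mul_le_mul_of_nonneg_left (n1_LL_mul_le _ _) hB)).trans_eq ?_
  rw [Finset.prod_mul_distrib, Finset.prod_const, Finset.card_univ, Fintype.card_fin, mul_assoc]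

theorem nl_norm (l : Fin ν → ℂ) : ∃ l' : Fin ν → ℂ, nl l' ≤ 1 ∧ l = (nl l : ℂ) • l' ∧
    ∀ y, l ⬝ᵥ y = 0 → l' ⬝ᵥ y = 0 := by
  by_cases h : nl l = 0
  · exact ⟨0, by simp [nl_zero], by rw [nl_eq_zero h, smul_zero], fun y _ => by simp⟩
  · refine ⟨(nl l : ℂ)⁻¹ • l, ?_, ?_, fun y hy => by rw [smul_dotProduct, hy, smul_zero]⟩
    · rw [nl_smul, norm_inv, Complex.norm_real, Real.norm_of_nonneg (nl_nonneg l),
        inv_mul_cancel₀ h]
    · rw [smul_smul, mul_inv_cancel₀ (by exact_mod_cast h), one_smul]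

theorem n1_norm {G : MP ν} (hG : G.IsHomogeneous d) : ∃ G' : MP ν, G'.IsHomogeneous d ∧
    n1 G' ≤ 1 ∧ G = (n1 G : ℂ) • G' := by
  by_cases h : n1 G = 0
  · exact ⟨0, isHomogeneous_zero _ _ _, by simp [n1_zero], by rw [n1_eq_zero h, smul_zero]⟩
  · refine ⟨(n1 G : ℂ)⁻¹ • G, hom_smul _ hG, ?_, ?_⟩
    · rw [n1_smul, norm_inv, Complex.norm_real, Real.norm_of_nonneg (n1_nonneg G),
        inv_mul_cancel₀ h]
    · rw [smul_smul, mul_inv_cancel₀ (by exact_mod_cast h), one_smul]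

theorem scale (ψ : MP ν →ₗ[ℂ] (κ → ℂ)) {l l' : Fin ν → ℂ} {G G' : MP ν} (h : l = (nl l : ℂ) • l')
    (h' : G = (n1 G : ℂ) • G') :
    ψ (LL l * G) = ((nl l * n1 G : ℝ) : ℂ) • ψ (LL l' * G') := by
  conv_lhs => rw [h, h']
  rw [LL_smul, smul_mul_smul_comm, map_smul, Complex.ofReal_mul]

theorem ex_of_not (h : ¬Bk d ψ x σ k M) : ∃ (r : Fin k → κ) (l : Fin k → Fin ν → ℂ) (G : MP ν),
    (∀ i, r i ∈ σ) ∧ (∀ i, l i ⬝ᵥ x = 0) ∧ G.IsHomogeneous d ∧ (∀ i, nl (l i) ≤ 1) ∧ n1 G ≤ 1 ∧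
    M < ‖dt r fun i => ψ (LL (l i) * G)‖ := by
  by_contra hc
  push Not at hc
  refine h fun r l G h1 h2 h3 => ?_
  choose l' a1 a2 a3 using fun i => nl_norm (l i)
  obtain ⟨G', b1, b2, b3⟩ := n1_norm h3
  have := hc r l' G' h1 (fun i => a3 i x (h2 i)) b1 a1 b2
  have h0 : 0 ≤ ∏ i, nl (l i) * n1 G :=
    Finset.prod_nonneg fun _ _ => mul_nonneg (nl_nonneg _) (n1_nonneg _)
  simp only [fun i => scale ψ (a2 i) b3]
  rw [AlternatingMap.map_smul_univ, norm_smul, ← Complex.ofReal_prod, Complex.norm_real,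
    Real.norm_of_nonneg h0, mul_comm]
  exact mul_le_mul_of_nonneg_right this h0

theorem dt_row (k₀ : κ) (r : Fin k → κ) (u : κ → ℂ) (c : Fin k → κ → ℂ) :
    dt (Fin.cons k₀ r : Fin (k + 1) → κ) (Fin.cons u c) = u k₀ * dt r c + ∑ i : Fin k, u (r i) *
      ((-1) ^ (i.succ : ℕ) *
        dt (fun j => (Fin.cons k₀ r : Fin (k + 1) → κ) (i.succ.succAbove j)) c) := by
  rw [dt_apply, Matrix.det_succ_row_zero, Fin.sum_univ_succ]
  congr 1
  · simp [dt_apply]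
    left; rfl
  · refine Finset.sum_congr rfl fun i _ => ?_
    rw [mul_comm (u (r i)), mul_right_comm]
    rfl

theorem dot_psi (ψ : MP ν →ₗ[ℂ] (κ → ℂ)) (l : Fin ν → ℂ) (G : MP ν) (e : κ) :
    (l ⬝ᵥ fun a => ψ (X a * G) e) = ψ (LL l * G) e := by
  rw [LL, Finset.sum_mul, map_sum, Finset.sum_apply]
  refine Finset.sum_congr rfl fun a _ => ?_
  rw [smul_mul_assoc, map_smul, Pi.smul_apply, smul_eq_mul]

theorem core [Fintype κ] {θ : ℝ} (hθ : 0 < θ) (hM : 0 < M) (hk : Bk d ψ x σ k M)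
    (hk' : Bk d ψ x σ (k + 1) (θ * M)) {r : Fin k → κ} {l : Fin k → Fin ν → ℂ} {G₀ : MP ν}
    (h1 : ∀ i, r i ∈ σ) (h2 : ∀ i, l i ⬝ᵥ x = 0) (h3 : G₀.IsHomogeneous d)
    (h4 : ∀ i, nl (l i) ≤ 1) (h5 : n1 G₀ ≤ 1) (hD : M / 2 < ‖dt r fun i => ψ (LL (l i) * G₀)‖)
    {k₀ : κ} (hk₀ : k₀ ∈ σ) {m : Fin ν → ℂ} {G : MP ν} (m1 : m ⬝ᵥ x = 0) (m2 : nl m ≤ 1)
    (m3 : ∀ i, ψ (LL m * G₀) (r i) = 0) (g1 : G.IsHomogeneous d) (g2 : n1 G ≤ 1) :
    ‖dt (Fin.cons k₀ r : Fin (k + 1) → κ)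
      (Fin.cons (ψ (LL m * G)) fun i => ψ (LL (l i) * G₀))‖ ≤ 2 ^ (k + 2) * θ * M := by
  have hr : ∀ i, (Fin.cons k₀ r : Fin (k + 1) → κ) i ∈ σ := Fin.cases hk₀ h1
  have hl : ∀ i, (Fin.cons m l : Fin (k + 1) → Fin ν → ℂ) i ⬝ᵥ x = 0 := Fin.cases m1 h2
  have hn : ∀ i, nl ((Fin.cons m l : Fin (k + 1) → Fin ν → ℂ) i) ≤ 1 := Fin.cases m2 h4
  have e : ∀ P : MP ν, (fun i => ψ (LL ((Fin.cons m l : Fin (k + 1) → Fin ν → ℂ) i) * P)) =
      Fin.cons (ψ (LL m * P)) fun i => ψ (LL (l i) * P) := fun P => funext (Fin.cases rfl fun _ => rfl)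
  have eW : ∀ c, dt (Fin.cons k₀ r : Fin (k + 1) → κ) (Fin.cons (ψ (LL m * G₀)) c) =
      ψ (LL m * G₀) k₀ * dt r c := fun c => by
    rw [dt_row]; simp [m3]
  have hw : ‖ψ (LL m * G₀) k₀‖ ≤ 2 * θ := by
    have := hk'.le (by positivity) hr hl h3 hn h5
    rw [e, eW, norm_mul, one_pow, mul_one] at this
    have h6 := mul_le_mul_of_nonneg_left hD.le (norm_nonneg (ψ (LL m * G₀) k₀))
    refine le_of_mul_le_mul_right ?_ hM
    linarith
  have hd : Differentiable ℂ fun t : ℂ => dt (Fin.cons k₀ r : Fin (k + 1) → κ)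
      (Fin.cons (ψ (LL m * G)) fun i => ψ (LL (l i) * (G₀ + t • G))) := by
    rw [← differentiableOn_univ]
    refine differentiableOn_dt_cons _ (differentiableOn_const _) fun i => ?_
    simp only [mul_add, mul_smul_comm, map_add, map_smul]
    fun_prop
  have := Complex.norm_le_of_forall_mem_frontier_norm_le (isBounded_ball (x := (0 : ℂ)) (r := 1))
    hd.diffContOnCl (C := 2 ^ (k + 2) * θ * M) (fun t ht => ?_) (z := 0)
    (subset_closure (mem_ball_self one_pos))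
  · simpa using this
  rw [frontier_ball _ one_ne_zero, mem_sphere_zero_iff_norm] at ht
  have g3 : (G₀ + t • G).IsHomogeneous d := h3.add (hom_smul _ g1)
  have g4 : n1 (G₀ + t • G) ≤ 2 := (n1_add_le _ _).trans (by rw [n1_smul, ht]; linarith)
  have s1 := hk'.le (by positivity) hr hl g3 hn g4
  have s2 := hk.le hM.le h1 h2 g3 h4 g4
  rw [e, mul_add (LL m), mul_smul_comm, map_add, map_smul, dt_cons_add, dt_cons_smul, eW] at s1
  have s3 := norm_sub_le_of_le s1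
    ((norm_mul_le _ _).trans (mul_le_mul hw s2 (norm_nonneg _) (by positivity)))
  rw [add_sub_cancel_left, norm_mul, ht, one_mul] at s3
  exact s3.trans_eq (by ring)

end FlAux

open FlAux in
theorem flS : FlStmt := by
  classical
  intro ν d p κ _ ψ x σ θ hp hθ h
  have h0 : ¬Bk d ψ x σ 0 (θ ^ 0 / 2) := fun h0 => by
    have := h0 Fin.elim0 Fin.elim0 0 (fun i => i.elim0) (fun i => i.elim0)
      (isHomogeneous_zero _ _ _)
    rw [dt_zero] at this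
    norm_num at this
  obtain ⟨k, hkp, hk1, hk2⟩ : ∃ k < p, Bk d ψ x σ (k + 1) (θ ^ (k + 1)) ∧
      ¬Bk d ψ x σ k (θ ^ k / 2) := by
    by_contra hc
    push Not at hc
    have key : ∀ n k, k + 1 + n = p → Bk d ψ x σ k (θ ^ k / 2) := fun n => by
      induction n with
      | zero => intro k e; exact hc k (by omega) (by subst e; exact h)
      | succ n ih =>
        intro k e
        exact hc k (by omega) ((ih (k + 1) (by omega)).mono (half_le_self (by positivity)))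
    exact h0 (key (p - 1) 0 (by omega))
  have hex : ∃ n : ℕ, Bk d ψ x σ k (θ ^ k * 2 ^ n) := by
    obtain ⟨M, hM⟩ := ex_bk (d := d) (ψ := ψ) (x := x) (σ := σ) k
    obtain ⟨n, hn⟩ := pow_unbounded_of_one_lt (M / θ ^ k) (one_lt_two (α := ℝ))
    refine ⟨n, hM.mono ?_⟩
    rw [div_lt_iff₀ (by positivity)] at hn
    linarith
  obtain ⟨M, hM, a1, a2, a3⟩ : ∃ M, 0 < M ∧ Bk d ψ x σ k M ∧ Bk d ψ x σ (k + 1) (θ * M) ∧
      ¬Bk d ψ x σ k (M / 2) := by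
    refine ⟨θ ^ k * 2 ^ Nat.find hex, by positivity, Nat.find_spec hex, hk1.mono ?_, ?_⟩
    · rw [pow_succ', ← mul_assoc]
      exact le_mul_of_one_le_right (by positivity) (one_le_pow₀ one_le_two)
    · rcases e : Nat.find hex with _ | n
      · simpa using hk2
      · have := Nat.find_min hex (m := n) (by omega)
        rwa [pow_succ, ← mul_assoc, mul_div_cancel_right₀ _ two_ne_zero]
  obtain ⟨r, l, G₀, h1, h2, h3, h4, h5, hD⟩ := ex_of_not a3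
  set D := dt r fun i => ψ (LL (l i) * G₀) with hDe
  have hD0 : 0 < ‖D‖ := (half_pos hM).trans hD
  refine ⟨k, r, fun j => if hj : (j : ℕ) < k then fun a => ψ (X a * G₀) (r ⟨j, hj⟩) else x,
    fun k₀ i => -((-1) ^ (i.succ : ℕ) * dt (fun j => (Fin.cons k₀ r : Fin (k + 1) → κ)
      (i.succ.succAbove j)) fun i => ψ (LL (l i) * G₀)) / D, hkp, fun k₀ hk₀ m G hm hG => ?_⟩
  obtain ⟨m', b1, b2, b3⟩ := nl_norm m
  obtain ⟨G', c1, c2, c3⟩ := n1_norm hG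
  have m1 : m' ⬝ᵥ x = 0 := by simpa using b3 _ (hm ⟨k, hkp⟩)
  have m3 : ∀ i, ψ (LL m' * G₀) (r i) = 0 := fun i => by
    have := b3 _ (hm ⟨i, i.2.trans hkp⟩)
    simp only [dif_pos i.2] at this
    rwa [dot_psi] at this
  have hc := core hθ hM a1 a2 h1 h2 h3 h4 h5 hD hk₀ m1 b1 m3 c1 c2
  rw [dt_row, ← hDe] at hc
  have hn : 0 ≤ nl m * n1 G := mul_nonneg (nl_nonneg _) (n1_nonneg _)
  rw [scale ψ b2 c3]
  generalize ψ (LL m' * G') = v at hc ⊢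
  have key : ∀ (c : Fin k → ℂ) (a : ℂ), (a • v) k₀ - ∑ i, -c i / D * (a • v) (r i) =
      a * ((v k₀ * D + ∑ i, v (r i) * c i) / D) := fun c a => by
    have : D ≠ 0 := norm_pos_iff.1 hD0
    rw [add_div, mul_div_cancel_right₀ _ this, Finset.sum_div, mul_add, Finset.mul_sum,
      sub_eq_add_neg, ← Finset.sum_neg_distrib]
    congr 1
    exact Finset.sum_congr rfl fun i _ => by rw [Pi.smul_apply, smul_eq_mul]; ring
  rw [key, norm_mul, Complex.norm_real, Real.norm_of_nonneg hn, mul_comm, norm_div]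
  refine mul_le_mul_of_nonneg_right ?_ hn
  rw [div_le_iff₀ hD0]
  have p1 : (2 : ℝ) ^ (k + 3) ≤ 4 ^ (p + 1) := by
    rw [show (4 : ℝ) = 2 ^ 2 by norm_num, ← pow_mul]
    exact pow_le_pow_right₀ one_le_two (by omega)
  calc _ ≤ _ := hc
    _ = 2 ^ (k + 3) * θ * (M / 2) := by ring
    _ ≤ _ := mul_le_mul (mul_le_mul_of_nonneg_right p1 hθ.le) hD.le (half_pos hM).le
      (by positivity)

end

end Pool.Agent.Lib.MP_45f16c_ag.EX
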