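import Pool.Agent.Lib.MP_45f16c_ag.EX.BR

/-! The data after killing. -/

set_option autoImplicit false
open Metric MeasureTheory MvPolynomial Filter Real
open scoped ComplexConjugate Matrix Topology

namespace Pool.Agent.Lib.MP_45f16c_ag.EX

open AS

noncomputable section

namespace KDAux

variable {ν dF j : ℕ}

theorem eval_prj (y : Fin j → Mon ν dF → ℂ) (n : Mon ν dF) (x : Fin ν → ℂ) :
    eval x (form (prj y n)) = mon n x - ∑ l, conj (y l n) * eval x (form (y l)) := by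
  rw [prj, form_sub, form_sum, map_sub, map_sum, eval_form (Pi.single n 1),
    Finset.sum_eq_single n (fun b _ hb => by simp [hb]) (by simp)]
  simp only [form_smul, smul_eval, Pi.single_eq_same, one_mul]

theorem hom_prod {a d : ℕ} (U : Fin a → Fin ν → ℂ) {g : MP ν} (hg : g.IsHomogeneous (d + 1)) :
    ((∏ i, LL (U i)) * g).IsHomogeneous (a + (d + 1)) := by
  have h := IsHomogeneous.prod Finset.univ (fun i => LL (U i)) (fun _ => 1) fun i _ => LL_hom (U i)
  simpa using h.mul hg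

theorem n1_prod {a : ℕ} {U : Fin a → Fin ν → ℂ} (hU : ∀ i, nl (U i) ≤ 1) (g : MP ν) :
    n1 ((∏ i, LL (U i)) * g) ≤ n1 g := by
  have h : n1 (∏ i, LL (U i)) ≤ 1 := (n1_prod_le _ _).trans
    (Finset.prod_le_one (fun _ _ => n1_nonneg _) fun i _ => (n1_LL_le _).trans (hU i))
  simpa using n1_mul_le' h (le_refl (n1 g))

/-- The algebraic identity. -/
theorem ident (P : MP ν) (Gr : Fin ν → ℂ) (ξ : Mon ν dF → Fin ν → ℂ) (w : Mon ν dF → Fin j → ℂ)
    (Y : Fin j → ℂ) (R : Matrix (Fin j) (Fin j) ℂ) (m : Mon ν dF → ℂ) :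
    Sum.elim Gr (fun e' => -∑ l, Y l * R l e') ⬝ᵥ TT (fun n => Sum.elim (ξ n) (w n)) P +
        ∑ n : Mon ν dF, coeff n.1 P * m n =
      ∑ n : Mon ν dF, coeff n.1 P * (m n - ∑ l, w n l * Y l + Gr ⬝ᵥ ξ n) +
        ∑ l, Y l * (TT w P - R *ᵥ TT w P) l := by
  have e0 : TT (fun n => Sum.elim (ξ n) (w n)) P = Sum.elim (TT ξ P) (TT w P) := by
    ext (e | e) <;> simp [TT_apply']
  have e1 : (fun e' => -∑ l, Y l * R l e') ⬝ᵥ TT w P = -∑ l, Y l * (R *ᵥ TT w P) l := by
    simp only [dotProduct, Matrix.mulVec, neg_mul, Finset.sum_neg_distrib, Finset.sum_mul,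
      Finset.mul_sum, mul_assoc]
    rw [Finset.sum_comm]
  have e2 : ∑ l, Y l * TT w P l = ∑ n : Mon ν dF, coeff n.1 P * ∑ l, w n l * Y l := by
    simp only [TT_apply', Finset.mul_sum]
    rw [Finset.sum_comm]
    exact Finset.sum_congr rfl fun n _ => Finset.sum_congr rfl fun l _ => by ring
  rw [e0, sumElim_dotProduct_sumElim, e1, dot_TT]
  simp only [Pi.sub_apply, mul_sub, mul_add, Finset.sum_sub_distrib, Finset.sum_add_distrib, e2]
  ring

theorem sum_le {n : ℕ} {u : Fin n → ℝ} {B : ℝ} (h : ∀ i, u i ≤ B) : ∑ i, u i ≤ n * B :=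
  (Finset.sum_le_card_nsmul _ _ B fun i _ => h i).trans (by simp)

end KDAux

open KDAux in
theorem kDS : KDStmt := by
  intro ν dF j C hC
  obtain ⟨M, hM0, hM⟩ : ∃ M : ℝ, 0 ≤ M ∧ ∀ c : Mon ν dF → ℂ, ‖c‖ ≤ 1 → ∀ x : Fin ν → ℂ,
      ‖eval x (form c)‖ ≤ M * ‖x‖ ^ dF := by
    refine ⟨Fintype.card (Mon ν dF), Nat.cast_nonneg _, fun c hc x => ?_⟩
    have h := norm_eval_form_le c x
    generalize Fintype.card (Mon ν dF) = k at h ⊢
    generalize ‖eval x (form c)‖ = s at h ⊢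
    refine h.trans ?_
    have : (k : ℝ) * ‖c‖ ≤ k := mul_le_of_le_one_right (Nat.cast_nonneg _) hc
    gcongr
  obtain ⟨M', hM0', hM'⟩ : ∃ M' : ℝ, 0 ≤ M' ∧ ∀ c : Mon ν dF → ℂ, ‖c‖ ≤ 1 → ∀ x : Fin ν → ℂ,
      ‖grad c x‖ ≤ M' * ‖x‖ ^ (dF - 1) := by
    refine ⟨Fintype.card (Mon ν (dF - 1)) * (dF + 1), mul_nonneg (Nat.cast_nonneg _)
      (add_nonneg (Nat.cast_nonneg _) zero_le_one), fun c hc x => ?_⟩
    have h := norm_grad_le c x
    generalize Fintype.card (Mon ν (dF - 1)) = k at h ⊢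
    generalize ‖grad c x‖ = s at h ⊢
    refine h.trans ?_
    have : ((dF : ℝ) + 1) * ‖c‖ ≤ dF + 1 := mul_le_of_le_one_right (by positivity) hc
    gcongr
  have hC0 : 0 ≤ C := zero_le_one.trans hC
  have p1 : 0 ≤ ν * M' := by positivity
  have p2 : 0 ≤ j * (j * (M * C)) := by positivity
  have p3 : 0 ≤ j * (M * C) := by positivity
  refine ⟨1 + ν * M' + j * (j * (M * C)) + j * (M * C), by linarith, ?_⟩
  intro p s₀ d a c y f ξ U J R Λ E θ θ' hd hc hy hξ hΛ hE hθ h hK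
  have hyl : ∀ l, ‖y l‖ ≤ 1 := fun l => (norm_le_pi_norm y l).trans hy
  have hP : ∀ g : MP ν, g.IsHomogeneous (d + 1) → ((∏ i, LL (U i)) * g).IsHomogeneous dF :=
    fun g hg => hd ▸ hom_prod U hg
  refine ⟨fun z => TT (fun n => Sum.elim (ξ n z) fun l => conj (y l n)) ∘ₗ
    LinearMap.mulLeft ℂ (∏ i, LL (U i)), ?_, hK.nU, fun z hz g hg => ⟨fun e => ?_, fun e => ?_⟩,
    fun z hz => ?_, fun z => ?_⟩
  · refine holT_TT (fun n => differentiable_pi.2 ?_) _
    rintro (e | e)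
    · exact differentiable_pi.1 (hξ n) e
    · exact differentiable_const _
  · refine (norm_TT_le (fun n => Sum.elim (ξ n z) fun l => conj (y l n)) (hP g hg)
      (e := Sum.inl e) (B := Λ * ‖f z‖) fun n =>
      (norm_le_pi_norm (ξ n z) e).trans (h z hz n).1).trans ?_
    exact mul_le_mul_of_nonneg_left (n1_prod hK.nU g) (by positivity)
  · refine (norm_TT_le (fun n => Sum.elim (ξ n z) fun l => conj (y l n)) (hP g hg)
      (e := Sum.inr e) (B := 1) fun n => ?_).trans ?_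
    · change ‖conj (y e n)‖ ≤ 1
      rw [RCLike.norm_conj]
      exact (norm_le_pi_norm (y e) n).trans (hyl e)
    · rw [one_mul]; exact n1_prod hK.nU g
  · have hz' := fun n => (h z hz n).2
    simp only [eval_prj, lf_eq] at hz'
    have hY : ∀ l, ‖eval (f z) (form (y l))‖ ≤ M * ‖f z‖ ^ dF := fun l => hM _ (hyl l) _
    have hG := hM' c hc (f z)
    generalize grad c (f z) = Gr at hz' hG
    obtain ⟨Y, hYe⟩ : ∃ Y : Fin j → ℂ, ∀ l, eval (f z) (form (y l)) = Y l := ⟨_, fun _ => rfl⟩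
    simp only [hYe] at hz' hY
    have hS : 0 ≤ ‖f z‖ ^ dF := by positivity
    refine ⟨Sum.elim Gr fun e' => -∑ l, Y l * R l e', ?_, ?_, fun g hg => ?_⟩
    · rintro (e | e) he
      · exact absurd (Finset.inl_mem_disjSum.2 (Finset.mem_univ e)) he
      · have he' : e ∉ J := fun h' => he (Finset.inr_mem_disjSum.2 h')
        simp [hK.sup _ e he']
    · rw [Fintype.sum_sum_type]
      have b1 : ∑ e : Fin ν, ‖Gr e‖ * ‖f z‖ ^ 1 ≤ ν * (M' * ‖f z‖ ^ dF) := sum_le fun e => by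
        have e1 : ‖f z‖ ^ dF = ‖f z‖ ^ (dF - 1) * ‖f z‖ ^ 1 := by
          rw [← pow_add]; congr 1; omega
        rw [e1, ← mul_assoc]
        exact mul_le_mul_of_nonneg_right ((norm_le_pi_norm Gr e).trans hG) (by positivity)
      have b2 : ∑ e : Fin j, ‖-∑ l, Y l * R l e‖ * ‖f z‖ ^ 0 ≤
          j * (j * (M * ‖f z‖ ^ dF * C)) := sum_le fun e => by
        rw [pow_zero, mul_one, norm_neg]
        refine (norm_sum_le _ _).trans (sum_le fun l => ?_)
        rw [norm_mul]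
        exact mul_le_mul (hY l) (hK.nR l e) (norm_nonneg _) (by positivity)
      refine (add_le_add b1 b2).trans ?_
      nlinarith [mul_nonneg p3 hS]
    · have e1 : (∏ i, U i ⬝ᵥ f z) * eval (f z) g =
          ∑ n : Mon ν dF, coeff n.1 ((∏ i, LL (U i)) * g) * mon n (f z) := by
        rw [← eval_eq_sum_mon (hP g hg), map_mul, map_prod]
        simp only [eval_LL]
      have e2 := ident ((∏ i, LL (U i)) * g) Gr (fun n => ξ n z) (fun n l => conj (y l n)) Y R
        fun n => mon n (f z)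
      have b1 := norm_sum_coeff_le (hP g hg) hz'
      have b2 := hK.err g hg
      have b3 := n1_prod hK.nU g
      have b4 := n1_nonneg g
      rw [LinearMap.comp_apply, LinearMap.mulLeft_apply, e1, e2]
      refine (norm_add_le _ _).trans ?_
      generalize TT (fun n l => conj (y l n)) ((∏ i, LL (U i)) * g) -
        R *ᵥ TT (fun n l => conj (y l n)) ((∏ i, LL (U i)) * g) = v at b2 ⊢
      have b5 : ‖∑ l, Y l * v l‖ ≤ j * (M * ‖f z‖ ^ dF * (C * θ * n1 g)) := by
        refine (norm_sum_le _ _).trans (sum_le fun l => ?_)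
        rw [norm_mul]
        exact mul_le_mul (hY l) ((norm_le_pi_norm v l).trans b2) (norm_nonneg _) (by positivity)
      refine (add_le_add (b1.trans (mul_le_mul_of_nonneg_left b3 (by positivity))) b5).trans ?_
      have q : 0 ≤ θ * ‖f z‖ ^ dF * n1 g := by positivity
      nlinarith [mul_nonneg p1 q, mul_nonneg p2 q]
  · have e : obs (TT (fun n => Sum.elim (ξ n z) fun l => conj (y l n)) ∘ₗ
        LinearMap.mulLeft ℂ (∏ i, LL (U i))) =
        TT (fun n l => conj (y l n)) ∘ₗ LinearMap.mulLeft ℂ (∏ i, LL (U i)) := by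
      refine LinearMap.ext fun g => funext fun l => ?_
      exact (TT_apply' _ _ (Sum.inr l)).trans (TT_apply' (fun n l => conj (y l n)) _ l).symm
    rw [e]
    exact hK.nk

end

end Pool.Agent.Lib.MP_45f16c_ag.EX
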