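import Pool.Agent.Lib.MP_45f16c_ag.EX.BR

/-! Killing obstructions. -/

set_option autoImplicit false
open Metric MeasureTheory MvPolynomial Filter Real
open scoped ComplexConjugate Matrix Topology

namespace Pool.Agent.Lib.MP_45f16c_ag.EX

open AS

noncomputable section

namespace KillAux

/-- A basis of the span of independent vectors in echelon form. -/
theorem exists_ph (hS : SubspStmt) {j s : ℕ} (Φ : Fin s → Fin j → ℂ)
    (hΦ : LinearIndependent ℂ Φ) : ∃ (e : Fin s → Fin j) (ph : Fin s → Fin j → ℂ),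
      Function.Injective e ∧ (∀ i, ph i ∈ Submodule.span ℂ (Set.range Φ)) ∧
      (∀ i, ‖ph i‖ ≤ s + 1) ∧ ∀ i i', ph i (e i') = if i' = i then 1 else 0 := by
  have hs : s ≤ j := by simpa using hΦ.fintype_card_le_finrank
  obtain ⟨e, A, he, hA, hr⟩ := hS j s Φ hs
  set M : Fin s → Fin s → ℂ := fun κ i => Φ κ (e i) with hM
  have hc : Φ = linL e A ∘ M := funext fun κ => sub_eq_zero.1 (hr κ)
  have hM' : LinearIndependent ℂ M := LinearIndependent.of_comp (linL e A) (hc ▸ hΦ)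
  have htop : Submodule.span ℂ (Set.range M) = ⊤ :=
    hM'.span_eq_top_of_card_eq_finrank' (by simp)
  refine ⟨e, fun i => lin e A (Pi.single i 1), he, fun i => ?_, fun i => ?_, fun i i' => ?_⟩
  · rw [hc, Set.range_comp, Submodule.span_image, htop]
    exact ⟨Pi.single i 1, trivial, rfl⟩
  · refine (norm_lin_le he A _).trans ?_
    rw [Pi.norm_single, norm_one, mul_one]
    have h0 : (0 : ℝ) ≤ s := Nat.cast_nonneg s
    nlinarith
  · exact (lin_apply_e he A _ i').trans (Pi.single_apply _ _ _)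

theorem span_sup {j s : ℕ} {Φ : Fin s → Fin j → ℂ} {J : Finset (Fin j)}
    (h : ∀ k e, e ∉ J → Φ k e = 0) {φ : Fin j → ℂ} (hφ : φ ∈ Submodule.span ℂ (Set.range Φ))
    {e : Fin j} (he : e ∉ J) : φ e = 0 := by
  obtain ⟨c, rfl⟩ := (Submodule.mem_span_range_iff_exists_fun ℂ).1 hφ
  simp [Finset.sum_apply, h _ e he]

/-- The state after `a` steps. -/
structure St {ν j : ℕ} (dF s₀ : ℕ) (M : ℝ) (ψ : MP ν →ₗ[ℂ] (Fin j → ℂ)) (θ : ℕ → ℝ)
    (Or : (Fin ν → ℂ) → Prop) (a d : ℕ) (U : Fin a → Fin ν → ℂ) (J : Finset (Fin j))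
    (R : Matrix (Fin j) (Fin j) ℂ) : Prop where
  deg : a + (d + 1) = dF
  card : J.card + a * s₀ ≤ j
  ora : ∀ i, Or (U i)
  nU : ∀ i, nl (U i) ≤ 1
  sup : ∀ e e', e' ∉ J → R e e' = 0
  nR : ∀ e e', ‖R e e'‖ ≤ M ^ a
  err : ∀ g : MP ν, g.IsHomogeneous (d + 1) →
    ‖ψ ((∏ i, LL (U i)) * g) - R *ᵥ ψ ((∏ i, LL (U i)) * g)‖ ≤ M ^ a * θ a * n1 g

theorem start {ν j dF s₀ : ℕ} (M : ℝ) (ψ : MP ν →ₗ[ℂ] (Fin j → ℂ)) {θ : ℕ → ℝ}
    (Or : (Fin ν → ℂ) → Prop) (hd : 0 < dF) (hθ : 0 ≤ θ 0) :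
    St dF s₀ M ψ θ Or 0 (dF - 1) Fin.elim0 Finset.univ 1 where
  deg := by omega
  card := by simp
  ora i := i.elim0
  nU i := i.elim0
  sup e e' h := (h (Finset.mem_univ _)).elim
  nR e e' := by
    rw [Matrix.one_apply, pow_zero]
    split_ifs <;> simp
  err g _ := by
    rw [Matrix.one_mulVec, sub_self, norm_zero, pow_zero, one_mul]
    exact mul_nonneg hθ (n1_nonneg g)

theorem sum_le {s : ℕ} {u v : Fin s → ℂ} {A B : ℝ} (hA : 0 ≤ A) (hu : ∀ i, ‖u i‖ ≤ A)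
    (hv : ∀ i, ‖v i‖ ≤ B) : ‖∑ i, u i * v i‖ ≤ s * (A * B) := by
  refine (norm_sum_le _ _).trans ?_
  have h : ∀ i ∈ (Finset.univ : Finset (Fin s)), ‖u i * v i‖ ≤ A * B := fun i _ => by
    rw [norm_mul]
    exact mul_le_mul (hu i) (hv i) (norm_nonneg _) hA
  simpa using Finset.sum_le_card_nsmul _ _ _ h

theorem step (hS : SubspStmt) {ν j dF s₀ p e a d : ℕ} {ψ : MP ν →ₗ[ℂ] (Fin j → ℂ)} {θ : ℕ → ℝ}
    {Or : (Fin ν → ℂ) → Prop} {U : Fin a → Fin ν → ℂ} {J : Finset (Fin j)}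
    {R : Matrix (Fin j) (Fin j) ℂ} (hs : 1 ≤ s₀) (hj : j ≤ s₀ * e) (he : e < dF)
    (h0 : ∀ i, 0 ≤ θ i) (hm : Monotone θ)
    (hO : ∀ b : Fin p → Fin ν → ℂ, ∃ U, (∀ κ, U ⬝ᵥ b κ = 0) ∧ nl U ≤ 1 ∧ Or U)
    (h : St dF s₀ (s₀ * (s₀ + 1) + 1) ψ θ Or a d U J R)
    (hn : ¬NK (ψ ∘ₗ LinearMap.mulLeft ℂ (∏ i, LL (U i))) J d p s₀ (θ (a + 1))) :
    ∃ (d' : ℕ) (U' : Fin (a + 1) → Fin ν → ℂ) (J' : Finset (Fin j))
      (R' : Matrix (Fin j) (Fin j) ℂ),
      St dF s₀ (s₀ * (s₀ + 1) + 1) ψ θ Or (a + 1) d' U' J' R' := by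
  classical
  set M : ℝ := s₀ * (s₀ + 1) + 1 with hM
  have hs0 : (0 : ℝ) ≤ s₀ := Nat.cast_nonneg _
  have hM0 : 0 ≤ M := by positivity
  have hMa : 0 ≤ M ^ a := pow_nonneg hM0 a
  unfold NK at hn
  push Not at hn
  obtain ⟨b, Φ, hΦ, hsup, hk⟩ := hn
  obtain ⟨U₀, hU₀, hU₁, hU₂⟩ := hO b
  obtain ⟨ε, ph, hε, hsp, hnm, hδ⟩ := exists_ph hS Φ hΦ
  have hεJ : ∀ i, ε i ∈ J := fun i => by
    by_contra hc
    have h1 := span_sup hsup (hsp i) hc
    rw [hδ, if_pos rfl] at h1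
    exact one_ne_zero h1
  have hsub : Finset.univ.image ε ⊆ J := fun x hx => by
    obtain ⟨i, -, rfl⟩ := Finset.mem_image.1 hx
    exact hεJ i
  have hci : (Finset.univ.image ε).card = s₀ := by
    rw [Finset.card_image_of_injective _ hε, Finset.card_univ, Fintype.card_fin]
  have hcard : (J \ Finset.univ.image ε).card + (a + 1) * s₀ ≤ j := by
    have h1 := Finset.card_sdiff_add_card_eq_card hsub
    have h2 := h.card
    rw [hci] at h1
    rw [add_mul, one_mul]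
    omega
  have hd : 1 ≤ d := by
    have h1 : s₀ * (a + 1) ≤ s₀ * e := by
      rw [mul_comm s₀ (a + 1)]
      omega
    have h2 := Nat.le_of_mul_le_mul_left h1 hs
    have h3 := h.deg
    omega
  obtain ⟨d', rfl⟩ : ∃ d', d = d' + 1 := ⟨d - 1, by omega⟩
  refine ⟨d', Fin.cons U₀ U, J \ Finset.univ.image ε,
    fun x y => R x y - ∑ i, R x (ε i) * ph i y, ?_, hcard, ?_, ?_, ?_, ?_, ?_⟩
  · have h3 := h.deg
    omega
  · exact Fin.cases hU₂ h.ora
  · exact Fin.cases hU₁ h.nU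
  · intro x y hy
    by_cases hyJ : y ∈ J
    · have h1 : y ∈ Finset.univ.image ε := by
        by_contra hc
        exact hy (Finset.mem_sdiff.2 ⟨hyJ, hc⟩)
      obtain ⟨i, -, rfl⟩ := Finset.mem_image.1 h1
      simp [hδ]
    · simp [h.sup x y hyJ, fun i => span_sup hsup (hsp i) hyJ]
  · intro x y
    have h1 := sum_le (u := fun i => R x (ε i)) (v := fun i => ph i y) hMa
      (fun i => h.nR x (ε i)) fun i => (norm_le_pi_norm (ph i) y).trans (hnm i)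
    have h2 := h.nR x y
    refine (norm_sub_le _ _).trans ?_
    calc ‖R x y‖ + ‖∑ i, R x (ε i) * ph i y‖ ≤ M ^ a + s₀ * (M ^ a * (s₀ + 1)) := add_le_add h2 h1
      _ = M ^ (a + 1) := by rw [pow_succ, hM]; ring
  · intro g hg
    have hp : (∏ i : Fin (a + 1), LL ((Fin.cons U₀ U : Fin (a + 1) → Fin ν → ℂ) i)) * g =
        (∏ i, LL (U i)) * (LL U₀ * g) := by
      rw [Fin.prod_univ_succ]
      simp only [Fin.cons_zero, Fin.cons_succ]
      ring
    rw [hp]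
    set v := ψ ((∏ i, LL (U i)) * (LL U₀ * g)) with hv
    have hg0 := n1_nonneg g
    have hθ := h0 (a + 1)
    have hng : nl U₀ * n1 g ≤ n1 g := mul_le_of_le_one_left hg0 hU₁
    have h1 : ‖v - R *ᵥ v‖ ≤ M ^ a * θ (a + 1) * n1 g := by
      refine (h.err _ (hom_LL_mul U₀ hg)).trans ?_
      exact mul_le_mul (mul_le_mul_of_nonneg_left (hm (Nat.le_succ a)) hMa)
        ((n1_LL_mul_le U₀ g).trans hng) (n1_nonneg _) (mul_nonneg hMa hθ)
    have h2 : ∀ i, ‖ph i ⬝ᵥ v‖ ≤ θ (a + 1) * (s₀ + 1) * n1 g := fun i => by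
      refine (hk (ph i) (hsp i) U₀ g hU₀ hg).trans ?_
      exact mul_le_mul (mul_le_mul_of_nonneg_left (hnm i) hθ) hng
        (mul_nonneg (nl_nonneg _) hg0) (by positivity)
    refine (pi_norm_le_iff_of_nonneg (by positivity)).2 fun x => ?_
    have h3 : (v - Matrix.mulVec (fun x y => R x y - ∑ i, R x (ε i) * ph i y) v) x =
        (v - R *ᵥ v) x + ∑ i, R x (ε i) * (ph i ⬝ᵥ v) := by
      simp only [Pi.sub_apply, Matrix.mulVec, dotProduct, sub_mul, Finset.sum_sub_distrib,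
        Finset.sum_mul, Finset.mul_sum, mul_assoc]
      rw [Finset.sum_comm]
      ring
    have h4 := sum_le (u := fun i => R x (ε i)) (v := fun i => ph i ⬝ᵥ v) hMa
      (fun i => h.nR x (ε i)) h2
    have h5 := (norm_le_pi_norm (v - R *ᵥ v) x).trans h1
    rw [h3]
    refine (norm_add_le _ _).trans ?_
    calc _ ≤ M ^ a * θ (a + 1) * n1 g + s₀ * (M ^ a * (θ (a + 1) * (s₀ + 1) * n1 g)) :=
          add_le_add h5 h4
      _ = M ^ (a + 1) * θ (a + 1) * n1 g := by rw [pow_succ, hM]; ring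

end KillAux

theorem killS (hS : SubspStmt) : KillStmt := by
  intro j s₀ hs
  set M : ℝ := s₀ * (s₀ + 1) + 1 with hM
  have hs0 : (0 : ℝ) ≤ s₀ := Nat.cast_nonneg _
  have hM1 : 1 ≤ M := le_add_of_nonneg_left (by positivity)
  refine ⟨M ^ j, one_le_pow₀ hM1, fun ν dF p e ψ θ Or hj he h0 hm hO => ?_⟩
  by_contra hc
  have key : ∀ a : ℕ, ∃ (d : ℕ) (U : Fin a → Fin ν → ℂ) (J : Finset (Fin j))
      (R : Matrix (Fin j) (Fin j) ℂ), KillAux.St dF s₀ M ψ θ Or a d U J R := by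
    intro a
    induction a with
    | zero => exact ⟨_, _, _, _, KillAux.start M ψ Or (by omega) (h0 0)⟩
    | succ a ih =>
      obtain ⟨d, U, J, R, h⟩ := ih
      refine KillAux.step hS hs hj he h0 hm hO h fun hn => hc ?_
      have h1 : a * s₀ ≤ j := le_of_add_le_right h.card
      have h2 : a ≤ j := (Nat.le_mul_of_pos_right a hs).trans h1
      have h3 : M ^ a ≤ M ^ j := pow_le_pow_right₀ hM1 h2
      refine ⟨a, d, U, J, R, h.deg, h1, h.ora, h.nU, h.sup, fun x y => (h.nR x y).trans h3,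
        fun g hg => (h.err g hg).trans ?_, hn⟩
      exact mul_le_mul_of_nonneg_right (mul_le_mul_of_nonneg_right h3 (h0 a)) (n1_nonneg g)
  obtain ⟨d, U, J, R, h⟩ := key (j + 1)
  have h1 : (j + 1) * s₀ ≤ j := le_of_add_le_right h.card
  have h2 := (Nat.le_mul_of_pos_right (j + 1) hs).trans h1
  omega

end

end Pool.Agent.Lib.MP_45f16c_ag.EX
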