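import Pool.Agent.Lib.MP_45f16c_ag.EX.BR

/-! Absence of lines is closed and quantitative. -/

set_option autoImplicit false
open Metric MeasureTheory MvPolynomial Filter Real
open scoped ComplexConjugate Matrix Topology

namespace Pool.Agent.Lib.MP_45f16c_ag.EX

open AS

noncomputable section

namespace NLcAux

variable {ν d : ℕ}

theorem cpt : IsCompact {U : Fin ν → ℂ | nl U ≤ 1} :=
  (isCompact_closedBall (0 : Fin ν → ℂ) 1).of_isClosed_subset
    (isClosed_le continuous_nl continuous_const) fun U hU =>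
      mem_closedBall_zero_iff.2 ((norm_le_nl U).trans hU)

theorem cont_ct {X : Type} [TopologicalSpace X] {U x u : X → Fin ν → ℂ} (hU : Continuous U)
    (hx : Continuous x) (hu : Continuous u) : Continuous fun v => ct (U v) (x v) (u v) :=
  ((hU.dotProduct hx).smul hu).sub ((hU.dotProduct hu).smul hx)

theorem ct_smul (a : ℂ) (U x u : Fin ν → ℂ) : ct (a • U) x u = a • ct U x u := by
  simp only [ct, smul_dotProduct, smul_sub, smul_smul, smul_eq_mul]

theorem exists_ct {x u : Fin ν → ℂ} (h : bv x u ≠ 0) (s t : ℂ) :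
    ∃ U, ct U x u = s • x + t • u := by
  obtain ⟨⟨b, b'⟩, hb⟩ := Function.ne_iff.1 h
  have hb' : x b * u b' - x b' * u b ≠ 0 := hb
  set p := x b * u b' - x b' * u b with hp
  refine ⟨Pi.single b ((t * u b' + s * x b') / p) + Pi.single b' ((-s * x b - t * u b) / p), ?_⟩
  have e1 : (t * u b' + s * x b') / p * x b + (-s * x b - t * u b) / p * x b' = t := by
    field_simp
    rw [hp]; ring
  have e2 : (t * u b' + s * x b') / p * u b + (-s * x b - t * u b) / p * u b' = -s := by
    field_simp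
    rw [hp]; ring
  simp only [ct, add_dotProduct, single_dotProduct, e1, e2, neg_smul, sub_neg_eq_add]
  exact add_comm _ _

theorem exists_ne (c : Mon ν d → ℂ) {x u : Fin ν → ℂ} (h : bv x u ≠ 0)
    (h' : ¬VanL x u (form c)) : ∃ U, nl U ≤ 1 ∧ eval (ct U x u) (form c) ≠ 0 := by
  simp only [VanL, not_forall] at h'
  obtain ⟨s, t, hst⟩ := h'
  obtain ⟨U, hU⟩ := exists_ct h s t
  have h0 : 0 < nl U + 1 := by linarith [nl_nonneg U]
  refine ⟨(((nl U + 1)⁻¹ : ℝ) : ℂ) • U, ?_, ?_⟩
  · rw [nl_smul, Complex.norm_real, Real.norm_of_nonneg (inv_pos.2 h0).le, inv_mul_le_iff₀ h0]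
    linarith
  · rw [ct_smul, eval_form_smul, hU]
    exact mul_ne_zero (pow_ne_zero _ (Complex.ofReal_ne_zero.2 (inv_pos.2 h0).ne')) hst

end NLcAux

open NLcAux in
theorem nLcS : NLcStmt := by
  intro ν d
  refine ⟨fun c₀ => isOpen_compl_iff.1 (isOpen_iff_mem_nhds.2 fun c hc => ?_), fun c hd h => ?_⟩
  · simp only [Set.mem_compl_iff, Set.mem_ofPred_eq, NL, not_forall, not_exists, not_and,
      not_le] at hc
    obtain ⟨x, u, hc⟩ := hc
    have h1 : ∀ᶠ c' in 𝓝 c, ∀ U ∈ {U : Fin ν → ℂ | nl U ≤ 1},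
        ‖eval (ct U x u) (form c')‖ < c₀ * ‖bv x u‖ ^ d :=
      cpt.eventually_forall_of_forall_eventually fun U hU =>
        (continuous_eval_form (X := (Mon ν d → ℂ) × (Fin ν → ℂ))
          (cont_ct continuous_snd continuous_const continuous_const)
            continuous_fst).norm.continuousAt.eventually_lt_const (hc U hU)
    filter_upwards [h1] with c' h1 h2
    obtain ⟨U, hU, h3⟩ := h2 x u
    exact absurd (h1 U hU) (not_lt.2 h3)
  · have hK : IsCompact ((closedBall (0 : Fin ν → ℂ) 1 ×ˢ closedBall (0 : Fin ν → ℂ) 1) ∩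
        {v | ‖bv v.1 v.2‖ = 1}) :=
      ((isCompact_closedBall _ _).prod (isCompact_closedBall _ _)).inter_right
        (isClosed_eq continuous_bv.norm continuous_const)
    obtain ⟨k, hk⟩ := hK.elim_directed_cover
      (fun k : ℕ => ⋃ U ∈ {U : Fin ν → ℂ | nl U ≤ 1},
        {v | 1 / ((k : ℝ) + 1) < ‖eval (ct U v.1 v.2) (form c)‖})
      (fun k => isOpen_biUnion fun U _ => isOpen_lt continuous_const
        (continuous_eval_form (cont_ct continuous_const continuous_fst continuous_snd)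
          continuous_const).norm)
      (fun v hv => by
        have h0 : bv v.1 v.2 ≠ 0 := fun h0 => by
          have h1 : ‖bv v.1 v.2‖ = 1 := hv.2
          rw [h0, norm_zero] at h1
          exact zero_ne_one h1
        obtain ⟨U, hU, h1⟩ := exists_ne c h0 fun h1 => h0 (h _ _ h1)
        obtain ⟨k, hk⟩ := exists_nat_one_div_lt (norm_pos_iff.2 h1)
        exact Set.mem_iUnion.2 ⟨k, Set.mem_biUnion hU hk⟩)
      (Monotone.directed_le fun k k' hk => Set.iUnion₂_mono fun U _ v hv =>
        Set.mem_ofPred_eq ▸ lt_of_le_of_lt (Nat.one_div_le_one_div hk) hv)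
    refine ⟨k, fun x u => ?_⟩
    by_cases h0 : bv x u = 0
    · refine ⟨0, by rw [nl_zero]; exact zero_le_one, ?_⟩
      rw [h0, norm_zero, zero_pow (by omega), mul_zero]
      exact norm_nonneg _
    obtain ⟨b, b', y, y', -, h1, -, -, hy, hy', -, -, -, -, -, -, -, -, h2, h3⟩ := frame h0
    obtain ⟨U, hU, h4⟩ := Set.mem_iUnion₂.1 (hk (show (y, y') ∈ _ from
      ⟨⟨mem_closedBall_zero_iff.2 hy, mem_closedBall_zero_iff.2 hy'⟩, h3⟩))
    have h5 : ct U x u = bv x u (b, b') • ct U y y' := by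
      funext a
      rw [Pi.smul_apply, ct_apply, ct_apply, smul_eq_mul, Finset.mul_sum]
      refine Finset.sum_congr rfl fun e _ => ?_
      rw [congrFun h2 (e, a), Pi.smul_apply, smul_eq_mul]
      ring
    refine ⟨U, hU, ?_⟩
    rw [h5, eval_form_smul, norm_mul, norm_pow, h1, mul_comm]
    exact mul_le_mul_of_nonneg_left (le_of_lt h4) (pow_nonneg (norm_nonneg _) _)

end

end Pool.Agent.Lib.MP_45f16c_ag.EX
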