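import Pool.Agent.Lib.MP_45f16c_ag.EX.BR

/-! Almost every hypersurface contains no line. -/

set_option autoImplicit false
open Metric MeasureTheory MvPolynomial Filter Real
open scoped ComplexConjugate Matrix Topology

namespace Pool.Agent.Lib.MP_45f16c_ag.EX

open AS

noncomputable section

namespace NLnAux

section abstr
variable {α K : Type} [Fintype α] [DecidableEq α] [Fintype K] {d : ℕ}

open Classical in
/-- The vector with the special coordinates removed. -/
def c0 (mm : Fin (d + 1) → α) (c : α → ℂ) (m : α) : ℂ := if m ∈ Set.range mm then 0 else c m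

omit [Fintype α] in
theorem split {mm : Fin (d + 1) → α} (hm : Function.Injective mm) (c : α → ℂ) :
    c = c0 mm c + ∑ i, Pi.single (mm i) (c (mm i)) := by
  funext m
  rw [Pi.add_apply, Finset.sum_apply, c0]
  by_cases h : m ∈ Set.range mm
  · rw [if_pos h]
    obtain ⟨b, rfl⟩ := h
    rw [Finset.sum_eq_single b (fun b' _ hb => Pi.single_eq_of_ne (hm.ne hb.symm) _) (by simp)]
    simp
  · rw [if_neg h, Finset.sum_eq_zero fun b _ => Pi.single_eq_of_ne (fun e => h ⟨b, e.symm⟩) _,
      add_zero]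

theorem diff_c0 (mm : Fin (d + 1) → α) : Differentiable ℂ (c0 mm) := by
  refine differentiable_pi.2 fun m => ?_
  unfold c0
  by_cases h : m ∈ Set.range mm
  · simp only [if_pos h]; fun_prop
  · simp only [if_neg h]; fun_prop

/-- If `d + 1` coordinates are determined by the others and at most `d` parameters, the set is
null. -/
theorem null_set {mm : Fin (d + 1) → α} (hm : Function.Injective mm) (hK : Fintype.card K ≤ d)
    {w : (α → ℂ) × (K → ℂ) → Fin (d + 1) → ℂ} (hw : Differentiable ℂ w) :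
    volume {c : α → ℂ | ∃ p : K → ℂ, ∀ i, c (mm i) = w (c0 mm c, p) i} = 0 := by
  obtain ⟨ι⟩ : Nonempty (K ↪ Fin d) := Function.Embedding.nonempty_of_card_le (by simpa using hK)
  let par : (α → ℂ) → α → ℂ := fun c =>
    c0 mm c + ∑ i, Pi.single (mm i) (w (c0 mm c, fun k => c (mm (ι k).succ)) i)
  have hpar : Differentiable ℂ par := by
    refine (diff_c0 mm).fun_add (Differentiable.fun_sum fun i _ => ?_)
    have h1 : Differentiable ℂ fun c : α → ℂ => (c0 mm c, fun k => c (mm (ι k).succ)) :=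
      (diff_c0 mm).prodMk (by fun_prop)
    exact (ContinuousLinearMap.single ℂ (fun _ : α => ℂ) (mm i)).differentiable.comp
      (differentiable_pi.1 (hw.comp h1) i)
  have hnull : volume (par '' {c : α → ℂ | c (mm 0) = 0}) = 0 := by
    refine addHaar_image_eq_zero_of_differentiableOn_of_addHaar_eq_zero volume
      (hpar.restrictScalars ℝ).differentiableOn ?_
    refine Measure.addHaar_submodule volume
      (LinearMap.ker (LinearMap.proj (R := ℝ) (φ := fun _ : α => ℂ) (mm 0))) ?_
    intro h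
    have : (fun _ => (1 : ℂ)) ∈
        LinearMap.ker (LinearMap.proj (R := ℝ) (φ := fun _ : α => ℂ) (mm 0)) := by
      rw [h]; trivial
    simp at this
  refine measure_mono_null ?_ hnull
  rintro c ⟨p, hp⟩
  set q : Fin (d + 1) → ℂ := Fin.cons 0 (Function.extend ι p 0) with hq
  set c' := Function.extend mm q c with hc'
  have e1 : ∀ i, c' (mm i) = q i := fun i => hm.extend_apply _ _ i
  have e2 : c0 mm c' = c0 mm c := by
    funext m
    unfold c0
    by_cases h : m ∈ Set.range mm
    · rw [if_pos h, if_pos h]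
    · rw [if_neg h, if_neg h, hc', Function.extend_apply' _ _ _ h]
  have e3 : (fun k => c' (mm (ι k).succ)) = p := funext fun k => by
    rw [e1, hq, Fin.cons_succ, ι.injective.extend_apply]
  refine ⟨c', (e1 0).trans (Fin.cons_zero _ _), ?_⟩
  conv_rhs => rw [split hm c]
  simp only [par, e2, e3, hp]

end abstr

variable {ν d : ℕ}

/-- The special monomials. -/
def mm (d : ℕ) (b b' : Fin ν) (i : Fin (d + 1)) : Mon ν d :=
  ⟨Finsupp.single b (i : ℕ) + Finsupp.single b' (d - i), mem_mon.2 (by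
    have := i.2
    rw [map_add, Finsupp.degree_single, Finsupp.degree_single]
    omega)⟩

theorem mm_inj {b b' : Fin ν} (h : b ≠ b') : Function.Injective (mm d b b') := fun i j e => by
  have h1 := congrArg (fun m : Mon ν d => m.1 b) e
  simp only [mm, Finsupp.add_apply, Finsupp.single_eq_same, Finsupp.single_eq_of_ne h,
    add_zero] at h1
  exact Fin.ext h1

theorem eval_mm (b b' : Fin ν) (i : Fin (d + 1)) (z : ℂ) (x : Fin ν → ℂ) :
    eval x (monomial (mm d b b' i).1 z) = z * (x b ^ (i : ℕ) * x b' ^ (d - i)) := by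
  rw [eval_monomial, mm, Finsupp.prod_add_index' (fun _ => pow_zero _) fun _ _ _ => pow_add _ _ _,
    Finsupp.prod_single_index (by simp), Finsupp.prod_single_index (by simp)]

/-- The free coordinates. -/
abbrev Fr (b b' : Fin ν) : Type := ↥(({b, b'} : Finset (Fin ν))ᶜ)

/-- A point with prescribed coordinates at `b`, `b'`. -/
def pt (b b' a₀ : Fin ν) (p : Fr b b' → ℂ) (a : Fin ν) : ℂ :=
  if h : a ∈ ({b, b'} : Finset (Fin ν))ᶜ then p ⟨a, h⟩ else (Pi.single a₀ 1 : Fin ν → ℂ) a

theorem diff_pt (b b' a₀ : Fin ν) : Differentiable ℂ (pt b b' a₀) := by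
  refine differentiable_pi.2 fun a => ?_
  unfold pt
  by_cases h : a ∈ ({b, b'} : Finset (Fin ν))ᶜ
  · simp only [dif_pos h]; fun_prop
  · simp only [dif_neg h]; fun_prop

theorem pt_eq {b b' a₀ : Fin ν} {y : Fin ν → ℂ} (h1 : y b = (Pi.single a₀ 1 : Fin ν → ℂ) b)
    (h2 : y b' = (Pi.single a₀ 1 : Fin ν → ℂ) b') : pt b b' a₀ (fun a => y a) = y := by
  funext a
  unfold pt
  by_cases h : a ∈ ({b, b'} : Finset (Fin ν))ᶜ
  · rw [dif_pos h]
  · rw [dif_neg h]
    rw [Finset.mem_compl, not_not, Finset.mem_insert, Finset.mem_singleton] at h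
    rcases h with rfl | rfl
    · exact h1.symm
    · exact h2.symm

/-- The matrix of the nodes. -/
def V (d : ℕ) : Matrix (Fin (d + 1)) (Fin (d + 1)) ℂ := Matrix.vandermonde fun k => ((k : ℕ) : ℂ)

theorem V_unit : IsUnit (V d).det :=
  (Matrix.det_vandermonde_ne_zero_iff.2 fun _ _ h => Fin.ext (Nat.cast_injective h)).isUnit

/-- The special coordinates of a form that vanishes on the line. -/
def ww (d : ℕ) (b b' : Fin ν) (v : (Mon ν d → ℂ) × (Fr b b' ⊕ Fr b b' → ℂ)) : Fin (d + 1) → ℂ :=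
  (V d)⁻¹ *ᵥ fun k => -eval (((k : ℕ) : ℂ) • pt b b' b (fun a => v.2 (.inl a)) +
    pt b b' b' fun a => v.2 (.inr a)) (form v.1)

theorem diff_eval {E : Type} [NormedAddCommGroup E] [NormedSpace ℂ E] {φ : E → Fin ν → ℂ}
    {c : E → Mon ν d → ℂ} (hφ : Differentiable ℂ φ) (hc : Differentiable ℂ c) :
    Differentiable ℂ fun v => eval (φ v) (form (c v)) := by
  simp only [eval_form, mon]
  fun_prop

theorem diff_ww (b b' : Fin ν) : Differentiable ℂ (ww d b b') := by
  refine differentiable_pi.2 fun i => ?_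
  simp only [ww, Matrix.mulVec, dotProduct]
  refine Differentiable.fun_sum fun k _ => Differentiable.const_mul ?_ _
  refine (diff_eval ?_ differentiable_fst).fun_neg
  have h1 : Differentiable ℂ fun v : (Mon ν d → ℂ) × (Fr b b' ⊕ Fr b b' → ℂ) =>
      fun a => v.2 (.inl a) := by fun_prop
  have h2 : Differentiable ℂ fun v : (Mon ν d → ℂ) × (Fr b b' ⊕ Fr b b' → ℂ) =>
      fun a => v.2 (.inr a) := by fun_prop
  exact (((diff_pt b b' b).comp h1).const_smul ((k : ℕ) : ℂ)).add ((diff_pt b b' b').comp h2)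

theorem mem_set {b b' : Fin ν} (h : b ≠ b') {c : Mon ν d → ℂ} {y y' : Fin ν → ℂ} (h1 : y b = 1)
    (h2 : y b' = 0) (h3 : y' b = 0) (h4 : y' b' = 1)
    (hv : ∀ s : ℂ, eval (s • y + y') (form c) = 0) : ∃ p : Fr b b' ⊕ Fr b b' → ℂ,
      ∀ i, c (mm d b b' i) = ww d b b' (c0 (mm d b b') c, p) i := by
  refine ⟨Sum.elim (fun a => y a) fun a => y' a, fun i => ?_⟩
  have e1 : pt b b' b (fun a => y a) = y :=
    pt_eq (by rw [h1, Pi.single_eq_same]) (by rw [h2, Pi.single_eq_of_ne h.symm])
  have e2 : pt b b' b' (fun a => y' a) = y' :=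
    pt_eq (by rw [h3, Pi.single_eq_of_ne h]) (by rw [h4, Pi.single_eq_same])
  have e3 : (fun k : Fin (d + 1) => -eval (((k : ℕ) : ℂ) • y + y') (form (c0 (mm d b b') c))) =
      V d *ᵥ fun i => c (mm d b b' i) := by
    funext k
    have h5 := hv (k : ℕ)
    rw [split (mm_inj h) c, form_add, form_sum, map_add, map_sum] at h5
    simp only [form_single, eval_mm, Pi.add_apply, Pi.smul_apply, smul_eq_mul, h1, h2, h3, h4,
      mul_one, mul_zero, add_zero, zero_add, one_pow] at h5
    rw [neg_eq_iff_add_eq_zero, ← h5]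
    simp only [V, Matrix.mulVec, dotProduct, Matrix.vandermonde_apply, mul_comm]
  simp only [ww, Sum.elim_inl, Sum.elim_inr, e1, e2, e3, Matrix.mulVec_mulVec,
    Matrix.nonsing_inv_mul _ V_unit, Matrix.one_mulVec]

end NLnAux

theorem nLnS : NLnStmt := by
  intro ν d hd
  have hn : ∀ b b' : Fin ν, volume {c : Mon ν d → ℂ | b ≠ b' ∧
      ∃ p : NLnAux.Fr b b' ⊕ NLnAux.Fr b b' → ℂ, ∀ i, c (NLnAux.mm d b b' i) =
        NLnAux.ww d b b' (NLnAux.c0 (NLnAux.mm d b b') c, p) i} = 0 := fun b b' => by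
    by_cases h : b = b'
    · simp [h]
    · refine measure_mono_null (fun c hc => hc.2)
        (NLnAux.null_set (NLnAux.mm_inj h) ?_ (NLnAux.diff_ww b b'))
      rw [Fintype.card_sum, Fintype.card_coe, Finset.card_compl, Finset.card_pair h,
        Fintype.card_fin]
      omega
  refine measure_mono_null ?_
    (measure_iUnion_null fun b => measure_iUnion_null fun b' => hn b b')
  intro c hc
  simp only [Set.mem_compl_iff, Set.mem_ofPred_eq, not_forall] at hc
  obtain ⟨x, u, hv, hb⟩ := hc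
  obtain ⟨b, b', y, y', hbb, -, -, -, -, -, h1, h2, h3, h4, -, -, ⟨s, t, hy⟩, ⟨s', t', hy'⟩, -⟩ :=
    frame hb
  refine Set.mem_iUnion₂.2 ⟨b, b', hbb, NLnAux.mem_set hbb h1 h2 h3 h4 fun k => ?_⟩
  have e : k • y + y' = (k * s + s') • x + (k * t + t') • u := by
    rw [hy, hy']
    module
  rw [e]
  exact hv _ _

end

end Pool.Agent.Lib.MP_45f16c_ag.EX
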