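import Pool.Agent.Lib.MP_45f16c_ag.EX.BR
import Pool.Agent.Lib.MP_45f16c_ag.AS.An

/-! No relative data. -/

set_option autoImplicit false
open Metric MeasureTheory MvPolynomial Filter Real
open scoped ComplexConjugate Matrix Topology

namespace Pool.Agent.Lib.MP_45f16c_ag.EX

open AS

noncomputable section

open AnAux in
theorem noRel2S (hAn : An2Stmt) (hO : OrcStmt) (hK : KillStmt) (hD : KDStmt) (hM : MidStmt)
    (hS : SupStmt) (hA : ApStmt) (hE : ExtStmt) (hH : HtStmt) : NoRel2Stmt := by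
  have hE' := hE
  clear hE
  intro ν j d p e b K τ ζ C c₀ g₁ hN hK1 hζ hC hc₀ hg₁
  have p4 := hN.p4
  have pe := hN.pe
  have e1 := hN.e1
  have e2 := hN.e2
  have d1 := hN.d1
  obtain ⟨CK, hCK, hK⟩ := hK j e (by omega)
  obtain ⟨CH, hCH, hD⟩ := hD ν d j CK hCK
  obtain ⟨CF, hCF⟩ : ∃ CF : ℝ, ∀ c : Mon ν d → ℂ, ‖c‖ ≤ 1 → n1 (form c) ≤ CF :=
    ⟨Fintype.card (Mon ν d), fun c hc => (n1_form_le c).trans
      (mul_le_of_le_one_right (Nat.cast_nonneg _) hc)⟩
  obtain ⟨CM, hCM, hM⟩ := hM ν j d p e CH c₀ CF hN hCH hc₀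
  obtain ⟨δH, hδH, hH⟩ := hH ν d p ζ (by omega) hζ
  have hν : (1 : ℝ) ≤ ν := by exact_mod_cast (by omega : 1 ≤ ν)
  have hj : (0 : ℝ) ≤ j := Nat.cast_nonneg _
  have he : (1 : ℝ) ≤ e := by exact_mod_cast (by omega : 1 ≤ e)
  have hd : (1 : ℝ) ≤ d := by exact_mod_cast (by omega : 1 ≤ d)
  obtain ⟨β, β0, βm, β1, β2⟩ : ∃ β : ℕ → ℝ, (∀ i, 0 < β i) ∧ Antitone β ∧
      β 0 * (ν + j) ^ 2 = 1 / 40 ∧ ∀ i, β i = (CM + 2) * β (i + 1) :=
    ⟨fun i => 1 / (40 * (ν + j) ^ 2) / (CM + 2) ^ i, fun i => by positivity, fun i i' h => by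
      dsimp only; gcongr; linarith, by dsimp only; rw [pow_zero]; field_simp,
      fun i => by dsimp only; rw [pow_succ (CM + 2)]; field_simp⟩
  have β3 : β 0 ≤ 1 := by
    have := mul_le_mul_of_nonneg_left (one_le_pow₀ (n := 2) (by linarith : (1 : ℝ) ≤ ν + j))
      (β0 0).le
    linarith
  obtain ⟨δ, δ0, δ1, δ2⟩ : ∃ δ : ℝ, 0 < δ ∧ 2 * CM * δ ≤ β (d + 1) ∧ δ ≤ 1 / 200 :=
    ⟨min (β (d + 1) / (2 * CM)) (1 / 200), lt_min (by have := β0 (d + 1); positivity) (by norm_num),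
      by rw [← le_div_iff₀' (by positivity)]; exact min_le_left _ _, min_le_right _ _⟩
  obtain ⟨t, t0, t1⟩ : ∃ t : ℝ, 0 < t ∧ d * t = δ := ⟨δ / d, by positivity, by field_simp⟩
  obtain ⟨g₀, hg₀, hAn⟩ := hAn ν (2 * (ν + j)) e b (209 * K) t (τ + log (2 * p + 2)) (2 * C)
    (2 ^ (ν + j)) (by omega) (by omega) (by omega) (by linarith) t0 (by linarith)
    (one_le_pow₀ one_le_two)
  obtain ⟨g, hg, g0, g1, g2⟩ : ∃ g : ℝ, 0 < g ∧ g ≤ g₀ ∧ g ≤ g₁ ∧ g ≤ δ :=
    ⟨min g₀ (min g₁ δ), by positivity, min_le_left _ _,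
      (min_le_right _ _).trans (min_le_left _ _), (min_le_right _ _).trans (min_le_right _ _)⟩
  refine ⟨g, hg, g1, ?_⟩
  obtain ⟨N₁, σ, s, hN₁, σ0, σ1, σ2, s0, hAn⟩ := hAn g hg g0
  obtain ⟨c₁, hc₁, hO⟩ := hO ν p (C * s) (by omega) (by positivity)
  filter_upwards [hAn, eventually_ge_atTop (1 / δ), ev (1 + CH) (β0 (d + 1)),
    ev (2 * (ν + j).factorial) (show 0 < 1 / 40 by norm_num),
    ev (2 * CH) (show 0 < 1 / 200 by norm_num), ev (1 / δH) one_pos,
    ev (1 / (c₁ * δH)) (half_pos t0), eventually_gt_atTop (100 * CM / (σ / 12) ^ 2)]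
    with T hAn x1 x2 x3 x4 x5 x6 x7
  intro c hc hNL hyp y f ξ γ hR
  rw [div_le_iff₀' δ0] at x1
  have hT : 0 < T := (mul_pos_iff_of_pos_left δ0).1 (by linarith)
  have hKT : T ≤ K * T := le_mul_of_one_le_left hT.le hK1
  obtain ⟨m, hm, hf⟩ := hR.pf
  have hfd : Differentiable ℂ f := differentiable_pi.2 fun a => (hf a).differentiable
  have hfp : ∀ z ∈ DD1, 0 < ‖f z‖ := fun z hz => (exp_pos _).trans_le (hR.abs z hz).1
  have hne : ∀ z ∈ DD1, f z ≠ 0 := fun z hz => norm_pos_iff.1 (hfp z hz)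
  obtain ⟨a, d', U, J, R, had, has, hOr, hKil⟩ := hK ν d p e (TT fun n l => conj (y l n))
    (fun i => exp (-(β i * T))) (Sees p (C * s) c₁ f) hN.je (by omega) (fun i => (exp_pos _).le)
    (fun i i' h => exp_le_exp.2 (neg_le_neg (mul_le_mul_of_nonneg_right (βm h) hT.le)))
    fun b => hO f b hfd.continuous hne
  have hae : a ≤ e := Nat.le_of_mul_le_mul_right (has.trans hN.je) (by omega)
  obtain ⟨Tz, hKD⟩ := hD p e d' a c y f ξ U J R (exp (1 / 1000 * T)) (exp (-(100 * (K * T)))) _ _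
    had hc hR.hy hR.dξ (exp_pos _).le (exp_pos _).le (exp_pos _).le
    (fun z hz n => ⟨hR.hξ z hz n, hR.err z hz n⟩) hKil
  obtain ⟨η, hη⟩ : ∃ η, η = β (a + 1) * T := ⟨_, rfl⟩
  have η1 : β (d + 1) * T ≤ η := hη ▸ mul_le_mul_of_nonneg_right (βm (by omega)) hT.le
  have η2 : η ≤ β 0 * T := hη ▸ mul_le_mul_of_nonneg_right (βm (Nat.zero_le _)) hT.le
  have η3 : 2 * CM * (δ * T) ≤ η := le_trans (by rw [← mul_assoc]; gcongr) η1
  have η4 : β a * T = CM * η + 2 * η := by rw [β2 a, hη]; ring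
  have η5 : β a * T ≤ T :=
    mul_le_of_le_one_left hT.le ((βm (Nat.zero_le _)).trans β3)
  have η6 : δ * T ≤ CM * (δ * T) := le_mul_of_one_le_left (by linarith) hCM
  have η0 : 0 ≤ η := by linarith
  have η7 : η ≤ CM * η := le_mul_of_one_le_left η0 hCM
  rw [← hη] at hKD
  obtain ⟨E, hE⟩ : ∃ E, E = exp (-(100 * (K * T))) + CH * exp (-(β a * T)) := ⟨_, rfl⟩
  rw [← hE] at hKD
  have E0 : exp (-(100 * (K * T))) ≤ E := hE ▸ le_add_of_nonneg_right (by positivity)
  have E1 : E ≤ exp (-(CM * η)) := by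
    have h1 : exp (-(100 * (K * T))) ≤ exp (-(β a * T)) := exp_le_exp.2 (by linarith)
    calc E ≤ (1 + CH) * exp (-(β a * T)) := by rw [hE]; linarith
      _ ≤ exp (β (d + 1) * T) * exp (-(β a * T)) := by gcongr
      _ ≤ _ := by rw [← exp_add, exp_le_exp]; linarith
  have hsc : ∀ z ∈ DD1, ∀ e', 0 < scf j (f z) e' := fun z hz e' => pow_pos (hfp z hz) _
  have hap := fun z (hz : z ∈ DD1) => (hA ν d' j (Tz z) (f z) η (RR ν J)).1 _
    (one_le_exp (by positivity)) η0 (hKD.ent z hz)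
  have htT : t * T ≤ δ * T := by
    have := mul_le_mul_of_nonneg_right hd t0.le
    gcongr
    linarith
  obtain ⟨G, μ, z₀, dG, hz₀, G0, good, hNr, hBd⟩ := hAn a m U f γ
    (fun z X => Bd (Tz z) (f z) d' η (RR ν J) (scf j (f z)) X)
    (fun z X => Nr (Tz z) (f z) d' η (RR ν J) (scf j (f z)) X) (by omega) (by linarith) hf hR.dγ
    (fun z hz => ⟨le_trans (exp_le_exp.2 (by linarith)) (hR.abs z hz).1,
      (hR.abs z hz).2.trans (exp_le_exp.2 (by linarith))⟩) hR.osc hR.circ hR.g0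
    (fun z hz => by
      obtain ⟨s1, s2, s3, s4⟩ := hS ν d' _ (Tz z) (f z) η (RR ν J) _ (hsc z hz)
      refine ⟨s2, s3, s4 _ ⟨.inl ⟨0, by omega⟩, by simp [RR]⟩ (by positivity) (hap z hz),
        fun X hX => (s1 X _ hX (hap z hz) (by positivity)).trans ?_, fun hgood X X0 hX => ?_,
        fun X₀ hX => ?_⟩
      · have h1 : η * (ν + j) ^ 2 ≤ 1 / 40 * T := by
          rw [← β1, mul_right_comm]; gcongr
        have h2 : (ν : ℝ) * T ≤ 200 * e * T := by gcongr; exact_mod_cast e2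
        have h3 := le_mul_of_one_le_left hT.le he
        rw [← mul_assoc, ← mul_assoc, ← exp_nat_mul]
        calc _ ≤ exp (1 / 40 * T) * exp (ν * (1 / 1000 * T)) * exp (η * (ν + j) ^ 2) := by gcongr
          _ ≤ _ := by rw [← exp_add, ← exp_add, exp_le_exp]; linarith
      · have h1 := (hA ν d' j (Tz z) (f z) η (RR ν J)).2 _ X CH E _ (hne z hz) X0 hX (hKD.fn z hz)
        have hp := hfp z hz
        have h2 : (exp (-(t * T)) * ‖f z‖) ^ a ≤ ‖∏ i, U i ⬝ᵥ f z‖ := by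
          rw [norm_prod, ← Fin.prod_const]
          exact Finset.prod_le_prod (fun _ _ => by positivity) fun i _ => hgood i
        have h3 : exp (-(δ * T)) * ‖f z‖ ^ d ≤ (X * CH + E) * ‖f z‖ ^ d := by
          refine le_trans ?_ ((mul_le_mul_of_nonneg_right h2 (by positivity)).trans h1)
          rw [mul_pow, ← exp_nat_mul, mul_assoc, ← pow_add, had]
          have h4 : (a : ℝ) * (t * T) ≤ d * (t * T) := by gcongr; omega
          have h5 : d * (t * T) = δ * T := by rw [← mul_assoc, t1]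
          gcongr
          linarith
        have h4 := le_of_mul_le_mul_right h3 (pow_pos hp _)
        have h5 : 2 * E ≤ exp (-(δ * T)) := by
          calc 2 * E ≤ exp (δ * T) * exp (-(CM * η)) := by
                gcongr
                · exact (exp_pos _).le.trans E0
                · linarith [add_one_le_exp (δ * T)]
            _ ≤ _ := by rw [← exp_add, exp_le_exp]; linarith
        have h6 : exp (-(δ * T)) ≤ X * exp (1 / 200 * T) :=
          le_trans (by linarith) (mul_le_mul_of_nonneg_left x4.le X0)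
        rw [← div_le_iff₀ (exp_pos _), ← exp_sub] at h6
        refine le_trans (exp_le_exp.2 ?_) h6
        have h7 := le_mul_of_one_le_left hT.le he
        have h8 := mul_le_mul_of_nonneg_right δ2 hT.le
        linarith
      · obtain ⟨P, e', q1, q2, q3, q4⟩ := hE' ν d' j Tz f η X₀ (RR ν J) z hKD.hol hfd (hne z hz) hX
        exact ⟨P, e', q1, q2, q3, fun z' _ => q4 z'⟩)
    (fun i z₁ hsub hsm => by
      rcases hyp with h | h
      · have : e ≤ a * e := Nat.le_mul_of_pos_left _ (Fin.pos i)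
        omega
      obtain ⟨e', A, q1, q2, q3⟩ := hOr i
      rw [mul_assoc] at hsub hsm
      have hs2 : closedBall z₁ (C * s) ⊆ DD1 :=
        (closedBall_subset_closedBall (by nlinarith)).trans hsub
      refine hH c τ C e' A f z₁ s hc hC h q1 q2 hfd s0 fun z hz =>
        ⟨hne z (hs2 hz), (hR.onX z (hs2 hz)).trans ?_, ?_⟩
      · rw [div_lt_iff₀ hδH] at x5
        gcongr
        calc _ ≤ exp (-(1 * T)) * 1 := by rw [mul_one, exp_le_exp]; linarith
          _ ≤ exp (-(1 * T)) * (exp (1 * T) * δH) := by gcongr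
          _ = _ := by rw [← mul_assoc, ← exp_add]; simp
      · refine le_of_mul_le_mul_left ((q3 z₁ _ hsub hsm z hz).trans ?_) hc₁
        rw [div_lt_iff₀ (by positivity)] at x6
        rw [← mul_assoc]
        gcongr
        calc _ = exp (-(t / 2 * T)) * 1 := by rw [mul_one]; congr 1; ring
          _ ≤ exp (-(t / 2 * T)) * (exp (t / 2 * T) * (c₁ * δH)) := by gcongr
          _ = _ := by rw [← mul_assoc, ← exp_add]; simp)
  have hsub : closedBall z₀ (6 * (σ / 12)) ⊆ DD1 := sub_cB hz₀ (by linarith)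
  have hz₀' := hsub (mem_closedBall_self (by positivity))
  have hN₁' : (1 : ℝ) ≤ N₁ := by exact_mod_cast hN₁
  have hgT : exp (g * T) ≤ exp (δ * T) := by gcongr
  have key := hM a d' N₁ f Tz U J (form c) G z₀ _ E η (δ * T) μ (N₁ * T / 100) (σ / 12) had hae hN₁
    x1 (by linarith) ((exp_pos _).le.trans E0) E1 (by positivity) (by positivity)
    (by
      have : N₁ * T * σ ≤ N₁ * T * δ := by gcongr; linarith
      have : 0 ≤ N₁ * T * δ := by positivity
      linarith)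
    hKD hfd dG (form_isHomogeneous c) (hCF c hc) hNL
    (fun z hz => ⟨hne z hz, (hR.onX z hz).trans (by gcongr)⟩) hsub
    (fun z hz => by
      have h1 : ‖z - z₀‖ ≤ g ^ b := (mem_closedBall_iff_norm.1 hz).trans (by linarith)
      exact ⟨(hR.osc z₀ hz₀' z (hsub hz) h1).trans (by gcongr),
        (hR.osc z (hsub hz) z₀ hz₀' (norm_sub_rev z z₀ ▸ h1)).trans (by gcongr)⟩)
    (fun i => le_trans (by gcongr) (good i)) G0 hNr hBd
  rw [div_lt_iff₀ (by positivity)] at x7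
  have := mul_lt_mul_of_pos_left x7 (by linarith : (0 : ℝ) < N₁)
  linarith

end

end Pool.Agent.Lib.MP_45f16c_ag.EX
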