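import Pool.Agent.Lib.MP_45f16c_ag.EX.BR

-- part Pool.Agent.Lib.MP_45f16c_ag.EX.Gain
section

/-! The gain. -/

set_option autoImplicit false
open Metric MeasureTheory MvPolynomial Filter Real
open scoped ComplexConjugate Matrix Topology

namespace Pool.Agent.Lib.MP_45f16c_ag.EX

open AS

noncomputable section

namespace GainAux

theorem small {K M C δ η : ℝ} (hK : 0 ≤ K) (hM : 0 ≤ M) (hC : K + M ≤ C) (hδ : 1 ≤ δ)
    (h : C * δ ≤ η) : K * exp (M * δ) * exp (-(2 * η)) ≤ 1 := by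
  have h1 : K ≤ exp (K * δ) := by
    linarith [add_one_le_exp (K * δ), le_mul_of_one_le_right hK hδ]
  have h2 : (K + M) * δ ≤ C * δ := by gcongr
  have h3 : 0 ≤ (K + M) * δ := by positivity
  calc _ ≤ exp (K * δ) * exp (M * δ) * exp (-(2 * η)) := by gcongr
    _ ≤ 1 := by
      rw [← exp_add, ← exp_add, exp_le_one_iff]
      linarith

variable {ν d N : ℕ} {ι : Type} {T : MP ν →ₗ[ℂ] (ι → ℂ)} {I : Fin (N + 1) → ι} {c₀ : ι → ℂ}
  {x u : Fin ν → ℂ} {a₀ : Fin ν} {S : Finset (Fin N)} {l : Fin N → Fin ν → ℂ} {G : Fin N → MP ν}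
  {β : Fin N → ℕ}

theorem lam_self : (Lam T I c₀ S (xc T a₀ x l G) fun k => LL (ex a₀ x (l k)) * G k) =
    dt I (Fin.cons c₀ (xc T a₀ x l G)) := by
  rw [Lam_apply]
  congr 2
  funext k
  split_ifs <;> rfl

/-- New cofactors on `S`. -/
def nG (S : Finset (Fin N)) (G : Fin N → MP ν) (g : S → MP ν) : Fin N → MP ν :=
  fun k => if h : k ∈ S then g ⟨k, h⟩ else G k

theorem lam_new (w : Fin ν → ℂ) (g : S → MP ν) :
    (Lam T I c₀ S (xc T a₀ x l G) fun k => LL (ex a₀ x w) * g k) =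
      dt I (Fin.cons c₀ (xc T a₀ x (S.piecewise (fun _ => w) l) (nG S G g))) := by
  rw [Lam_apply]
  congr 2
  funext k
  by_cases h : k ∈ S <;> simp [xc, nG, h]

theorem nG_lab (h : ∀ k ∈ S, sz β k = 1) (hG : ∀ k k', β k = β k' → G k = G k') (g : S → MP ν)
    (k k' : Fin N) (e : β k = β k') : nG S G g k = nG S G g k' := by
  by_cases hk : k ∈ S
  · rw [eq_of_sz (h k hk) e.symm]
  by_cases hk' : k' ∈ S
  · rw [eq_of_sz (h k' hk') e]
  rw [nG, nG, dif_neg hk, dif_neg hk', hG k k' e]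

theorem nG_hol {s : Set ℂ} {g : ℂ → S → MP ν} (hg : ∀ k, HolP s fun z => g z k) (k : Fin N) :
    HolP s fun z => nG S G (g z) k := by
  by_cases hk : k ∈ S
  · simpa only [nG, dif_pos hk] using hg _
  · simpa only [nG, dif_neg hk] using HolP.const s _

theorem diff_uu [Fintype ι] {T : ℂ → MP ν →ₗ[ℂ] (ι → ℂ)} {x : ℂ → Fin ν → ℂ} {c : ℂ → ι → ℂ}
    {s : Set ℂ} (hT : HolT T) (hx : DifferentiableOn ℂ x s) (hc : DifferentiableOn ℂ c s)
    (k₁ : Fin N) : DifferentiableOn ℂ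
      (fun z => uu (T z) I (c z) (xc (T z) a₀ (x z) l G) k₁ (G k₁)) s := by
  refine differentiableOn_pi.2 fun b => differentiableOn_dt_cons I hc fun k => ?_
  by_cases h : k = k₁
  · subst h
    simpa only [Function.update_self] using hT s _ (HolP.const s _)
  · simpa only [Function.update_of_ne h] using hT.xc hx a₀ l (fun k => HolP.const s (G k)) k

/-- The centre. -/
theorem centre (hC : CenStmt) {U V P P' : Fin ν → ℂ} {CK B η Q : ℝ} {k₁ : Fin N} (h₁ : k₁ ∈ S)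
    (hx : ‖x‖ = 1) (ha : ‖x a₀‖ = 1) (adm : Adm x d l G β) (nrm : Nrm l G) (hB : 0 < B)
    (hCK : 1 ≤ CK) (top : B ≤ 8 * (exp (η * rew β) * ‖dt I (Fin.cons c₀ (xc T a₀ x l G))‖))
    (hu : u = uu T I c₀ (xc T a₀ x l G) k₁ (G k₁))
    (kl : KL d x u (Lam T I c₀ S (xc T a₀ x l G))
      (CK * B * exp (-(η * rew β)) * (‖x a₀‖ ^ (N - nb β) * ‖x‖ ^ (nb β - S.card)))
      (CK * 8 ^ 4 * exp (-(2 * η))))
    (h1 : U ⬝ᵥ P = 1) (h2 : V ⬝ᵥ P = 0) (h3 : U ⬝ᵥ P' = 0) (h4 : V ⬝ᵥ P' = 1) (h5 : ‖P‖ ≤ 2)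
    (h6 : ‖P'‖ ≤ 2) (h7 : nl U ≤ Q) (h8 : nl V ≤ 2) (hQ : 2 ≤ Q)
    (h9 : ∃ s t : ℂ, x = s • P + t • P') (h10 : ∃ s t : ℂ, u = s • P + t • P')
    (sm : 32 * N * CK ^ 2 * 8 ^ 4 * 4 ^ (d * N) * Q ^ (d * N) * exp (-(2 * η)) ≤ 1) :
    ∃ (k₂ : S) (e : S → ℕ), Function.Injective e ∧ (∀ k, e k ≤ d) ∧
      B ≤ 16 * 4 ^ (d * N) * (exp (η * rew β) * ‖dt I (Fin.cons c₀ (xc T a₀ x
        (S.piecewise (fun _ => l k₂) l) (nG S G fun k => LL U ^ e k * LL V ^ (d - e k))))‖) := by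
  have hn : Fintype.card S ≤ N := by simpa using Finset.card_le_univ S
  have e0 := exp_pos (η * rew β)
  have D0 : dt I (Fin.cons c₀ (xc T a₀ x l G)) ≠ 0 := fun h => by
    rw [h, norm_zero, mul_zero, mul_zero] at top
    exact top.not_gt hB
  rw [hx, ha, one_pow, one_pow, mul_one, mul_one] at kl
  obtain ⟨k₂, e, e1, e2, e3⟩ := hC ν d S x u U V P P' _ _ _ Q (fun k => ex a₀ x (l k))
    (fun k => G k) ⟨k₁, h₁⟩ (by positivity) (by positivity) kl
    (fun k => ⟨ex_dot _ _ _, by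
      rw [ex_of_dot a₀ (adm.1 k), nl_smul, ha, one_mul]; exact (nrm k).1, adm.2.1 k, (nrm k).2⟩)
    (by
      rw [hu, uu_dot]
      exact (congrArg (fun v => dt I (Fin.cons c₀ v))
        (Function.update_eq_self k₁ (xc T a₀ x l G))).trans_ne D0)
    h1 h2 h3 h4 h5 h6 h7 h8 hQ h9 h10 (lam_self.trans_ne D0) (by
      rw [lam_self]
      have k1 : B * exp (-(η * rew β)) ≤ 8 * ‖dt I (Fin.cons c₀ (xc T a₀ x l G))‖ := by
        rw [exp_neg, ← div_eq_mul_inv, div_le_iff₀ e0]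
        linarith
      have k2 : (4 * Q) ^ (d * Fintype.card S) ≤ (4 * Q) ^ (d * N) :=
        pow_le_pow_right₀ (by linarith) (Nat.mul_le_mul_left d hn)
      have k3 : (Fintype.card S : ℝ) ≤ N := by exact_mod_cast hn
      generalize ‖dt I (Fin.cons c₀ (xc T a₀ x l G))‖ = D at k1 ⊢
      have k4 : 0 ≤ D := by nlinarith [mul_pos hB (exp_pos (-(η * rew β)))]
      calc _ = 4 * Fintype.card S * (CK * 8 ^ 4 * exp (-(2 * η))) * CK *
            (B * exp (-(η * rew β))) * (4 * Q) ^ (d * Fintype.card S) := by ring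
        _ ≤ 4 * N * (CK * 8 ^ 4 * exp (-(2 * η))) * CK * (8 * D) * (4 * Q) ^ (d * N) := by gcongr
        _ = 32 * N * CK ^ 2 * 8 ^ 4 * 4 ^ (d * N) * Q ^ (d * N) * exp (-(2 * η)) * D := by
          rw [mul_pow]; ring
        _ ≤ D := mul_le_of_le_one_left k4 sm)
  refine ⟨k₂, e, e1, e2, top.trans ?_⟩
  rw [lam_self, lam_new] at e3
  have k2 : (4 : ℝ) ^ (d * Fintype.card S) ≤ 4 ^ (d * N) :=
    pow_le_pow_right₀ (by norm_num) (Nat.mul_le_mul_left d hn)
  generalize ‖dt I (Fin.cons c₀ (xc T a₀ x l G))‖ = D at e3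
  have k3 := norm_nonneg (dt I (Fin.cons c₀ (xc T a₀ x
    (S.piecewise (fun _ => l k₂) l) (nG S G fun k => LL U ^ e k * LL V ^ (d - e k)))))
  generalize ‖dt I (Fin.cons c₀ (xc T a₀ x
    (S.piecewise (fun _ => l k₂) l) (nG S G fun k => LL U ^ e k * LL V ^ (d - e k))))‖ = D' at e3 k3
  calc _ ≤ 8 * (exp (η * rew β) * (2 * 4 ^ (d * N) * D')) := by
        gcongr
        exact e3.trans (by gcongr)
    _ = _ := by ring

/-- The circle. -/
theorem circle (hO : CircStmt) {w U U' V : Fin ν → ℂ} {CK B η Q Q' ρ : ℝ} {e : S → ℕ}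
    (hS : ∀ k ∈ S, sz β k = 1) (hB : 0 < B) (hCK : 1 ≤ CK) (hw : nl w ≤ 1) (hρ : 0 < ρ)
    (kl : KL d x u (Lam T I c₀ S (xc T a₀ x l G))
      (CK * B * exp (-(η * rew β)) * (‖x a₀‖ ^ (N - nb β) * ‖x‖ ^ (nb β - S.card)))
      (CK * Q' ^ 4 * exp (-(2 * η))))
    (h1 : (U - U') ⬝ᵥ x = 0) (h2 : (U - U') ⬝ᵥ u = 0) (h3 : nl U' ≤ 2 * ρ) (h4 : nl U ≤ Q * ρ)
    (hQ : 2 ≤ Q) (h5 : nl V ≤ 2) (he : ∀ k, e k ≤ d)
    (sm : 2 * N * CK * (Q' ^ 4 * Q ^ (d * N)) * exp (-(2 * η)) ≤ 1) :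
    exp (η * rew β) * ‖dt I (Fin.cons c₀ (xc T a₀ x (S.piecewise (fun _ => w) l)
      (nG S G fun k => LL U ^ e k * LL V ^ (d - e k))))‖ ≤
      2 * CK * (2 * 2 ^ d) ^ N * B * (‖x a₀‖ ^ (N - nb β) * ‖x‖ ^ nb β) *
        exp ((∑ k, e k : ℕ) * log ρ) := by
  have hn : Fintype.card S ≤ N := by simpa using Finset.card_le_univ S
  have k3 : (Fintype.card S : ℝ) ≤ N := by exact_mod_cast hn
  have h := hO ν d S x u (ex a₀ x w) U U' V _ _ _ Q ρ e (by positivity) (by positivity) kl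
    (ex_dot _ _ _) h1 h2 h3 h4 hQ h5 he (by
      have k2 : Q ^ (d * Fintype.card S) ≤ Q ^ (d * N) :=
        pow_le_pow_right₀ (by linarith) (Nat.mul_le_mul_left d hn)
      calc _ ≤ 2 * N * (CK * Q' ^ 4 * exp (-(2 * η))) * Q ^ (d * N) := by gcongr
        _ = _ := by ring
        _ ≤ 1 := sm)
  rw [lam_new] at h
  have k1 : nl (ex a₀ x w) ≤ 2 * ‖x‖ :=
    (nl_ex_le _ _ _).trans (mul_le_of_le_one_right (by positivity) hw)
  have k2 : (2 * 2 ^ d : ℝ) ^ S.card ≤ (2 * 2 ^ d) ^ N :=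
    pow_le_pow_right₀ (by linarith [one_le_pow₀ (one_le_two (α := ℝ)) (n := d)])
      (by simpa using hn)
  have k4 : ‖x‖ ^ nb β = ‖x‖ ^ (nb β - S.card) * ‖x‖ ^ S.card := by
    rw [← pow_add, Nat.sub_add_cancel (by rw [nb_singles hS]; omega)]
  have k5 := nl_nonneg (ex a₀ x w)
  rw [exp_nat_mul, exp_log hρ, k4]
  rw [Fintype.card_coe, exp_neg] at h
  have e0 := exp_pos (η * rew β)
  calc _ ≤ exp (η * rew β) * (2 * (CK * B * (exp (η * rew β))⁻¹ *
        (‖x a₀‖ ^ (N - nb β) * ‖x‖ ^ (nb β - S.card))) * (2 * ‖x‖ * 2 ^ d) ^ S.card *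
        ρ ^ ∑ k, e k) := by
        gcongr
        exact h.trans (by gcongr)
    _ = 2 * CK * (2 * 2 ^ d) ^ S.card * B *
        (‖x a₀‖ ^ (N - nb β) * (‖x‖ ^ (nb β - S.card) * ‖x‖ ^ S.card)) * ρ ^ ∑ k, e k := by
        rw [mul_right_comm 2 ‖x‖, mul_pow _ ‖x‖]
        field_simp
    _ ≤ _ := by gcongr

end GainAux

open GainAux in
theorem gainS (hK : KPStmt) (hC : CenStmt) (hO : CircStmt) (hU : U0Stmt) (hS : SubMStmt) : GainStmt := by
  intro ν d dF N c₀ CF hdF hc₀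
  obtain ⟨CK, hCK, kp⟩ := hK ν d N
  obtain ⟨CU, hCU, u0⟩ := hU ν dF c₀ CF hdF hc₀
  obtain ⟨C, c1, c2, c3, c4, c5, c6⟩ : ∃ C : ℝ, CU ≤ C ∧
      32 * N * CK ^ 2 * 8 ^ 4 * 4 ^ (d * N) + (d * N : ℕ) * CU ≤ C ∧
      2 * N * CK + (4 * (N + 1) + (d * N : ℕ) * CU) ≤ C ∧ 16 * 4 ^ (d * N) ≤ C ∧
      2 * CK * (2 * 2 ^ d) ^ N ≤ C ∧ (d * N : ℕ) * CU ≤ C := by
    have p1 : (0 : ℝ) ≤ 32 * N * CK ^ 2 * 8 ^ 4 * 4 ^ (d * N) := by positivity
    have p2 : (0 : ℝ) ≤ (d * N : ℕ) * CU := by positivity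
    have p3 : (0 : ℝ) ≤ 2 * N * CK := by positivity
    have p4 : (0 : ℝ) ≤ 4 * (N + 1) := by positivity
    have p5 : (0 : ℝ) ≤ 16 * 4 ^ (d * N) := by positivity
    have p6 : (0 : ℝ) ≤ 2 * CK * (2 * 2 ^ d) ^ N := by positivity
    exact ⟨CU + 32 * N * CK ^ 2 * 8 ^ 4 * 4 ^ (d * N) + (d * N : ℕ) * CU + 2 * N * CK +
      4 * (N + 1) + 16 * 4 ^ (d * N) + 2 * CK * (2 * 2 ^ d) ^ N, by linarith, by linarith,
      by linarith, by linarith, by linarith, by linarith⟩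
  refine ⟨C, hCU.trans c1, fun ι _ T x m c I a₀ l G β B t η δ E F S g hH hδ hη hE hs h2 => ?_⟩
  obtain ⟨k₁, h₁⟩ := Finset.card_pos.1 (by omega : 0 < S.card)
  have η0 : 0 ≤ η := le_trans (mul_nonneg (by linarith) (by linarith)) hη
  have sub : sphere (0 : ℂ) t ⊆ BB := sphere_subset_ball (by linarith [g.t2])
  have B0 := g.pos 0 (Set.mem_insert _ _)
  have top : B 0 ≤ 8 * (exp (η * rew β) * ‖dt I (Fin.cons (c 0) (xc (T 0) a₀ (x 0) l G))‖) := by
    rw [dt_xc a₀ g.adm.1, norm_mul, norm_pow, g.xa, one_pow, one_mul]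
    exact g.top
  obtain ⟨b0, kl0⟩ := kp ι (T 0) (x 0) η (B 0) 8 I (c 0) a₀ S l G β k₁ h₁ h2 hs
    (norm_pos_iff.1 (g.xa ▸ one_pos)) η0 B0 (by norm_num) g.adm.2 g.nrm
    (g.bd 0 (Set.mem_insert _ _)) (by rwa [g.xa, g.x0, one_pow, one_pow, mul_one, mul_one])
  have kz := fun z (hz : z ∈ sphere (0 : ℂ) t) => kp ι (T z) (x z) η (B z) (exp ((N + 1) * δ)) I
    (c z) a₀ S l G β k₁ h₁ h2 hs (norm_pos_iff.1 ((exp_pos _).trans_le (g.low z hz).1)) η0
    (g.pos z (Set.mem_insert_of_mem _ hz)) (one_le_exp (by positivity)) g.adm.2 g.nrm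
    (g.bd z (Set.mem_insert_of_mem _ hz)) (by
      have k1 := (g.size z (sub hz)).2
      have k2 := (norm_le_pi_norm (x z) a₀).trans k1
      have k3 := (g.low z hz).2
      calc _ ≤ exp δ * (exp (η * rew β) * ‖dt I (Fin.cons (c z) (xc (T z) a₀ (x z) l G))‖) *
            (exp δ ^ (N - nb β) * exp δ ^ nb β) := by gcongr
        _ = _ := by
          rw [← pow_add, Nat.sub_add_cancel (nb_le β), add_mul, exp_add, exp_nat_mul, one_mul]
          ring)
  obtain ⟨U, ρ, V, P, P', u1, u2, u3, u4, u5, u6, u7, u8, u9, u10, u11, u12, u13, u14⟩ :=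
    u0 F x m _ _ t δ E ⟨g.t1, g.t2⟩ hδ (hE.trans (exp_le_exp.2 (neg_le_neg (by gcongr)))) hH g.dx
      g.x0 g.size ((diff_uu g.hol g.dx g.dc k₁).continuousOn.mono sub) (fun z hz => (kz z hz).1) b0
  have hQ : 2 ≤ exp (CU * δ) := by
    linarith [add_one_le_exp (CU * δ), one_le_mul_of_one_le_of_one_le hCU hδ]
  obtain ⟨k₂, e, e1, e2, e3⟩ := centre hC h₁ g.x0 g.xa g.adm g.nrm B0 hCK top rfl kl0 u5 u6 u7 u8
    u9 u10 u11 u12 hQ u13 u14 (by
      rw [← exp_nat_mul, ← mul_assoc _ CU]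
      exact small (by positivity) (by positivity) c2 hδ hη)
  refine ⟨S.piecewise (fun _ => l k₂) l,
    fun z => nG S G fun k => LL (U z) ^ e k * LL V ^ (d - e k),
    fun z => (∑ k, e k : ℕ) * log (ρ z), nG_hol fun k => ?_, fun z => nG_lab hs g.adm.2.2 _,
    continuousOn_const.mul (u2.log fun z hz => (u3 z hz).1.ne'), e3.trans (by gcongr),
    fun z hz => ?_, ?_⟩
  · exact ((HolP.LL u1.differentiableOn).pow _).mul (HolP.const _ _)
  · obtain ⟨r1, r2, U', r3, r4, r5⟩ := u3 z hz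
    have Bz := g.pos z (Set.mem_insert_of_mem _ hz)
    refine (circle hO hs Bz hCK (g.nrm k₂).1 r1 (kz z hz).2 r3 r4 r5 r2 hQ u12 e2 ?_).trans
      (by gcongr)
    rw [← exp_nat_mul, ← exp_nat_mul, ← exp_add, ← mul_assoc, ← mul_assoc _ CU, ← add_mul]
    exact small (by positivity) (by positivity) (by exact_mod_cast c3) hδ hη
  · have k0 := (hS t ⟨g.t1, g.t2⟩).2 ν x g.dx fun z hz =>
      norm_pos_iff.1 ((exp_pos _).trans_le (g.size z hz).1)
    have k1 : ((S.card * (S.card - 1) : ℕ) : ℝ) ≤ 2 * (∑ k, e k : ℕ) := by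
      have := sum_inj_ge e1
      rw [Fintype.card_coe] at this
      exact_mod_cast this
    have k2 : ((∑ k, e k : ℕ) : ℝ) ≤ (d * N : ℕ) := by
      refine Nat.cast_le.2 ((Finset.sum_le_card_nsmul _ _ d fun k _ => e2 k).trans ?_)
      rw [smul_eq_mul, mul_comm, Finset.card_univ, Fintype.card_coe]
      exact Nat.mul_le_mul_left d (by simpa using Finset.card_le_univ S)
    have k3 : (0 : ℝ) < dF := by exact_mod_cast hdF
    have k4 : circleAverage (fun z => ((∑ k, e k : ℕ) : ℝ) * log (ρ z)) 0 t =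
        (∑ k, e k : ℕ) * circleAverage (fun z => log (ρ z)) 0 t := by
      simpa only [smul_eq_mul] using circleAverage_fun_smul (f := fun z => log (ρ z)) (c := 0)
        (R := t) (a := ((∑ k, e k : ℕ) : ℝ))
    rw [k4]
    have k5 : (0 : ℝ) ≤ (∑ k, e k : ℕ) := Nat.cast_nonneg _
    generalize ((∑ k, e k : ℕ) : ℝ) = s at k1 k2 k5 ⊢
    generalize ((S.card * (S.card - 1) : ℕ) : ℝ) = n at k1 ⊢
    have k6 : n / (4 * dF) * Tch x 0 t ≤ s * (Tch x 0 t / (2 * dF)) :=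
      calc _ ≤ 2 * s / (4 * dF) * Tch x 0 t := by gcongr
        _ = _ := by field_simp; ring
    have k7 : s * CU ≤ (d * N : ℕ) * CU := by gcongr
    linarith [mul_le_mul_of_nonneg_left u4 k5]

end

end Pool.Agent.Lib.MP_45f16c_ag.EX
end

-- part Pool.Agent.Lib.MP_45f16c_ag.EX.Pre
section

/-! The choice of the circle. -/

set_option autoImplicit false
open Metric MeasureTheory MvPolynomial Filter Real
open scoped ComplexConjugate Matrix Topology

namespace Pool.Agent.Lib.MP_45f16c_ag.EX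

open AS

noncomputable section

namespace PreAux

theorem root {n : ℕ} (hn : 1 ≤ n) {a b g : ℝ} (hb : 0 ≤ b) (hg : 0 < g)
    (h : a ^ n * g ≤ b ^ n * g) : a ≤ b :=
  le_of_pow_le_pow_left₀ (by omega) hb (le_of_mul_le_mul_right h hg)

theorem le_exp {a δ : ℝ} (ha : 0 ≤ a) (hδ : 1 ≤ δ) : a ≤ exp (a * δ) := by
  linarith [add_one_le_exp (a * δ), le_mul_of_one_le_right ha hδ]

/-- The minimum modulus step. -/
theorem circle (hM : MMStmt) : ∃ C : ℝ, 1 ≤ C ∧ ∀ (P G A : ℂ → ℂ) (y : ℂ → ℝ) (n : ℕ) (V : ℝ),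
    1 ≤ n → 1 ≤ V → DifferentiableOn ℂ P BB → DifferentiableOn ℂ G BB → DifferentiableOn ℂ A BB →
    G 0 ≠ 0 → A 0 ≠ 0 → 0 < y 0 → y 0 ≤ exp V * ‖P 0‖ → (∀ z ∈ BB, ‖A z‖ ≤ exp V * ‖A 0‖) →
    (∀ z ∈ BB, G z ≠ 0 → y z ^ n * ‖G z‖ ≤ (exp V * y 0) ^ n * ‖G 0‖ ∧ ‖P z‖ ≤ exp V * y z) →
    ∃ t ∈ Set.Icc (1 : ℝ) 2, ∀ z ∈ sphere (0 : ℂ) t,
      G z ≠ 0 ∧ ‖A 0‖ ≤ exp (C * V) * ‖A z‖ ∧ y z ≤ exp (C * V) * ‖P z‖ := by
  obtain ⟨C, hC, hM⟩ := hM
  refine ⟨4 * C + 3, by linarith, fun P G A y n V hn hV dP dG dA G0 A0 y0 y1 hA hy => ?_⟩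
  have p0 : 0 < ‖P 0‖ := (mul_pos_iff_of_pos_left (exp_pos V)).1 (y0.trans_le y1)
  have g0 := norm_pos_iff.2 G0
  have a0 := norm_pos_iff.2 A0
  have h1 : ∀ z ∈ BB, G z ≠ 0 → y z ^ n * ‖G z‖ ≤ (exp V ^ 2 * ‖P 0‖) ^ n * ‖G 0‖ :=
    fun z hz h => (hy z hz h).1.trans (by rw [sq, mul_assoc]; gcongr)
  have h2 : ∀ z ∈ BB, ‖P z‖ ^ n * ‖G z‖ ≤ (exp V ^ 3 * ‖P 0‖) ^ n * ‖G 0‖ := fun z hz => by
    by_cases h : G z = 0
    · rw [h, norm_zero, mul_zero]; positivity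
    calc _ ≤ (exp V * y z) ^ n * ‖G z‖ := by gcongr; exact (hy z hz h).2
      _ = exp V ^ n * (y z ^ n * ‖G z‖) := by rw [mul_pow, mul_assoc]
      _ ≤ exp V ^ n * ((exp V ^ 2 * ‖P 0‖) ^ n * ‖G 0‖) :=
        mul_le_mul_of_nonneg_left (h1 z hz h) (by positivity)
      _ = _ := by rw [← mul_assoc, ← mul_pow]; congr 2; ring
  have hn' : (1 : ℝ) ≤ n := by exact_mod_cast hn
  obtain ⟨t, ht, h3⟩ := hM (fun z => (P z * A z) ^ n * G z) (n * (4 * V))
    (one_le_mul_of_one_le_of_one_le hn' (by linarith)) (((dP.mul dA).pow n).mul dG) fun z hz => by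
      simp only [norm_mul, norm_pow]
      calc _ = ‖A z‖ ^ n * (‖P z‖ ^ n * ‖G z‖) := by ring
        _ ≤ (exp V * ‖A 0‖) ^ n * ((exp V ^ 3 * ‖P 0‖) ^ n * ‖G 0‖) :=
          mul_le_mul (pow_le_pow_left₀ (norm_nonneg _) (hA z hz) _) (h2 z hz) (by positivity)
            (by positivity)
        _ = (exp V ^ 4) ^ n * ((‖P 0‖ * ‖A 0‖) ^ n * ‖G 0‖) := by
          rw [← mul_assoc, ← mul_assoc, ← mul_pow, ← mul_pow]; congr 2; ring
        _ = _ := by rw [exp_nat_mul, ← exp_nat_mul V]; norm_num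
  refine ⟨t, ht, fun z hz => ?_⟩
  have hzB : z ∈ BB := sphere_subset_closedBall.trans (closedBall_subset_ball (by linarith [ht.2])) hz
  have h4 := h3 z hz
  simp only [norm_mul, norm_pow] at h4
  rw [mul_left_comm C, exp_nat_mul, ← mul_assoc, ← mul_pow] at h4
  have hG : G z ≠ 0 := fun h => by
    rw [h, norm_zero, mul_zero] at h4
    exact absurd h4 (not_le.2 (by positivity))
  have e : exp ((4 * C + 3) * V) = exp (C * (4 * V)) * exp V ^ 3 := by
    rw [← exp_nat_mul, ← exp_add]; congr 1; push_cast; ring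
  refine ⟨hG, le_of_mul_le_mul_left (root hn (by positivity) g0 (h4.trans ?_)) p0,
    le_of_mul_le_mul_right (root hn (by positivity) (norm_pos_iff.2 hG) ?_) a0⟩
  · calc _ = (exp (C * (4 * V)) * ‖A z‖) ^ n * (‖P z‖ ^ n * ‖G z‖) := by ring
      _ ≤ (exp (C * (4 * V)) * ‖A z‖) ^ n * ((exp V ^ 3 * ‖P 0‖) ^ n * ‖G 0‖) :=
          mul_le_mul_of_nonneg_left (h2 z hzB) (by positivity)
      _ = _ := by rw [← mul_assoc, ← mul_pow, e]; congr 2; ring
  · calc _ = ‖A 0‖ ^ n * (y z ^ n * ‖G z‖) := by ring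
      _ ≤ ‖A 0‖ ^ n * ((exp V ^ 2 * ‖P 0‖) ^ n * ‖G 0‖) :=
          mul_le_mul_of_nonneg_left (h1 z hzB hG) (by positivity)
      _ = (exp V ^ 2) ^ n * ((‖P 0‖ * ‖A 0‖) ^ n * ‖G 0‖) := by
          rw [← mul_assoc, ← mul_assoc, ← mul_pow, ← mul_pow]; congr 2; ring
      _ ≤ (exp V ^ 2) ^ n * ((exp (C * (4 * V)) * (‖P z‖ * (exp V * ‖A 0‖))) ^ n * ‖G z‖) := by
          refine mul_le_mul_of_nonneg_left (h4.trans ?_) (by positivity)
          gcongr
          exact hA z hzB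
      _ = _ := by rw [← mul_assoc, ← mul_pow, e]; congr 2; ring

/-- The first column can be changed where the functional is not small. -/
theorem loc (hA : AmbStmt) (hF : FstStmt) {ν d : ℕ} {ι : Type} [Fintype ι]
    {T : MP ν →ₗ[ℂ] (ι → ℂ)} {x m : Fin ν → ℂ} {η X CH E W n Z : ℝ} {R : Finset ι} {sc : ι → ℝ}
    {α : ℂ} {S : ℝ} (hn : n = Fintype.card ι) (hZ : Z = 32 * ν * (d + 1) * n * (CH + 1))
    (hm : m ⬝ᵥ x = 1) (hX : 0 ≤ X) (hCH : 0 ≤ CH) (hE : 0 ≤ E) (hS : 0 < S) (hsc : ∀ e, 0 ≤ sc e)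
    (hB : Bd T x d η R sc X) (hf : Fn T x d R sc α CH E S) (hW : 1 ≤ W) (h1 : S ≤ exp W * ‖α‖)
    (h2 : exp (-W) ≤ ‖x‖) (h3 : nl m ≤ exp W) (h4 : (Z + d + 3) * W ≤ η)
    (h5 : E ≤ exp (-((2 * n + 1) * η))) :
    (∀ (N : ℕ) (I : Fin (N + 1) → ι), (∀ i, I i ∈ R) →
      Bd1 T x d η I (T (LL m ^ (d + 1))) (2 * X * (∏ i, sc (I i)) / ‖x‖ ^ (d + 1))) ∧
    (Nr T x d η R sc X → ∃ (N : ℕ) (I : Fin (N + 1) → ι) (l : Fin N → Fin ν → ℂ)
      (G : Fin N → MP ν) (β : Fin N → ℕ), (∀ i, I i ∈ R) ∧ Adm x d l G β ∧ Nrm l G ∧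
      2 * X * (∏ i, sc (I i)) / ‖x‖ ^ (d + 1) ≤
        8 * (exp (η * rew β) * ‖dt I (cols T (T (LL m ^ (d + 1))) l G)‖)) := by
  have n0 : 0 ≤ n := hn ▸ Nat.cast_nonneg _
  have Z0 : 0 ≤ Z := by rw [hZ]; positivity
  have a0 : 0 < ‖α‖ := (mul_pos_iff_of_pos_left (exp_pos W)).1 (hS.trans_le h1)
  have x0 : 0 < ‖x‖ := (exp_pos _).trans_le h2
  have w1 : 0 ≤ Z * W := by positivity
  have w2 : 0 ≤ d * W := by positivity
  have η0 : 0 ≤ η := by linarith
  have w3 : 0 ≤ n * η := by positivity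
  refine hF ν d ι T x m η X _ R sc hm hX (by positivity) hsc hB
    (hA ν d ι T x η X CH E S R sc α (norm_pos_iff.1 x0) (norm_pos_iff.1 a0) η0 hX hCH hE hS.le hsc
      hB hf ?_) ?_
  · calc 2 * E * S ≤ exp W * exp (-((2 * n + 1) * η)) * (exp W * ‖α‖) := by
          gcongr
          linarith [add_one_le_exp W]
      _ = ‖α‖ * exp (W + -((2 * n + 1) * η) + W) := by rw [exp_add, exp_add]; ring
      _ ≤ ‖α‖ * exp (-W) ^ (d + 1) := by
          rw [← exp_nat_mul]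
          gcongr
          push_cast
          linarith
      _ ≤ _ := by gcongr
  · have e1 : E * exp (2 * n * η) ≤ exp (-η) :=
      (mul_le_mul_of_nonneg_right h5 (exp_pos _).le).trans_eq (by rw [← exp_add]; congr 1; ring)
    rw [← hn]
    calc _ = 32 * ν * (d + 1) * n * (CH * exp (-η) + E * exp (2 * n * η)) * (S / ‖α‖) *
          nl m ^ (d + 1) := by rw [mul_pow]; field_simp; ring
      _ ≤ 32 * ν * (d + 1) * n * (CH * exp (-η) + exp (-η)) * exp W * exp W ^ (d + 1) := by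
          have := nl_nonneg m
          gcongr
          exact (div_le_iff₀ a0).2 h1
      _ = Z * exp (-η) * exp W * exp W ^ (d + 1) := by rw [hZ]; ring
      _ ≤ exp (Z * W) * exp (-η) * exp W * exp W ^ (d + 1) := by gcongr; exact le_exp Z0 hW
      _ ≤ 1 := by
          rw [← exp_nat_mul, ← exp_add, ← exp_add, ← exp_add, exp_le_one_iff]
          push_cast
          linarith

end PreAux

open PreAux in
theorem preS (hA : AmbStmt) (hF : FstStmt) (hM : MMStmt) (hC : CorStmt) : PreStmt := by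
  intro ν d ι _ CH hCH
  obtain ⟨C₀, hC₀, hC⟩ := hC ν
  obtain ⟨CM, hCM, hM⟩ := circle hM
  obtain ⟨n, hn⟩ : ∃ n : ℝ, n = Fintype.card ι := ⟨_, rfl⟩
  obtain ⟨Z, hZ⟩ : ∃ Z : ℝ, Z = 32 * ν * (d + 1) * n * (CH + 1) := ⟨_, rfl⟩
  have n0 : 0 ≤ n := hn ▸ Nat.cast_nonneg _
  have Z0 : 0 ≤ Z := by rw [hZ]; positivity
  have d0 : (0 : ℝ) ≤ d := Nat.cast_nonneg _
  obtain ⟨V, hV⟩ : ∃ V : ℝ, V = (C₀ + 5) * (d + 1) + 3 * n + 2 := ⟨_, rfl⟩
  have V1 : C₀ + 5 + 3 * n + 2 ≤ V := by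
    have := le_mul_of_one_le_right (by linarith : 0 ≤ C₀ + 5) (by linarith : (1 : ℝ) ≤ d + 1)
    linarith
  have V2 : V ≤ CM * V := le_mul_of_one_le_left (by linarith) hCM
  obtain ⟨W, hW⟩ : ∃ W : ℝ, W = CM * V + n + d + 2 := ⟨_, rfl⟩
  have W1 : W ≤ (Z + d + 3) * W := le_mul_of_one_le_left (by linarith) (by linarith)
  refine ⟨(Z + d + 3) * W + 2 * n, by linarith, ?_⟩
  intro T x R sc α G X N₁ E η δ h hδ hη hE hE'
  have δ0 : 0 ≤ δ := by linarith
  have mono : ∀ {a b : ℝ}, a ≤ b → exp (a * δ) ≤ exp (b * δ) := fun h => by gcongr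
  have mono' : ∀ {b : ℝ}, 1 ≤ b → exp δ ≤ exp (b * δ) ∧ exp (-(b * δ)) ≤ exp (-δ) := fun h =>
    ⟨exp_le_exp.2 (le_mul_of_one_le_left δ0 h),
      exp_le_exp.2 (neg_le_neg (le_mul_of_one_le_left δ0 h))⟩
  have η0 : 0 ≤ η := le_trans (mul_nonneg (by linarith) δ0) hη
  obtain ⟨m, dm, hm⟩ := hC x δ δ0 h.dx h.size
  have hm' : ∀ z ∈ BB, nl (m z) ≤ exp ((C₀ + 5) * δ) := fun z hz => (hm z hz).2.trans (by
    rw [add_mul, exp_add]
    gcongr
    exact le_exp (by linarith) hδ)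
  have hB6 : BB ⊆ ball 0 6 := ball_subset_ball (by norm_num)
  have h0 : (0 : ℂ) ∈ BB := mem_ball_self (by norm_num)
  have a0 := norm_pos_iff.2 h.α0
  have hl := fun z (hz : z ∈ BB) (hG : G z ≠ 0) (hα : exp δ * ‖α 0‖ ≤ exp (W * δ) * ‖α z‖) =>
    loc hA hF hn hZ (hm z hz).1 (h.hX z hz hG).1.le (by linarith) hE (by positivity)
      (fun e => (h.hsc z hz e).1.le) (h.hX z hz hG).2.2 (h.fn z hz)
      (one_le_mul_of_one_le_of_one_le (by linarith) hδ) hα
      ((mono' (by linarith)).2.trans (h.size z (hB6 hz)).1) ((hm' z hz).trans (mono (by linarith)))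
      (le_trans (by rw [← mul_assoc]; gcongr; linarith) hη)
      (hE'.trans (exp_le_exp.2 (neg_le_neg (mul_le_mul_of_nonneg_right (by linarith) η0))))
  have hα0 : exp δ * ‖α 0‖ ≤ exp (W * δ) * ‖α 0‖ :=
    mul_le_mul_of_nonneg_right (mono' (by linarith)).1 a0.le
  obtain ⟨N, I, l, G₀, β, hI, adm, nrm, top⟩ := (hl 0 h0 h.G0 hα0).2 h.nr
  obtain ⟨a₀, -, ha₀⟩ := exists_max (norm_pos_iff.1 (h.x0 ▸ one_pos : 0 < ‖x 0‖))
  rw [h.x0] at ha₀
  have hpos : ∀ z ∈ BB, 0 < ∏ i, sc z (I i) := fun z hz =>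
    Finset.prod_pos fun i _ => (h.hsc z hz _).1
  have X0 := (h.hX 0 h0 h.G0).1
  have s0 := hpos 0 h0
  have top' := top
  rw [h.x0, one_pow, div_one] at top'
  have hN : (N : ℝ) + 1 ≤ n := by
    rw [hn]
    exact_mod_cast le_card_of_dt (I := I) fun e => by
      rw [e, norm_zero, mul_zero, mul_zero] at top'
      exact absurd top' (not_le.2 (by positivity))
  have N0 : (0 : ℝ) ≤ N := Nat.cast_nonneg _
  have hs : ∀ z ∈ BB, ∏ i, sc z (I i) ≤ exp ((N + 1) * δ) * ∏ i, sc 0 (I i) := fun z hz => by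
    refine (Finset.prod_le_prod (fun i _ => (h.hsc z hz _).1.le)
      fun i _ => (h.hsc z hz _).2).trans_eq ?_
    rw [Finset.prod_mul_distrib, Fin.prod_const, ← exp_nat_mul, Nat.cast_succ]
  have dx : DifferentiableOn ℂ x BB := h.dx.mono hB6
  have dc : DifferentiableOn ℂ (fun z => T z (LL (m z) ^ (d + 1))) BB :=
    h.hol BB _ ((HolP.LL dm).pow (d + 1))
  obtain ⟨P, dP, hP⟩ : ∃ P : ℂ → ℂ, DifferentiableOn ℂ P BB ∧ ∀ z, ‖P z‖ = exp (η * rew β) *
      ‖dt I (Fin.cons (T z (LL (m z) ^ (d + 1))) (xc (T z) a₀ (x z) l G₀))‖ :=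
    ⟨_, (differentiableOn_dt_cons I dc (h.hol.xc dx a₀ l (G := fun _ => G₀)
      fun k => HolP.const _ _)).const_mul (exp (η * rew β) : ℝ), fun z => by
        rw [norm_mul, Complex.norm_real, Real.norm_of_nonneg (exp_pos _).le]⟩
  have e2 : 2 ≤ exp δ := by linarith [add_one_le_exp δ]
  have e3 : exp δ * exp δ ≤ exp (V * δ) := by
    rw [← exp_add, ← two_mul]; exact mono (by linarith)
  obtain ⟨t, ht, hc⟩ := hM P G (fun z => α z * x z a₀) (fun z => X z * ∏ i, sc 0 (I i)) N₁ (V * δ)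
    h.N1 (one_le_mul_of_one_le_of_one_le (by linarith) hδ) dP h.dG
    (h.dα.mul (differentiableOn_pi.1 dx a₀)) h.G0
    (mul_ne_zero h.α0 (norm_pos_iff.1 (ha₀ ▸ one_pos))) (by positivity)
    (by
      rw [hP, dt_xc a₀ adm.1, norm_mul, norm_pow, ha₀, one_pow, one_mul]
      refine le_trans (by linarith) (mul_le_mul_of_nonneg_right
        (le_trans (by nlinarith : (4 : ℝ) ≤ _) e3) (by positivity)))
    (fun z hz => by
      rw [norm_mul, norm_mul, ha₀, mul_one]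
      calc _ ≤ exp δ * ‖α 0‖ * exp δ := mul_le_mul (h.hα z hz)
            ((norm_le_pi_norm _ _).trans (h.size z (hB6 hz)).2) (norm_nonneg _) (by positivity)
        _ = exp δ * exp δ * ‖α 0‖ := by ring
        _ ≤ _ := by gcongr)
    (fun z hz hG => by
      obtain ⟨q1, q2, q3⟩ := h.hX z hz hG
      refine ⟨?_, ?_⟩
      · calc _ = (∏ i, sc 0 (I i)) ^ N₁ * (X z ^ N₁ * ‖G z‖) := by ring
          _ ≤ (∏ i, sc 0 (I i)) ^ N₁ * ((exp (V * δ) * X 0) ^ N₁ * ‖G 0‖) := by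
            refine mul_le_mul_of_nonneg_left (q2.trans ?_) (by positivity)
            gcongr
            exact le_mul_of_one_le_left δ0 (by linarith)
          _ = _ := by ring
      · have q4 := q3 N I (m z) hI (fun k => ex a₀ (x z) (l k)) G₀ β ⟨fun k => ex_dot _ _ _, adm.2⟩
        have q5 : ∏ k, nl (ex a₀ (x z) (l k)) * n1 (G₀ k) ≤ exp (N * (2 * δ)) := by
          rw [exp_nat_mul, ← Fin.prod_const]
          refine Finset.prod_le_prod (fun k _ => mul_nonneg (nl_nonneg _) (n1_nonneg _))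
            fun k _ => (mul_le_of_le_one_right (nl_nonneg _) (nrm k).2).trans
              ((nl_ex_le _ _ _).trans ((mul_le_of_le_one_right (by positivity) (nrm k).1).trans ?_))
          rw [two_mul δ, exp_add]
          gcongr
          exact (h.size z (hB6 hz)).2
        have q6 := nl_nonneg (m z)
        have q7 := prod_nn Finset.univ (fun k => ex a₀ (x z) (l k)) G₀
        rw [hP, ← cols_ex]
        calc _ ≤ _ := q4
          _ ≤ X z * (exp ((N + 1) * δ) * ∏ i, sc 0 (I i)) * exp ((C₀ + 5) * δ) ^ (d + 1) *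
              exp (N * (2 * δ)) := by
            gcongr
            exacts [hs z hz, hm' z hz]
          _ = exp (((N + 1) + (C₀ + 5) * (d + 1) + 2 * N) * δ) * (X z * ∏ i, sc 0 (I i)) := by
            rw [← exp_nat_mul, show ((N + 1) + (C₀ + 5) * (d + 1) + 2 * N : ℝ) * δ = (N + 1) * δ +
              (d + 1 : ℕ) * ((C₀ + 5) * δ) + N * (2 * δ) by push_cast; ring, exp_add, exp_add]
            ring
          _ ≤ _ := by gcongr; linarith)
  simp only [norm_mul, ha₀, mul_one, ← mul_assoc CM] at hc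
  have hsB : sphere (0 : ℂ) t ⊆ BB :=
    sphere_subset_closedBall.trans (closedBall_subset_ball (by linarith [ht.2]))
  have hWe : exp δ * exp (CM * V * δ) * exp δ ≤ exp (W * δ) := by
    rw [← exp_add, ← exp_add]
    exact le_of_eq_of_le (by congr 1; ring) (mono (by linarith : CM * V + 2 ≤ W))
  have hin : ∀ z ∈ insert 0 (sphere (0 : ℂ) t), z ∈ BB ∧ G z ≠ 0 ∧
      exp δ * ‖α 0‖ ≤ exp (W * δ) * ‖α z‖ := by
    rintro z (rfl | hz)
    · exact ⟨h0, h.G0, hα0⟩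
    refine ⟨hsB hz, (hc z hz).1, ?_⟩
    calc _ ≤ exp δ * (exp (CM * V * δ) * (‖α z‖ * exp δ)) := by
          refine mul_le_mul_of_nonneg_left ((hc z hz).2.1.trans ?_) (exp_pos _).le
          gcongr
          exact (norm_le_pi_norm _ _).trans (h.size z (hB6 (hsB hz))).2
      _ = exp δ * exp (CM * V * δ) * exp δ * ‖α z‖ := by ring
      _ ≤ _ := by gcongr
  have W3 : 3 * W ≤ (Z + d + 3) * W := mul_le_mul_of_nonneg_right (by linarith) (by linarith)
  refine ⟨N, I, m, a₀, l, G₀, β, t, by exact_mod_cast hn ▸ hN, hI, dm,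
    fun z hz => ⟨(hm z hz).1, (hm' z hz).trans (mono (by linarith))⟩, fun z hz => (hc z hz).1,
    h.hol, dx, dc, ht.1, ht.2, h.x0, ha₀, fun z hz => ⟨(mono' (by linarith)).2.trans
      (h.size z (hB6 hz)).1, (h.size z (hB6 hz)).2.trans (mono' (by linarith)).1⟩, adm, nrm,
    fun z hz => ?_, fun z hz => (hl z (hin z hz).1 (hin z hz).2.1 (hin z hz).2.2).1 N I hI, top,
    fun z hz => ⟨?_, ?_⟩⟩
  · have := (h.hX z (hin z hz).1 (hin z hz).2.1).1
    have := hpos z (hin z hz).1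
    have := (exp_pos _).trans_le (h.size z (hB6 (hin z hz).1)).1
    positivity
  · have q1 : 1 * ‖α 0‖ ≤ exp (CM * V * δ) * exp δ * ‖x z a₀‖ * ‖α 0‖ := by
      rw [one_mul]
      refine (hc z hz).2.1.trans (le_of_le_of_eq ?_ (by ring :
        exp (CM * V * δ) * (exp δ * ‖α 0‖ * ‖x z a₀‖) = _))
      gcongr
      exact h.hα z (hsB hz)
    rw [exp_neg, inv_le_iff_one_le_mul₀' (exp_pos _)]
    refine (le_of_mul_le_mul_right q1 a0).trans ?_
    rw [← exp_add]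
    gcongr
    exact le_of_eq_of_le (by ring) (mul_le_mul_of_nonneg_right
      (by linarith : CM * V + 1 ≤ (Z + d + 3) * W + 2 * n) δ0)
  · have q1 := (h.size z (hB6 (hsB hz))).1
    have q2 := (h.hX z (hsB hz) (hc z hz).1).1
    have q3 := hpos z (hsB hz)
    rw [← hP]
    calc _ ≤ exp δ * X z * (exp ((N + 1) * δ) * ∏ i, sc 0 (I i)) / exp (-δ) ^ (d + 1) := by
          gcongr
          exact hs z (hsB hz)
      _ = exp ((N + d + 3) * δ) * (X z * ∏ i, sc 0 (I i)) := by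
          rw [div_eq_mul_inv, ← inv_pow, ← exp_neg, neg_neg, ← exp_nat_mul,
            show (N + d + 3 : ℝ) * δ = δ + (N + 1) * δ + (d + 1 : ℕ) * δ by push_cast; ring,
            exp_add, exp_add]
          ring
      _ ≤ exp ((N + d + 3) * δ) * (exp (CM * V * δ) * ‖P z‖) :=
          mul_le_mul_of_nonneg_left (hc z hz).2.2 (exp_pos _).le
      _ ≤ _ := by
          rw [← mul_assoc, ← exp_add, ← add_mul]
          exact mul_le_mul_of_nonneg_right (mono (by linarith)) (norm_nonneg _)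

end

end Pool.Agent.Lib.MP_45f16c_ag.EX
end

-- part Pool.Agent.Lib.MP_45f16c_ag.EX.Avg
section

/-! The final averaging. -/

set_option autoImplicit false
open Metric MeasureTheory MvPolynomial Filter Real
open scoped ComplexConjugate Matrix Topology

namespace Pool.Agent.Lib.MP_45f16c_ag.EX

open AS

noncomputable section

namespace AvgAux

theorem avg {t : ℝ} (ht : 0 ≤ t) (a b c : ℝ) {f g h : ℂ → ℝ} (hf : ContinuousOn f (sphere 0 t))
    (hg : ContinuousOn g (sphere 0 t)) (hh : ContinuousOn h (sphere 0 t)) :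
    circleAverage (fun z => a + b * f z + c * g z - h z) 0 t =
      a + b * circleAverage f 0 t + c * circleAverage g 0 t - circleAverage h 0 t := by
  have h1 : ContinuousOn (fun z => b * f z) (sphere 0 t) := continuousOn_const.mul hf
  have h2 : ContinuousOn (fun z => c * g z) (sphere 0 t) := continuousOn_const.mul hg
  have h3 : ContinuousOn (fun z => a + b * f z) (sphere 0 t) := continuousOn_const.add h1
  have h4 : ContinuousOn (fun z => a + b * f z + c * g z) (sphere 0 t) := h3.add h2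
  rw [circleAverage_fun_sub (h4.circleIntegrable ht) (hh.circleIntegrable ht),
    circleAverage_fun_add (h3.circleIntegrable ht) (h2.circleIntegrable ht),
    circleAverage_fun_add (continuousOn_const.circleIntegrable ht) (h1.circleIntegrable ht),
    circleAverage_const]
  exact congrArg₂ _ (congrArg₂ _ (congrArg _ (circleAverage_fun_smul (a := b) (f := f)))
    (circleAverage_fun_smul (a := c) (f := g))) rfl

end AvgAux

theorem finS (hD : DivDStmt) (hS : SubMStmt) : FinStmt := by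
  intro ν d N D w N₁ ι _ T x c I a₀ β G χ μ s t η C gain ht hs hC hN hT dx dc dG xne x0 xa G0 hz
    cχ ⟨l, G', gn, h1, h2, cgn, b0, bz, av⟩ hw
  have ht0 : 0 ≤ t := by linarith [ht.1]
  have hC0 : 0 < C := by linarith
  have hN0 : (0 : ℝ) ≤ N₁ := Nat.cast_nonneg _
  have sub : sphere (0 : ℂ) t ⊆ BB := fun z hz => by
    rw [mem_sphere] at hz; rw [mem_ball, hz]; linarith [ht.2]
  obtain ⟨u, du, hu⟩ := hD ν N ι T x c I a₀ l G' β BB hT dx dc h1 h2
  have l0 : lg x 0 = 0 := by rw [lg, x0, log_one]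
  have hτ := (hS t ht).2 ν x dx xne
  rw [Tch, l0, sub_zero] at hτ av
  have cl := continuousOn_lg (dx.continuousOn.mono sub) fun z hz => xne z (sub hz)
  have low : exp (N₁ * (log s - log C - η * rew β) + μ - χ 0) ≤ ‖u 0 ^ N₁ * G 0‖ := by
    simp only [hu, norm_mul, norm_pow, x0, xa, one_pow, mul_one, one_mul, div_one] at b0
    have k1 : Xf μ χ N₁ D x G 0 * exp (log s - log C - η * rew β) ≤ ‖u 0‖ := by
      rw [exp_sub, exp_sub, exp_log hs, exp_log hC0, div_div, ← mul_div_assoc,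
        div_le_iff₀ (by positivity)]
      linarith
    have k2 := Xf_pow (μ := μ) (χ := χ) (D := D) (f := x) hN G0
    rw [l0, mul_zero, add_zero] at k2
    rw [norm_mul, norm_pow, add_sub_assoc, exp_add, ← k2, exp_nat_mul, ← mul_assoc, ← mul_pow,
      mul_comm (exp _)]
    exact mul_le_mul_of_nonneg_right (pow_le_pow_left₀
      (mul_pos (Xf_pos _ _ _ _ _ _ _) (exp_pos _)).le k1 _) (norm_nonneg _)
  have main := (hS t ht).1 (fun z => u z ^ N₁ * G z) (fun z =>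
      (N₁ * (log C + log s - η * rew β) + μ) + N₁ * (w + nb β + D - (d + 1)) * lg x z +
        N₁ * gn z - χ z) ((du.pow N₁).mul dG) (norm_pos_iff.1 ((exp_pos _).trans_le low))
    (((continuousOn_const.add (continuousOn_const.mul cl)).add
      (continuousOn_const.mul cgn)).sub cχ) fun z hz' => by
      have hx0 := norm_pos_iff.2 (xne z (sub hz'))
      have ha0 := pow_pos (norm_pos_iff.2 (hz z hz').2) (N - nb β)
      have k0 := bz z hz'
      simp only [hu, norm_mul, norm_pow] at k0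
      have k1 : ‖u z‖ ≤ Xf μ χ N₁ D x G z *
          exp (log C + log s - η * rew β + (w + nb β - (d + 1 : ℕ)) * lg x z + gn z) := by
        rw [sub_mul, add_mul, exp_add, exp_add, exp_sub, exp_sub, exp_add, exp_add, exp_log hs,
          exp_log hC0, exp_nat_mul, exp_nat_mul, exp_nat_mul, lg, exp_log hx0]
        refine le_of_mul_le_mul_left (le_trans (le_of_eq (by ring)) (k0.trans (le_of_eq ?_)))
          (mul_pos (exp_pos (η * rew β)) ha0)
        field_simp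
      have k2 := Xf_pow (μ := μ) (χ := χ) (D := D) (f := x) hN (hz z hz').1
      rw [norm_mul, norm_pow]
      refine (mul_le_mul_of_nonneg_right (pow_le_pow_left₀ (norm_nonneg _) k1 _)
        (norm_nonneg _)).trans (le_of_eq ?_)
      rw [mul_pow, mul_right_comm, k2, ← exp_nat_mul, ← exp_add]
      congr 1
      push_cast
      ring
  rw [AvgAux.avg ht0 _ _ _ cl cgn cχ] at main
  have f1 := (le_log_iff_exp_le ((exp_pos _).trans_le low)).2 low
  have f2 : log C ≤ C := (log_le_sub_one_of_pos hC0).trans (by linarith)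
  have f3 := mul_le_mul_of_nonneg_left av hN0
  have f4 := mul_le_mul_of_nonneg_left f2 hN0
  have f5 := mul_le_mul_of_nonneg_left (mul_le_mul_of_nonneg_right hw hτ) hN0
  nlinarith

end

end Pool.Agent.Lib.MP_45f16c_ag.EX
end

-- part Pool.Agent.Lib.MP_45f16c_ag.EX.Jump
section

/-! The jump. -/

set_option autoImplicit false
open Metric MeasureTheory MvPolynomial Filter Real
open scoped ComplexConjugate Matrix Topology

namespace Pool.Agent.Lib.MP_45f16c_ag.EX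

open AS

noncomputable section

namespace JumpAux

theorem gain0 (hB : BdEStmt) {ν d N : ℕ} {ι : Type} [Fintype ι] {T : ℂ → MP ν →ₗ[ℂ] (ι → ℂ)}
    {x : ℂ → Fin ν → ℂ} {c : ℂ → ι → ℂ} {I : Fin (N + 1) → ι} {a₀ : Fin ν}
    {l : Fin N → Fin ν → ℂ} {G : Fin N → MP ν} {β : Fin N → ℕ} {B : ℂ → ℝ} {t η δ : ℝ}
    (h : GIn d T x c I a₀ l G β B t η δ) : GainOut T x c I a₀ β B t η (8 * 4 ^ N) 0 := by
  have h4 : (1 : ℝ) ≤ 4 ^ N := one_le_pow₀ (by norm_num)
  refine ⟨l, fun _ => G, fun _ => 0, fun k => HolP.const _ _, fun _ => h.adm.2.2,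
    continuousOn_const, ?_, fun z hz => ?_, ?_⟩
  · rw [dt_xc a₀ h.adm.1, norm_mul, norm_pow, h.xa, one_pow, one_mul]
    refine h.top.trans (mul_le_mul_of_nonneg_right (by linarith) (by positivity))
  · have hz' : z ∈ insert 0 (sphere (0 : ℂ) t) := Or.inr hz
    have hx : x z ≠ 0 := by
      intro h0
      have := (h.low z hz).1
      rw [h0] at this
      simp only [Pi.zero_apply, norm_zero] at this
      exact absurd this (not_le.2 (exp_pos _))
    have hp := h.pos z hz'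
    have := hB ν d N ι (T z) (x z) η (B z) I (c z) a₀ ∅ l G β hx hp.le (h.bd z hz')
      (fun k hk => absurd hk (Finset.notMem_empty k)) h.adm.2
    rw [Finset.piecewise_empty, Finset.compl_empty, cols_ex, Finset.card_univ,
      Fintype.card_fin] at this
    refine this.trans ?_
    rw [exp_zero]
    change _ * (_ * ‖x z‖ ^ nb β) * _ ≤ _
    refine mul_le_mul (mul_le_mul_of_nonneg_right (mul_le_mul_of_nonneg_right (by linarith) hp.le)
      (by positivity)) (h.nrm.prod_le _) (prod_nn _ _ _) (by positivity)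
  · rw [circleAverage_const, zero_mul, sub_zero]
    positivity

end JumpAux

theorem jumpS (hP : PreStmt) (hG : GainStmt) (hF : FinStmt) (hB : BdEStmt) : JumpStmt := by
  intro ν d dF ι _ CH c₀ CF hdF hCH hc₀
  obtain ⟨CP, hCP, HP⟩ := hP ν d ι CH hCH
  choose CG hCG HG using fun N => hG ν d dF N c₀ CF hdF hc₀
  obtain ⟨A, hA1, hA⟩ : ∃ A : ℝ, 1 ≤ A ∧ ∀ N, N + 1 ≤ Fintype.card ι → CG N ≤ A ∧ 8 * 4 ^ N ≤ A := by
    have h0 : 0 ≤ ∑ N ∈ Finset.range (Fintype.card ι), (CG N + 8 * 4 ^ N) :=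
      Finset.sum_nonneg fun N _ => by have := hCG N; positivity
    refine ⟨1 + ∑ N ∈ Finset.range (Fintype.card ι), (CG N + 8 * 4 ^ N), by linarith,
      fun N hN => ?_⟩
    have h1 := Finset.single_le_sum (f := fun N => CG N + 8 * 4 ^ N)
      (s := Finset.range (Fintype.card ι)) (fun N _ => by have := hCG N; positivity)
      (Finset.mem_range.2 hN)
    have h2 : (0 : ℝ) ≤ 8 * 4 ^ N := by positivity
    have h3 := hCG N
    constructor <;> linarith
  have hAC : CP ≤ A * CP := le_mul_of_one_le_left (by linarith) hA1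
  have hAC' : A ≤ A * CP := le_mul_of_one_le_right (by linarith) hCP
  refine ⟨3 * (A * CP), by linarith, ?_⟩
  intro T x R v s α G χ D N₁ μ E η δ F hJ hδ hη hE0 hE hF1 hF2 hF3 hF4 hχ hcase
  have k1 : A * CP * δ ≤ η := by nlinarith
  have k2 : CP * δ ≤ η := by nlinarith
  have k3 : 1 ≤ CP * δ := one_le_mul_of_one_le_of_one_le hCP hδ
  have k4 : E ≤ exp (-(CP * η)) := hE.trans (exp_le_exp.2 (by nlinarith))
  have k5 : E ≤ exp (-η) := hE.trans (exp_le_exp.2 (by nlinarith))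
  obtain ⟨N, I, m, a₀, l, G₀, β, t, hN, hI, hm1, hm2, hGt, hg⟩ :=
    HP T x R _ α G _ N₁ E η δ hJ hδ k2 hE0 k4
  have h0 : (0 : ℂ) ∈ insert 0 (sphere (0 : ℂ) t) := Or.inl rfl
  have hs : ∀ e, 0 < s e := fun e => by
    have := (hJ.hsc 0 (mem_ball_self (by norm_num)) e).1
    simpa only [hJ.x0, one_pow, mul_one] using this
  have eB : (fun z => 2 * Xf μ χ N₁ D x G z * (∏ i, s (I i) * ‖x z‖ ^ v (I i)) / ‖x z‖ ^ (d + 1)) =
      fun z => Xf μ χ N₁ D x G z * ((2 * ∏ i, s (I i)) * ‖x z‖ ^ ∑ i, v (I i)) /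
        ‖x z‖ ^ (d + 1) := by
    funext z
    rw [Finset.prod_mul_distrib, Finset.prod_pow_eq_pow_sum]
    ring
  have fin : ∀ C gain : ℝ, 1 ≤ C → C ≤ A → GainOut T x (fun z => T z (LL (m z) ^ (d + 1))) I a₀ β
      (fun z => 2 * Xf μ χ N₁ D x G z * (∏ i, s (I i) * ‖x z‖ ^ v (I i)) / ‖x z‖ ^ (d + 1))
      t η C gain → (((∑ i, v (I i) : ℕ) : ℝ) + nb β + D : ℝ) ≤ d + 1 + gain →
      ∃ t ∈ Set.Icc (1 : ℝ) 2, circleAverage χ 0 t ≤ χ 0 + 3 * (A * CP) * N₁ := by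
    intro C gain hC hCA hgo hw
    rw [eB] at hgo
    have hsp : 0 < 2 * ∏ i, s (I i) := mul_pos two_pos (Finset.prod_pos fun i _ => hs _)
    refine ⟨t, ⟨hg.t1, hg.t2⟩, (hF ν d N D _ N₁ ι T x _ I a₀ β G χ μ _ t η C gain ⟨hg.t1, hg.t2⟩
      hsp hC hJ.N1 hg.hol hg.dx hg.dc hJ.dG (fun z hz => ?_) hg.x0 hg.xa hJ.G0
      (fun z hz => ⟨hGt z hz, ?_⟩) hχ.continuousOn hgo hw).trans ?_⟩
    · exact norm_pos_iff.1 ((exp_pos _).trans_le (hg.size z hz).1)
    · exact norm_pos_iff.1 ((exp_pos _).trans_le (hg.low z hz).1)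
    · have : (0 : ℝ) ≤ N₁ := Nat.cast_nonneg _
      have : 3 * C ≤ 3 * (A * CP) := by linarith
      gcongr
  rcases hcase N I _ _ l G₀ β hI hg.adm hg.nrm (hg.bd 0 h0) (hg.pos 0 h0) hg.top with
    h | ⟨S, hS1, hS2, h⟩
  · have h4 : (1 : ℝ) ≤ 4 ^ N := one_le_pow₀ (by norm_num)
    refine fin _ 0 (by linarith) (hA N hN).2 (JumpAux.gain0 hB hg) ?_
    rw [add_zero]
    exact_mod_cast h
  · have k6 : CG N * (CP * δ) ≤ η := by
      have := mul_le_mul_of_nonneg_right (hA N hN).1 (by linarith : 0 ≤ CP * δ)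
      nlinarith
    refine fin _ _ (hCG N) (hA N hN).1 (HG N ι T x m _ I a₀ l G₀ β _ t η (CP * δ) E F S hg
      ⟨hF1, hF2, hF3, hm1, hm2, hF4⟩ k3 k6 (k5.trans (exp_le_exp.2 (by linarith))) hS1 hS2) ?_
    have hd : (0 : ℝ) < 4 * dF := by
      have : (1 : ℝ) ≤ dF := by exact_mod_cast hdF
      linarith
    generalize S.card * (S.card - 1) = q at h ⊢
    generalize ∑ i, v (I i) = w at h ⊢
    have h' : (4 * dF * (w + nb β + D) : ℝ) ≤ 4 * dF * (d + 1) + q := by exact_mod_cast h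
    rw [← sub_le_iff_le_add', le_div_iff₀ hd]
    linarith

end

end Pool.Agent.Lib.MP_45f16c_ag.EX
end

-- part Pool.Agent.Lib.MP_45f16c_ag.EX.Orc
section

/-! The oracle. -/

set_option autoImplicit false
open Metric MeasureTheory MvPolynomial Filter Real
open scoped ComplexConjugate Matrix Topology

namespace Pool.Agent.Lib.MP_45f16c_ag.EX

open AS

noncomputable section

namespace OrcAux

theorem cov {s : ℝ} (hs : 0 < s) : ∃ (N : ℕ) (z : Fin N → ℂ), (∀ i, z i ∈ DD1) ∧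
    ∀ w ∈ DD1, ∃ i, w ∈ closedBall (z i) s := by
  obtain ⟨t, h1, h2, h3⟩ := (isCompact_closedBall (0 : ℂ) 1).finite_cover_balls hs
  obtain ⟨N, z, -, rfl⟩ := h2.fin_param
  refine ⟨N, z, fun i => h1 ⟨i, rfl⟩, fun w hw => ?_⟩
  obtain ⟨_, ⟨i, rfl⟩, h4⟩ := Set.mem_iUnion₂.1 (h3 hw)
  exact ⟨i, ball_subset_closedBall h4⟩

/-- a linear form that is large at finitely many given vectors -/
theorem lam {ν : ℕ} (M : ℕ) (v : Fin M → Fin ν → ℂ) : ∃ l : Fin ν → ℂ,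
    nl l ≤ 1 - (1 / 4) ^ M ∧ ∀ i, (1 / 4) ^ M * ‖v i‖ ≤ ‖l ⬝ᵥ v i‖ := by
  induction M with
  | zero => exact ⟨0, by simp [nl_zero], fun i => i.elim0⟩
  | succ M ih =>
    obtain ⟨l, h1, h2⟩ := ih fun i => v i.succ
    rw [pow_succ]
    have hc : (0 : ℝ) < (1 / 4) ^ M := by positivity
    generalize ((1 : ℝ) / 4) ^ M = c at h1 h2 hc
    by_cases h : c * (1 / 4) * ‖v 0‖ ≤ ‖l ⬝ᵥ v 0‖
    · refine ⟨l, by linarith, fun i => Fin.cases h (fun i => ?_) i⟩
      have := mul_nonneg hc.le (norm_nonneg (v i.succ))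
      linarith [h2 i]
    · have h0 : v 0 ≠ 0 := fun e => h (by simp [e])
      obtain ⟨a, -, ha⟩ := exists_max h0
      have h3 : ∀ w : Fin ν → ℂ, ‖(Pi.single a ((c / 2 : ℝ) : ℂ) : Fin ν → ℂ) ⬝ᵥ w‖ =
          c / 2 * ‖w a‖ := fun w => by
        rw [single_dotProduct, norm_mul, Complex.norm_real, Real.norm_of_nonneg (by positivity)]
      refine ⟨l + Pi.single a ((c / 2 : ℝ) : ℂ), (nl_add_le _ _).trans ?_,
        fun i => Fin.cases ?_ (fun i => ?_) i⟩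
      · rw [nl_single, Complex.norm_real, Real.norm_of_nonneg (by positivity)]
        linarith
      · have h4 := norm_sub_le ((l + Pi.single a ((c / 2 : ℝ) : ℂ)) ⬝ᵥ v 0) (l ⬝ᵥ v 0)
        rw [add_dotProduct, add_sub_cancel_left, h3, ha] at h4
        rw [add_dotProduct]
        linarith
      · have h4 := norm_sub_le ((l + Pi.single a ((c / 2 : ℝ) : ℂ)) ⬝ᵥ v i.succ)
          ((Pi.single a ((c / 2 : ℝ) : ℂ) : Fin ν → ℂ) ⬝ᵥ v i.succ)
        rw [add_dotProduct, add_sub_cancel_right, h3] at h4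
        rw [add_dotProduct]
        have h5 := mul_le_mul_of_nonneg_left (norm_le_pi_norm (v i.succ) a) hc.le
        have := mul_nonneg hc.le (norm_nonneg (v i.succ))
        linarith [h2 i]

theorem dot_map {ν : ℕ} (L : (Fin ν → ℂ) →ₗ[ℂ] (Fin ν → ℂ)) (l x : Fin ν → ℂ) :
    (fun a => l ⬝ᵥ L (Pi.single a 1)) ⬝ᵥ x = l ⬝ᵥ L x := by
  conv_rhs => rw [pi_eq_sum_univ' x, map_sum, dotProduct_sum]
  exact Finset.sum_congr rfl fun a _ => by rw [map_smul, dotProduct_smul, smul_eq_mul, mul_comm]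

end OrcAux

theorem orcS (hS : SubspStmt) (hP : PMStmt) : OrcStmt := by
  have _ := hP
  intro ν p r hp hr
  obtain ⟨M, z, hz, hc⟩ := OrcAux.cov (half_pos hr)
  obtain ⟨C, hC, hC'⟩ : ∃ C : ℝ, 0 < C ∧ ν * ((p : ℝ) + 2) ≤ C :=
    ⟨ν * ((p : ℝ) + 2) + 1, by positivity, by linarith⟩
  refine ⟨C⁻¹ * (1 / 4) ^ M, by positivity, fun f b hf h0 => ?_⟩
  obtain ⟨e, A, he, hA, hb⟩ := hS ν p b hp
  have hg : ContinuousOn (fun u => ‖res e A (f u)‖ / ‖f u‖) DD1 :=
    (((resL e A).continuous_of_finiteDimensional.comp hf).norm.continuousOn).div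
      hf.norm.continuousOn fun u hu => norm_ne_zero_iff.2 (h0 u hu)
  choose w hw hm using fun i => ((isCompact_closedBall (z i) (r / 2)).inter_right
    (isClosed_closedBall (x := (0 : ℂ)) (ε := 1))).exists_isMaxOn
      ⟨z i, mem_closedBall_self (half_pos hr).le, hz i⟩ (hg.mono Set.inter_subset_right)
  obtain ⟨l, h1, h2⟩ := OrcAux.lam M fun i => res e A (f (w i))
  have h3 : ∀ x, (((C⁻¹ : ℝ) : ℂ) • fun a => l ⬝ᵥ resL e A (Pi.single a 1)) ⬝ᵥ x =
      ((C⁻¹ : ℝ) : ℂ) * (l ⬝ᵥ res e A x) := fun x => by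
    rw [smul_dotProduct, OrcAux.dot_map, resL_apply, smul_eq_mul]
  have h4 : ‖((C⁻¹ : ℝ) : ℂ)‖ = C⁻¹ := by
    rw [Complex.norm_real, Real.norm_of_nonneg (by positivity)]
  refine ⟨((C⁻¹ : ℝ) : ℂ) • fun a => l ⬝ᵥ resL e A (Pi.single a 1), fun κ => by
    rw [h3, hb, dotProduct_zero, mul_zero], ?_, e, A, he, hA, fun z₀ θ k1 k2 u hu => ?_⟩
  · rw [nl_smul, h4, inv_mul_le_iff₀ hC, mul_one]
    refine ((nl_le _).trans (mul_le_mul_of_nonneg_left ((pi_norm_le_iff_of_nonneg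
      (by positivity)).2 fun a => ?_) (by positivity))).trans hC'
    have h5 := norm_res_le he hA (Pi.single a 1)
    rw [Pi.norm_single, norm_one, mul_one] at h5
    have h6 : nl l ≤ 1 := h1.trans (sub_le_self _ (by positivity))
    refine (norm_dot_le _ _).trans ?_
    rw [resL_apply]
    exact (mul_le_of_le_one_left (norm_nonneg _) h6).trans h5
  · have hu1 : u ∈ DD1 := k1 (closedBall_subset_closedBall (by linarith) hu)
    obtain ⟨i, hi⟩ := hc u hu1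
    have h5 : ‖res e A (f u)‖ / ‖f u‖ ≤ ‖res e A (f (w i))‖ / ‖f (w i)‖ := hm i ⟨hi, hu1⟩
    have h6 : w i ∈ closedBall z₀ (2 * r) := by
      have a1 := mem_closedBall.1 (hw i).1
      have a2 := mem_closedBall'.1 hi
      have a3 := mem_closedBall.1 hu
      have a4 := dist_triangle4 (w i) (z i) u z₀
      exact mem_closedBall.2 (by linarith)
    have h7 := k2 _ h6
    rw [h3, norm_mul, h4] at h7
    have h8 : C⁻¹ * (1 / 4) ^ M * (‖res e A (f (w i))‖ / ‖f (w i)‖) ≤ θ := by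
      rw [← mul_div_assoc, div_le_iff₀ (norm_pos_iff.2 (h0 _ (hw i).2)), mul_assoc]
      exact (mul_le_mul_of_nonneg_left (h2 i) (by positivity)).trans h7
    rw [← div_le_iff₀ (norm_pos_iff.2 (h0 _ hu1)), mul_div_assoc]
    exact (mul_le_mul_of_nonneg_left h5 (by positivity)).trans h8

end

end Pool.Agent.Lib.MP_45f16c_ag.EX
end
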