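import Pool.Agent.Lib.MP_45f16c_ag.EX.BR
import Pool.Agent.Lib.MP_45f16c_ag.AS.An

/-! The field of planes along a slow disc. -/

set_option autoImplicit false
open Metric MeasureTheory MvPolynomial Filter Real
open scoped ComplexConjugate Matrix Topology

namespace Pool.Agent.Lib.MP_45f16c_ag.EX

open AS

noncomputable section

namespace PiZAux

variable {ν d n q : ℕ}

theorem dtb (c₀ : Fin (n + 1) → ℂ) (W : Fin n → Fin (n + 1) → ℂ) {A B : ℝ} (h0 : ‖c₀‖ ≤ A)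
    (h : ∀ k, ‖W k‖ ≤ B) :
    ‖dt id (Fin.cons c₀ W : Fin (n + 1) → Fin (n + 1) → ℂ)‖ ≤ (n + 1).factorial * (A * B ^ n) := by
  have := norm_dt_le' id (Fin.cons c₀ W : Fin (n + 1) → Fin (n + 1) → ℂ)
    (A := Fin.cons A fun _ => B) (Fin.cases h0 h)
  simpa [Fin.prod_univ_succ] using this

theorem euler (c : Mon ν d → ℂ) (x : Fin ν → ℂ) : grad c x ⬝ᵥ x = d * eval x (form c) := by
  have h1 := congrArg (eval x) (form_isHomogeneous c).sum_X_mul_pderiv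
  simp only [map_sum, map_mul, eval_X, nsmul_eq_mul, map_natCast] at h1
  rw [← h1]
  exact Finset.sum_congr rfl fun a _ => mul_comm _ _

theorem chain (c : Mon ν d → ℂ) {f : ℂ → Fin ν → ℂ} (hf : Differentiable ℂ f) (z : ℂ) :
    HasDerivAt (fun z => eval (f z) (form c)) (grad c (f z) ⬝ᵥ deriv f z) z := by
  have := (hasFDerivAt_eval (form c) (f z)).comp_hasDerivAt z (hf z).hasDerivAt
  refine this.congr_deriv ?_
  simp [grad, dotProduct]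

theorem cauchy {E : Type} [NormedAddCommGroup E] [NormedSpace ℂ E] [CompleteSpace E] {g : ℂ → E}
    (hg : Differentiable ℂ g) {B : ℝ} (h : ∀ z ∈ DD1, ‖g z‖ ≤ B) {z : ℂ} (hz : ‖z‖ ≤ 1 / 2) :
    ‖deriv g z‖ ≤ 2 * B := by
  have := Complex.norm_deriv_le_of_forall_mem_sphere_norm_le (c := z) (R := 1 / 2) (C := B)
    (by norm_num) hg.diffContOnCl fun w hw => h w (by
      rw [mem_sphere_iff_norm] at hw
      rw [mem_closedBall_zero_iff]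
      linarith [norm_add_le (w - z) z, sub_add_cancel w z ▸ le_refl ‖w - z + z‖,
        show ‖w‖ = ‖w - z + z‖ by rw [sub_add_cancel]])
  linarith [show B / (1 / 2) = 2 * B by ring]

theorem sg_norm (x : Fin ν → ℂ) (Ψ : Fin ν → Fin ν → ℂ) (b b' : Fin ν) :
    ‖sg x Ψ b b'‖ ≤ 2 * ‖x‖ * ‖Ψ‖ := by
  have h : ∀ a a', ‖x a • Ψ a'‖ ≤ ‖x‖ * ‖Ψ‖ := fun a a' => by
    rw [norm_smul]
    exact mul_le_mul (norm_le_pi_norm _ _) (norm_le_pi_norm _ _) (norm_nonneg _) (norm_nonneg _)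
  refine (norm_sub_le _ _).trans ?_
  linarith [h b b', h b' b]

theorem sg_dot {H x : Fin ν → ℂ} {Ψ : Fin ν → Fin ν → ℂ} {g : ℂ} {E : ℝ}
    (h : ∀ b, ‖H ⬝ᵥ Ψ b + x b * g‖ ≤ E) (b b' : Fin ν) : ‖H ⬝ᵥ sg x Ψ b b'‖ ≤ 2 * ‖x‖ * E := by
  have h1 : ∀ a a', ‖x a * (H ⬝ᵥ Ψ a' + x a' * g)‖ ≤ ‖x‖ * E := fun a a' => by
    rw [norm_mul]
    exact mul_le_mul (norm_le_pi_norm _ _) (h a') (norm_nonneg _) (norm_nonneg _)
  have e : H ⬝ᵥ sg x Ψ b b' =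
      x b * (H ⬝ᵥ Ψ b' + x b' * g) - x b' * (H ⬝ᵥ Ψ b + x b * g) := by
    rw [sg, dotProduct_sub, dotProduct_smul, dotProduct_smul, smul_eq_mul, smul_eq_mul]; ring
  rw [e]
  refine (norm_sub_le _ _).trans ?_
  linarith [h1 b b', h1 b' b]

/-- The columns after the first one. -/
def WW (x v : Fin (q + 4) → ℂ) (w : Fin (q + 4) → ℂ) (R : Fin q → Fin (q + 4) → ℂ) :
    Fin (q + 3) → Fin (q + 4) → ℂ :=
  Fin.cons x (Fin.cons v (Fin.cons w R : Fin (q + 1) → Fin (q + 4) → ℂ))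

theorem WW_all {x v w : Fin (q + 4) → ℂ} {R : Fin q → Fin (q + 4) → ℂ}
    (P : (Fin (q + 4) → ℂ) → Prop) (h1 : P x) (h2 : P v) (h3 : P w) (h4 : ∀ k, P (R k)) :
    ∀ k, P (WW x v w R k) := Fin.cases h1 (Fin.cases h2 (Fin.cases h3 h4))

theorem dt_sg (c₀ x v : Fin (q + 4) → ℂ) (Ψ : Fin (q + 4) → Fin (q + 4) → ℂ)
    (R : Fin q → Fin (q + 4) → ℂ) (b : Fin (q + 4) × Fin (q + 4)) :
    bv x (fun β => dt id (Fin.cons c₀ (WW x v (Ψ β) R) : Fin (q + 4) → Fin (q + 4) → ℂ)) b =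
      dt id (Fin.cons c₀ (WW x v (sg x Ψ b.1 b.2) R) : Fin (q + 4) → Fin (q + 4) → ℂ) := by
  let L : (Fin (q + 4) → ℂ) →ₗ[ℂ] ℂ :=
    { toFun := fun w => dt id (Fin.cons c₀ (WW x v w R) : Fin (q + 4) → Fin (q + 4) → ℂ)
      map_add' := fun w w' =>
        ((((dtc id c₀).curryLeft x).curryLeft v).toMultilinearMap.cons_add R w w' :)
      map_smul' := fun a w =>
        ((((dtc id c₀).curryLeft x).curryLeft v).toMultilinearMap.cons_smul R a w :) }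
  change x b.1 * L (Ψ b.2) - x b.2 * L (Ψ b.1) = L (x b.1 • Ψ b.2 - x b.2 • Ψ b.1)
  rw [map_sub, map_smul, map_smul, smul_eq_mul, smul_eq_mul]

section pt
variable {H c₀ : Fin (q + 4) → ℂ} {W : Fin (q + 3) → Fin (q + 4) → ℂ} {Y Z E : ℝ}

theorem pt (hP : PiStmt) (a : Fin (q + 4)) (hZ : 2 ≤ Z) (hY : Z ≤ Y)
    (hF : ((q + 4).factorial : ℝ) ≤ Z) (hE : 0 ≤ E) (h0 : ‖c₀‖ ≤ Y ^ (2 * d + 1))
    (hW : ∀ k, ‖W k‖ ≤ Z ^ 3 ∧ ‖H ⬝ᵥ W k‖ ≤ Y ^ 2 * E) :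
    ‖H a * dt id (Fin.cons c₀ W : Fin (q + 4) → Fin (q + 4) → ℂ) - (H ⬝ᵥ c₀) *
      dt id (Fin.cons (Pi.single a 1) W : Fin (q + 4) → Fin (q + 4) → ℂ)‖ ≤
      E * Y ^ ((2 * d + 3) * (q + 3) + 4) := by
  have h1 : 1 ≤ Y := by linarith
  have h2 := hP (q + 3) H c₀ W a (Y ^ (2 * d + 3)) (Y ^ 2 * E) (one_le_pow₀ h1)
    (h0.trans (pow_le_pow_right₀ h1 (by omega))) fun k => ⟨(hW k).1.trans
      ((pow_le_pow_left₀ (by linarith) hY 3).trans (pow_le_pow_right₀ h1 (by omega))), (hW k).2⟩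
  refine h2.trans ?_
  have h3 : ((q + 3 : ℕ) : ℝ) ≤ Y := by
    refine le_trans ?_ (hF.trans hY)
    exact_mod_cast (Nat.le_succ _).trans (Nat.self_le_factorial (q + 4))
  have h4 := hF.trans hY
  have h5 : (0 : ℝ) ≤ ((q + 4).factorial : ℝ) := Nat.cast_nonneg _
  change ((q + 3 : ℕ) : ℝ) * ((q + 4).factorial : ℝ) * _ * _ ≤ _
  generalize ((q + 4).factorial : ℝ) = F at *
  rw [← pow_mul, pow_add]
  calc ((q + 3 : ℕ) : ℝ) * F * (Y ^ 2 * E) * Y ^ ((2 * d + 3) * (q + 3))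
      ≤ Y * Y * (Y ^ 2 * E) * Y ^ ((2 * d + 3) * (q + 3)) := by gcongr
    _ = _ := by ring

theorem up (hP : PiStmt) (hH : H ≠ 0) (hZ : 2 ≤ Z) (hY : Z ≤ Y)
    (hF : ((q + 4).factorial : ℝ) ≤ Z) (hE : 0 ≤ E) (h0 : ‖c₀‖ ≤ Y ^ (2 * d + 1))
    (hW : ∀ k, ‖W k‖ ≤ Z ^ 3 ∧ ‖H ⬝ᵥ W k‖ ≤ Y ^ 2 * E) (h1 : ‖H ⬝ᵥ c₀ + 1‖ ≤ 1 / 2)
    (h2 : E * Y ^ ((2 * d + 3) * (q + 3) + 4) ≤ 1) :
    ‖H‖ * ‖dt id (Fin.cons c₀ W : Fin (q + 4) → Fin (q + 4) → ℂ)‖ ≤ Z ^ (3 * q + 12) := by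
  obtain ⟨a, -, ha⟩ := exists_max hH
  have h3 := (pt hP a hZ hY hF hE h0 hW).trans h2
  have h4 := dtb (Pi.single a 1) W (A := 1) (by rw [Pi.norm_single, norm_one]) fun k => (hW k).1
  have h5 : ‖H ⬝ᵥ c₀‖ ≤ Z := by
    have := norm_sub_le (H ⬝ᵥ c₀ + 1) 1
    rw [add_sub_cancel_right, norm_one] at this
    linarith
  have h6 := norm_sub_norm_le (H a * dt id (Fin.cons c₀ W : Fin (q + 4) → Fin (q + 4) → ℂ))
    ((H ⬝ᵥ c₀) * dt id (Fin.cons (Pi.single a 1) W : Fin (q + 4) → Fin (q + 4) → ℂ))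
  rw [norm_mul, norm_mul, ha] at h6
  have h7 : ‖H ⬝ᵥ c₀‖ * ‖dt id (Fin.cons (Pi.single a 1) W : Fin (q + 4) → Fin (q + 4) → ℂ)‖ ≤
      Z * (Z * (1 * (Z ^ 3) ^ (q + 3))) := by
    refine mul_le_mul h5 (h4.trans ?_) (norm_nonneg _) (by linarith)
    exact mul_le_mul_of_nonneg_right hF (by positivity)
  have h8 : Z * (Z * (1 * (Z ^ 3) ^ (q + 3))) = Z ^ (3 * q + 11) := by ring
  have h9 : 1 ≤ Z ^ (3 * q + 11) := one_le_pow₀ (by linarith)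
  have h10 : Z ^ (3 * q + 12) = Z * Z ^ (3 * q + 11) := by ring
  nlinarith

theorem low (hP : PiStmt) {a : Fin (q + 4)} (ha : ‖H a‖ = ‖H‖) (hZ : 2 ≤ Z) (hY : Z ≤ Y)
    (hF : ((q + 4).factorial : ℝ) ≤ Z) (hE : 0 ≤ E) (h0 : ‖c₀‖ ≤ Y ^ (2 * d + 1))
    (hW : ∀ k, ‖W k‖ ≤ Z ^ 3 ∧ ‖H ⬝ᵥ W k‖ ≤ Y ^ 2 * E) (h1 : ‖H ⬝ᵥ c₀ + 1‖ ≤ 1 / 2) :
    ‖dt id (Fin.cons (Pi.single a 1) W : Fin (q + 4) → Fin (q + 4) → ℂ)‖ ≤
      2 * (‖H‖ * ‖dt id (Fin.cons c₀ W : Fin (q + 4) → Fin (q + 4) → ℂ)‖ +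
        E * Y ^ ((2 * d + 3) * (q + 3) + 4)) := by
  have h3 := pt hP a hZ hY hF hE h0 hW
  have h5 : 1 / 2 ≤ ‖H ⬝ᵥ c₀‖ := by
    have := norm_sub_le (H ⬝ᵥ c₀ + 1) (H ⬝ᵥ c₀)
    rw [add_sub_cancel_left, norm_one] at this
    linarith
  rw [norm_sub_rev] at h3
  have h6 := (norm_sub_norm_le _ _).trans h3
  rw [norm_mul, norm_mul, ha] at h6
  nlinarith [norm_nonneg (dt id (Fin.cons (Pi.single a 1) W : Fin (q + 4) → Fin (q + 4) → ℂ))]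

end pt

/-- The first column. -/
theorem first (hC : CorStmt) (ν d : ℕ) : ∃ C : ℝ, 1 ≤ C ∧ ∀ (c : Mon ν d → ℂ)
    (f : ℂ → Fin ν → ℂ) (ξ : Mon ν d → ℂ → Fin ν → ℂ) (z₁ : ℂ) (κ δ E : ℝ), SIn c f ξ z₁ κ δ E →
    ∃ c₀ : ℂ → Fin ν → ℂ, DifferentiableOn ℂ c₀ (ball 0 (5 / 12)) ∧
      ∀ z ∈ ball (0 : ℂ) (5 / 12), ‖c₀ z‖ ≤ exp κ * (C * exp (5 * δ)) ^ d ∧
        ‖grad c (f z) ⬝ᵥ c₀ z + 1‖ ≤ E * (C * exp (5 * δ)) ^ d := by
  obtain ⟨C, h1, hc⟩ := hC ν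
  refine ⟨C, h1, fun c f ξ z₁ κ δ E h => ?_⟩
  have hE : 0 ≤ E := (norm_nonneg _).trans (h.onX 0 (by simp))
  obtain ⟨m, dm, hm⟩ := hc (fun ζ => f (ζ / 6)) δ (by linarith [h.k1, h.k2])
    (h.df.comp (by fun_prop)).differentiableOn fun ζ hζ => by
      have := h.abs (ζ / 6) (by
        rw [mem_ball_zero_iff] at hζ
        rw [mem_closedBall_zero_iff, norm_div, Complex.norm_ofNat]
        linarith)
      exact ⟨this.1, this.2.trans (exp_le_exp.2 h.k2)⟩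
  have mem : ∀ z ∈ ball (0 : ℂ) (5 / 12), 6 * z ∈ BB := fun z hz => by
    rw [mem_ball_zero_iff] at hz ⊢
    rw [norm_mul, Complex.norm_ofNat]
    linarith
  refine ⟨fun z => TT (fun n => ξ n z) (LL (m (6 * z)) ^ d), holT_TT' h.dξ _ _
    ((HolP.LL (dm.comp (f := fun z => 6 * z) (by fun_prop) mem)).pow d), fun z hz => ?_⟩
  have hz1 : z ∈ DD1 := ball_subset_closedBall (ball_subset_ball (by norm_num) hz)
  obtain ⟨m1, m2⟩ := hm _ (mem z hz)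
  simp only [mul_div_cancel_left₀ z (show (6 : ℂ) ≠ 0 by norm_num)] at m1
  have hh := LL_pow_hom (m (6 * z)) d
  have hn : n1 (LL (m (6 * z)) ^ d) ≤ (C * exp (5 * δ)) ^ d :=
    (n1_LL_pow_le _ _).trans (pow_le_pow_left₀ (nl_nonneg _) m2 d)
  refine ⟨(pi_norm_le_iff_of_nonneg (by positivity)).2 fun e => ?_, ?_⟩
  · exact (norm_TT_le _ hh fun n => (norm_le_pi_norm _ e).trans (h.hξ z hz1 n)).trans
      (mul_le_mul_of_nonneg_left hn (exp_pos _).le)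
  · have e1 : eval (f z) (LL (m (6 * z)) ^ d) = 1 := by rw [map_pow, eval_LL, m1, one_pow]
    rw [dot_TT, ← e1, eval_eq_sum_mon hh, ← Finset.sum_add_distrib]
    simp only [← mul_add]
    refine (norm_sum_coeff_le hh (B := E) fun n => ?_).trans (mul_le_mul_of_nonneg_left hn hE)
    rw [add_comm]
    exact h.err z hz1 n

/-- The estimate with the constants written as powers of two large numbers. -/
theorem core (hP : PiStmt) (hd : 1 ≤ d) {c : Mon (q + 4) d → ℂ} {f c₀ : ℂ → Fin (q + 4) → ℂ}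
    {ξ : Mon (q + 4) d → ℂ → Fin (q + 4) → ℂ} {z₁ : ℂ} {κ δ E Y Z Cs Cg : ℝ}
    (h : SIn c f ξ z₁ κ δ E) (hZ : 2 ≤ Z) (hY : Z ≤ Y) (hF : ((q + 4).factorial : ℝ) ≤ Z)
    (hκ : exp κ ≤ Z) (hdZ : (d : ℝ) ≤ Z) (hs1 : 1 ≤ Cs) (hg1 : 1 ≤ Cg) (hsg : 4 * Cs * Cg ≤ Z)
    (hlow : ∀ z ∈ DD1, 1 ≤ Y * ‖f z‖)
    (hg : ∀ x, x ≠ 0 → ‖grad c x‖ ≤ Cg * ‖x‖ ^ (d - 1) ∧ ‖x‖ ^ (d - 1) ≤ Cg * ‖grad c x‖)
    (hE : E * Y ^ ((2 * d + 3) * (q + 3) + 5 * q + 3 * d + 30) ≤ 1)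
    (dc : DifferentiableOn ℂ c₀ (ball 0 (5 / 12)))
    (hc : ∀ z ∈ ball (0 : ℂ) (5 / 12), ‖c₀ z‖ ≤ Y ^ (2 * d + 1) ∧
      ‖grad c (f z) ⬝ᵥ c₀ z + 1‖ ≤ E * Y ^ (2 * d))
    {Ψ : Fin (q + 1) → ℂ → Fin (q + 4) → Fin (q + 4) → ℂ} {b b' : Fin (q + 1) → Fin (q + 4)}
    {a : Fin (q + 4)} (ha : ‖grad c (f z₁) a‖ = ‖grad c (f z₁)‖)
    (hΨ : ∀ k, Slot c f (Cs * exp κ) (Cs * E) (Ψ k))
    (hl : ‖f z₁‖ ^ (2 * (q + 1)) * ‖bv (f z₁) (deriv f z₁)‖ ≤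
      Cs * ‖dt id (Fin.cons (Pi.single a 1) (Fin.cons (f z₁) (Fin.cons (deriv f z₁) fun k =>
        sg (f z₁) (Ψ k z₁) (b k) (b' k))) : Fin (q + 4) → Fin (q + 4) → ℂ)‖) :
    ∃ u : ℂ → Fin (q + 4) → ℂ, DifferentiableOn ℂ u (ball 0 (5 / 12)) ∧
      (∀ z ∈ ball (0 : ℂ) (5 / 12), ‖u z‖ ≤ Y ^ (3 * q + 2 * d + 11) ∧
        ‖bv (f z) (u z)‖ * ‖f z‖ ^ (d - 1) ≤ Z ^ (3 * q + 13)) ∧
      ‖f z₁‖ ^ (2 * q + 4) ≤ 4 * Cs * Cg * ‖bv (f z₁) (u z₁)‖ * ‖f z₁‖ ^ (d - 1) := by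
  have hE0 : 0 ≤ E := (norm_nonneg _).trans (h.onX 0 (by simp))
  have Y1 : 1 ≤ Y := by linarith
  have Z1 : 1 ≤ Z := by linarith
  have Y0 : 0 < Y := by linarith
  have Z0 : 0 < Z := by linarith
  have hEk : ∀ k, k ≤ (2 * d + 3) * (q + 3) + 5 * q + 3 * d + 30 → E * Y ^ k ≤ 1 := fun k hk =>
    (mul_le_mul_of_nonneg_left (pow_le_pow_right₀ Y1 hk) hE0).trans hE
  have hCs : 2 * Cs ≤ Z := by nlinarith
  have hCg : Cg ≤ Z := by nlinarith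
  have sub : ∀ z ∈ ball (0 : ℂ) (5 / 12), z ∈ DD1 := fun z hz =>
    ball_subset_closedBall (ball_subset_ball (by norm_num) hz)
  have ne : ∀ z ∈ DD1, f z ≠ 0 := fun z hz e => by
    have := hlow z hz
    rw [e, norm_zero, mul_zero] at this
    linarith
  have half : ∀ z ∈ ball (0 : ℂ) (5 / 12), ‖grad c (f z) ⬝ᵥ c₀ z + 1‖ ≤ 1 / 2 := fun z hz => by
    have h1 := hEk (2 * d + 1) (by omega)
    have h2 : 0 ≤ E * Y ^ (2 * d) := mul_nonneg hE0 (pow_pos Y0 _).le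
    rw [pow_succ] at h1
    nlinarith [(hc z hz).2]
  have Z3 : Z ^ 2 ≤ Z ^ 3 := pow_le_pow_right₀ Z1 (by norm_num)
  have Y2 : Z * E ≤ Y ^ 2 * E := mul_le_mul_of_nonneg_right (by nlinarith) hE0
  have nf : ∀ z ∈ ball (0 : ℂ) (5 / 12), ‖f z‖ ≤ Z := fun z hz => (h.abs z (sub z hz)).2.trans hκ
  have b1 : ∀ z ∈ ball (0 : ℂ) (5 / 12), ‖f z‖ ≤ Z ^ 3 ∧ ‖grad c (f z) ⬝ᵥ f z‖ ≤ Y ^ 2 * E :=
    fun z hz => ⟨by nlinarith [nf z hz], by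
      rw [euler, norm_mul, Complex.norm_natCast]
      exact (mul_le_mul hdZ (h.onX z (sub z hz)) (norm_nonneg _) (by linarith)).trans Y2⟩
  have b2 : ∀ z ∈ ball (0 : ℂ) (5 / 12),
      ‖deriv f z‖ ≤ Z ^ 3 ∧ ‖grad c (f z) ⬝ᵥ deriv f z‖ ≤ Y ^ 2 * E := fun z hz => by
    have hz' : ‖z‖ ≤ 1 / 2 := by rw [mem_ball_zero_iff] at hz; linarith
    have h1 := cauchy h.df (fun w hw => (h.abs w hw).2.trans hκ) hz'
    have h2 := cauchy (fun w => (chain c h.df w).differentiableAt) h.onX hz'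
    rw [(chain c h.df z).deriv] at h2
    exact ⟨by nlinarith, by nlinarith⟩
  have b3 : ∀ z ∈ ball (0 : ℂ) (5 / 12), ∀ k, 2 * ‖Ψ k z‖ ≤ Z ^ 2 := fun z hz k => by
    have := (hΨ k).bd z (sub z hz)
    have := mul_le_mul hCs hκ (exp_pos κ).le (by linarith)
    nlinarith
  have b4 : ∀ z ∈ ball (0 : ℂ) (5 / 12), ∀ k β β', ‖sg (f z) (Ψ k z) β β'‖ ≤ Z ^ 3 ∧
      ‖grad c (f z) ⬝ᵥ sg (f z) (Ψ k z) β β'‖ ≤ Y ^ 2 * E := fun z hz k β β' => by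
    obtain ⟨g, hg⟩ := (hΨ k).err z (sub z hz)
    have h1 := mul_le_mul (nf z hz) (b3 z hz k) (mul_nonneg two_pos.le (norm_nonneg _)) Z0.le
    have h2 := mul_le_mul ((nf z hz).trans hY) (hCs.trans hY) (by linarith) (by linarith)
    have h3 := mul_le_mul_of_nonneg_right h2 hE0
    exact ⟨(sg_norm _ _ _ _).trans (by nlinarith), (sg_dot hg _ _).trans (by nlinarith)⟩
  have bW : ∀ z ∈ ball (0 : ℂ) (5 / 12), ∀ β β', ∀ k,
      ‖WW (f z) (deriv f z) (sg (f z) (Ψ 0 z) β β')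
        (fun k => sg (f z) (Ψ k.succ z) (b k.succ) (b' k.succ)) k‖ ≤ Z ^ 3 ∧
      ‖grad c (f z) ⬝ᵥ WW (f z) (deriv f z) (sg (f z) (Ψ 0 z) β β')
        (fun k => sg (f z) (Ψ k.succ z) (b k.succ) (b' k.succ)) k‖ ≤ Y ^ 2 * E :=
    fun z hz β β' => WW_all (fun w => ‖w‖ ≤ Z ^ 3 ∧ ‖grad c (f z) ⬝ᵥ w‖ ≤ Y ^ 2 * E) (b1 z hz)
      (b2 z hz) (b4 z hz 0 β β') fun k => b4 z hz _ _ _
  refine ⟨fun z β => dt id (Fin.cons (c₀ z) (WW (f z) (deriv f z) (Ψ 0 z β)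
    fun k => sg (f z) (Ψ k.succ z) (b k.succ) (b' k.succ)) : Fin (q + 4) → Fin (q + 4) → ℂ),
    differentiableOn_pi.2 fun β => differentiableOn_dt_cons id dc ?_, fun z hz => ⟨?_, ?_⟩, ?_⟩
  · have d1 : ∀ k β, Differentiable ℂ fun z => Ψ k z β := fun k =>
      differentiable_pi.1 (hΨ k).diff
    have d2 : ∀ β, Differentiable ℂ fun z => f z β := differentiable_pi.1 h.df
    exact Fin.cases h.df.differentiableOn (Fin.cases h.df.deriv.differentiableOn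
      (Fin.cases (d1 0 β).differentiableOn fun k => (((d2 _).smul (d1 k.succ _)).sub
        ((d2 _).smul (d1 k.succ _))).differentiableOn))
  · refine (pi_norm_le_iff_of_nonneg (pow_pos Y0 _).le).2 fun β => ?_
    refine (dtb _ _ (hc z hz).1 (B := Z ^ 3) (WW_all (fun w => ‖w‖ ≤ Z ^ 3) (b1 z hz).1
      (b2 z hz).1 ?_ fun k => (b4 z hz _ _ _).1)).trans ?_
    · nlinarith [norm_le_pi_norm (Ψ 0 z) β, b3 z hz 0, norm_nonneg (Ψ 0 z)]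
    · have h5 : (0 : ℝ) ≤ ((q + 4).factorial : ℝ) := Nat.cast_nonneg _
      have h4 := hF.trans hY
      change ((q + 4).factorial : ℝ) * _ ≤ _
      generalize ((q + 4).factorial : ℝ) = F at *
      clear bW b4 b3 b2 b1 hl hg hc half
      calc F * (Y ^ (2 * d + 1) * (Z ^ 3) ^ (q + 3))
          ≤ Y * (Y ^ (2 * d + 1) * (Y ^ 3) ^ (q + 3)) := by gcongr
        _ = _ := by ring
  · have hx := ne z (sub z hz)
    obtain ⟨-, g2⟩ := hg _ hx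
    have hp : 0 < ‖f z‖ ^ (d - 1) := pow_pos (norm_pos_iff.2 hx) _
    have hH : grad c (f z) ≠ 0 := fun e => by
      rw [e, norm_zero, mul_zero] at g2
      linarith
    rw [← le_div_iff₀ hp]
    refine (pi_norm_le_iff_of_nonneg (div_pos (pow_pos Z0 _) hp).le).2 fun β => ?_
    rw [le_div_iff₀ hp, dt_sg]
    have h1 := up hP hH hZ hY hF hE0 (hc z hz).1 (bW z hz β.1 β.2) (half z hz) (hEk _ (by omega))
    refine (mul_le_mul_of_nonneg_left g2 (norm_nonneg _)).trans ?_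
    rw [mul_left_comm, mul_comm _ ‖grad c (f z)‖, pow_succ' Z]
    exact mul_le_mul hCg h1 (mul_nonneg (norm_nonneg _) (norm_nonneg _)) Z0.le
  · have hz : z₁ ∈ ball (0 : ℂ) (5 / 12) := by
      rw [mem_ball_zero_iff]; linarith [h.z1]
    obtain ⟨g1, -⟩ := hg _ (ne z₁ (sub z₁ hz))
    have h1 := low hP ha hZ hY hF hE0 (hc z₁ hz).1 (bW z₁ hz (b 0) (b' 0)) (half z₁ hz)
    have e : (Fin.cons (f z₁) (Fin.cons (deriv f z₁) fun k => sg (f z₁) (Ψ k z₁) (b k) (b' k)) :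
        Fin (q + 3) → Fin (q + 4) → ℂ) = WW (f z₁) (deriv f z₁) (sg (f z₁) (Ψ 0 z₁) (b 0) (b' 0))
          fun k => sg (f z₁) (Ψ k.succ z₁) (b k.succ) (b' k.succ) := by
      unfold WW
      congr 2
      exact (Fin.cons_self_tail _).symm
    rw [e] at hl
    rw [← dt_sg (c₀ z₁) _ _ _ _ (b 0, b' 0)] at h1
    have h2 := norm_le_pi_norm (bv (f z₁) fun β => dt id (Fin.cons (c₀ z₁) (WW (f z₁) (deriv f z₁)
      (Ψ 0 z₁ β) fun k => sg (f z₁) (Ψ k.succ z₁) (b k.succ) (b' k.succ)) :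
        Fin (q + 4) → Fin (q + 4) → ℂ)) (b 0, b' 0)
    have h3 := mul_le_mul g1 h2 (norm_nonneg _) ((norm_nonneg _).trans g1)
    have h4 : ‖f z₁‖ ^ (2 * q + 4) ≤ ‖f z₁‖ ^ (2 * (q + 1)) * ‖bv (f z₁) (deriv f z₁)‖ := by
      rw [show 2 * q + 4 = 2 * (q + 1) + 2 by ring, pow_add]
      exact mul_le_mul_of_nonneg_left h.sph (pow_nonneg (norm_nonneg _) _)
    have h5 : 1 ≤ Y ^ (2 * q + 4) * ‖f z₁‖ ^ (2 * q + 4) := by
      rw [← mul_pow]; exact one_le_pow₀ (hlow z₁ (sub z₁ hz))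
    have h6 := hEk ((2 * d + 3) * (q + 3) + 4 + (2 * q + 4) + 1) (by omega)
    rw [pow_succ, pow_add] at h6
    have h7 : 4 * Cs ≤ Y := by nlinarith
    have h8 : 0 ≤ E * Y ^ ((2 * d + 3) * (q + 3) + 4) := mul_nonneg hE0 (pow_pos Y0 _).le
    have h9 : 0 < Y ^ (2 * q + 4) := pow_pos Y0 _
    have h10 : 4 * Cs * (E * Y ^ ((2 * d + 3) * (q + 3) + 4)) ≤ ‖f z₁‖ ^ (2 * q + 4) := by
      refine le_of_mul_le_mul_left ?_ h9
      nlinarith [mul_le_mul_of_nonneg_left h7 (mul_nonneg h8 h9.le)]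
    have h11 := mul_le_mul_of_nonneg_left h1 (show 0 ≤ Cs by linarith)
    have h12 := mul_le_mul_of_nonneg_left h3 (show 0 ≤ Cs by linarith)
    linarith

end PiZAux

open PiZAux in
theorem piZS (hP : PiStmt) (hS : SlotStmt) (hC : CorStmt) : PiZStmt := by
  intro q d η hd hη
  obtain ⟨Cc, hCc, hc⟩ := first hC (q + 4) d
  obtain ⟨Cs, hCs, hs⟩ := hS q d hd
  obtain ⟨Cg, hCg, hg⟩ := AnAux.grad_two (q + 4) d hη
  have hF0 : (0 : ℝ) ≤ ((q + 4).factorial : ℝ) := Nat.cast_nonneg _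
  have hd0 : (0 : ℝ) ≤ d := Nat.cast_nonneg _
  have hsg : 0 ≤ 4 * Cs * Cg := by positivity
  obtain ⟨M, hM⟩ : ∃ M : ℝ, M = 5 + Cc + 4 * Cs * Cg + d + ((q + 4).factorial : ℝ) := ⟨_, rfl⟩
  obtain ⟨N, hN⟩ : ∃ N : ℕ, N = (2 * d + 3) * (q + 3) + 5 * q + 3 * d + 30 := ⟨_, rfl⟩
  have N1 : (1 : ℝ) ≤ N := by exact_mod_cast (by omega : 1 ≤ N)
  have M5 : 5 ≤ M := by linarith
  have MN : M ≤ M * N := le_mul_of_one_le_right (by linarith) N1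
  refine ⟨M * N, by linarith, fun c hc' f ξ z₁ κ δ E h hE => ?_⟩
  have k1 := h.k1
  have k2 := h.k2
  have hE0 : 0 ≤ E := (norm_nonneg _).trans (h.onX 0 (by simp))
  have hZ : M ≤ exp (M * κ) := by
    have := add_one_le_exp (M * κ)
    nlinarith
  have hY : exp (M * κ) ≤ exp (M * δ) := exp_le_exp.2 (by gcongr)
  have hκ : exp κ ≤ exp (M * κ) := exp_le_exp.2 (by nlinarith)
  have h5 : exp (5 * δ) ≤ exp (M * δ) := exp_le_exp.2 (by gcongr; linarith)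
  have eY : exp (M * N * δ) = exp (M * δ) ^ N := by rw [← exp_nat_mul]; congr 1; ring
  have eZ : exp (M * N * κ) = exp (M * κ) ^ N := by rw [← exp_nat_mul]; congr 1; ring
  have hlow : ∀ z ∈ DD1, 1 ≤ exp (M * δ) * ‖f z‖ := fun z hz => by
    refine le_trans ?_ (mul_le_mul_of_nonneg_left (h.abs z hz).1 (exp_pos _).le)
    rw [← exp_add]
    exact one_le_exp (by nlinarith)
  have hE' : E * exp (M * δ) ^ N ≤ 1 := by
    rw [← eY]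
    refine (mul_le_mul_of_nonneg_right hE (exp_pos _).le).trans ?_
    rw [← exp_add, neg_add_cancel, exp_zero]
  rw [eY, eZ]
  generalize exp (M * δ) = Y at *
  generalize exp (M * κ) = Z at *
  have Y1 : 1 ≤ Y := by linarith
  have Z1 : 1 ≤ Z := by linarith
  have Y0 : 0 < Y := by linarith
  have c0 : 0 ≤ Cc * exp (5 * δ) := mul_nonneg (by linarith) (exp_pos _).le
  obtain ⟨c₀, dc, hc₀⟩ := hc c f ξ z₁ κ δ E h
  have hm : (Cc * exp (5 * δ)) ^ d ≤ Y ^ (2 * d) := by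
    rw [pow_mul, sq]
    exact pow_le_pow_left₀ c0 (mul_le_mul (by linarith) h5 (exp_pos _).le
      (by linarith)) d
  have hz1 : z₁ ∈ DD1 := by rw [mem_closedBall_zero_iff]; linarith [h.z1]
  have hx : f z₁ ≠ 0 := fun e => by
    have := hlow z₁ hz1
    rw [e, norm_zero, mul_zero] at this
    linarith
  have hH := Usm.grad_ne hc' hη hx
  obtain ⟨a, -, ha⟩ := exists_max hH
  obtain ⟨Ψ, b, b', hΨ, hl⟩ := hs c f ξ z₁ (deriv f z₁) a (exp κ) E hc'.1 h.df h.dξ hE0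
    (fun z hz => ⟨(h.abs z hz).2, fun n => ⟨h.hξ z hz n, h.err z hz n⟩⟩) hx hH ha (by
      have hz' : ‖z₁‖ ≤ 1 / 2 := by linarith [h.z1]
      have h1 := cauchy h.df (fun w hw => ((h.abs w hw).2.trans hκ).trans hY) hz'
      have h2 := cauchy (fun w => (chain c h.df w).differentiableAt) h.onX hz'
      rw [(chain c h.df z₁).deriv] at h2
      have h3 : ‖grad c (f z₁) ⬝ᵥ f z₁‖ ≤ Y * E := by
        rw [euler, norm_mul, Complex.norm_natCast]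
        exact mul_le_mul (by linarith) (h.onX z₁ hz1) (norm_nonneg _) (by linarith)
      have h4 := mul_le_mul h3 h1 (norm_nonneg _) (mul_nonneg Y0.le hE0)
      have h6 := mul_le_mul h.f1 h2 (norm_nonneg _) zero_le_one
      have h7 : 1 ≤ Y ^ (d - 1 + 2) * (‖f z₁‖ ^ (d - 1) * ‖f z₁‖ ^ 2) := by
        rw [← pow_add, ← mul_pow]; exact one_le_pow₀ (hlow z₁ hz1)
      have h8 := mul_le_mul ((hg c hc' _ hx).2.trans (mul_le_mul_of_nonneg_right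
        (show Cg ≤ Y by nlinarith) (norm_nonneg _))) h.sph (sq_nonneg _)
        (mul_nonneg Y0.le (norm_nonneg _))
      have h9 : E * Y ^ (d - 1 + 2 + 1 + 4) ≤ 1 :=
        (mul_le_mul_of_nonneg_left (pow_le_pow_right₀ Y1 (by omega)) hE0).trans hE'
      have h10 : 0 < Y ^ (d - 1 + 2 + 1) := pow_pos Y0 _
      have h11 : 2 * (Y * E * (2 * Y) + 1 * (2 * E)) ≤ E * Y ^ 4 := by
        have h12 : 5 ≤ Y := by linarith
        have h13 : 25 ≤ Y ^ 2 := by nlinarith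
        have h14 : 4 * Y ^ 2 + 4 ≤ Y ^ 4 := by nlinarith
        nlinarith [mul_le_mul_of_nonneg_left h14 hE0]
      have h15 : E * Y ^ 4 ≤ ‖grad c (f z₁)‖ * ‖bv (f z₁) (deriv f z₁)‖ := by
        refine le_of_mul_le_mul_left ?_ h10
        rw [pow_add _ _ 4] at h9
        have h16 := mul_le_mul_of_nonneg_left h8 (pow_pos Y0 (d - 1 + 2)).le
        rw [pow_succ _ (d - 1 + 2)] at h9 ⊢
        nlinarith
      linarith)
  obtain ⟨u, du, hu, hu'⟩ := core hP hd (Cs := Cs) (Cg := Cg) h (by linarith) hY (by linarith) hκ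
    (by linarith) hCs hCg (by linarith) hlow (hg c hc') (hN ▸ hE') dc (fun z hz =>
      ⟨(hc₀ z hz).1.trans (by
        rw [pow_succ']
        exact mul_le_mul (hκ.trans hY) hm (pow_nonneg c0 _) Y0.le),
      (hc₀ z hz).2.trans (mul_le_mul_of_nonneg_left hm hE0)⟩) ha hΨ hl
  refine ⟨u, du, fun z hz => ⟨(hu z hz).1.trans (pow_le_pow_right₀ Y1 (by omega)),
    (hu z hz).2.trans (pow_le_pow_right₀ Z1 (by omega))⟩, hu'.trans ?_⟩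
  exact mul_le_mul_of_nonneg_right (mul_le_mul_of_nonneg_right (by linarith) (norm_nonneg _))
    (pow_nonneg (norm_nonneg _) _)

end

end Pool.Agent.Lib.MP_45f16c_ag.EX
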