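import Pool.Agent.Lib.MP_45f16c_ag.EX.BR

/-! Spaces of maps of rank one. -/

set_option autoImplicit false
open Metric MeasureTheory MvPolynomial Filter Real
open scoped ComplexConjugate Matrix Topology

namespace Pool.Agent.Lib.MP_45f16c_ag.EX

open AS

noncomputable section

namespace R1Aux

variable {ν d N : ℕ} {Φ : MP ν →ₗ[ℂ] (Fin N → ℂ)} {x : Fin ν → ℂ} {S : Finset (Fin N)}
  {l : Fin N → Fin ν → ℂ} {G : Fin N → MP ν} {ρ Q ε : ℝ} {k k' : Fin N} {a b : Fin ν → ℂ}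
  {H : MP ν}

theorem pm_image (hP : PmStmt) {p : ℕ} {r : Fin p → Fin N} (hr : Function.Injective r)
    (v : Fin N → Fin N → ℂ) : pm (Finset.univ.image r) v = dt r fun i => v (r i) := by
  rw [← hP N p r _ hr, pm]
  congr 1
  funext j
  by_cases h : ∃ i, r i = j
  · obtain ⟨i, rfl⟩ := h
    rw [hr.extend_apply, Finset.piecewise_eq_of_mem _ _ _
      (Finset.mem_image_of_mem _ (Finset.mem_univ i))]
  · rw [Function.extend_apply' _ _ _ h, Finset.piecewise_eq_of_notMem _ _ _ (by simpa using h)]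

theorem pm_one (hP : PmStmt) (k : Fin N) (v : Fin N → Fin N → ℂ) : pm {k} v = v k k := by
  have := pm_image hP (r := fun _ : Fin 1 => k) (Function.injective_of_subsingleton _) v
  rwa [dt_one, Finset.image_const Finset.univ_nonempty] at this

theorem pm_two (hP : PmStmt) (h : k ≠ k') (v : Fin N → Fin N → ℂ) :
    pm {k, k'} v = v k k * v k' k' - v k k' * v k' k := by
  have := pm_image hP (r := ![k, k']) (fun i j e => by
    fin_cases i <;> fin_cases j <;> simp_all [eq_comm]) v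
  rwa [dt_two, show Finset.univ.image ![k, k'] = {k, k'} by ext j; simp [eq_comm]] at this

/-- The hypotheses. -/
structure Hy (d : ℕ) (Φ : MP ν →ₗ[ℂ] (Fin N → ℂ)) (x : Fin ν → ℂ) (S : Finset (Fin N))
    (l : Fin N → Fin ν → ℂ) (G : Fin N → MP ν) (ρ Q ε : ℝ) : Prop where
  pm : PmStmt
  r0 : 0 < ρ
  q1 : 1 ≤ Q
  e0 : 0 ≤ ε
  adm : ∀ k, l k ⬝ᵥ x = 0 ∧ (G k).IsHomogeneous d
  ref : ∀ k ∈ S, nl (l k) ≤ ρ ∧ n1 (G k) ≤ 1 ∧ Φ (LL (l k) * G k) = Pi.single k 1
  bd : ∀ (l' : Fin N → Fin ν → ℂ) (G' : Fin N → MP ν),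
    (∀ k, l' k ⬝ᵥ x = 0 ∧ (G' k).IsHomogeneous d) →
    ‖EX.pm S fun k => Φ (LL (l' k) * G' k)‖ * ρ ^ S.card ≤ Q * ∏ k ∈ S, nl (l' k) * n1 (G' k) ∧
    ∀ k ∈ S, ∀ k' ∈ S, k ≠ k' → G' k = G' k' → ‖EX.pm S fun k => Φ (LL (l' k) * G' k)‖ *
      ρ ^ S.card ≤ ε * Q * ∏ k ∈ S, nl (l' k) * n1 (G' k)

variable (h : Hy d Φ x S l G ρ Q ε)
include h

theorem Hy.prod_le (hk : k ∈ S) : nl (l k) * n1 (G k) ≤ ρ := by
  have := mul_le_mul (h.ref k hk).1 (h.ref k hk).2.1 (n1_nonneg _) h.r0.le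
  rwa [mul_one] at this

theorem Hy.restr {T : Finset (Fin N)} (hT : T ⊆ S) (l' : Fin N → Fin ν → ℂ) (G' : Fin N → MP ν)
    {c : ℝ} (hc : 0 ≤ c)
    (e : ‖EX.pm S fun k => Φ (LL (T.piecewise l' l k) * T.piecewise G' G k)‖ * ρ ^ S.card ≤
      c * ∏ k ∈ S, nl (T.piecewise l' l k) * n1 (T.piecewise G' G k)) :
    ‖EX.pm T fun k => Φ (LL (l' k) * G' k)‖ * ρ ^ T.card ≤ c * ∏ k ∈ T, nl (l' k) * n1 (G' k) := by
  have e1 : (EX.pm S fun k => Φ (LL (T.piecewise l' l k) * T.piecewise G' G k)) =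
      EX.pm T fun k => Φ (LL (l' k) * G' k) := by
    unfold EX.pm
    congr 1
    funext j
    by_cases h1 : j ∈ T
    · simp [h1, hT h1]
    · by_cases h2 : j ∈ S
      · simp [h1, h2, (h.ref j h2).2.2]
      · simp [h1, h2]
  have e2 : ∏ k ∈ S \ T, nl (T.piecewise l' l k) * n1 (T.piecewise G' G k) ≤ ρ ^ (S \ T).card :=
    (Finset.prod_le_prod (fun _ _ => mul_nonneg (nl_nonneg _) (n1_nonneg _)) fun j hj => by
      rw [Finset.piecewise_eq_of_notMem _ _ _ (Finset.mem_sdiff.1 hj).2,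
        Finset.piecewise_eq_of_notMem _ _ _ (Finset.mem_sdiff.1 hj).2]
      exact h.prod_le (Finset.mem_sdiff.1 hj).1).trans_eq (Finset.prod_const ρ)
  have e3 : ∏ k ∈ T, nl (T.piecewise l' l k) * n1 (T.piecewise G' G k) =
      ∏ k ∈ T, nl (l' k) * n1 (G' k) := Finset.prod_congr rfl fun j hj => by
    rw [Finset.piecewise_eq_of_mem _ _ _ hj, Finset.piecewise_eq_of_mem _ _ _ hj]
  rw [e1, ← Finset.prod_sdiff hT, e3, ← Finset.card_sdiff_add_card_eq_card hT, pow_add] at e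
  refine le_of_mul_le_mul_right ?_ (pow_pos h.r0 (S \ T).card)
  have e4 := mul_le_mul_of_nonneg_left (mul_le_mul_of_nonneg_right e2 (prod_nn T l' G')) hc
  linarith

theorem Hy.pw (T : Finset (Fin N)) {l' : Fin N → Fin ν → ℂ} {G' : Fin N → MP ν}
    (h' : ∀ k, l' k ⬝ᵥ x = 0 ∧ (G' k).IsHomogeneous d) (k : Fin N) :
    T.piecewise l' l k ⬝ᵥ x = 0 ∧ (T.piecewise G' G k).IsHomogeneous d := by
  by_cases e : k ∈ T
  · simpa [e] using h' k
  · simpa [e] using h.adm k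

theorem Hy.one (hk : k ∈ S) (ha : a ⬝ᵥ x = 0) (hH : H.IsHomogeneous d) :
    ‖Φ (LL a * H) k‖ * ρ ≤ Q * (nl a * n1 H) := by
  have := h.restr (Finset.singleton_subset_iff.2 hk) (fun _ => a) (fun _ => H)
    (zero_le_one.trans h.q1) (h.bd _ _ (h.pw _ fun _ => ⟨ha, hH⟩)).1
  rwa [pm_one h.pm, Finset.card_singleton, pow_one, Finset.prod_singleton] at this

theorem Hy.two (hk : k ∈ S) (hk' : k' ∈ S) (ne : k ≠ k') (ha : a ⬝ᵥ x = 0) (hb : b ⬝ᵥ x = 0)
    (hH : H.IsHomogeneous d) :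
    ‖Φ (LL a * H) k * Φ (LL b * H) k' - Φ (LL a * H) k' * Φ (LL b * H) k‖ * ρ ^ 2 ≤
      ε * Q * (nl a * n1 H * (nl b * n1 H)) := by
  have := h.restr (T := {k, k'}) (Finset.insert_subset hk (Finset.singleton_subset_iff.2 hk'))
    (Function.update (fun _ => b) k a) (fun _ => H) (mul_nonneg h.e0 (zero_le_one.trans h.q1))
    ((h.bd _ _ (h.pw _ fun j => ⟨by by_cases e : j = k <;> simp [e, ha, hb], hH⟩)).2 k hk k' hk' ne
      (by simp))
  rwa [pm_two h.pm ne, Finset.card_pair ne, Finset.prod_pair ne, Function.update_self,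
    Function.update_of_ne ne.symm] at this

/-- Polarisation. -/
theorem Hy.pol (hk : k ∈ S) (hk' : k' ∈ S) (ne : k ≠ k') (hb : b ⬝ᵥ x = 0)
    (h0 : Φ (LL b * G k) k = 0) (hH : H.IsHomogeneous d) (h1 : n1 H ≤ 1) :
    ‖Φ (LL b * H) k'‖ * ρ ≤ 5 * ε * Q ^ 2 * nl b := by
  obtain ⟨r1, r2, r3⟩ := h.ref k hk
  obtain ⟨a1, a2⟩ := h.adm k
  have r0 := h.r0
  have q1 := h.q1
  have e0 := h.e0
  have b0 := nl_nonneg b
  have e1 : Φ (LL (l k) * G k) k = 1 := by rw [r3, Pi.single_eq_same]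
  have e2 : Φ (LL (l k) * G k) k' = 0 := by rw [r3, Pi.single_eq_of_ne ne.symm]
  have key : ∀ (P : MP ν) (t : ℝ), P.IsHomogeneous d → n1 P ≤ t →
      ‖Φ (LL (l k) * P) k * Φ (LL b * P) k' - Φ (LL (l k) * P) k' * Φ (LL b * P) k‖ * ρ ≤
        ε * Q * (t ^ 2 * nl b) := fun P t p1 p2 => by
    have p0 := n1_nonneg P
    have t0 := p0.trans p2
    refine le_of_mul_le_mul_right ?_ r0
    rw [mul_assoc _ ρ, ← sq]
    refine (h.two hk hk' ne a1 hb p1).trans ?_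
    calc _ ≤ ε * Q * (ρ * t * (nl b * t)) := by gcongr
      _ = _ := by ring
  have k1 := key _ 1 a2 r2
  have k2 := key (G k + H) 2 (a2.add hH) ((n1_add_le _ _).trans (by linarith))
  have k3 := key (G k - H) 2 (a2.sub hH) ((n1_sub_le _ _).trans (by linarith))
  have k4 : ‖Φ (LL (l k) * H) k‖ ≤ Q := le_of_mul_le_mul_right ((h.one hk a1 hH).trans (by
    have := n1_nonneg H
    calc _ ≤ Q * (ρ * 1) := by gcongr
      _ = _ := by ring)) r0
  simp only [mul_add, mul_sub, map_add, map_sub, Pi.add_apply, Pi.sub_apply, e1, e2, h0] at k1 k2 k3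
  generalize Φ (LL (l k) * H) k = p at *
  generalize Φ (LL (l k) * H) k' = q at *
  generalize Φ (LL b * H) k = r at *
  generalize Φ (LL b * H) k' = s at *
  generalize Φ (LL b * G k) k' = t at *
  have k5 : ‖s‖ * 2 ≤ ‖(1 + p) * t + (1 + p) * s - ((0 + q) * 0 + (0 + q) * r)‖ +
      ‖(1 - p) * t - (1 - p) * s - ((0 - q) * 0 - (0 - q) * r)‖ + ‖p‖ * ‖t‖ * 2 := by
    have := (norm_sub_le _ (p * t * 2)).trans (add_le_add_left (norm_sub_le
      ((1 + p) * t + (1 + p) * s - ((0 + q) * 0 + (0 + q) * r))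
      ((1 - p) * t - (1 - p) * s - ((0 - q) * 0 - (0 - q) * r))) _)
    rwa [show _ - _ - p * t * 2 = s * 2 by ring, norm_mul, norm_mul, norm_mul,
      Complex.norm_ofNat] at this
  rw [one_mul, zero_mul, sub_zero] at k1
  have k6 : ‖p‖ * (‖t‖ * ρ) ≤ Q * (ε * Q * (1 ^ 2 * nl b)) := by gcongr
  have k7 : ε * Q * nl b ≤ ε * Q * nl b * Q := le_mul_of_one_le_right (by positivity) q1
  nlinarith [mul_le_mul_of_nonneg_right k5 r0.le]

theorem Hy.all (h2 : 2 ≤ S.card) (hk : k ∈ S) (hk' : k' ∈ S) (hb : b ⬝ᵥ x = 0)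
    (h0 : Φ (LL b * G k) k = 0) (hH : H.IsHomogeneous d) (h1 : n1 H ≤ 1) :
    ‖Φ (LL b * H) k'‖ * ρ ≤ 15 * ε * Q ^ 3 * nl b := by
  have r0 := h.r0
  have q1 := h.q1
  have e0 := h.e0
  have b0 := nl_nonneg b
  have k7 : ε * Q ^ 2 * nl b ≤ ε * Q ^ 2 * nl b * Q := le_mul_of_one_le_right (by positivity) q1
  have k8 : 0 ≤ ε * Q ^ 2 * nl b := by positivity
  by_cases ne : k = k'
  swap
  · nlinarith [h.pol hk hk' ne hb h0 hH h1]
  subst ne
  obtain ⟨j, hj, ne⟩ := Finset.exists_mem_ne h2 k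
  obtain ⟨r1, r2, r3⟩ := h.ref j hj
  obtain ⟨a1, a2⟩ := h.adm j
  have k1 := h.pol hk hj ne.symm hb h0 a2 r2
  have k2 : ‖Φ (LL b * G j) j‖ * ρ ≤ Q * nl b := (h.one hj hb a2).trans (by
    have := n1_nonneg (G j)
    calc _ ≤ Q * (nl b * 1) := by gcongr
      _ = _ := by ring)
  have k3 := h.pol hj hk ne (b := b - Φ (LL b * G j) j • l j) (by simp [hb, a1])
    (by simp [LL_sub, LL_smul, sub_mul, r3]) hH h1
  have k4 : ‖Φ (LL (l j) * H) k‖ ≤ Q := le_of_mul_le_mul_right ((h.one hk a1 hH).trans (by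
    have := n1_nonneg H
    calc _ ≤ Q * (ρ * 1) := by gcongr
      _ = _ := by ring)) r0
  have k5 : nl (b - Φ (LL b * G j) j • l j) ≤ 2 * Q * nl b := by
    refine (nl_sub_le _ _).trans ?_
    rw [nl_smul]
    nlinarith [mul_le_mul_of_nonneg_left r1 (norm_nonneg (Φ (LL b * G j) j))]
  have k6 := k3.trans (mul_le_mul_of_nonneg_left k5 (by positivity))
  rw [LL_sub, LL_smul, sub_mul, smul_mul_assoc, map_sub, map_smul, Pi.sub_apply, Pi.smul_apply,
    smul_eq_mul] at k6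
  generalize Φ (LL b * G j) j = p at *
  generalize Φ (LL (l j) * H) k = q at *
  generalize Φ (LL b * H) k = s at *
  have k9 : ‖s‖ ≤ ‖s - p * q‖ + ‖p‖ * ‖q‖ := by
    simpa only [sub_add_cancel, norm_mul] using norm_add_le (s - p * q) (p * q)
  have k10 : ‖p‖ * ρ * ‖q‖ ≤ 5 * ε * Q ^ 2 * nl b * Q := by gcongr
  nlinarith [mul_le_mul_of_nonneg_right k9 r0.le]

theorem Hy.all' (h2 : 2 ≤ S.card) (hk : k ∈ S) (hk' : k' ∈ S) (hb : b ⬝ᵥ x = 0)
    (h0 : Φ (LL b * G k) k = 0) (hH : H.IsHomogeneous d) :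
    ‖Φ (LL b * H) k'‖ * ρ ≤ 15 * ε * Q ^ 3 * (nl b * n1 H) := by
  rcases (n1_nonneg H).eq_or_lt with e | e
  · rw [n1_eq_zero e.symm]
    simp [n1_zero]
  have e1 : ‖((n1 H : ℝ) : ℂ)⁻¹‖ = (n1 H)⁻¹ := by rw [norm_inv, Complex.norm_of_nonneg e.le]
  have := h.all h2 hk hk' hb h0 (hom_smul ((n1 H : ℝ) : ℂ)⁻¹ hH) (by
    rw [n1_smul, e1, inv_mul_cancel₀ e.ne'])
  rw [mul_smul_comm, map_smul, Pi.smul_apply, norm_smul, e1, mul_assoc, inv_mul_le_iff₀ e] at this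
  linarith

end R1Aux

open R1Aux

theorem r1S (hP : PmStmt) : R1Stmt := by
  intro ν d N Φ x S l G k₁ ρ Q ε hk h2 r0 q1 e0 a1 a2 a3 l' G' a4 k₀ h0 e
  have h : Hy d Φ x S l G ρ Q ε := ⟨hP, r0, q1, e0, a1, a2, a3⟩
  obtain ⟨W, hW⟩ : ∃ W, W = S.piecewise (fun k => Φ (LL (l' k) * G' k)) fun k => Pi.single k 1 :=
    ⟨_, rfl⟩
  have p0 := prod_nn (S.erase k₀) l' G'
  have p1 := mul_nonneg (nl_nonneg (l' k₀)) (n1_nonneg (G' k₀))
  have e1 : (pm S fun k => Φ (LL (l' k) * G' k)) = ∑ k, Φ (LL (l' k₀) * G' k₀) k *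
      dt id (Function.update W k₀ (Pi.single k 1)) := by
    rw [pm, ← hW, ← Function.update_eq_self k₀ W, show W k₀ = Φ (LL (l' k₀) * G' k₀) by
      rw [hW, Finset.piecewise_eq_of_mem _ _ _ h0]]
    conv_lhs => rw [pi_eq_sum_univ' (Φ (LL (l' k₀) * G' k₀))]
    rw [AlternatingMap.map_update_sum]
    exact Finset.sum_congr rfl fun k _ => by
      rw [AlternatingMap.map_update_smul, Function.update_idem, smul_eq_mul]
  have e2 : ∀ k, ‖Φ (LL (l' k₀) * G' k₀) k * dt id (Function.update W k₀ (Pi.single k 1))‖ *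
      ρ ^ S.card ≤ 15 * ε * Q ^ 4 * ∏ k ∈ S, nl (l' k) * n1 (G' k) := fun k => by
    rw [← Finset.mul_prod_erase _ _ h0]
    by_cases j : k ∈ S
    · have b1 := h.all' h2 hk j (a4 k₀).1 e (a4 k₀).2
      have b2 := (a3 (Function.update l' k₀ (l k)) (Function.update G' k₀ (G k)) fun i => by
        by_cases c : i = k₀
        · simpa [c] using a1 k
        · simpa [c] using a4 i).1
      rw [← Finset.mul_prod_erase _ _ h0, Function.update_self, Function.update_self,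
        Finset.prod_congr rfl fun i hi => by
          rw [Function.update_of_ne (Finset.ne_of_mem_erase hi),
            Function.update_of_ne (Finset.ne_of_mem_erase hi)],
        show (pm S fun i => Φ (LL (Function.update l' k₀ (l k) i) * Function.update G' k₀ (G k) i)) =
          dt id (Function.update W k₀ (Pi.single k 1)) by
            rw [pm, hW]
            congr 1
            funext i
            by_cases c : i = k₀
            · simp [c, h0, (a2 k j).2.2]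
            · by_cases c' : i ∈ S <;> simp [c, c']] at b2
      have b3 := b2.trans (mul_le_mul_of_nonneg_left
        (mul_le_mul_of_nonneg_right (h.prod_le j) p0) (zero_le_one.trans q1))
      rw [norm_mul, mul_assoc]
      refine (mul_le_mul_of_nonneg_left b3 (norm_nonneg _)).trans ?_
      have b4 := mul_le_mul_of_nonneg_right b1 (mul_nonneg (zero_le_one.trans q1) p0)
      linarith
    · have c : k ≠ k₀ := fun c => j (c ▸ h0)
      rw [AlternatingMap.map_eq_zero_of_eq _ _ (i := k) (j := k₀) (by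
        rw [Function.update_self, Function.update_of_ne c, hW,
          Finset.piecewise_eq_of_notMem _ _ _ j]) c, mul_zero, norm_zero, zero_mul]
      positivity
  rw [e1]
  refine (mul_le_mul_of_nonneg_right (norm_sum_le _ _) (pow_pos r0 _).le).trans ?_
  rw [Finset.sum_mul]
  refine (Finset.sum_le_card_nsmul _ _ _ fun k _ => e2 k).trans (le_of_eq ?_)
  simp only [Finset.card_univ, Fintype.card_fin, nsmul_eq_mul]
  ring

end

end Pool.Agent.Lib.MP_45f16c_ag.EX
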