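import Pool.Agent.Lib.MP_45f16c_ag.EX.BR

-- part Pool.Agent.Lib.MP_45f16c_ag.EX.KL
section

/-! The ideal of a plane. -/

set_option autoImplicit false
open Metric MeasureTheory MvPolynomial Filter Real
open scoped ComplexConjugate Matrix Topology

namespace Pool.Agent.Lib.MP_45f16c_ag.EX

open AS

noncomputable section

namespace KLAux

variable {ν d : ℕ} {κ : Type} [Fintype κ] [DecidableEq κ]

theorem expand_le (Λ : MP ν [⋀^κ]→ₗ[ℂ] ℂ) {C : ℝ} (hC : 0 ≤ C) (g : κ → MP ν)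
    (q : κ → Fin ν → Fin ν → ℂ) (G : κ → Fin ν → MP ν) (hq : ∀ k a, nl (q k a) ≤ 3)
    (hG : ∀ k a, n1 (G k a) ≤ (d + 1) * 2 ^ d * n1 (g k))
    (hg : ∀ k, g k = ∑ a, LL (q k a) * G k a)
    (h : ∀ r : κ → Fin ν, ‖Λ fun k => LL (q k (r k)) * G k (r k)‖ ≤
      C * ∏ k, nl (q k (r k)) * n1 (G k (r k))) :
    ‖Λ g‖ ≤ (3 * ν * (d + 1) * 2 ^ d) ^ Fintype.card κ * C * ∏ k, n1 (g k) := by
  have e : Λ g = ∑ r : κ → Fin ν, Λ fun k => LL (q k (r k)) * G k (r k) := by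
    rw [funext hg]
    exact Λ.toMultilinearMap.map_sum fun k a => LL (q k a) * G k a
  rw [e]
  refine (norm_sum_le _ _).trans ((Finset.sum_le_sum fun r _ => h r).trans ?_)
  rw [← Finset.mul_sum, ← Fintype.piFinset_univ,
    ← Finset.prod_univ_sum (fun _ => Finset.univ) fun k a => nl (q k a) * n1 (G k a),
    mul_comm _ C, mul_assoc, ← Finset.card_univ, ← Finset.prod_const, ← Finset.prod_mul_distrib]
  refine mul_le_mul_of_nonneg_left (Finset.prod_le_prod (fun k _ => Finset.sum_nonneg fun a _ =>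
    mul_nonneg (nl_nonneg _) (n1_nonneg _)) fun k _ => ?_) hC
  refine (Finset.sum_le_card_nsmul _ _ (3 * ((d + 1) * 2 ^ d * n1 (g k))) fun a _ =>
    mul_le_mul (hq k a) (hG k a) (n1_nonneg _) (by norm_num)).trans (le_of_eq ?_)
  simp only [Finset.card_univ, Fintype.card_fin, nsmul_eq_mul]
  ring

theorem dec (hD : DecStmt) {x u : Fin ν → ℂ} (hx : bv x u ≠ 0) {g : MP ν}
    (hg : g.IsHomogeneous (d + 1)) (h0 : eval x g = 0) :
    ∃ (q : Fin ν → Fin ν → ℂ) (G : Fin ν → MP ν),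
      (∀ a, q a ⬝ᵥ x = 0 ∧ (VanL x u g → q a ⬝ᵥ u = 0) ∧ nl (q a) ≤ 3 ∧ (G a).IsHomogeneous d ∧
        n1 (G a) ≤ (d + 1) * 2 ^ d * n1 g) ∧ g = ∑ a, LL (q a) * G a := by
  by_cases hv : VanL x u g
  · obtain ⟨q, G, h1, h2⟩ := (hD ν d x g hg).2 u hx hv
    exact ⟨q, G, fun a => ⟨(h1 a).1, fun _ => (h1 a).2.1, (h1 a).2.2⟩, h2⟩
  · obtain ⟨a₁, ha, ha'⟩ := exists_max (ne_of_bv hx)
    obtain ⟨G, h1, h2⟩ := (hD ν d x g hg).1 a₁ (ne_of_bv hx) ha' h0
    refine ⟨sh x a₁, G, fun a => ⟨sh_dot ha a, fun h => absurd h hv,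
      (nl_sh_le ha' a).trans (by norm_num), (h1 a).1, (h1 a).2.trans ?_⟩, h2⟩
    exact mul_le_mul_of_nonneg_right (le_mul_of_one_le_right (by positivity)
      (one_le_pow₀ one_le_two)) (n1_nonneg _)

end KLAux

theorem kLS (hD : DecStmt) : KLStmt := by
  intro ν d κ _ _ x u Λ B ε hx hB hε h g hg
  choose q G h1 h2 using fun k => KLAux.dec hD hx (hg k).1 (hg k).2
  have h3 := fun r : κ → Fin ν => h (fun k => q k (r k)) (fun k => G k (r k))
    fun k => ⟨(h1 k _).1, (h1 k _).2.2.2.1⟩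
  refine ⟨KLAux.expand_le Λ hB g q G (fun k a => (h1 k a).2.2.1) (fun k a => (h1 k a).2.2.2.2) h2
    fun r => (h3 r).1, fun k₀ hk => ?_⟩
  refine (KLAux.expand_le Λ (mul_nonneg hε hB) g q G (fun k a => (h1 k a).2.2.1)
    (fun k a => (h1 k a).2.2.2.2) h2 fun r => (h3 r).2 k₀ ((h1 k₀ _).2.1 hk)).trans (le_of_eq ?_)
  ring

theorem telS : TelStmt := by
  intro ν d κ _ _ x u Λ B ε g w A hB hε h hg hw hv
  have hA : ∀ k, 0 ≤ A k := fun k => (n1_nonneg _).trans (hg k).2.2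
  have key : ∀ s : Finset κ, ‖Λ (s.piecewise g w) - Λ w‖ ≤ 2 * s.card * ε * B * ∏ k, A k := by
    intro s
    induction s using Finset.induction_on with
    | empty => simp
    | insert a s ha ih =>
      have hp : ∀ k, (s.piecewise g w k).IsHomogeneous (d + 1) ∧ eval x (s.piecewise g w k) = 0 ∧
          n1 (s.piecewise g w k) ≤ A k := fun k => by
        by_cases hk : k ∈ s
        · rw [Finset.piecewise_eq_of_mem _ _ _ hk]; exact hg k
        · rw [Finset.piecewise_eq_of_notMem _ _ _ hk]; exact hw k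
      have e : Λ ((insert a s).piecewise g w) - Λ (s.piecewise g w) =
          Λ (Function.update (s.piecewise g w) a (g a - w a)) := by
        rw [Finset.piecewise_insert, AlternatingMap.map_update_sub,
          ← Finset.piecewise_eq_of_notMem s g w ha, Function.update_eq_self]
      have h1 := (h (Function.update (s.piecewise g w) a (g a - w a)) fun k => by
        by_cases hk : k = a
        · subst hk
          rw [Function.update_self, map_sub, (hg k).2.1, (hw k).2.1, sub_zero]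
          exact ⟨(hg k).1.sub (hw k).1, rfl⟩
        · rw [Function.update_of_ne hk]; exact ⟨(hp k).1, (hp k).2.1⟩).2 a
        (by rw [Function.update_self]; exact hv a)
      have h2 : ∏ k, n1 (Function.update (s.piecewise g w) a (g a - w a) k) ≤ 2 * ∏ k, A k := by
        rw [← Finset.mul_prod_erase _ _ (Finset.mem_univ a),
          ← Finset.mul_prod_erase _ A (Finset.mem_univ a), ← mul_assoc, Function.update_self]
        refine mul_le_mul ((n1_sub_le _ _).trans (by linarith [(hg a).2.2, (hw a).2.2]))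
          (Finset.prod_le_prod (fun _ _ => n1_nonneg _) fun k hk => ?_)
          (Finset.prod_nonneg fun _ _ => n1_nonneg _) (by linarith [hA a])
        rw [Function.update_of_ne (Finset.ne_of_mem_erase hk)]
        exact (hp k).2.2
      have h3 := h1.trans (mul_le_mul_of_nonneg_left h2 (mul_nonneg hε hB))
      rw [← e] at h3
      rw [Finset.card_insert_of_notMem ha]
      refine (norm_sub_le_norm_sub_add_norm_sub _ (Λ (s.piecewise g w)) _).trans
        ((add_le_add h3 ih).trans (le_of_eq ?_))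
      push_cast
      ring
  simpa using key Finset.univ

theorem circS (hT : TelStmt) : CircStmt := by
  intro ν d κ _ _ x u w U U' V Λ B ε Q ρ e hB hε h hw h1 h2 hU' hU hQ hV he hs
  have hρ : 0 ≤ ρ := by linarith [nl_nonneg U']
  have hom : ∀ (W : Fin ν → ℂ) k, (LL w * (LL W ^ e k * LL V ^ (d - e k))).IsHomogeneous (d + 1) ∧
      eval x (LL w * (LL W ^ e k * LL V ^ (d - e k))) = 0 := fun W k => by
    refine ⟨hom_LL_mul w ?_, by rw [map_mul, eval_LL, hw, zero_mul]⟩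
    have := (LL_pow_hom W (e k)).mul (LL_pow_hom V (d - e k))
    rwa [Nat.add_sub_cancel' (he k)] at this
  have nn : ∀ (W : Fin ν → ℂ) (c : ℝ), nl W ≤ c * ρ → ∀ k,
      n1 (LL w * (LL W ^ e k * LL V ^ (d - e k))) ≤ nl w * ((c * ρ) ^ e k * 2 ^ (d - e k)) :=
    fun W c hW k => n1_mul_le' (n1_LL_le w) (n1_mul_le' (n1_pow_le ((n1_LL_le W).trans hW) _)
      (n1_pow_le ((n1_LL_le V).trans hV) _))
  have h3 := hT ν d κ x u Λ B ε (fun k => LL w * (LL U ^ e k * LL V ^ (d - e k)))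
    (fun k => LL w * (LL U' ^ e k * LL V ^ (d - e k))) (fun k => Q ^ d * (nl w * 2 ^ d * ρ ^ e k))
    hB hε h ?_ ?_ ?_
  · have h4 := (h _ (hom U')).1
    have h5 : ∏ k, n1 (LL w * (LL U' ^ e k * LL V ^ (d - e k))) ≤
        (nl w * 2 ^ d) ^ Fintype.card κ * ρ ^ ∑ k, e k := by
      rw [← Finset.prod_pow_eq_pow_sum, ← Finset.card_univ, ← Finset.prod_const,
        ← Finset.prod_mul_distrib]
      refine Finset.prod_le_prod (fun _ _ => n1_nonneg _) fun k _ =>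
        (nn U' 2 hU' k).trans (le_of_eq ?_)
      conv_rhs => rw [← Nat.add_sub_cancel' (he k), pow_add]
      rw [mul_pow]
      ring
    rw [Finset.prod_mul_distrib, Finset.prod_mul_distrib, Finset.prod_pow_eq_pow_sum _ e,
      Finset.prod_const, Finset.prod_const, Finset.card_univ, ← pow_mul] at h3
    have h6 : 0 ≤ B * ((nl w * 2 ^ d) ^ Fintype.card κ * ρ ^ ∑ k, e k) := by
      have := nl_nonneg w
      positivity
    have h7 := mul_le_mul_of_nonneg_right hs h6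
    have h8 := mul_le_mul_of_nonneg_left h5 hB
    have h9 := norm_le_norm_sub_add (Λ fun k => LL w * (LL U ^ e k * LL V ^ (d - e k)))
      (Λ fun k => LL w * (LL U' ^ e k * LL V ^ (d - e k)))
    linarith
  · refine fun k => ⟨(hom U k).1, (hom U k).2, (nn U Q hU k).trans ?_⟩
    have := nl_nonneg w
    have a1 : Q ^ e k ≤ Q ^ d := pow_le_pow_right₀ (by linarith) (he k)
    have a2 : (2 : ℝ) ^ (d - e k) ≤ 2 ^ d := pow_le_pow_right₀ one_le_two (Nat.sub_le _ _)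
    calc nl w * ((Q * ρ) ^ e k * 2 ^ (d - e k)) = Q ^ e k * (nl w * 2 ^ (d - e k) * ρ ^ e k) := by
          rw [mul_pow]; ring
      _ ≤ _ := by gcongr
  · refine fun k => ⟨(hom U' k).1, (hom U' k).2, (nn U' Q (hU'.trans (by gcongr)) k).trans ?_⟩
    have := nl_nonneg w
    have a1 : Q ^ e k ≤ Q ^ d := pow_le_pow_right₀ (by linarith) (he k)
    have a2 : (2 : ℝ) ^ (d - e k) ≤ 2 ^ d := pow_le_pow_right₀ one_le_two (Nat.sub_le _ _)
    calc nl w * ((Q * ρ) ^ e k * 2 ^ (d - e k)) = Q ^ e k * (nl w * 2 ^ (d - e k) * ρ ^ e k) := by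
          rw [mul_pow]; ring
      _ ≤ _ := by gcongr
  · intro k s t
    have : U ⬝ᵥ (s • x + t • u) = U' ⬝ᵥ (s • x + t • u) := by
      rw [← sub_eq_zero, ← sub_dotProduct, dotProduct_add, dotProduct_smul, dotProduct_smul, h1, h2]
      simp
    simp only [map_sub, map_mul, map_pow, eval_LL, this, sub_self]

end

end Pool.Agent.Lib.MP_45f16c_ag.EX
end

-- part Pool.Agent.Lib.MP_45f16c_ag.EX.KP
section

/-! The singletons see only a plane. -/

set_option autoImplicit false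
open Metric MeasureTheory MvPolynomial Filter Real
open scoped ComplexConjugate Matrix Topology

namespace Pool.Agent.Lib.MP_45f16c_ag.EX

open AS

noncomputable section

namespace KPAux

variable {ν d N : ℕ} {ι : Type} {T : MP ν →ₗ[ℂ] (ι → ℂ)} {x : Fin ν → ℂ} {η B : ℝ}
  {I : Fin (N + 1) → ι} {c₀ : ι → ℂ} {S : Finset (Fin N)} {l l' : Fin N → Fin ν → ℂ}
  {G G' : Fin N → MP ν} {β : Fin N → ℕ}

theorem dt_update (k : Fin N) (w : Fin N → ℂ) :
    dt id (Function.update (fun k => (Pi.single k 1 : Fin N → ℂ)) k w) = w k := by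
  have := Matrix.det_updateRow_sum (1 : Matrix (Fin N) (Fin N) ℂ) k w
  rw [Matrix.det_one, smul_eq_mul, mul_one] at this
  rw [dt_apply, ← this]
  congr 1
  ext i j
  by_cases h : i = k <;> simp [h, Matrix.one_apply, Pi.single_apply, eq_comm]

theorem lab (hs : ∀ k ∈ S, sz β k = 1) (hL : Lab d G β) (hG : ∀ k, (G' k).IsHomogeneous d) :
    Lab d (S.piecewise G' G) β := by
  refine ⟨fun k => ?_, fun k k' e => ?_⟩
  · by_cases h : k ∈ S <;> simp [h, hG k, hL.1 k]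
  · by_cases h : k ∈ S
    · rw [eq_of_sz (hs k h) e.symm]
    by_cases h' : k' ∈ S
    · rw [eq_of_sz (hs k' h') e]
    · simp [h, h', hL.2 k k' e]

theorem bound (hB : BdEStmt) (a₀ : Fin ν) (hx : x ≠ 0) (hη : 0 ≤ η) (h0 : 0 ≤ B)
    (hb : Bd1 T x d η I c₀ B) (hs : ∀ k ∈ S, sz β k = 1) (hN : Nrm l G)
    (hl : ∀ k, l' k ⬝ᵥ x = 0) {β' : Fin N → ℕ} (hL : Lab d (S.piecewise G' G) β')
    (hi : Sᶜ.image β' = Sᶜ.image β) {r : ℕ} (hr : rew β + r ≤ rew β') :
    ‖dt I (Fin.cons c₀ (S.piecewise (fun k => T (LL (l' k) * G' k)) (xc T a₀ x l G)))‖ ≤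
      exp (-(r * η)) * (4 ^ N * (B * exp (-(η * rew β)) *
        (‖x a₀‖ ^ (N - nb β) * ‖x‖ ^ (nb β - S.card)))) * ∏ k ∈ S, nl (l' k) * n1 (G' k) := by
  have h := hB ν d N ι T x η B I c₀ a₀ S (S.piecewise l' l) (S.piecewise G' G) β' hx h0 hb
    (fun k hk => by simp [hk, hl k]) hL
  have e1 : cols T c₀ (S.piecewise (S.piecewise l' l) fun k => ex a₀ x (S.piecewise l' l k))
      (S.piecewise G' G) =
      Fin.cons c₀ (S.piecewise (fun k => T (LL (l' k) * G' k)) (xc T a₀ x l G)) := by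
    rw [cols]
    congr 1
    funext k
    by_cases hk : k ∈ S <;> simp [hk, xc]
  have e2 : ∏ k, nl (S.piecewise l' l k) * n1 (S.piecewise G' G k) ≤
      ∏ k ∈ S, nl (l' k) * n1 (G' k) := by
    rw [← Finset.prod_mul_prod_compl S,
      Finset.prod_congr rfl (s₁ := S) (g := fun k => nl (l' k) * n1 (G' k)) fun k hk => by simp [hk],
      Finset.prod_congr rfl (s₁ := Sᶜ) (g := fun k => nl (l k) * n1 (G k)) fun k hk => by
        simp [Finset.mem_compl.1 hk]]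
    exact mul_le_of_le_one_right (prod_nn _ _ _) (hN.prod_le _)
  have e3 := nb_singles hs
  rw [e1, hi, Finset.card_compl, Fintype.card_fin,
    show N - S.card - (Sᶜ.image β).card = N - nb β by omega,
    show (Sᶜ.image β).card = nb β - S.card by omega] at h
  have e4 : exp (η * rew β) * exp (r * η) ≤ exp (η * rew β') := by
    rw [← exp_add]
    have : (rew β : ℝ) + r ≤ rew β' := by exact_mod_cast hr
    exact exp_le_exp.2 (by nlinarith)
  have h2 := (mul_le_mul_of_nonneg_right e4 (norm_nonneg _)).trans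
    (h.trans (mul_le_mul_of_nonneg_left e2 (by positivity)))
  rw [← le_inv_mul_iff₀ (by positivity)] at h2
  refine h2.trans_eq ?_
  rw [exp_neg, exp_neg, mul_inv]
  ring

theorem merge (hs : ∀ k ∈ S, sz β k = 1) (hL : Lab d (S.piecewise G' G) β) {k k' : Fin N}
    (hk : k ∈ S) (hk' : k' ∈ S) (hn : k ≠ k') (e : G' k = G' k') :
    ∃ β' : Fin N → ℕ, Lab d (S.piecewise G' G) β' ∧ Sᶜ.image β' = Sᶜ.image β ∧
      rew β + 2 ≤ rew β' := by
  have h1 : ∀ i, S.piecewise G' G (if i = k' then k else i) = S.piecewise G' G i := fun i => by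
    by_cases h : i = k'
    · simp [h, hk, hk', e]
    · rw [if_neg h]
  refine ⟨fun i => β (if i = k' then k else i), ⟨hL.1, fun i j h => ?_⟩,
    Finset.image_congr fun i hi => ?_, ?_⟩
  · rw [← h1 i, ← h1 j]
    exact hL.2 _ _ h
  · rw [if_neg]
    rintro rfl
    exact Finset.mem_compl.1 hi hk'
  · have := rew_merge (β := β) (β' := fun i => β (if i = k' then k else i)) {k, k'}
      (fun i hi j hj h => by
        simp only [Finset.mem_insert, Finset.mem_singleton, not_or] at hi hj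
        simp [hi.2, hj.2, h])
      (fun i hi j hj => by
        simp only [Finset.mem_insert, Finset.mem_singleton] at hi hj
        rcases hi with rfl | rfl <;> rcases hj with rfl | rfl <;> simp)
    rw [Finset.card_pair hn, Finset.sum_pair hn, hs k hk, hs k' hk'] at this
    omega

end KPAux

open KPAux in
theorem kPS (hC : CramStmt) (hB : BdEStmt) (hR : R1Stmt) (hK : KLStmt) : KPStmt := by
  intro ν d N
  have hA : (0 : ℝ) ≤ 3 * ν * (d + 1) * 2 ^ d := by positivity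
  have hA' := hK ν d
  generalize (3 * ν * (d + 1) * 2 ^ d : ℝ) = A at hA hA'
  have c1 : (1 : ℝ) ≤ (A + 1) ^ N * 4 ^ N :=
    one_le_mul_of_one_le_of_one_le (one_le_pow₀ (by linarith)) (one_le_pow₀ (by norm_num))
  have c2 : (0 : ℝ) ≤ 15 * N * (8 ^ N) ^ 4 := by positivity
  refine ⟨(A + 1) ^ N * 4 ^ N + 15 * N * (8 ^ N) ^ 4, by linarith, ?_⟩
  intro ι _ T x η B Q I c₀ a₀ S l G β k₁ hk₁ hS hs ha hη hB0 hQ hL hN hb hlow
  have hx : x ≠ 0 := fun e => ha (by simp [e])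
  have hx' := norm_pos_iff.2 hx
  have ha' := norm_pos_iff.2 ha
  have hsN : S.card ≤ N := by simpa using S.card_le_univ
  have bd := fun (l' : Fin N → Fin ν → ℂ) (G' : Fin N → MP ν) (β' : Fin N → ℕ) (r : ℕ) hl =>
    bound (l' := l') (G' := G') (β' := β') (r := r) hB a₀ hx hη hB0.le hb hs hN hl
  set B' := B * exp (-(η * rew β)) * (‖x a₀‖ ^ (N - nb β) * ‖x‖ ^ (nb β - S.card)) with hB'
  have p1 : 0 < B' := by positivity
  set v := xc T a₀ x l G with hv
  have low : B' * ‖x‖ ^ S.card ≤ Q * ‖dt I (Fin.cons c₀ v)‖ := by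
    have e := nb_singles hs
    rw [mul_left_comm Q, ← inv_mul_le_iff₀ (exp_pos _), ← exp_neg] at hlow
    refine Eq.trans_le ?_ hlow
    rw [hB', show ‖x‖ ^ nb β = ‖x‖ ^ (nb β - S.card) * ‖x‖ ^ S.card by
      rw [← pow_add]; congr 1; omega]
    ring
  have D0 : dt I (Fin.cons c₀ v) ≠ 0 := fun e => by
    rw [e, norm_zero, mul_zero] at low
    exact low.not_gt (by positivity)
  obtain ⟨φ, f1, -, f2⟩ := hC ι N I c₀ v D0
  have e1 : ∀ w : Fin N → ι → ℂ, dt I (Fin.cons c₀ (S.piecewise w v)) =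
      dt I (Fin.cons c₀ v) * pm S fun k => φ (w k) := fun w => by
    rw [f2, pm]
    congr 2
    funext k
    by_cases hk : k ∈ S <;> simp [hk, f1]
  have e2 : ∀ m, m ⬝ᵥ uu T I c₀ v k₁ (G k₁) =
      dt I (Fin.cons c₀ v) * φ (T (LL m * G k₁)) k₁ := fun m => by
    rw [uu_dot, f2, ← dt_update k₁ (φ _)]
    congr 2
    funext k
    by_cases hk : k = k₁ <;> simp [hk, f1]
  have b1 : ∀ (l' : Fin N → Fin ν → ℂ) (G' : Fin N → MP ν),
      (∀ k, l' k ⬝ᵥ x = 0 ∧ (G' k).IsHomogeneous d) →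
      ‖dt I (Fin.cons c₀ (S.piecewise (fun k => T (LL (l' k) * G' k)) v))‖ ≤
        4 ^ N * B' * ∏ k ∈ S, nl (l' k) * n1 (G' k) := fun l' G' h => by
    simpa using bd l' G' β 0 (fun k => (h k).1) (lab hs hL fun k => (h k).2) rfl le_rfl
  have h0 : ∀ k, ex a₀ x (l k) ⬝ᵥ x = 0 ∧ (G k).IsHomogeneous d :=
    fun k => ⟨ex_dot _ _ _, hL.1 k⟩
  have h1 : ∀ k, nl (ex a₀ x (l k)) ≤ 2 * ‖x‖ := fun k =>
    (nl_ex_le _ _ _).trans (mul_le_of_le_one_right (by positivity) (hN k).1)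
  have tr : ∀ (z : ℂ) (ε P : ℝ), 0 ≤ ε * P → ‖dt I (Fin.cons c₀ v) * z‖ ≤ ε * (4 ^ N * B') * P →
      ‖z‖ * (2 * ‖x‖) ^ S.card ≤ ε * (8 ^ N * Q) * P := fun z ε P hP h => by
    have k1 : (2 : ℝ) ^ S.card ≤ 2 ^ N := pow_le_pow_right₀ one_le_two hsN
    have k2 : B' * (‖z‖ * ‖x‖ ^ S.card) ≤ B' * (4 ^ N * Q * (ε * P)) := by
      rw [norm_mul] at h
      calc B' * (‖z‖ * ‖x‖ ^ S.card) = B' * ‖x‖ ^ S.card * ‖z‖ := by ring
        _ ≤ Q * (‖dt I (Fin.cons c₀ v)‖ * ‖z‖) := by rw [← mul_assoc]; gcongr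
        _ ≤ Q * (ε * (4 ^ N * B') * P) := by gcongr
        _ = _ := by ring
    have k3 := le_of_mul_le_mul_left k2 p1
    calc ‖z‖ * (2 * ‖x‖) ^ S.card = 2 ^ S.card * (‖z‖ * ‖x‖ ^ S.card) := by ring
      _ ≤ 2 ^ N * (4 ^ N * Q * (ε * P)) := by gcongr
      _ = _ := by rw [show (8 : ℝ) = 2 * 4 by norm_num, mul_pow]; ring
  have r1 := hR ν d N (φ ∘ₗ T) x S (fun k => ex a₀ x (l k)) G k₁ (2 * ‖x‖) (8 ^ N * Q)
    (exp (-(2 * η))) hk₁ hS (by positivity)
    (one_le_mul_of_one_le_of_one_le (one_le_pow₀ (by norm_num)) hQ) (exp_pos _).le h0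
    (fun k _ => ⟨h1 k, (hN k).2, f1 k⟩) fun l' G' h => by
      have hP := prod_nn S l' G'
      refine ⟨?_, fun k hk k' hk' hn e => tr _ _ _ (by positivity) ?_⟩
      · have := b1 l' G' h
        rw [e1, ← one_mul (4 ^ N * B')] at this
        simpa using tr _ 1 _ (by positivity) this
      · obtain ⟨β', m1, m2, m3⟩ := merge hs (lab hs hL fun k => (h k).2) hk hk' hn e
        have := bd l' G' β' 2 (fun k => (h k).1) m1 m2 m3
        rw [e1] at this
        exact_mod_cast this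
  have up : ‖dt I (Fin.cons c₀ v)‖ ≤ 4 ^ N * B' * (2 * ‖x‖) ^ S.card := by
    have := b1 _ G h0
    rw [show (fun k => T (LL (ex a₀ x (l k)) * G k)) = v from rfl, Finset.piecewise_same] at this
    refine this.trans (mul_le_mul_of_nonneg_left ?_ (by positivity))
    rw [← Finset.prod_const]
    exact Finset.prod_le_prod (fun _ _ => mul_nonneg (nl_nonneg _) (n1_nonneg _)) fun k _ =>
      (mul_le_of_le_one_right (nl_nonneg _) (hN k).2).trans (h1 k)
  have hbv : bv x (uu T I c₀ v k₁ (G k₁)) ≠ 0 := bv_ne hx (h0 k₁).1 (by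
    rw [e2, show T (LL (ex a₀ x (l k₁)) * G k₁) = v k₁ from rfl, f1, Pi.single_eq_same, mul_one]
    exact D0)
  refine ⟨hbv, (hA' S x _ (Lam T I c₀ S v) (4 ^ N * B')
    (15 * N * exp (-(2 * η)) * (8 ^ N * Q) ^ 4) hbv (by positivity) (by positivity)
    fun l₁ G₁ h => ?_).mono (by positivity) ?_ (by positivity) ?_⟩
  · obtain ⟨l', G', rfl, rfl, h'⟩ : ∃ (l' : Fin N → Fin ν → ℂ) (G' : Fin N → MP ν),
        (l₁ = fun k : S => l' k) ∧ (G₁ = fun k : S => G' k) ∧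
        ∀ k, l' k ⬝ᵥ x = 0 ∧ (G' k).IsHomogeneous d :=
      ⟨fun k => if hk : k ∈ S then l₁ ⟨k, hk⟩ else ex a₀ x (l k),
        fun k => if hk : k ∈ S then G₁ ⟨k, hk⟩ else G k, by simp, by simp, fun k => by
          by_cases hk : k ∈ S <;> simp only [hk, dite_true, dite_false]
          exacts [h _, h0 k]⟩
    rw [Lam_apply' S v fun k => LL (l' k) * G' k,
      Finset.prod_coe_sort S fun k => nl (l' k) * n1 (G' k)]
    refine ⟨b1 l' G' h', fun k₀ hk₀ => ?_⟩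
    rw [e2, mul_eq_zero_iff_left D0] at hk₀
    have := r1 l' G' h' k₀ k₀.2 hk₀
    rw [e1, norm_mul]
    calc _ ≤ 4 ^ N * B' * (2 * ‖x‖) ^ S.card * ‖pm S fun k => φ (T (LL (l' k) * G' k))‖ := by gcongr
      _ = 4 ^ N * B' * (‖pm S fun k => (φ ∘ₗ T) (LL (l' k) * G' k)‖ * (2 * ‖x‖) ^ S.card) := by
        simp only [LinearMap.comp_apply]; ring
      _ ≤ _ := (mul_le_mul_of_nonneg_left this (by positivity)).trans_eq (by ring)
  · have : A ^ Fintype.card S ≤ (A + 1) ^ N := by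
      rw [Fintype.card_coe]
      exact (pow_le_pow_left₀ hA (by linarith) _).trans (pow_le_pow_right₀ (by linarith) hsN)
    calc _ ≤ (A + 1) ^ N * 4 ^ N * B' := by rw [mul_assoc]; gcongr
      _ ≤ ((A + 1) ^ N * 4 ^ N + 15 * N * (8 ^ N) ^ 4) * B' := by gcongr; linarith
      _ = _ := by rw [hB']; ring
  · calc _ = 15 * N * (8 ^ N) ^ 4 * Q ^ 4 * exp (-(2 * η)) := by ring
      _ ≤ _ := by gcongr; linarith

end

end Pool.Agent.Lib.MP_45f16c_ag.EX
end

-- part Pool.Agent.Lib.MP_45f16c_ag.EX.Cen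
section

/-! The centre. -/

set_option autoImplicit false
open Metric MeasureTheory MvPolynomial Filter Real
open scoped ComplexConjugate Matrix Topology

namespace Pool.Agent.Lib.MP_45f16c_ag.EX

open AS

noncomputable section

namespace CenAux

theorem expand {ν n : ℕ} {κ : Type} [Fintype κ] [DecidableEq κ] (Λ : MP ν [⋀^κ]→ₗ[ℂ] ℂ)
    (a : κ → Fin n → ℂ) (M : Fin n → MP ν) {A X : ℝ} (ha : ∀ k, ∑ e, ‖a k e‖ ≤ A) (hX : 0 ≤ X)
    (h : ∀ r : κ → Fin n, ‖Λ fun k => M (r k)‖ ≤ X) :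
    ‖Λ fun k => ∑ e, a k e • M e‖ ≤ A ^ Fintype.card κ * X := by
  have e1 : (Λ fun k => ∑ e, a k e • M e) = ∑ r : κ → Fin n, (∏ k, a k (r k)) • Λ fun k => M (r k) :=
    (Λ.toMultilinearMap.map_sum fun k e => a k e • M e).trans
      (Finset.sum_congr rfl fun r _ => Λ.toMultilinearMap.map_smul_univ _ _)
  rw [e1]
  calc _ ≤ ∑ r : κ → Fin n, (∏ k, ‖a k (r k)‖) * X := norm_sum_le_of_le _ fun r _ => by
        rw [norm_smul, norm_prod]
        exact mul_le_mul_of_nonneg_left (h r) (Finset.prod_nonneg fun _ _ => norm_nonneg _)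
    _ = (∏ k, ∑ e, ‖a k e‖) * X := by
        rw [← Finset.sum_mul, Finset.prod_univ_sum, Fintype.piFinset_univ]
    _ ≤ _ := by
        refine mul_le_mul_of_nonneg_right ?_ hX
        rw [← Finset.card_univ, ← Finset.prod_const]
        exact Finset.prod_le_prod (fun _ _ => Finset.sum_nonneg fun _ _ => norm_nonneg _)
          fun k _ => ha k

end CenAux

theorem cenS (hB : BinStmt) (hT : TelStmt) : CenStmt := by
  intro ν d κ _ _ x u U V P P' Λ B ε Q l G k₁ h0 h1 hK hl hk UP VP UP' VP' nP nP' nU nV hQ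
    ⟨s₁, t₁, ex⟩ ⟨s₂, t₂, eu⟩ hne hbig
  have : Nonempty κ := ⟨k₁⟩
  obtain ⟨k₂, hk₂⟩ := Finite.exists_max fun k => ‖l k ⬝ᵥ u‖
  have k0 : l k₂ ⬝ᵥ u ≠ 0 := norm_pos_iff.1 ((norm_pos_iff.2 hk).trans_le (hk₂ k₁))
  choose c c1 c2 using fun k => hB ν d P P' 2 (G k) nP nP' (hl k).2.2.1
  obtain ⟨M, hM⟩ : ∃ M : Fin (d + 1) → MP ν,
      M = fun e : Fin (d + 1) => LL (l k₂) * (LL U ^ (e : ℕ) * LL V ^ (d - e)) := ⟨_, rfl⟩
  obtain ⟨a, ha⟩ : ∃ a : κ → Fin (d + 1) → ℂ,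
      a = fun k e => l k ⬝ᵥ u / l k₂ ⬝ᵥ u * c k e := ⟨_, rfl⟩
  have a1 : ∀ k, ∑ e, ‖a k e‖ ≤ 4 ^ d := fun k => by
    have j1 : ‖l k ⬝ᵥ u / l k₂ ⬝ᵥ u‖ ≤ 1 := by
      rw [norm_div]
      exact div_le_one_of_le₀ (hk₂ k) (norm_nonneg _)
    calc _ ≤ ∑ e, ‖c k e‖ := Finset.sum_le_sum fun e _ => by
          rw [ha, norm_mul]
          exact mul_le_of_le_one_left (norm_nonneg _) j1
      _ ≤ (2 * 2) ^ d * 1 :=
          (c1 k).trans (mul_le_mul_of_nonneg_left (hl k).2.2.2 (by positivity))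
      _ = _ := by norm_num
  have m1 : ∀ e, (M e).IsHomogeneous (d + 1) := fun e => by
    rw [hM]
    refine hom_LL_mul _ ?_
    have := (LL_pow_hom U e).mul (LL_pow_hom V (d - e))
    rwa [Nat.add_sub_cancel' (Nat.lt_succ_iff.1 e.2)] at this
  have m2 : ∀ e, n1 (M e) ≤ Q ^ d := fun e => by
    rw [hM]
    have := n1_mul_le' ((n1_LL_le _).trans (hl k₂).2.1) (n1_mul_le'
      (n1_pow_le ((n1_LL_le _).trans nU) e) (n1_pow_le ((n1_LL_le _).trans (nV.trans hQ)) (d - e)))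
    rwa [one_mul, ← pow_add, Nat.add_sub_cancel' (Nat.lt_succ_iff.1 e.2)] at this
  have m3 : ∀ e y, eval y (M e) = l k₂ ⬝ᵥ y * ((U ⬝ᵥ y) ^ (e : ℕ) * (V ⬝ᵥ y) ^ (d - e)) :=
    fun e y => by simp only [hM, map_mul, map_pow, eval_LL]
  have tel := hT ν d κ x u Λ B ε (fun k => LL (l k) * G k) (fun k => ∑ e, a k e • M e)
    (fun _ => (4 * Q) ^ d) h0 h1 hK
    (fun k => ⟨hom_LL_mul _ (hl k).2.2.1, by rw [map_mul, eval_LL, (hl k).1, zero_mul],
      (n1_mul_le' ((n1_LL_le _).trans (hl k).2.1) (hl k).2.2.2).trans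
        (by rw [one_mul]; exact one_le_pow₀ (by linarith))⟩)
    (fun k => ⟨IsHomogeneous.sum _ _ _ fun e _ => hom_smul _ (m1 e), by
      simp [smul_eval, m3, (hl k₂).1], by
      calc _ ≤ ∑ e, ‖a k e‖ * Q ^ d := (n1_sum_le _ _).trans (Finset.sum_le_sum fun e _ => by
            rw [n1_smul]
            exact mul_le_mul_of_nonneg_left (m2 e) (norm_nonneg _))
        _ ≤ _ := by
            rw [← Finset.sum_mul, mul_pow]
            exact mul_le_mul_of_nonneg_right (a1 k) (by positivity)⟩)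
    fun k s t => by
      have e1 : s • x + t • u = (s * s₁ + t * s₂) • P + (s * t₁ + t * t₂) • P' := by
        rw [ex, eu]
        module
      have e2 : ∀ k, l k ⬝ᵥ (s • x + t • u) = t * l k ⬝ᵥ u := fun k => by
        simp [(hl k).1]
      have e3 : U ⬝ᵥ (s • x + t • u) = s * s₁ + t * s₂ := by
        rw [e1]
        simp [UP, UP']
      have e4 : V ⬝ᵥ (s • x + t • u) = s * t₁ + t * t₂ := by
        rw [e1]
        simp [VP, VP']
      have e5 := c2 k (s * s₁ + t * s₂) (s * t₁ + t * t₂)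
      rw [← e1] at e5
      simp only [map_sub, map_mul, map_sum, smul_eval, eval_LL, m3, e2, e3, e4, e5, ha]
      rw [Finset.mul_sum, sub_eq_zero]
      refine Finset.sum_congr rfl fun e _ => ?_
      field_simp
  obtain ⟨r, hr⟩ := Finite.exists_max fun r : κ → Fin (d + 1) => ‖Λ fun k => M (r k)‖
  have e1 := CenAux.expand Λ a M a1 (norm_nonneg _) hr
  rw [Finset.prod_const, Finset.card_univ, ← pow_mul] at tel
  rw [← pow_mul] at e1
  have e2 := norm_le_norm_add_norm_sub' (Λ fun k => LL (l k) * G k) (Λ fun k => ∑ e, a k e • M e)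
  have e3 : ‖Λ fun k => LL (l k) * G k‖ ≤ 2 * 4 ^ (d * Fintype.card κ) * ‖Λ fun k => M (r k)‖ := by
    linarith
  refine ⟨k₂, fun k => r k, fun k k' e => by_contra fun j => ?_, fun k => Nat.lt_succ_iff.1 (r k).2,
    by simpa only [hM] using e3⟩
  rw [Λ.map_eq_zero_of_eq (fun k => M (r k)) (congrArg M (Fin.ext e)) j, norm_zero, mul_zero] at e3
  exact hne (norm_le_zero_iff.1 e3)

end

end Pool.Agent.Lib.MP_45f16c_ag.EX
end

-- part Pool.Agent.Lib.MP_45f16c_ag.EX.Rad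
section

/-! Minimum modulus for polynomials. -/

set_option autoImplicit false
open Metric MeasureTheory MvPolynomial Filter Real
open scoped ComplexConjugate Matrix Topology

namespace Pool.Agent.Lib.MP_45f16c_ag.EX

open AS

noncomputable section

namespace RadAux

theorem fac {w : ℂ} (hw : ‖w‖ = 1) (σ : ℝ) : ‖w ^ 2 - 2 * σ * w + 1‖ = 2 * |w.re - σ| := by
  have h1 : w * conj w = 1 := by rw [Complex.mul_conj, Complex.normSq_eq_norm_sq, hw]; simp
  have h2 : w + conj w = 2 * (w.re : ℂ) := by rw [Complex.add_conj]; simp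
  have h3 : w ^ 2 - 2 * σ * w + 1 = w * ((2 * (w.re - σ) : ℝ) : ℂ) := by
    push_cast
    linear_combination w * h2 - h1
  rw [h3, norm_mul, hw, one_mul, Complex.norm_real, Real.norm_eq_abs, abs_mul, abs_two]

theorem circ {κ : Type} [Fintype κ] (σ : κ → ℝ) :
    ∃ x ∈ Set.Icc (-1 : ℝ) 1, 1 ≤ ∏ k, 2 * |x - σ k| := by
  have hd : Differentiable ℂ fun w : ℂ => ∏ k, (w ^ 2 - 2 * σ k * w + 1) := by fun_prop
  obtain ⟨w, hw, hm⟩ := Complex.exists_mem_frontier_isMaxOn_norm (U := ball (0 : ℂ) 1)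
    isBounded_ball ⟨0, mem_ball_self one_pos⟩ hd.diffContOnCl
  rw [frontier_ball _ one_ne_zero, mem_sphere_zero_iff_norm] at hw
  refine ⟨w.re, abs_le.1 ((Complex.abs_re_le_norm w).trans hw.le), ?_⟩
  have h0 : ‖∏ k, ((0 : ℂ) ^ 2 - 2 * σ k * 0 + 1)‖ ≤ ‖∏ k, (w ^ 2 - 2 * σ k * w + 1)‖ :=
    hm (subset_closure (mem_ball_self one_pos))
  rw [norm_prod, norm_prod, Finset.prod_congr rfl fun k _ => fac hw (σ k)] at h0
  simpa using h0

theorem rz_le {m : ℕ} (a : Fin m → ℂ) (ha : ∀ i, ‖a i‖ ≤ 2) {z : ℂ} (hz : ‖z‖ ≤ 1)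
    (h0 : ∀ i, z ≠ a i) : Rz a 1 z * ∏ i, |‖z‖ - ‖a i‖| ≤ 3 ^ m := by
  rw [Rz, ← Finset.prod_mul_distrib]
  refine (Finset.prod_le_prod (g := fun _ => 3) (fun i _ => by positivity) fun i _ => ?_).trans
    (by simp)
  have hp : 0 < ‖z - a i‖ := norm_pos_iff.2 (sub_ne_zero.2 (h0 i))
  have h1 : max 1 ‖z - a i‖ ≤ 3 :=
    max_le (by norm_num) ((norm_sub_le _ _).trans (by linarith [ha i]))
  rw [div_mul_eq_mul_div, div_le_iff₀ hp]
  exact mul_le_mul h1 (abs_norm_sub_norm_le _ _) (abs_nonneg _) (by norm_num)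

theorem exp_le (m : ℕ) : exp (m * 2 / 1) * 3 ^ m ≤ 50 ^ m := by
  have h1 : exp 2 ≤ 9 := by
    have := Real.exp_one_lt_d9
    have h2 : exp 2 = exp 1 * exp 1 := by rw [← Real.exp_add]; norm_num
    nlinarith [Real.exp_pos 1]
  rw [div_one, Real.exp_nat_mul, ← mul_pow]
  exact pow_le_pow_left₀ (by positivity) (by linarith) m

end RadAux

theorem radS : RadStmt := by
  intro κ _ s A B hAB
  have hρ : 0 < (B - A) / 2 := by linarith
  obtain ⟨x, hx, h⟩ := RadAux.circ fun k => (s k - (A + B) / 2) / ((B - A) / 2)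
  refine ⟨(A + B) / 2 + (B - A) / 2 * x, ⟨by nlinarith [hx.1], by nlinarith [hx.2]⟩, ?_⟩
  have e : ∀ k, |(A + B) / 2 + (B - A) / 2 * x - s k| =
      (B - A) / 4 * (2 * |x - (s k - (A + B) / 2) / ((B - A) / 2)|) := fun k => by
    have : (A + B) / 2 + (B - A) / 2 * x - s k =
        (B - A) / 2 * (x - (s k - (A + B) / 2) / ((B - A) / 2)) := by
      rw [mul_sub, mul_div_cancel₀ _ hρ.ne']; ring
    rw [this, abs_mul, abs_of_pos hρ]; ring
  rw [Finset.prod_congr rfl fun k _ => e k, Finset.prod_mul_distrib, Finset.prod_const,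
    Finset.card_univ]
  exact le_mul_of_one_le_right (by positivity) h

theorem pMS (hR : RadStmt) (hZ : RootsStmt) : PMStmt := by
  classical
  intro κ _ m h A B hh hA hAB hB
  choose a ha hb using fun k => hZ m (h k) (hh k)
  obtain ⟨t, ht, hp⟩ := hR (κ × Fin m) (fun p => ‖a p.1 p.2‖) A B hAB
  refine ⟨t, ht, fun k z w hz hw => ?_⟩
  have hq : 0 < (B - A) / 4 := by linarith
  have hz1 : ‖z‖ ≤ 1 := hz.le.trans (ht.2.trans hB)
  have hne : ∀ i, z ≠ a k i := fun i e => by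
    have := (pow_pos hq _).trans_le hp
    rw [Finset.prod_eq_zero (Finset.mem_univ (k, i)) (by simp [← e, hz])] at this
    exact lt_irrefl _ this
  have h1 := hb k z w 1 2 hz1 one_pos le_rfl ((norm_sub_le _ _).trans (by linarith)) hne
  have h2 := RadAux.rz_le (a k) (ha k) hz1 hne
  rw [hz] at h2
  rw [Fintype.prod_prod_type, ← Finset.mul_prod_erase _ _ (Finset.mem_univ k),
    Fintype.card_prod, Fintype.card_fin] at hp
  have h3 : ∏ k' ∈ Finset.univ.erase k, ∏ i, |t - ‖a k' i‖| ≤ (50 ^ m) ^ (Fintype.card κ - 1) := by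
    refine (Finset.prod_le_prod (g := fun _ => 50 ^ m) (fun _ _ => by positivity)
      fun k' _ => ?_).trans (by simp)
    refine (Finset.prod_le_prod (g := fun _ => 50) (fun _ _ => by positivity)
      fun i _ => ?_).trans (by simp)
    rw [abs_le]
    constructor <;> linarith [ha k' i, norm_nonneg (a k' i), ht.1, ht.2]
  generalize (∏ k' ∈ Finset.univ.erase k, ∏ i, |t - ‖a k' i‖|) = Q at hp h3
  have hP : 0 ≤ ∏ i, |t - ‖a k i‖| := by positivity
  generalize (∏ i, |t - ‖a k i‖|) = P at hp h2 hP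
  have h4 : ‖h k w‖ * P ≤ ‖h k z‖ * 50 ^ m := by
    calc ‖h k w‖ * P ≤ ‖h k z‖ * (exp (m * 2 / 1) * Rz (a k) 1 z) * P := by gcongr
      _ = ‖h k z‖ * (exp (m * 2 / 1) * (Rz (a k) 1 z * P)) := by ring
      _ ≤ ‖h k z‖ * (exp (m * 2 / 1) * 3 ^ m) := by gcongr
      _ ≤ _ := by gcongr; exact RadAux.exp_le m
  have hN : Fintype.card κ - 1 + 1 = Fintype.card κ :=
    Nat.sub_add_cancel (Fintype.card_pos_iff.2 ⟨k⟩)
  have h5 : (200 / (B - A)) ^ (m * Fintype.card κ) =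
      50 ^ m * (50 ^ m) ^ (Fintype.card κ - 1) / ((B - A) / 4) ^ (Fintype.card κ * m) := by
    rw [← pow_succ', hN, ← pow_mul, mul_comm m, ← div_pow]
    congr 1
    field_simp
    norm_num
  rw [h5, div_mul_eq_mul_div, le_div_iff₀ (pow_pos hq _)]
  calc ‖h k w‖ * ((B - A) / 4) ^ (Fintype.card κ * m) ≤ ‖h k w‖ * (P * Q) := by gcongr
    _ ≤ ‖h k w‖ * (P * (50 ^ m) ^ (Fintype.card κ - 1)) := by gcongr
    _ = ‖h k w‖ * P * (50 ^ m) ^ (Fintype.card κ - 1) := by ring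
    _ ≤ ‖h k z‖ * 50 ^ m * (50 ^ m) ^ (Fintype.card κ - 1) := by gcongr
    _ = _ := by ring

end

end Pool.Agent.Lib.MP_45f16c_ag.EX
end

-- part Pool.Agent.Lib.MP_45f16c_ag.EX.Start
section

/-! The starting point. -/

set_option autoImplicit false
open Metric MeasureTheory MvPolynomial Filter Real
open scoped ComplexConjugate Matrix Topology

namespace Pool.Agent.Lib.MP_45f16c_ag.EX

open AS

noncomputable section

namespace StartAux

theorem poly {ρ : ℝ} {z : ℂ} (hz : ‖z‖ ≤ ρ) (m : ℕ) : ∀ p : Polynomial ℂ, p.natDegree ≤ m →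
    (∀ w ∈ ball (0 : ℂ) ρ, p.eval w ≠ 0) → ‖p.eval z‖ ≤ 2 ^ m * ‖p.eval 0‖ := by
  have h0 : ∀ p : Polynomial ℂ, p.natDegree = 0 → p.eval z = p.eval 0 := fun p h => by
    rw [Polynomial.eq_C_of_natDegree_eq_zero h, Polynomial.eval_C, Polynomial.eval_C]
  induction m with
  | zero => exact fun p h _ => by rw [h0 p (Nat.le_zero.1 h), pow_zero, one_mul]
  | succ m ih =>
    intro p hp h
    rcases Nat.eq_zero_or_pos p.natDegree with h1 | h1
    · rw [h0 p h1]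
      exact le_mul_of_one_le_left (norm_nonneg _) (one_le_pow₀ one_le_two)
    obtain ⟨r, hr⟩ := Complex.exists_root (Polynomial.natDegree_pos_iff_degree_pos.1 h1)
    obtain ⟨q, rfl⟩ := Polynomial.dvd_iff_isRoot.2 hr
    have q0 : q ≠ 0 := fun e => by simp [e] at h1
    rw [Polynomial.natDegree_mul (Polynomial.X_sub_C_ne_zero r) q0,
      Polynomial.natDegree_X_sub_C] at hp
    have h2 := ih q (by omega) fun w hw e => h w hw (by simp [e])
    have h3 : ρ ≤ ‖r‖ := not_lt.1 fun h3 => h r (mem_ball_zero_iff.2 h3) hr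
    have h4 : ‖z - r‖ ≤ 2 * ‖r‖ := (norm_sub_le _ _).trans (by linarith)
    simp only [Polynomial.eval_mul, Polynomial.eval_sub, Polynomial.eval_X, Polynomial.eval_C,
      norm_mul, zero_sub, norm_neg]
    exact (mul_le_mul h4 h2 (norm_nonneg _) (by positivity)).trans (le_of_eq (by ring))

theorem core {ν m : ℕ} {f : ℂ → Fin ν → ℂ} (hf : ∀ a, PD ℂ m fun z => f z a) {a : Fin ν}
    (ha : ‖f 0 a‖ = ‖f 0‖) {ρ : ℝ} (hρ : ρ ≤ 1 / 8)
    (h : ∀ z ∈ ball (0 : ℂ) ρ, ‖bv (f z) (deriv f z)‖ < ‖f z‖ ^ 2 ∧ ‖f z‖ < 2 * ‖f z a‖)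
    {z : ℂ} (hz : ‖z‖ ≤ ρ) : ‖f z‖ ≤ 3 / 2 * ‖f z a‖ ∧ ‖f z‖ ≤ 2 * 2 ^ m * ‖f 0‖ := by
  have hd : Differentiable ℂ f := differentiable_pi.2 fun b => (hf b).differentiable
  have h0 : ∀ w ∈ ball (0 : ℂ) ρ, f w a ≠ 0 := fun w hw =>
    norm_pos_iff.1 (by linarith [(h w hw).2, norm_nonneg (f w)])
  have h1 : ∀ w ∈ ball (0 : ℂ) ρ, ‖f w‖ ≤ 3 / 2 * ‖f w a‖ := fun w hw =>
    (pi_norm_le_iff_of_nonneg (by positivity)).2 fun b => by
      have hρ0 : (0 : ℂ) ∈ ball (0 : ℂ) ρ :=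
        mem_ball_self ((norm_nonneg w).trans_lt (mem_ball_zero_iff.1 hw))
      have h2 := (convex_ball (0 : ℂ) ρ).norm_image_sub_le_of_norm_hasDerivWithin_le
        (f := fun z => f z b / f z a) (f' := fun z => bv (f z) (deriv f z) (a, b) / f z a ^ 2)
        (C := 4) (fun x hx => by
          have e := (hasDerivAt_pi.1 (hd x).hasDerivAt b).div (hasDerivAt_pi.1 (hd x).hasDerivAt a)
            (h0 x hx)
          exact (e.congr_deriv (by simp only [bv]; ring)).hasDerivWithinAt) (fun x hx => by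
          have e1 := norm_le_pi_norm (bv (f x) (deriv f x)) (a, b)
          have e2 := pow_le_pow_left₀ (norm_nonneg _) (h x hx).2.le 2
          rw [norm_div, norm_pow, div_le_iff₀ (pow_pos (norm_pos_iff.2 (h0 x hx)) 2)]
          linarith [(h x hx).1]) hρ0 hw
      have h3 : ‖f 0 b / f 0 a‖ ≤ 1 := by
        rw [norm_div, ha]; exact div_le_one_of_le₀ (norm_le_pi_norm _ _) (norm_nonneg _)
      have h4 := norm_le_norm_add_norm_sub' (f w b / f w a) (f 0 b / f 0 a)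
      rw [sub_zero] at h2
      rw [← div_le_iff₀ (norm_pos_iff.2 (h0 w hw)), ← norm_div]
      linarith [mem_ball_zero_iff.1 hw]
  have h2 : ‖f z‖ ≤ 3 / 2 * ‖f z a‖ := by
    rcases eq_or_ne ρ 0 with e | e
    · rw [norm_le_zero_iff.1 (hz.trans_eq e), ha]
      linarith [norm_nonneg (f 0)]
    · have hc := hd.continuous
      have h3 := closure_minimal h1 (isClosed_le (f := fun w => ‖f w‖)
        (g := fun w => 3 / 2 * ‖f w a‖) (by fun_prop) (by fun_prop))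
      rw [closure_ball _ e] at h3
      exact h3 (mem_closedBall_zero_iff.2 hz)
  obtain ⟨p, hp, e⟩ := (hf a).exists_poly
  have h3 := poly hz m p hp fun w hw => e w ▸ h0 w hw
  rw [← e, ← e, ha] at h3
  exact ⟨h2, by linarith [norm_nonneg (f z a)]⟩

end StartAux

theorem startS (hP : PMStmt) : StartStmt := by
  intro ν m f hf h0
  obtain ⟨a, -, ha⟩ := exists_max (h0 0 (by simp))
  have hd : Differentiable ℂ f := differentiable_pi.2 fun b => (hf b).differentiable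
  have hc := hd.continuous
  have hc' : Continuous (deriv f) := (hd.contDiff (n := 1)).continuous_deriv le_rfl
  have hb : Continuous fun z => bv (f z) (deriv f z) := continuous_bv.comp (hc.prodMk hc')
  obtain ⟨Z, eZ⟩ : ∃ Z, Z = closedBall (0 : ℂ) (1 / 8) ∩
      ({z | ‖f z‖ ^ 2 ≤ ‖bv (f z) (deriv f z)‖} ∪ {z | 2 * ‖f z a‖ ≤ ‖f z‖}) := ⟨_, rfl⟩
  have hZ : IsCompact Z := eZ ▸
    (isCompact_closedBall _ _).inter_right
      ((isClosed_le (by fun_prop) (by fun_prop)).union (isClosed_le (by fun_prop) (by fun_prop)))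
  rcases Set.eq_empty_or_nonempty Z with h | h <;> subst eZ
  · left
    have h1 : ∀ z ∈ ball (0 : ℂ) (1 / 8),
        ‖bv (f z) (deriv f z)‖ < ‖f z‖ ^ 2 ∧ ‖f z‖ < 2 * ‖f z a‖ := fun z hz =>
      ⟨not_le.1 fun e => Set.eq_empty_iff_forall_notMem.1 h z ⟨ball_subset_closedBall hz, .inl e⟩,
        not_le.1 fun e => Set.eq_empty_iff_forall_notMem.1 h z ⟨ball_subset_closedBall hz, .inr e⟩⟩
    refine fun w hw => (pi_norm_le_iff_of_nonneg (by positivity)).2 fun b => ?_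
    obtain ⟨t, ht, h2⟩ := hP Unit m (fun _ z => f z b) (1 / 16) (1 / 8) (fun _ => hf b)
      (by norm_num) (by norm_num) (by norm_num)
    have h3 : ‖(t : ℂ)‖ = t := by
      rw [Complex.norm_real, Real.norm_of_nonneg (by linarith [ht.1])]
    have h4 := h2 () t w h3 (mem_closedBall_zero_iff.1 hw)
    have h5 := (norm_le_pi_norm _ b).trans (StartAux.core hf ha le_rfl h1 (h3.trans_le ht.2)).2
    rw [Fintype.card_unit, mul_one] at h4
    refine h4.trans ((mul_le_mul_of_nonneg_left h5 (by positivity)).trans (le_of_eq ?_))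
    rw [show (6400 : ℝ) = 200 / (1 / 8 - 1 / 16) * 2 by norm_num, mul_pow]
    ring
  · right
    obtain ⟨z, hz, hm⟩ := hZ.exists_isMinOn h continuous_norm.continuousOn
    have h1 := mem_closedBall_zero_iff.1 hz.1
    have h2 : ∀ w ∈ ball (0 : ℂ) ‖z‖,
        ‖bv (f w) (deriv f w)‖ < ‖f w‖ ^ 2 ∧ ‖f w‖ < 2 * ‖f w a‖ := fun w hw => by
      have h3 := mem_ball_zero_iff.1 hw
      have h4 := mem_closedBall_zero_iff.2 (h3.le.trans h1)
      exact ⟨not_le.1 fun e => h3.not_ge (hm ⟨h4, .inl e⟩),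
        not_le.1 fun e => h3.not_ge (hm ⟨h4, .inr e⟩)⟩
    have h3 := StartAux.core hf ha h1 h2 le_rfl
    refine ⟨z, h1, h3.2, hz.2.resolve_right fun e => ?_⟩
    have h4 := norm_pos_iff.2 (h0 z (mem_closedBall_zero_iff.2 (by linarith)))
    have h5 : 2 * ‖f z a‖ ≤ ‖f z‖ := e
    linarith [h3.1]

end

end Pool.Agent.Lib.MP_45f16c_ag.EX
end

-- part Pool.Agent.Lib.MP_45f16c_ag.EX.RH
section

/-! Nearly flat scrolls. -/

set_option autoImplicit false
open Metric MeasureTheory MvPolynomial Filter Real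
open scoped ComplexConjugate Matrix Topology

namespace Pool.Agent.Lib.MP_45f16c_ag.EX

open AS

noncomputable section

namespace RHAux

variable {ν : ℕ}

theorem tv_split (x p₁ r₁ p₂ r₂ : Fin ν → ℂ) (a b c : Fin ν) :
    tv x (p₁ + r₁) (p₂ + r₂) a b c =
      tv x r₁ (p₂ + r₂) a b c + tv x p₁ r₂ a b c + tv x p₁ p₂ a b c := by
  simp only [tv, bv, Pi.add_apply]; ring

theorem tv_plane (y y' : Fin ν → ℂ) (s s' t t' w w' : ℂ) (a b c : Fin ν) :
    tv (s • y + s' • y') (t • y + t' • y') (w • y + w' • y') a b c = 0 := by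
  simp only [tv, bv, Pi.add_apply, Pi.smul_apply, smul_eq_mul]; ring

theorem norm_tv_le' (x y u : Fin ν → ℂ) (a b c : Fin ν) {A B : ℝ} (hy : ‖y‖ ≤ A) (hu : ‖u‖ ≤ B) :
    ‖tv x y u a b c‖ ≤ 6 * ‖x‖ * (A * B) := by
  have h1 : ‖y‖ * ‖u‖ ≤ A * B := mul_le_mul hy hu (norm_nonneg _) ((norm_nonneg _).trans hy)
  have h2 : ‖bv y u‖ ≤ 2 * (A * B) := (norm_bv_le y u).trans (by linarith)
  refine (norm_tv_le x y u a b c).trans ?_
  nlinarith [norm_nonneg x]

/-- The normalised forms that vanish on the plane. -/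
def qq (x u : Fin ν → ℂ) (p : Fin ν × Fin ν × Fin ν) : Fin ν → ℂ :=
  ((3 * ‖bv x u‖ : ℝ) : ℂ)⁻¹ • (Pi.single p.1 (bv x u (p.2.1, p.2.2)) -
    Pi.single p.2.1 (bv x u (p.1, p.2.2)) + Pi.single p.2.2 (bv x u (p.1, p.2.1)))

theorem qq_dot (x u y : Fin ν → ℂ) (p : Fin ν × Fin ν × Fin ν) :
    qq x u p ⬝ᵥ y = ((3 * ‖bv x u‖ : ℝ) : ℂ)⁻¹ * tv y x u p.1 p.2.1 p.2.2 := by
  simp only [qq, smul_dotProduct, add_dotProduct, sub_dotProduct, single_dotProduct, smul_eq_mul,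
    tv]
  ring

theorem qq_dot_x (x u : Fin ν → ℂ) (p : Fin ν × Fin ν × Fin ν) : qq x u p ⬝ᵥ x = 0 := by
  rw [qq_dot]
  refine mul_eq_zero_of_right _ ?_
  simp only [tv, bv]; ring

theorem qq_dot_u (x u : Fin ν → ℂ) (p : Fin ν × Fin ν × Fin ν) : qq x u p ⬝ᵥ u = 0 := by
  rw [qq_dot]
  refine mul_eq_zero_of_right _ ?_
  simp only [tv, bv]; ring

theorem norm_c (x u : Fin ν → ℂ) : ‖((3 * ‖bv x u‖ : ℝ) : ℂ)⁻¹‖ = (3 * ‖bv x u‖)⁻¹ := by
  rw [norm_inv, Complex.norm_real, Real.norm_of_nonneg (by positivity)]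

theorem nl_qq (x u : Fin ν → ℂ) (p : Fin ν × Fin ν × Fin ν) : nl (qq x u p) ≤ 1 := by
  rw [qq, nl_smul, norm_c, mul_comm, ← div_eq_mul_inv]
  refine div_le_one_of_le₀ ((nl_add_le _ _).trans ?_) (by positivity)
  have h := nl_sub_le (Pi.single p.1 (bv x u (p.2.1, p.2.2)) : Fin ν → ℂ)
    (Pi.single p.2.1 (bv x u (p.1, p.2.2)))
  simp only [nl_single] at h ⊢
  linarith [norm_le_pi_norm (bv x u) (p.2.1, p.2.2), norm_le_pi_norm (bv x u) (p.1, p.2.2),
    norm_le_pi_norm (bv x u) (p.1, p.2.1)]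

theorem cont_single (a : Fin ν) : Continuous fun s : ℂ => (Pi.single a s : Fin ν → ℂ) :=
  continuous_single (A := fun _ : Fin ν => ℂ) a

theorem cont_qq {S : Set ℂ} {x u : ℂ → Fin ν → ℂ} (hx : ContinuousOn x S) (hu : ContinuousOn u S)
    (h : ∀ z ∈ S, bv (x z) (u z) ≠ 0) (p : Fin ν × Fin ν × Fin ν) :
    ContinuousOn (fun z => qq (x z) (u z) p) S := by
  have hb : ContinuousOn (fun z => bv (x z) (u z)) S :=
    continuous_bv.comp_continuousOn (hx.prodMk hu)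
  have hq : ∀ (a : Fin ν) (q : Fin ν × Fin ν),
      ContinuousOn (fun z => (Pi.single a (bv (x z) (u z) q) : Fin ν → ℂ)) S := fun a q =>
    (cont_single a).comp_continuousOn ((continuous_apply q).comp_continuousOn hb)
  have hi : ContinuousOn (fun z => ((3 * ‖bv (x z) (u z)‖ : ℝ) : ℂ)⁻¹) S :=
    (Complex.continuous_ofReal.comp_continuousOn (continuousOn_const.mul hb.norm)).inv₀
      fun z hz => Complex.ofReal_ne_zero.2 (mul_pos three_pos (norm_pos_iff.2 (h z hz))).ne'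
  exact hi.smul (((hq _ _).sub (hq _ _)).add (hq _ _))

/-- The square of the distance to the plane. -/
def Dsq (x u y : Fin ν → ℂ) : ℝ := ∑ p, 9 * ‖qq x u p ⬝ᵥ y‖ ^ 2

theorem Dsq_nonneg (x u y : Fin ν → ℂ) : 0 ≤ Dsq x u y :=
  Finset.sum_nonneg fun _ _ => by positivity

theorem tv_le {x u : Fin ν → ℂ} (h : bv x u ≠ 0) (y : Fin ν → ℂ) (a b c : Fin ν) :
    ‖tv y x u a b c‖ ≤ √(Dsq x u y) * ‖bv x u‖ := by
  have hp := norm_pos_iff.2 h
  have h1 : 3 * ‖qq x u (a, b, c) ⬝ᵥ y‖ ≤ √(Dsq x u y) := by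
    refine Real.le_sqrt_of_sq_le ?_
    rw [mul_pow, show (3 : ℝ) ^ 2 = 9 by norm_num]
    exact Finset.single_le_sum (f := fun p => 9 * ‖qq x u p ⬝ᵥ y‖ ^ 2)
      (fun _ _ => by positivity) (Finset.mem_univ (a, b, c))
  rw [qq_dot, norm_mul, norm_c] at h1
  refine le_trans (le_of_eq ?_) (mul_le_mul_of_nonneg_right h1 hp.le)
  field_simp

theorem bv_ct (m x y₁ y₂ : Fin ν → ℂ) (b c : Fin ν) :
    bv x (ct m y₁ y₂) (b, c) = (m ⬝ᵥ x) * bv y₁ y₂ (b, c) - m ⬝ᵥ fun a => tv x y₁ y₂ a b c := by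
  simp only [bv, ct_apply, dotProduct, tv, Finset.mul_sum, Finset.sum_mul, ← Finset.sum_sub_distrib]
  exact Finset.sum_congr rfl fun a _ => by ring

/-- The majorant. -/
def WW (e : ℝ) (x u y₁ y₂ : Fin ν → ℂ) : ℝ :=
  2 * (‖y₁‖ ^ 2 + ‖y₂‖ ^ 2) + 36 * e ^ 4 * (Dsq x u y₁ + Dsq x u y₂)

theorem key (hP : PlStmt) {e : ℝ} {x u m : Fin ν → ℂ} (y₁ y₂ : Fin ν → ℂ) (h : bv x u ≠ 0)
    (hm : m ⬝ᵥ x = 1) (h1 : nl m ≤ e) (h2 : ‖x‖ ≤ e) :
    ‖bv x (ct m y₁ y₂)‖ ≤ WW e x u y₁ y₂ ∧ ‖ct m y₁ y₂‖ ≤ e * WW e x u y₁ y₂ := by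
  have he : 0 ≤ e := (norm_nonneg _).trans h2
  have d1 := Dsq_nonneg x u y₁
  have d2 := Dsq_nonneg x u y₂
  have hb : ‖bv y₁ y₂‖ ≤ ‖y₁‖ ^ 2 + ‖y₂‖ ^ 2 :=
    (norm_bv_le _ _).trans (by nlinarith [sq_nonneg (‖y₁‖ - ‖y₂‖)])
  have hW : 0 ≤ WW e x u y₁ y₂ := by unfold WW; positivity
  constructor
  · refine (pi_norm_le_iff_of_nonneg hW).2 fun ⟨b, c⟩ => ?_
    rw [bv_ct, hm, one_mul]
    have s1 := Real.sq_sqrt d1
    have s2 := Real.sq_sqrt d2
    have n1 := Real.sqrt_nonneg (Dsq x u y₁)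
    have n2 := Real.sqrt_nonneg (Dsq x u y₂)
    have ht := hP ν x u y₁ y₂ _ _ h (tv_le h y₁) (tv_le h y₂)
    unfold WW
    generalize √(Dsq x u y₁) = D₁ at *
    generalize √(Dsq x u y₂) = D₂ at *
    have h0 : 0 ≤ D₁ * ‖y₂‖ + 2 * ‖y₁‖ * D₂ := by positivity
    have h3 : ‖fun a => tv x y₁ y₂ a b c‖ ≤ 6 * e * (D₁ * ‖y₂‖ + 2 * ‖y₁‖ * D₂) :=
      (pi_norm_le_iff_of_nonneg (by positivity)).2 fun a => (ht a b c).trans (by gcongr)
    have h4 : ‖m ⬝ᵥ fun a => tv x y₁ y₂ a b c‖ ≤ e * (6 * e * (D₁ * ‖y₂‖ + 2 * ‖y₁‖ * D₂)) :=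
      (norm_dot_le _ _).trans (mul_le_mul h1 h3 (norm_nonneg _) he)
    refine (norm_sub_le _ _).trans ?_
    rw [← s1, ← s2]
    nlinarith [norm_le_pi_norm (bv y₁ y₂) (b, c), sq_nonneg (‖y₂‖ - 3 * e ^ 2 * D₁),
      sq_nonneg (‖y₁‖ - 6 * e ^ 2 * D₂), sq_nonneg (e ^ 2 * D₁)]
  · refine (norm_ct_le _ _ _).trans (mul_le_mul h1 (hb.trans ?_) (norm_nonneg _) he)
    unfold WW
    have : 0 ≤ 36 * e ^ 4 * (Dsq x u y₁ + Dsq x u y₂) := by positivity
    nlinarith [sq_nonneg ‖y₁‖, sq_nonneg ‖y₂‖]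

theorem avg_mul (a : ℝ) (f : ℂ → ℝ) (t : ℝ) :
    circleAverage (fun z => a * f z) 0 t = a * circleAverage f 0 t :=
  circleAverage_fun_smul (a := a) (f := f)

section avg
variable {t : ℝ} {x u y : ℂ → Fin ν → ℂ}

theorem cont_term (hx : ContinuousOn x (sphere 0 t)) (hu : ContinuousOn u (sphere 0 t))
    (h : ∀ z ∈ sphere (0 : ℂ) t, bv (x z) (u z) ≠ 0) (hy : Continuous y)
    (p : Fin ν × Fin ν × Fin ν) :
    ContinuousOn (fun z => ‖qq (x z) (u z) p ⬝ᵥ y z‖ ^ 2) (sphere 0 t) := by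
  have hq := cont_qq hx hu h p
  refine (ContinuousOn.norm ?_).pow 2
  unfold dotProduct
  exact continuousOn_finsetSum _ fun a _ => ((continuous_apply a).comp_continuousOn hq).mul
    ((continuous_apply a).comp hy).continuousOn

theorem cont_Dsq (hx : ContinuousOn x (sphere 0 t)) (hu : ContinuousOn u (sphere 0 t))
    (h : ∀ z ∈ sphere (0 : ℂ) t, bv (x z) (u z) ≠ 0) (hy : Continuous y) :
    ContinuousOn (fun z => Dsq (x z) (u z) (y z)) (sphere 0 t) :=
  continuousOn_finsetSum _ fun p _ => continuousOn_const.mul (cont_term hx hu h hy p)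

theorem avg_Dsq (ht : 0 ≤ t) (hx : ContinuousOn x (sphere 0 t)) (hu : ContinuousOn u (sphere 0 t))
    (h : ∀ z ∈ sphere (0 : ℂ) t, bv (x z) (u z) ≠ 0) (hy : Continuous y) {A : ℝ}
    (hA : ∀ q : ℂ → Fin ν → ℂ, ContinuousOn q (sphere 0 t) →
      (∀ z ∈ sphere (0 : ℂ) t, nl (q z) ≤ 1 ∧ q z ⬝ᵥ x z = 0 ∧ q z ⬝ᵥ u z = 0) →
      circleAverage (fun z => ‖q z ⬝ᵥ y z‖ ^ 2) 0 t ≤ A) :
    circleAverage (fun z => Dsq (x z) (u z) (y z)) 0 t ≤ ν ^ 3 * (9 * A) := by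
  unfold Dsq
  rw [circleAverage_fun_sum (f := fun p z => 9 * ‖qq (x z) (u z) p ⬝ᵥ y z‖ ^ 2) fun p _ =>
    (continuousOn_const.mul (cont_term hx hu h hy p)).circleIntegrable ht]
  refine (Finset.sum_le_card_nsmul _ _ (9 * A) fun p _ => ?_).trans (le_of_eq ?_)
  · rw [avg_mul]
    have := hA (fun z => qq (x z) (u z) p) (cont_qq hx hu h p) fun z _ =>
      ⟨nl_qq _ _ _, qq_dot_x _ _ _, qq_dot_u _ _ _⟩
    linarith
  · simp only [Finset.card_univ, Fintype.card_prod, Fintype.card_fin, nsmul_eq_mul]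
    push_cast; ring

end avg

theorem small {d : ℕ} {c₀ δ C : ℝ} (hc : 0 < c₀) (hδ : 1 ≤ δ) (hC : 2 * d + |log (c₀ / 2)| ≤ C) :
    (2 * exp δ) ^ d * exp (-(C * δ)) ≤ c₀ / 2 := by
  have h1 : 2 * exp δ ≤ exp (2 * δ) := by
    rw [two_mul δ, exp_add]
    exact mul_le_mul_of_nonneg_right (by linarith [add_one_le_exp δ]) (exp_pos _).le
  have h2 : (2 * exp δ) ^ d ≤ exp (d * (2 * δ)) := by
    rw [exp_nat_mul]; exact pow_le_pow_left₀ (by positivity) h1 d
  refine (mul_le_mul_of_nonneg_right h2 (exp_pos _).le).trans ?_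
  rw [← exp_add, ← exp_log (half_pos hc), exp_le_exp]
  nlinarith [neg_abs_le (log (c₀ / 2)), abs_nonneg (log (c₀ / 2))]

end RHAux

open RHAux

theorem plS : PlStmt := by
  intro ν x u y₁ y₂ D₁ D₂ h h₁ h₂ a b c
  have hp := norm_pos_iff.2 h
  obtain ⟨e, e', y, y', -, hn, hy, hy', n1, n2, -, -, -, -, hx, -⟩ := frame h
  have h0 : bv x u (e, e') ≠ 0 := norm_pos_iff.1 (hn ▸ hp)
  have res : ∀ (w : Fin ν → ℂ) (D : ℝ), (∀ a b c, ‖tv w x u a b c‖ ≤ D * ‖bv x u‖) →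
      ‖w - (w e • y + w e' • y')‖ ≤ D ∧ ‖w e • y + w e' • y'‖ ≤ 2 * ‖w‖ := fun w D hw => by
    have hD : 0 ≤ D := nonneg_of_mul_nonneg_left ((norm_nonneg _).trans (hw a b c)) hp
    constructor
    · refine (pi_norm_le_iff_of_nonneg hD).2 fun i => ?_
      have : (w - (w e • y + w e' • y')) i = tv w x u i e e' / bv x u (e, e') := by
        simp only [Pi.sub_apply, Pi.add_apply, Pi.smul_apply, smul_eq_mul, hy, hy', tv]
        have : bv x u (e, i) = -bv x u (i, e) := by simp [bv]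
        rw [this]; field_simp; ring
      rw [this, norm_div, hn, div_le_iff₀ hp]
      exact hw _ _ _
    · refine (norm_add_le _ _).trans ?_
      rw [norm_smul, norm_smul]
      nlinarith [norm_le_pi_norm w e, norm_le_pi_norm w e', norm_nonneg (w e), norm_nonneg (w e'),
        norm_nonneg y, norm_nonneg y']
  obtain ⟨r1, p1⟩ := res y₁ D₁ h₁
  obtain ⟨r2, -⟩ := res y₂ D₂ h₂
  have hs := tv_split x (y₁ e • y + y₁ e' • y') (y₁ - (y₁ e • y + y₁ e' • y'))
    (y₂ e • y + y₂ e' • y') (y₂ - (y₂ e • y + y₂ e' • y')) a b c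
  have hz : tv x (y₁ e • y + y₁ e' • y') (y₂ e • y + y₂ e' • y') a b c = 0 := by
    have := tv_plane y y' (x e) (x e') (y₁ e) (y₁ e') (y₂ e) (y₂ e') a b c
    rwa [← hx] at this
  rw [add_sub_cancel, add_sub_cancel, hz, add_zero] at hs
  rw [hs]
  refine (norm_add_le _ _).trans ?_
  linarith [norm_tv_le' x _ y₂ a b c r1 le_rfl, norm_tv_le' x _ _ a b c p1 r2]

theorem rHS (hQ : QfStmt) (hS : SubMStmt) (hP : PlStmt) : RHStmt := by
  intro ν dF c₀ CF hd hc
  obtain ⟨K, hK⟩ : ∃ K, K = log (3 ^ dF * (|CF| + 1)) := ⟨_, rfl⟩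
  obtain ⟨CW, hCW⟩ : ∃ CW : ℝ, CW = 16 * (ν + 1) + 2592 * ν ^ 3 := ⟨_, rfl⟩
  have hCW0 : 0 ≤ CW := by rw [hCW]; positivity
  have a1 := abs_nonneg K
  have a2 := abs_nonneg (log (c₀ / 2))
  have a3 : (0 : ℝ) ≤ dF * CW := by positivity
  have a4 : (0 : ℝ) ≤ dF := by positivity
  refine ⟨1 + |K| + dF * CW + (2 * dF + |log (c₀ / 2)|), by linarith, ?_⟩
  intro F x m u y₁ y₂ t δ E ε B ht hδ hB hε0 hε hE hH dx x0 size cu hb hy hpl hb0
  obtain ⟨d1, n1', av1, q1⟩ := hy y₁ (Or.inl rfl)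
  obtain ⟨d2, n2', av2, q2⟩ := hy y₂ (Or.inr rfl)
  have ht0 : 0 ≤ t := by linarith [ht.1]
  have hB0 : 0 < B := by linarith
  have sub : sphere (0 : ℂ) t ⊆ BB := fun z hz => by
    rw [mem_sphere] at hz; rw [mem_ball, hz]; linarith [ht.2]
  have h0B : (0 : ℂ) ∈ BB := mem_ball_self (by norm_num)
  have cx : ContinuousOn x (sphere 0 t) := dx.continuousOn.mono sub
  have xne : ∀ z ∈ BB, x z ≠ 0 := fun z hz => norm_pos_iff.1 ((exp_pos _).trans_le (size z hz).1)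
  have hE' := (mul_le_mul_of_nonneg_left hE (by positivity)).trans
    (small (d := dF) hc hδ (by linarith))
  have hE1 : exp δ ^ dF * E ≤ 1 := by
    refine (mul_le_mul_of_nonneg_left hE (by positivity)).trans ?_
    rw [← exp_nat_mul, ← exp_add, exp_le_one_iff]
    nlinarith
  obtain ⟨q, dq, hq⟩ := hQ ν dF F hH.hom
  obtain ⟨U, nU, hU⟩ := hH.noL (x 0) (ct (m 0) (y₁ 0) (y₂ 0))
  have dct : DifferentiableOn ℂ (fun z => ct (m z) (y₁ z) (y₂ z)) BB := by
    have hd : ∀ y : ℂ → Fin ν → ℂ, Differentiable ℂ y →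
        DifferentiableOn ℂ (fun z => m z ⬝ᵥ y z) BB := fun y dy => by
      unfold dotProduct
      exact DifferentiableOn.fun_sum fun a _ => (differentiableOn_pi.1 hH.dm a).mul
        (differentiable_pi.1 dy a).differentiableOn
    exact ((hd _ d1).smul d2.differentiableOn).sub ((hd _ d2).smul d1.differentiableOn)
  have dh : DifferentiableOn ℂ (fun z => q (U, x z, ct (m z) (y₁ z) (y₂ z))) BB :=
    dq.comp_differentiableOn ((differentiableOn_const U).prodMk (dx.prodMk dct))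
  have low : c₀ / 2 ≤ ‖q (U, x 0, ct (m 0) (y₁ 0) (y₂ 0))‖ := by
    have e1 : bv (x 0) (ct (m 0) (y₁ 0) (y₂ 0)) = bv (y₁ 0) (y₂ 0) := funext fun ⟨b, c⟩ => by
      obtain ⟨s, s', hs⟩ := hpl
      have : (fun a => tv (x 0) (y₁ 0) (y₂ 0) a b c) = 0 := funext fun a => by
        have := tv_plane (y₁ 0) (y₂ 0) s s' 1 0 0 1 a b c
        simpa [← hs] using this
      rw [bv_ct, (hH.mx 0 h0B).1, this, dotProduct_zero, sub_zero, one_mul]
    rw [e1] at hU
    have e2 : c₀ ≤ ‖eval (ct U (x 0) (ct (m 0) (y₁ 0) (y₂ 0))) F‖ :=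
      (le_mul_of_one_le_right hc.le (one_le_pow₀ hb0)).trans hU
    have e3 : ‖ct (m 0) (y₁ 0) (y₂ 0)‖ ≤ 2 * exp δ := by
      have : ‖bv (y₁ 0) (y₂ 0)‖ ≤ 2 := (norm_bv_le _ _).trans (by
        nlinarith [norm_nonneg (y₁ 0), norm_nonneg (y₂ 0)])
      rw [mul_comm]
      exact (norm_ct_le _ _ _).trans (mul_le_mul (hH.mx 0 h0B).2 this (norm_nonneg _) (exp_pos _).le)
    have e4 : ‖U ⬝ᵥ ct (m 0) (y₁ 0) (y₂ 0)‖ ≤ 2 * exp δ :=
      (norm_dot_le _ _).trans ((mul_le_of_le_one_left (norm_nonneg _) nU).trans e3)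
    have e5 : ‖U ⬝ᵥ x 0‖ ≤ 1 := (norm_dot_le _ _).trans (by rw [x0, mul_one]; exact nU)
    have e6 : ‖(-(U ⬝ᵥ ct (m 0) (y₁ 0) (y₂ 0))) ^ dF * eval (x 0) F‖ ≤ c₀ / 2 := by
      rw [norm_mul, norm_pow, norm_neg]
      exact (mul_le_mul (pow_le_pow_left₀ (norm_nonneg _) e4 _) (hH.onF 0 h0B) (norm_nonneg _)
        (by positivity)).trans hE'
    have e7 := congrArg norm (hq U (x 0) (ct (m 0) (y₁ 0) (y₂ 0))).1
    rw [norm_mul] at e7
    have e8 := norm_sub_norm_le (eval (ct U (x 0) (ct (m 0) (y₁ 0) (y₂ 0))) F)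
      ((-(U ⬝ᵥ ct (m 0) (y₁ 0) (y₂ 0))) ^ dF * eval (x 0) F)
    have e9 := mul_le_of_le_one_left (norm_nonneg (q (U, x 0, ct (m 0) (y₁ 0) (y₂ 0)))) e5
    linarith
  have c1 : ContinuousOn (fun z => ‖y₁ z‖ ^ 2) (sphere 0 t) :=
    (d1.continuous.norm.pow 2).continuousOn
  have c2 : ContinuousOn (fun z => ‖y₂ z‖ ^ 2) (sphere 0 t) :=
    (d2.continuous.norm.pow 2).continuousOn
  have c3 := cont_Dsq cx cu hb d1.continuous
  have c4 := cont_Dsq cx cu hb d2.continuous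
  have c5 : ContinuousOn (fun z => 2 * (‖y₁ z‖ ^ 2 + ‖y₂ z‖ ^ 2)) (sphere 0 t) :=
    continuousOn_const.mul (c1.add c2)
  have c6 : ContinuousOn (fun z => 36 * exp δ ^ 4 *
      (Dsq (x z) (u z) (y₁ z) + Dsq (x z) (u z) (y₂ z))) (sphere 0 t) :=
    continuousOn_const.mul (c3.add c4)
  have cW : ContinuousOn (fun z => WW (exp δ) (x z) (u z) (y₁ z) (y₂ z)) (sphere 0 t) := c5.add c6
  have avW : circleAverage (fun z => WW (exp δ) (x z) (u z) (y₁ z) (y₂ z)) 0 t ≤ CW * B ^ 2 := by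
    unfold WW
    rw [circleAverage_fun_add (c5.circleIntegrable ht0) (c6.circleIntegrable ht0), avg_mul, avg_mul,
      circleAverage_fun_add (c1.circleIntegrable ht0) (c2.circleIntegrable ht0),
      circleAverage_fun_add (c3.circleIntegrable ht0) (c4.circleIntegrable ht0)]
    have b1 := avg_Dsq ht0 cx cu hb d1.continuous q1
    have b2 := avg_Dsq ht0 cx cu hb d2.continuous q2
    have b3 : exp δ ^ 4 * ε ^ 2 ≤ 1 := by
      refine (mul_le_mul_of_nonneg_left (pow_le_pow_left₀ hε0 hε 2) (by positivity)).trans ?_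
      rw [← exp_nat_mul, ← exp_nat_mul, ← exp_add, exp_le_one_iff]
      push_cast; linarith
    have b4 := mul_le_mul_of_nonneg_left (add_le_add b1 b2)
      (show 0 ≤ 36 * exp δ ^ 4 by positivity)
    have b5 := mul_le_mul_of_nonneg_left b3 (show 0 ≤ 2592 * (ν : ℝ) ^ 3 * B ^ 2 by positivity)
    rw [hCW]
    nlinarith
  have cl := continuousOn_lg cx fun z hz => xne z (sub hz)
  have c7 : ContinuousOn (fun z => dF / B ^ 2 * WW (exp δ) (x z) (u z) (y₁ z) (y₂ z))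
      (sphere 0 t) := continuousOn_const.mul cW
  have c8 : ContinuousOn (fun z => (K + 2 * dF * log B) +
      dF / B ^ 2 * WW (exp δ) (x z) (u z) (y₁ z) (y₂ z)) (sphere 0 t) := continuousOn_const.add c7
  have main := (hS t ht).1 _ (fun z => (K + 2 * dF * log B) +
      dF / B ^ 2 * WW (exp δ) (x z) (u z) (y₁ z) (y₂ z) - lg x z) dh
    (norm_pos_iff.1 ((half_pos hc).trans_le low)) (c8.sub cl) fun z hz => by
      have hz' := sub hz
      obtain ⟨k1, k2⟩ := key hP (y₁ z) (y₂ z) (hb z hz) (hH.mx z hz').1 (hH.mx z hz').2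
        (size z hz').2
      have hx0 := norm_pos_iff.2 (xne z hz')
      have k3 := (hq U (x z) (ct (m z) (y₁ z) (y₂ z))).2 nU
      generalize WW (exp δ) (x z) (u z) (y₁ z) (y₂ z) = W at *
      have hW : 0 ≤ W := (norm_nonneg _).trans k1
      have k4 : W ^ dF ≤ exp (2 * dF * log B + dF / B ^ 2 * W) := by
        have : W ≤ exp (2 * log B + W / B ^ 2) := by
          rw [exp_add, show 2 * log B = log (B ^ 2) by simp, exp_log (by positivity),
            mul_comm, ← div_le_iff₀ (by positivity)]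
          linarith [add_one_le_exp (W / B ^ 2)]
        refine (pow_le_pow_left₀ hW this _).trans (le_of_eq ?_)
        rw [← exp_nat_mul]; congr 1; ring
      have k5 : n1 F * ‖bv (x z) (ct (m z) (y₁ z) (y₂ z))‖ ^ dF ≤ |CF| * W ^ dF :=
        mul_le_mul (hH.nF.trans (le_abs_self _)) (pow_le_pow_left₀ (norm_nonneg _) k1 _)
          (by positivity) (abs_nonneg _)
      have k6 : ‖ct (m z) (y₁ z) (y₂ z)‖ ^ dF * ‖eval (x z) F‖ ≤ W ^ dF := by
        refine (mul_le_mul (pow_le_pow_left₀ (norm_nonneg _) k2 _) (hH.onF z hz') (norm_nonneg _)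
          (by positivity)).trans ?_
        rw [mul_pow, mul_right_comm]
        exact mul_le_of_le_one_left (by positivity) hE1
      rw [exp_sub, lg, exp_log hx0, le_div_iff₀ hx0, add_assoc, exp_add, hK,
        exp_log (by positivity)]
      refine k3.trans ?_
      rw [mul_assoc]
      refine mul_le_mul_of_nonneg_left ?_ (by positivity)
      nlinarith [mul_le_mul_of_nonneg_left k4 (show 0 ≤ |CF| + 1 by positivity)]
  rw [circleAverage_fun_sub (c8.circleIntegrable ht0) (cl.circleIntegrable ht0),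
    circleAverage_fun_add (continuousOn_const.circleIntegrable ht0) (c7.circleIntegrable ht0),
    avg_mul, circleAverage_const] at main
  have f1 := log_le_log (half_pos hc) low
  have f2 : dF / B ^ 2 * circleAverage (fun z => WW (exp δ) (x z) (u z) (y₁ z) (y₂ z)) 0 t ≤
      dF * CW := (mul_le_mul_of_nonneg_left avW (by positivity)).trans (le_of_eq (by field_simp))
  rw [Tch, lg, x0, log_one, sub_zero]
  linarith [le_abs_self K, neg_abs_le (log (c₀ / 2))]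

end

end Pool.Agent.Lib.MP_45f16c_ag.EX
end
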