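import Pool.Agent.Lib.MP_45f16c_ag.EX.BR

/-! Normalisation for slow discs. -/

set_option autoImplicit false
open Metric MeasureTheory MvPolynomial Filter Real
open scoped ComplexConjugate Matrix Topology

namespace Pool.Agent.Lib.MP_45f16c_ag.EX

open AS

noncomputable section

theorem sRelS : SRelStmt := by
  rintro ν d N K K' K₁ a ε χ s T ρ Γ cl c hd hK hK' e0 e1 e2 e3 hs hT hv ho
    ⟨m, y, f, ξ, γ, hm, h⟩
  have T0 : 0 < T := (mul_pos_iff_of_pos_left e0).1 (one_pos.trans_le hT)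
  have a1 := mul_le_mul_of_nonneg_right e1 T0.le
  have a2 := mul_le_mul_of_nonneg_right e2 T0.le
  have a3 := mul_le_mul_of_nonneg_right e3 T0.le
  have a4 := mul_le_mul_of_nonneg_right hK T0.le
  have a5 : exp (-(100 * (K₁ * T))) ≤ exp (-(K' * T)) :=
    exp_le_exp.2 (by linarith [mul_le_mul_of_nonneg_right hK' T0.le])
  have nt : ∀ x : Fin ν → ℂ, ‖((exp s : ℝ) : ℂ) • x‖ = exp s * ‖x‖ := fun x => by
    rw [norm_smul, Complex.norm_real, Real.norm_of_nonneg (exp_pos _).le]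
  have up : ∀ {u v : ℝ} {x : Fin ν → ℂ}, ‖x‖ ≤ exp u * exp (-s) → u ≤ v →
      ‖((exp s : ℝ) : ℂ) • x‖ ≤ exp v := fun {u v x} k k' => by
    rw [nt]
    refine (mul_le_mul_of_nonneg_left k (exp_pos _).le).trans ?_
    rw [← exp_add, ← exp_add]
    exact exp_le_exp.2 (by linarith)
  have sc : ∀ {w : ℂ} {x : Fin ν → ℂ}, ‖w‖ ≤ exp (-(100 * (K₁ * T))) * ‖x‖ ^ d →
      ‖((exp s : ℝ) : ℂ) ^ d * w‖ ≤ exp (-(K' * T)) * ‖((exp s : ℝ) : ℂ) • x‖ ^ d :=
    fun {w x} k => by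
      rw [nt, norm_mul, norm_pow, Complex.norm_real, Real.norm_of_nonneg (exp_pos _).le, mul_pow,
        mul_left_comm]
      exact mul_le_mul_of_nonneg_left (k.trans (by gcongr)) (by positivity)
  have hi : ∀ z ∈ DD1, ‖f z‖ ≤ exp (ε * T) * exp (-s) := fun z hz =>
    let ⟨i, hi⟩ := hv.cover z (mem_closedBall_zero_iff.1 hz)
    h.hi i z hi
  obtain ⟨z₀, hz₀, hmax⟩ := Complex.exists_mem_frontier_isMaxOn_norm (U := ball (0 : ℂ) 1)
    isBounded_ball (nonempty_ball.2 one_pos) h.dγ.diffContOnCl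
  rw [frontier_ball _ one_ne_zero] at hz₀
  have g0 : ‖γ 0‖ ≤ ‖f z₀‖ := (hmax (subset_closure (mem_ball_self one_pos))).trans
    (h.circ z₀ (mem_sphere_zero_iff_norm.1 hz₀))
  refine ⟨fun z => ((exp s : ℝ) : ℂ) • f z, fun n z => ((exp s : ℝ) : ℂ) • ξ n z,
    ⟨m, ?_, fun b => (h.pf b).const_mul _⟩, fun n => (h.dξ n).fun_const_smul _,
    fun z hz => ⟨?_, up (hi z hz) (by linarith)⟩, fun z hz n => ?_, fun z hz n => ?_,
    fun z hz => ?_, ⟨z₀, sphere_subset_closedBall hz₀, ?_⟩, ?_⟩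
  · have : 208 * (K₁ * T) / a = 208 * K₁ / a * T := by ring
    linarith
  · obtain ⟨i, hi⟩ := hv.cover z (mem_closedBall_zero_iff.1 hz)
    have k := (ho i).trans (h.lo i z hi)
    rw [← div_le_iff₀' (exp_pos _), ← exp_sub] at k
    rw [nt]
    exact ((exp_le_exp.2 (by linarith)).trans k).trans
      (le_mul_of_one_le_left (norm_nonneg _) (one_le_exp hs))
  · obtain ⟨i, hi⟩ := hv.cover z (mem_closedBall_zero_iff.1 hz)
    exact up (h.hξ i z hi n) (by linarith)
  · have k := h.err z hz n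
    have e : eval (f z) (form (prj y n)) = mon n (f z) := by
      simp [prj, eval_form, Pi.single_apply]
    rw [e, lf_eq] at k
    obtain ⟨d, rfl⟩ := Nat.exists_eq_add_of_le' hd
    refine le_of_eq_of_le (congrArg norm ?_) (sc k)
    rw [mon_smul, grad_smul, smul_dotProduct, dotProduct_smul, Nat.add_sub_cancel, smul_eq_mul,
      smul_eq_mul]
    ring
  · rw [eval_form_smul]
    exact sc (h.onX z hz)
  · rw [nt, ← div_le_iff₀' (exp_pos _), ← exp_sub]
    exact (exp_le_exp.2 (by linarith)).trans (h.g1.trans g0)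
  · have k := h.g0.trans (g0.trans (hi z₀ (sphere_subset_closedBall hz₀)))
    rw [← le_div_iff₀' (exp_pos _), mul_div_right_comm, ← exp_sub] at k
    exact up k (by linarith)

end

end Pool.Agent.Lib.MP_45f16c_ag.EX
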