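import Pool.Agent.Lib.MP_45f16c_ag.EX.BR

/-! Slots. -/

set_option autoImplicit false
open Metric MeasureTheory MvPolynomial Filter Real
open scoped ComplexConjugate Matrix Topology

namespace Pool.Agent.Lib.MP_45f16c_ag.EX

open AS

noncomputable section

namespace SlotAux

theorem mono {ν d : ℕ} {c : Mon ν d → ℂ} {f : ℂ → Fin ν → ℂ} {A E A' E' : ℝ}
    {Ψ : ℂ → Fin ν → Fin ν → ℂ} (h : Slot c f A E Ψ) (hA : A ≤ A') (hE : E ≤ E') :
    Slot c f A' E' Ψ :=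
  ⟨h.diff, fun z hz => (h.bd z hz).trans hA, fun z hz =>
    (h.err z hz).imp fun _ hg b => (hg b).trans hE⟩

theorem err_TT {ν d : ℕ} {t : Mon ν d → Fin ν → ℂ} {H x : Fin ν → ℂ} {E : ℝ}
    (h : ∀ n, ‖mon n x + H ⬝ᵥ t n‖ ≤ E) {g : MP ν} (hg : g.IsHomogeneous d) :
    ‖H ⬝ᵥ TT t g + eval x g‖ ≤ E * n1 g := by
  rw [dot_TT, eval_eq_sum_mon hg, ← Finset.sum_add_distrib]
  simp only [← mul_add]
  exact norm_sum_coeff_le hg fun n => by rw [add_comm]; exact h n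

theorem norm_TT {ν d : ℕ} {t : Mon ν d → Fin ν → ℂ} {A : ℝ} (hA : 0 ≤ A) (h : ∀ n, ‖t n‖ ≤ A)
    {g : MP ν} (hg : g.IsHomogeneous d) : ‖TT t g‖ ≤ A * n1 g :=
  (pi_norm_le_iff_of_nonneg (mul_nonneg hA (n1_nonneg _))).2 fun e =>
    norm_TT_le t hg fun n => (norm_le_pi_norm _ e).trans (h n)

theorem diff_TT {ν d : ℕ} {ξ : Mon ν d → ℂ → Fin ν → ℂ} (h : ∀ n, Differentiable ℂ (ξ n))
    (g : MP ν) : Differentiable ℂ fun z => TT (fun n => ξ n z) g :=
  differentiableOn_univ.1 (holT_TT' (t := fun z n => ξ n z) h _ _ (HolP.const _ g))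

/-- A tangent vector is a sum of slots. -/
theorem tangent (hD : DecStmt) {ν k : ℕ} {c : Mon ν (k + 1) → ℂ} {f : ℂ → Fin ν → ℂ}
    {ξ : Mon ν (k + 1) → ℂ → Fin ν → ℂ} {z₁ : ℂ} {Λ E M : ℝ} (hM : n1 (form c) ≤ M)
    (hf : Differentiable ℂ f) (hξ : ∀ n, Differentiable ℂ (ξ n)) (hE : 0 ≤ E)
    (hb : ∀ z ∈ DD1, ‖f z‖ ≤ Λ ∧ ∀ n, ‖ξ n z‖ ≤ Λ ∧ ‖mon n (f z) + grad c (f z) ⬝ᵥ ξ n z‖ ≤ E)
    (h0 : f z₁ ≠ 0) {a₁ a₂ : Fin ν} (ha : a₁ ≠ a₂) (h1 : f z₁ a₁ ≠ 0) (h2 : ‖f z₁ a₁‖ = ‖f z₁‖)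
    {w : Fin ν → ℂ} (hw : nl w ≤ 2) (hH : grad c (f z₁) ⬝ᵥ w = 0) :
    ∃ (Ψ : Option (Fin ν) → ℂ → Fin ν → Fin ν → ℂ) (p p' : Option (Fin ν) → Fin ν),
      (∀ i, Slot c f ((2 * (k + 1) ^ 2 * M + 2) * Λ) ((2 * (k + 1) ^ 2 * M + 2) * E) (Ψ i)) ∧
      f z₁ a₁ ^ 2 • w = ∑ i, sg (f z₁) (Ψ i z₁) (p i) (p' i) := by
  have hΛ : 0 ≤ Λ := (norm_nonneg _).trans (hb 0 (mem_closedBall_self zero_le_one)).1
  have hF : (form c).IsHomogeneous (k + 1) := form_isHomogeneous c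
  have hM0 : 0 ≤ M := (n1_nonneg _).trans hM
  have hgr : ∀ x b, grad c x b = eval x (pderiv b (form c)) := fun _ _ => rfl
  generalize form c = F at hM hF hgr
  obtain ⟨g, g1, g2, g3⟩ : ∃ g : MP ν, g.IsHomogeneous (k + 1) ∧ n1 g ≤ 2 * (k + 1) * M ∧
      ∀ x, eval x g = x a₁ * (grad c x ⬝ᵥ w) := by
    refine ⟨X a₁ * ∑ b, w b • pderiv b F, ?_, ?_, fun x => ?_⟩
    · rw [← LL_single]
      exact hom_LL_mul _ (IsHomogeneous.sum _ _ _ fun b _ => hom_smul _ (by simpa using hF.pderiv))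
    · have e : n1 (∑ b, w b • pderiv b F) ≤ nl w * ((k + 1) * M) := by
        refine (n1_sum_le _ _).trans ?_
        rw [nl, Finset.sum_mul]
        refine Finset.sum_le_sum fun b _ => ?_
        rw [n1_smul]
        refine mul_le_mul_of_nonneg_left ((n1_pderiv_le hF b).trans ?_) (norm_nonneg _)
        push_cast
        exact mul_le_mul_of_nonneg_left hM (by positivity)
      have e' := mul_le_mul_of_nonneg_right hw (show (0 : ℝ) ≤ (k + 1) * M by positivity)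
      have := n1_mul_le' (n1_X a₁).le (e.trans e')
      linarith
    · simp only [map_mul, eval_X, map_sum, smul_eval, dotProduct, hgr, mul_comm]
  obtain ⟨G, G1, G2⟩ := (hD ν k (f z₁) g g1).1 a₁ h0 h2 (by rw [g3, hH, mul_zero])
  have hk : (1 : ℝ) ≤ k + 1 := by linarith [Nat.cast_nonneg (α := ℝ) k]
  have hg : n1 g ≤ 2 * (k + 1) ^ 2 * M := by
    nlinarith [mul_le_mul_of_nonneg_right hk (show (0 : ℝ) ≤ (k + 1) * M by positivity)]
  have hG : ∀ b b', n1 (X b' * G b) ≤ 2 * (k + 1) ^ 2 * M + 2 := fun b b' => by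
    have := n1_mul_le' (n1_X b').le (G1 b).2
    nlinarith [mul_le_mul_of_nonneg_left g2 (show (0 : ℝ) ≤ k + 1 by positivity)]
  have hX : ∀ b b', (X b' * G b).IsHomogeneous (k + 1) := fun b b' => by
    rw [← LL_single]; exact hom_LL_mul _ (G1 b).1
  refine ⟨fun i => i.elim (fun z b => (Pi.single a₂ 1 : Fin ν → ℂ) b •
      (TT (fun n => ξ n z) g + f z a₁ • w)) fun b z b' => TT (fun n => ξ n z) (X b' * G b),
    fun i => i.elim a₁ id, fun i => i.elim a₂ fun _ => a₁, ?_, ?_⟩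
  · rintro (_ | b)
    · have hs : ∀ b, ‖(Pi.single a₂ 1 : Fin ν → ℂ) b‖ ≤ 1 := fun b => by
        by_cases e : b = a₂ <;> simp [e]
      refine ⟨differentiable_pi.2 fun b => ((diff_TT hξ g).add
        ((differentiable_pi.1 hf a₁).smul_const w)).const_smul ((Pi.single a₂ 1 : Fin ν → ℂ) b),
        fun z hz => ?_,
        fun z hz => ⟨0, fun b => ?_⟩⟩
      · refine (pi_norm_le_iff_of_nonneg (by positivity)).2 fun b => ?_
        have e1 := norm_TT hΛ (fun n => ((hb z hz).2 n).1) g1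
        have e2 : ‖f z a₁ • w‖ ≤ Λ * 2 := by
          rw [norm_smul]
          exact mul_le_mul ((norm_le_pi_norm _ _).trans (hb z hz).1) ((norm_le_nl w).trans hw)
            (norm_nonneg _) hΛ
        have e3 := (norm_add_le _ _).trans (add_le_add e1 e2)
        simp only [Option.elim, norm_smul]
        refine (mul_le_of_le_one_left (norm_nonneg _) (hs b)).trans (e3.trans ?_)
        nlinarith [mul_le_mul_of_nonneg_left hg hΛ]
      · have e1 := err_TT (fun n => ((hb z hz).2 n).2) g1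
        simp only [Option.elim, mul_zero, add_zero, dotProduct_smul, dotProduct_add, smul_eq_mul,
          norm_mul, ← g3]
        refine (mul_le_of_le_one_left (norm_nonneg _) (hs b)).trans (e1.trans ?_)
        nlinarith [mul_le_mul_of_nonneg_left hg hE]
    · refine ⟨differentiable_pi.2 fun b' => diff_TT hξ _, fun z hz => ?_,
        fun z hz => ⟨eval (f z) (G b), fun b' => ?_⟩⟩
      · refine (pi_norm_le_iff_of_nonneg (by positivity)).2 fun b' => ?_
        refine (norm_TT hΛ (fun n => ((hb z hz).2 n).1) (hX b b')).trans ?_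
        rw [mul_comm]
        exact mul_le_mul_of_nonneg_right (hG b b') hΛ
      · have e1 := err_TT (fun n => ((hb z hz).2 n).2) (hX b b')
        rw [map_mul (eval (f z)), eval_X] at e1
        refine e1.trans ?_
        rw [mul_comm]
        exact mul_le_mul_of_nonneg_right (hG b b') hE
  · rw [Fintype.sum_option]
    simp only [Option.elim, sg, id]
    generalize f z₁ = x at h1 G2
    generalize TT (fun n => ξ n z₁) = T
    have e : ∀ b, x b • T (X a₁ * G b) - x a₁ • T (X b * G b) =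
        -(x a₁ • T (LL (sh x a₁ b) * G b)) := fun b => by
      rw [sh, LL_sub, LL_smul, LL_single, LL_single, sub_mul, smul_mul_assoc, map_sub, map_smul,
        smul_sub, smul_smul, mul_div_cancel₀ _ h1, neg_sub]
    simp only [e, Finset.sum_neg_distrib, ← Finset.smul_sum, ← map_sum, ← G2]
    simp [ha, smul_smul, sq]

theorem dt_single {n : ℕ} (a : Fin (n + 1)) (v : Fin n → Fin (n + 1) → ℂ) :
    ‖dt id (Fin.cons (Pi.single a 1) v : Fin (n + 1) → Fin (n + 1) → ℂ)‖ = ‖dt a.succAbove v‖ := by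
  rw [dt_apply, Matrix.det_succ_row_zero, Finset.sum_eq_single a (fun b _ hb => by simp [hb])
    (by simp), dt_apply]
  simp only [norm_mul, norm_pow, norm_neg, norm_one, one_pow, one_mul, Matrix.of_apply,
    Fin.cons_zero, id, Pi.single_eq_same]
  rfl

theorem minor (hP : PmStmt) {n ν : ℕ} {I : Fin (n + 2) → Fin ν} (hI : Function.Injective I)
    (x v : Fin ν → ℂ) {β β' : Fin (n + 2)} (hβ : β ≠ β') : ∃ σ : Fin n → Fin ν,
      ‖dt I (Fin.cons x (Fin.cons v fun k => Pi.single (σ k) 1) : Fin (n + 2) → Fin ν → ℂ)‖ =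
        ‖bv x v (I β, I β')‖ := by
  have hr : Function.Injective (![0, 1] : Fin 2 → Fin (n + 2)) := by
    intro i j; fin_cases i <;> fin_cases j <;> simp
  obtain ⟨τ, hτ⟩ := Equiv.Perm.exists_extending_pair (f := (![0, 1] : Fin 2 → Fin (n + 2)))
    (g := ![β, β']) hr (by intro i j; fin_cases i <;> fin_cases j <;> simp [hβ, hβ.symm])
  have p0 : τ 0 = β := hτ 0
  have p1 : τ 1 = β' := hτ 1
  refine ⟨fun k => I (τ k.succ.succ), ?_⟩
  have e := hP _ _ _ ![fun i => x (I (τ i)), fun i => v (I (τ i))] hr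
  rw [dt_two] at e
  simp only [Matrix.cons_val_zero, Matrix.cons_val_one, p0, p1] at e
  have e2 := Matrix.det_permute' τ (Matrix.of fun k i => (Fin.cons x (Fin.cons v fun k =>
    Pi.single (I (τ k.succ.succ)) 1) : Fin (n + 2) → Fin ν → ℂ) k (I i))
  have e3 := congrArg norm e2
  rw [norm_mul, ← dt_apply] at e3
  have e4 : ‖((Equiv.Perm.sign τ : ℤ) : ℂ)‖ = 1 := by
    rcases Int.units_eq_one_or (Equiv.Perm.sign τ) with h | h <;> simp [h]
  rw [e4, one_mul] at e3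
  rw [← e3, bv, ← e, dt_apply]
  congr 2
  ext k i
  simp only [Matrix.submatrix_apply, Matrix.of_apply, id]
  refine Fin.cases ?_ (fun k => Fin.cases ?_ (fun k => ?_) k) k
  · exact (congrFun (hr.extend_apply ![fun i => x (I (τ i)), fun i => v (I (τ i))]
      (fun k => Pi.single k 1) 0) i).symm
  · exact (congrFun (hr.extend_apply ![fun i => x (I (τ i)), fun i => v (I (τ i))]
      (fun k => Pi.single k 1) 1) i).symm
  · rw [Function.extend_apply' _ _ _ (by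
      rintro ⟨j, hj⟩
      fin_cases j <;> simp [Fin.ext_iff] at hj)]
    simp [Pi.single_apply, hI.eq_iff]

theorem pair {n : ℕ} {H x v : Fin (n + 3) → ℂ} {a : Fin (n + 3)} (h0 : H ≠ 0) (ha : ‖H a‖ = ‖H‖)
    (h : 2 * (‖H ⬝ᵥ x‖ * ‖v‖ + ‖x‖ * ‖H ⬝ᵥ v‖) ≤ ‖H‖ * ‖bv x v‖) : ∃ β β' : Fin (n + 2), β ≠ β' ∧
      ‖bv x v‖ ≤ 2 * (n + 3) * ‖bv x v (a.succAbove β, a.succAbove β')‖ := by
  obtain ⟨p, p1, p2⟩ := Finset.exists_max_image
    (Finset.univ.filter fun p : Fin (n + 2) × Fin (n + 2) => p.1 ≠ p.2)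
    (fun p => ‖bv x v (a.succAbove p.1, a.succAbove p.2)‖) ⟨(0, 1), by simp⟩
  refine ⟨p.1, p.2, (Finset.mem_filter.1 p1).2, ?_⟩
  have m0 := norm_nonneg (bv x v (a.succAbove p.1, a.succAbove p.2))
  generalize ‖bv x v (a.succAbove p.1, a.succAbove p.2)‖ = m at p2 m0
  have hm : ∀ β β', ‖bv x v (a.succAbove β, a.succAbove β')‖ ≤ m := fun β β' => by
    by_cases e : β = β'
    · simpa [e, bv] using m0
    · exact p2 (β, β') (by simpa using e)
  have hH : 0 < ‖H‖ := norm_pos_iff.2 h0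
  have hn : (0 : ℝ) ≤ n := Nat.cast_nonneg n
  have k1 : ∀ β, ‖bv x v (a, a.succAbove β)‖ ≤ ‖bv x v‖ / 2 + (n + 3) * m := fun β => by
    have e1 := ct_apply H x v (a.succAbove β)
    rw [Fin.sum_univ_succAbove _ a, ← sub_eq_iff_eq_add] at e1
    have e2 : ‖ct H x v (a.succAbove β)‖ ≤ ‖H ⬝ᵥ x‖ * ‖v‖ + ‖x‖ * ‖H ⬝ᵥ v‖ := by
      refine (norm_le_pi_norm _ _).trans ((norm_sub_le _ _).trans ?_)
      rw [norm_smul, norm_smul, mul_comm ‖x‖]
    have e3 : ‖∑ i, H (a.succAbove i) * bv x v (a.succAbove i, a.succAbove β)‖ ≤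
        (n + 2) * (‖H‖ * m) := by
      refine (norm_sum_le _ _).trans ((Finset.sum_le_card_nsmul _ _ (‖H‖ * m) fun i _ => ?_).trans
        (by simp))
      rw [norm_mul]
      exact mul_le_mul (norm_le_pi_norm _ _) (hm _ _) (norm_nonneg _) hH.le
    have e4 := norm_sub_le (ct H x v (a.succAbove β))
      (∑ i, H (a.succAbove i) * bv x v (a.succAbove i, a.succAbove β))
    rw [e1, norm_mul, ha] at e4
    refine le_of_mul_le_mul_left ?_ hH
    nlinarith [mul_nonneg hH.le m0]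
  have k2 : ‖bv x v‖ ≤ ‖bv x v‖ / 2 + (n + 3) * m := by
    have k0 : 0 ≤ ‖bv x v‖ / 2 + (n + 3) * m := by positivity
    refine (pi_norm_le_iff_of_nonneg k0).2 ?_
    rintro ⟨b, b'⟩
    rcases Fin.eq_self_or_eq_succAbove a b with rfl | ⟨β, rfl⟩
    · rcases Fin.eq_self_or_eq_succAbove b b' with rfl | ⟨β', rfl⟩
      · simpa [bv] using k0
      · exact k1 β'
    · rcases Fin.eq_self_or_eq_succAbove a b' with rfl | ⟨β', rfl⟩
      · have := k1 β
        rwa [bv, norm_sub_rev] at this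
      · nlinarith [hm β β', norm_nonneg (bv x v), mul_nonneg hn m0]
  linarith

end SlotAux

open SlotAux in
theorem slotS (hD : DecStmt) (hP : PmStmt) : SlotStmt := by
  intro q d hd
  obtain ⟨k, rfl⟩ : ∃ k, d = k + 1 := ⟨d - 1, by omega⟩
  obtain ⟨M, hM0, hM⟩ : ∃ M : ℝ, 0 ≤ M ∧ ∀ c : Mon (q + 4) (k + 1) → ℂ, ‖c‖ ≤ 1 →
      n1 (form c) ≤ M := ⟨_, Nat.cast_nonneg _, fun c hc =>
    (n1_form_le c).trans (mul_le_of_le_one_right (Nat.cast_nonneg _) hc)⟩
  obtain ⟨N, hN⟩ : ∃ N : ℕ, Fintype.card (Fin (q + 1) → Option (Fin (q + 4))) = N := ⟨_, rfl⟩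
  have hC1 : (0 : ℝ) ≤ 2 * (k + 1) ^ 2 * M := by positivity
  have hC2 : (0 : ℝ) ≤ 2 * (q + 4) * N := by positivity
  refine ⟨2 * (k + 1) ^ 2 * M + 2 + 2 * (q + 4) * N, by linarith, ?_⟩
  intro c f ξ z₁ v a Λ E hc hf hξ hE hb h0 hH ha hv
  have hΛ : 0 ≤ Λ := (norm_nonneg _).trans (hb 0 (mem_closedBall_self zero_le_one)).1
  obtain ⟨a₁, h1, h2⟩ := exists_max h0
  obtain ⟨a₂, h3⟩ := exists_ne a₁
  obtain ⟨β, β', hβ, h4⟩ := pair (n := q + 1) hH ha hv
  obtain ⟨σ, h5⟩ := minor hP (n := q + 1) (Fin.succAbove_right_injective (p := a)) (f z₁) v hβ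
  have hHa : grad c (f z₁) a ≠ 0 := norm_ne_zero_iff.1 (ha ▸ norm_ne_zero_iff.2 hH)
  choose Ψ p p' s1 s2 using fun i : Fin (q + 1) => tangent hD (hM c hc) hf hξ hE hb h0 h3.symm h1 h2
    (nl_sh_le ha (σ i)) (by rw [dotProduct_comm]; exact sh_dot hHa _)
  generalize grad c (f z₁) = H at *
  set L := ((dtc id (Pi.single a 1 : Fin (q + 4) → ℂ)).curryLeft (f z₁)).curryLeft v with hL
  have hLa : ∀ w, L w = dt id (Fin.cons (Pi.single a 1) (Fin.cons (f z₁) (Fin.cons v w)) :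
    Fin (q + 4) → Fin (q + 4) → ℂ) := fun _ => rfl
  obtain ⟨r, hr⟩ := Finite.exists_max fun r : Fin (q + 1) → Option (Fin (q + 4)) =>
    ‖L fun i => sg (f z₁) (Ψ i (r i) z₁) (p i (r i)) (p' i (r i))‖
  refine ⟨fun i => Ψ i (r i), fun i => p i (r i), fun i => p' i (r i), fun i => mono (s1 i (r i))
    (mul_le_mul_of_nonneg_right (by linarith) hΛ) (mul_le_mul_of_nonneg_right (by linarith) hE), ?_⟩
  rw [← hLa]
  have m0 := norm_nonneg (L fun i => sg (f z₁) (Ψ i (r i) z₁) (p i (r i)) (p' i (r i)))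
  generalize ‖L fun i => sg (f z₁) (Ψ i (r i) z₁) (p i (r i)) (p' i (r i))‖ = m at hr m0
  have e1 : ‖L fun i => sh H a (σ i)‖ = ‖bv (f z₁) v (a.succAbove β, a.succAbove β')‖ := by
    rw [hLa, dt_single, ← h5]
    congr 1
    refine dt_congr _ fun j i => ?_
    refine Fin.cases rfl (fun j => Fin.cases rfl (fun j => ?_) j) j
    simp [sh]
  have e2 : ‖L fun i => f z₁ a₁ ^ 2 • sh H a (σ i)‖ ≤ N * m := by
    simp only [s2]
    have := L.toMultilinearMap.map_sum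
      fun i (o : Option (Fin (q + 4))) => sg (f z₁) (Ψ i o z₁) (p i o) (p' i o)
    simp only [AlternatingMap.coe_multilinearMap] at this
    rw [this]
    refine (norm_sum_le _ _).trans ((Finset.sum_le_card_nsmul _ _ m fun r _ => hr r).trans ?_)
    rw [Finset.card_univ, hN, nsmul_eq_mul]
  rw [L.map_smul_univ, norm_smul, e1, Finset.prod_const, Finset.card_univ, Fintype.card_fin,
    norm_pow, norm_pow, h2, ← pow_mul] at e2
  have e3 := mul_le_mul_of_nonneg_left h4 (show 0 ≤ ‖f z₁‖ ^ (2 * (q + 1)) by positivity)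
  have e4 := mul_le_mul_of_nonneg_left e2 (show (0 : ℝ) ≤ 2 * (q + 4) by positivity)
  push_cast at e3
  nlinarith [mul_nonneg hC1 m0]

end

end Pool.Agent.Lib.MP_45f16c_ag.EX
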