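import Pool.Agent.Lib.MP_45f16c_ag.EX.BR

/-! Small blocks. -/

set_option autoImplicit false
open Metric MeasureTheory MvPolynomial Filter Real
open scoped ComplexConjugate Matrix Topology

namespace Pool.Agent.Lib.MP_45f16c_ag.EX

open AS

noncomputable section

namespace SmAux

/-- Many independent functionals give a space of functionals without the first rows. -/
theorem lin {ν j s₀ : ℕ} {τ : Type} [Fintype τ] [DecidableEq τ] (A c : τ → Fin ν ⊕ Fin j → ℂ)
    (J : Finset (Fin j)) (hcard : ν + s₀ ≤ Fintype.card τ)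
    (hd : ∀ k k', A k ⬝ᵥ c k' = if k = k' then 1 else 0) (hc : ∀ k e, ‖c k (.inr e)‖ ≤ 1)
    (hJ : ∀ k e, e ∉ J → A k (.inr e) = 0) :
    ∃ Φ : Fin s₀ → Fin j → ℂ, LinearIndependent ℂ Φ ∧ (∀ k e, e ∉ J → Φ k e = 0) ∧
      ∀ φ ∈ Submodule.span ℂ (Set.range Φ), ∀ (w : Fin ν ⊕ Fin j → ℂ) (M : ℝ),
        (∀ k, ‖A k ⬝ᵥ w‖ ≤ M) →
        ‖φ ⬝ᵥ fun e => w (.inr e)‖ ≤ Fintype.card τ * (j * ‖φ‖ * M) := by
  let Ψ : (τ → ℂ) →ₗ[ℂ] (Fin ν ⊕ Fin j → ℂ) := Fintype.linearCombination ℂ A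
  let P₁ : (τ → ℂ) →ₗ[ℂ] (Fin ν → ℂ) := LinearMap.funLeft ℂ ℂ Sum.inl ∘ₗ Ψ
  let P₂ : LinearMap.ker P₁ →ₗ[ℂ] (Fin j → ℂ) :=
    LinearMap.funLeft ℂ ℂ Sum.inr ∘ₗ Ψ ∘ₗ (LinearMap.ker P₁).subtype
  have hr : s₀ ≤ Module.finrank ℂ (LinearMap.ker P₁) := by
    have h1 := LinearMap.finrank_range_add_finrank_ker P₁
    have h2 : Module.finrank ℂ (LinearMap.range P₁) ≤ ν := by
      simpa using Submodule.finrank_le (LinearMap.range P₁)
    rw [Module.finrank_fintype_fun_eq_card] at h1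
    omega
  have key : ∀ (t : LinearMap.ker P₁) (w : Fin ν ⊕ Fin j → ℂ),
      (P₂ t ⬝ᵥ fun e => w (.inr e)) = ∑ k, t.1 k * (A k ⬝ᵥ w) := by
    intro t w
    have h1 : ∀ a, Ψ t.1 (.inl a) = 0 := fun a => congrFun (LinearMap.mem_ker.1 t.2) a
    have h2 : Ψ t.1 ⬝ᵥ w = P₂ t ⬝ᵥ fun e => w (.inr e) := by
      rw [dotProduct, Fintype.sum_sum_type]
      simp only [h1, zero_mul, Finset.sum_const_zero, zero_add]
      rfl
    rw [← h2]
    show (∑ k, t.1 k • A k) ⬝ᵥ w = _
    rw [sum_dotProduct]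
    simp only [smul_dotProduct, smul_eq_mul]
  have bd : ∀ (t : LinearMap.ker P₁) k, ‖t.1 k‖ ≤ j * ‖P₂ t‖ := by
    intro t k
    have h1 := key t (c k)
    simp only [hd, mul_ite, mul_one, mul_zero, Finset.sum_ite_eq', Finset.mem_univ, if_true] at h1
    rw [← h1]
    refine (norm_dot_le _ _).trans ?_
    have h2 : ‖fun e => c k (.inr e)‖ ≤ 1 := (pi_norm_le_iff_of_nonneg zero_le_one).2 (hc k)
    calc _ ≤ j * ‖P₂ t‖ * 1 := mul_le_mul (nl_le _) h2 (norm_nonneg _) (by positivity)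
      _ = _ := mul_one _
  have inj : LinearMap.ker P₂ = ⊥ := by
    refine LinearMap.ker_eq_bot'.2 fun t ht => Subtype.ext (funext fun k => ?_)
    have := bd t k
    rw [ht, norm_zero, mul_zero] at this
    exact norm_le_zero_iff.1 this
  obtain ⟨f, hf⟩ := exists_linearIndependent_of_le_finrank hr
  refine ⟨P₂ ∘ f, hf.map' P₂ inj, fun k e he => ?_, fun φ hφ w M hM => ?_⟩
  · show (∑ k', (f k).1 k' • A k') (.inr e) = 0
    simp [Finset.sum_apply, hJ _ e he]
  · have : φ ∈ LinearMap.range P₂ :=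
      (Submodule.span_le (p := LinearMap.range P₂)).2
        (Set.range_subset_iff.2 fun k => LinearMap.mem_range_self P₂ (f k)) hφ
    obtain ⟨t, rfl⟩ := this
    rw [key]
    refine (norm_sum_le _ _).trans ?_
    refine (Finset.sum_le_card_nsmul _ _ (j * ‖P₂ t‖ * M) fun k _ => ?_).trans (by simp)
    rw [norm_mul]
    exact mul_le_mul (bd t k) (hM k) (norm_nonneg _) (by positivity)

theorem prod_ext {N p : ℕ} {r : Fin p → Fin N} (hr : Function.Injective r) (a : Fin p → ℝ)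
    (b : Fin N → ℝ) (ha : ∀ i, 0 ≤ a i) (h0 : ∀ k, 0 ≤ b k) (h1 : ∀ k, b k ≤ 1) :
    ∏ k, Function.extend r a b k ≤ ∏ i, a i := by
  rw [← Finset.prod_mul_prod_compl (Finset.univ.image r), Finset.prod_image hr.injOn]
  simp only [hr.extend_apply]
  refine mul_le_of_le_one_right (Finset.prod_nonneg fun i _ => ha i) ?_
  have e : ∀ k ∈ (Finset.univ.image r)ᶜ, Function.extend r a b k = b k := fun k hk =>
    Function.extend_apply' _ _ _ (by simpa using hk)
  rw [Finset.prod_congr rfl e]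
  exact Finset.prod_le_one (fun k _ => h0 k) fun k _ => h1 k

/-- A new block of `p` small columns raises the reward. -/
theorem rew_ext {N p b : ℕ} {r : Fin p → Fin N} (hr : Function.Injective r) (β : Fin N → ℕ)
    (hp : 4 ≤ p) (hs : ∀ i, 4 * sz β (r i) ≤ p) :
    rew β + 2 * p ≤ rew (Function.extend r (fun _ => b) β) := by
  have h := rew_merge (β := β) (β' := Function.extend r (fun _ => b) β) (Finset.univ.image r)
    (fun k hk k' hk' e => by
      rw [Function.extend_apply' _ _ _ (by simpa using hk),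
        Function.extend_apply' _ _ _ (by simpa using hk'), e])
    (fun k hk k' hk' => by
      obtain ⟨i, -, rfl⟩ := Finset.mem_image.1 hk
      obtain ⟨i', -, rfl⟩ := Finset.mem_image.1 hk'
      rw [hr.extend_apply, hr.extend_apply])
  rw [Finset.card_image_of_injective _ hr, Finset.sum_image hr.injOn, Finset.card_univ,
    Fintype.card_fin] at h
  have h2 : 4 * ∑ i, sz β (r i) ≤ p * p := by
    rw [Finset.mul_sum]
    simpa using Finset.sum_le_card_nsmul Finset.univ _ p fun i _ => hs i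
  nlinarith

/-- Minors in small columns are small. -/
theorem minor (hP : PmStmt) {ν d p N : ℕ} {ι : Type} {T : MP ν →ₗ[ℂ] (ι → ℂ)} {x : Fin ν → ℂ}
    {η B : ℝ} {I : Fin (N + 1) → ι} {c₀ : ι → ℂ} {l : Fin N → Fin ν → ℂ} {G : Fin N → MP ν}
    {β : Fin N → ℕ} (hp : 4 ≤ p) (hη : 0 ≤ η) (hA : Adm x d l G β) (hN : Nrm l G)
    (hB : Bd1 T x d η I c₀ B) (hD : dt I (cols T c₀ l G) ≠ 0)
    (h8 : B ≤ 8 * (exp (η * rew β) * ‖dt I (cols T c₀ l G)‖)) (φ : (ι → ℂ) →ₗ[ℂ] (Fin N → ℂ))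
    (h1 : ∀ k, φ (T (LL (l k) * G k)) = Pi.single k 1)
    (h2 : ∀ v : Fin N → ι → ℂ,
      dt I (Fin.cons c₀ v) = dt I (cols T c₀ l G) * dt id fun k => φ (v k))
    (r : Fin p → Fin N) (l' : Fin p → Fin ν → ℂ) (G' : MP ν) (hs : ∀ i, 4 * sz β (r i) ≤ p)
    (hl : ∀ i, l' i ⬝ᵥ x = 0) (hG : G'.IsHomogeneous d) :
    ‖dt r fun i => φ (T (LL (l' i) * G'))‖ ≤
      (2 * exp (-(2 * η))) ^ p * ∏ i, nl (l' i) * n1 G' := by
  have hπ : 0 ≤ ∏ i, nl (l' i) * n1 G' :=
    Finset.prod_nonneg fun i _ => mul_nonneg (nl_nonneg _) (n1_nonneg _)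
  by_cases hr : Function.Injective r
  swap
  · rw [dt_of_not_injective hr, norm_zero]
    positivity
  obtain ⟨b, hb⟩ := exists_fresh β
  have cases : ∀ k, (∃ i, r i = k) ∨ ¬∃ i, r i = k := fun k => em _
  have adm : Adm x d (Function.extend r l' l) (Function.extend r (fun _ => G') G)
      (Function.extend r (fun _ => b) β) := by
    refine ⟨fun k => ?_, fun k => ?_, fun k k' => ?_⟩
    · rcases cases k with ⟨i, rfl⟩ | h
      · rw [hr.extend_apply]; exact hl i
      · rw [Function.extend_apply' _ _ _ h]; exact hA.1 k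
    · rcases cases k with ⟨i, rfl⟩ | h
      · rw [hr.extend_apply]; exact hG
      · rw [Function.extend_apply' _ _ _ h]; exact hA.2.1 k
    · rcases cases k with ⟨i, rfl⟩ | h <;> rcases cases k' with ⟨i', rfl⟩ | h'
      · simp only [hr.extend_apply, implies_true]
      · rw [hr.extend_apply, Function.extend_apply' _ _ _ h']
        exact fun e => absurd e.symm (hb _)
      · rw [hr.extend_apply, Function.extend_apply' _ _ _ h]
        exact fun e => absurd e (hb _)
      · simp only [Function.extend_apply' _ _ _ h, Function.extend_apply' _ _ _ h']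
        exact hA.2.2 k k'
  have e1 : dt I (cols T c₀ (Function.extend r l' l) (Function.extend r (fun _ => G') G)) =
      dt I (cols T c₀ l G) * dt r fun i => φ (T (LL (l' i) * G')) := by
    rw [cols, h2, ← hP N p r _ hr]
    congr 2
    funext k
    rcases cases k with ⟨i, rfl⟩ | h
    · simp only [hr.extend_apply]
    · simp only [Function.extend_apply' _ _ _ h, h1]
  have e2 : ∏ k, nl (Function.extend r l' l k) * n1 (Function.extend r (fun _ => G') G k) ≤
      ∏ i, nl (l' i) * n1 G' := by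
    refine le_trans (le_of_eq (Finset.prod_congr rfl fun k _ => ?_))
      (prod_ext hr (fun i => nl (l' i) * n1 G') (fun k => nl (l k) * n1 (G k))
        (fun i => mul_nonneg (nl_nonneg _) (n1_nonneg _))
        (fun i => mul_nonneg (nl_nonneg _) (n1_nonneg _))
        fun k => mul_le_one₀ (hN k).1 (n1_nonneg _) (hN k).2)
    rcases cases k with ⟨i, rfl⟩ | h
    · simp only [hr.extend_apply]
    · simp only [Function.extend_apply' _ _ _ h]
  have e3 := hB _ _ _ adm
  have e4 : ((rew β : ℝ) + 2 * p) ≤ rew (Function.extend r (fun _ => b) β) := by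
    exact_mod_cast rew_ext hr β hp hs
  have e5 : exp (η * rew β) * exp (2 * η * p) ≤
      exp (η * rew (Function.extend r (fun _ => b) β)) := by
    rw [← exp_add]
    exact exp_le_exp.2 (by nlinarith)
  rw [e1, norm_mul] at e3
  have hD' : 0 < ‖dt I (cols T c₀ l G)‖ := norm_pos_iff.2 hD
  have hπ' : 0 ≤ ∏ k, nl (Function.extend r l' l k) * n1 (Function.extend r (fun _ => G') G k) :=
    prod_nn _ _ _
  generalize ‖dt I (cols T c₀ l G)‖ = D at *
  generalize ‖dt r fun i => φ (T (LL (l' i) * G'))‖ = m at *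
  generalize ∏ k, nl (Function.extend r l' l k) * n1 (Function.extend r (fun _ => G') G k) = π'
    at *
  generalize ∏ i, nl (l' i) * n1 G' = π₀ at *
  have hE : 0 < exp (η * rew β) * D := mul_pos (exp_pos _) hD'
  rcases le_or_gt m 0 with hm | hm
  · exact hm.trans (by positivity)
  have e6 : exp (η * rew β) * D * (exp (2 * η * p) * m) ≤ exp (η * rew β) * D * (8 * π₀) :=
    calc _ = exp (η * rew β) * exp (2 * η * p) * (D * m) := by ring
      _ ≤ _ := mul_le_mul_of_nonneg_right e5 (by positivity)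
      _ ≤ _ := e3
      _ ≤ 8 * (exp (η * rew β) * D) * π' := mul_le_mul_of_nonneg_right h8 hπ'
      _ ≤ 8 * (exp (η * rew β) * D) * π₀ := mul_le_mul_of_nonneg_left e2 (by positivity)
      _ = _ := by ring
  have e7 := le_of_mul_le_mul_left e6 hE
  have e8 : (8 : ℝ) ≤ 2 ^ p :=
    le_trans (by norm_num) (pow_le_pow_right₀ one_le_two (show 3 ≤ p by omega))
  have e9 : exp (-(2 * η)) ^ p * exp (2 * η * p) = 1 := by
    rw [← exp_nat_mul, ← exp_add]
    simp [mul_comm]
  calc m = exp (-(2 * η)) ^ p * (exp (2 * η * p) * m) := by rw [← mul_assoc, e9, one_mul]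
    _ ≤ exp (-(2 * η)) ^ p * (2 ^ p * π₀) :=
      mul_le_mul_of_nonneg_left (e7.trans (mul_le_mul_of_nonneg_right e8 hπ)) (by positivity)
    _ = _ := by rw [mul_pow]; ring

theorem lin_dot {ι : Type} [Fintype ι] [DecidableEq ι] {N : ℕ} (φ : (ι → ℂ) →ₗ[ℂ] (Fin N → ℂ))
    (w : ι → ℂ) (k : Fin N) : (fun e => φ (Pi.single e 1) k) ⬝ᵥ w = φ w k := by
  conv_rhs => rw [pi_eq_sum_univ' w]
  simp [dotProduct, Finset.sum_apply, mul_comm]

end SmAux

theorem smS (hC : CramStmt) (hP : PmStmt) (hF : FlStmt) : SmStmt := by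
  intro ν d j p s₀ N T x η B J I c₀ l G β hp hη hT hNK hI hA hN hB hB0 h8
  by_contra hcard
  rw [not_lt] at hcard
  have hD : dt I (cols T c₀ l G) ≠ 0 := fun e => by
    rw [e, norm_zero, mul_zero, mul_zero] at h8
    exact absurd hB0 h8.not_gt
  have hNj : N + 1 ≤ ν + j := by simpa using le_card_of_dt hD
  have hNj' : (N : ℝ) + 1 ≤ ν + j := by exact_mod_cast hNj
  have hN0 : (0 : ℝ) ≤ N := Nat.cast_nonneg N
  have h4 : (1 : ℝ) ≤ 4 ^ (p + 1) := one_le_pow₀ (by norm_num)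
  have hη0 : 0 ≤ η := by
    refine one_le_exp_iff.1 (le_trans ?_ hη)
    have : (1 : ℝ) ≤ (ν + j) ^ 2 := one_le_pow₀ (by linarith)
    nlinarith
  obtain ⟨φ, h1, h0, h2⟩ := hC _ N I c₀ (fun k => T (LL (l k) * G k)) hD
  obtain ⟨k, r, b, co, hk, hco⟩ := hF ν d p (Fin N) (φ ∘ₗ T) x
    (Finset.univ.filter fun k => 4 * sz β k ≤ p) (2 * exp (-(2 * η))) (by omega) (by positivity)
    fun r l' G' hr hl hG => SmAux.minor hP hp hη0 hA hN hB hD h8 φ h1 h2 r l' G'
      (fun i => (Finset.mem_filter.1 (hr i)).2) hl hG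
  generalize (Finset.univ.filter fun k => 4 * sz β k ≤ p) = σ at hcard hco
  let A : Fin N → Fin ν ⊕ Fin j → ℂ := fun k₀ =>
    (fun e => φ (Pi.single e 1) k₀) - ∑ i, co k₀ i • fun e => φ (Pi.single e 1) (r i)
  have hAw : ∀ k₀ w, A k₀ ⬝ᵥ w = φ w k₀ - ∑ i, co k₀ i * φ w (r i) := by
    intro k₀ w
    simp only [A, sub_dotProduct, sum_dotProduct, smul_dotProduct, SmAux.lin_dot, smul_eq_mul]
  have hτ : ν + s₀ ≤ Fintype.card ↥(σ \ Finset.univ.image r) := by
    have h1 := Finset.le_card_sdiff (Finset.univ.image r) σ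
    have h2 : (Finset.univ.image r).card ≤ k := Finset.card_image_le.trans (by simp)
    rw [Fintype.card_coe]
    omega
  obtain ⟨Φ, hΦ, hΦJ, hΦb⟩ := SmAux.lin (τ := ↥(σ \ Finset.univ.image r)) (fun k₀ => A k₀)
    (fun k₀ => T (LL (l k₀) * G k₀)) J hτ
    (fun k₀ k' => by
      have : ∀ i, r i ≠ k'.1 := fun i e =>
        (Finset.mem_sdiff.1 k'.2).2 (Finset.mem_image.2 ⟨i, Finset.mem_univ _, e⟩)
      rw [hAw, h1]
      simp only [Pi.single_apply, this, if_false, mul_zero, Finset.sum_const_zero, sub_zero,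
        Subtype.coe_inj])
    (fun k₀ e => (hT _ (hom_LL_mul _ (hA.2.1 _)) e).trans ((n1_LL_mul_le _ _).trans
      (mul_le_one₀ (hN _).1 (n1_nonneg _) (hN _).2)))
    (fun k₀ e he => by
      have : φ (Pi.single (.inr e) 1) = 0 := h0 _ fun i => Pi.single_eq_of_ne (fun h => by
        have := hI i
        rw [h, RR, Finset.inr_mem_disjSum] at this
        exact he this) _
      simp [A, Finset.sum_apply, this])
  refine hNK b Φ hΦ hΦJ fun ψ hψ l' G' hl hG => ?_
  have hπ : 0 ≤ nl l' * n1 G' := mul_nonneg (nl_nonneg _) (n1_nonneg _)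
  refine (hΦb ψ hψ (T (LL l' * G')) (4 ^ (p + 1) * (2 * exp (-(2 * η))) * (nl l' * n1 G'))
    fun k₀ => ?_).trans ?_
  · rw [hAw]
    exact hco k₀ (Finset.mem_sdiff.1 k₀.2).1 l' G' hl hG
  · have c1 : (Fintype.card ↥(σ \ Finset.univ.image r) : ℝ) ≤ ν + j := by
      have : Fintype.card ↥(σ \ Finset.univ.image r) ≤ N := by
        rw [Fintype.card_coe]
        simpa using Finset.card_le_univ (σ \ Finset.univ.image r)
      have : (Fintype.card ↥(σ \ Finset.univ.image r) : ℝ) ≤ N := by exact_mod_cast this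
      linarith
    have c2 : (j : ℝ) ≤ ν + j := le_add_of_nonneg_left (Nat.cast_nonneg _)
    have c3 : exp η * exp (-(2 * η)) = exp (-η) := by
      rw [← exp_add]; congr 1; ring
    calc _ ≤ (ν + j) * ((ν + j) * ‖ψ‖ *
          (4 ^ (p + 1) * (2 * exp (-(2 * η))) * (nl l' * n1 G'))) := by gcongr
      _ = 2 * (ν + j) ^ 2 * 4 ^ (p + 1) * (exp (-(2 * η)) * ‖ψ‖ * (nl l' * n1 G')) := by ring
      _ ≤ exp η * (exp (-(2 * η)) * ‖ψ‖ * (nl l' * n1 G')) := by gcongr
      _ = _ := by rw [← c3]; ring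

end

end Pool.Agent.Lib.MP_45f16c_ag.EX
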