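import Pool.Agent.Lib.MP_45f16c_ag.EX.BR
import Pool.Agent.Lib.MP_45f16c_ag.AS.Num

-- part Pool.Agent.Lib.MP_45f16c_ag.EX.Num2
section

/-! The choice of the integers. -/

set_option autoImplicit false
open Metric MeasureTheory MvPolynomial Filter Real
open scoped ComplexConjugate Matrix Topology

namespace Pool.Agent.Lib.MP_45f16c_ag.EX

open AS

noncomputable section

theorem num2S : Num2Stmt := by
  intro K hK
  obtain ⟨w₀, hw⟩ := NumAux.ev (2000 * 2912 * 200 * K) 0 (by positivity)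
  refine ⟨100 * (w₀ + 31) ^ 2, fun ν d hν h1 h2 => ?_⟩
  obtain ⟨e, e1, e2⟩ : ∃ e, 100 * e ≤ ν ∧ ν < 100 * e + 100 := ⟨ν / 100, by omega, by omega⟩
  obtain ⟨s, s1, s2⟩ : ∃ s, s ^ 2 ≤ e ∧ e < (s + 1) ^ 2 :=
    ⟨e.sqrt, Nat.sqrt_le' e, Nat.lt_succ_sqrt' e⟩
  have s3 : w₀ + 31 ≤ s := by
    have : (w₀ + 31) ^ 2 < (s + 1) ^ 2 := by omega
    have := lt_of_pow_lt_pow_left₀ 2 (Nat.zero_le _) this
    omega
  have s4 : 31 * s ≤ e := by nlinarith
  have s5 : e ≤ s * e := Nat.le_mul_of_pos_left _ (by omega)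
  have s6 : s * e ≤ e * e := Nat.mul_le_mul_right _ (by omega)
  have s7 : 4 * (200 + s) * e = 800 * e + 4 * (s * e) := by ring
  have hL : log (4 * d + 3) ≤ 90 * log (2 * s) := by
    have a1 : 4 * d + 3 ≤ (2 * s) ^ 90 := by
      calc 4 * d + 3 ≤ 2 ^ 88 * (2 * s) ^ 2 := by nlinarith
        _ ≤ (2 * s) ^ 88 * (2 * s) ^ 2 := by gcongr; omega
        _ = _ := by rw [← pow_add]
    have a2 : (4 * d + 3 : ℝ) ≤ (2 * s) ^ 90 := by exact_mod_cast a1
    have := log_le_log (by positivity) a2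
    rwa [log_pow, Nat.cast_ofNat] at this
  have hL0 : 0 ≤ log (4 * d + 3) := log_nonneg (by have := Nat.cast_nonneg (α := ℝ) d; linarith)
  have hs := hw s (by omega)
  generalize log (4 * d + 3) = L at hL hL0 ⊢
  have hA : 2000 * 2912 * 200 * (K * L) + 2000 * 2912 * 200 ≤ s := by nlinarith
  have hKL : 0 ≤ K * L := by positivity
  have r1 : (31 : ℝ) ≤ s := by exact_mod_cast (by omega : 31 ≤ s)
  have r2 : (s : ℝ) ^ 2 ≤ e := by exact_mod_cast s1
  have r3 : (ν : ℝ) ≤ 200 * e := by exact_mod_cast (by omega : ν ≤ 200 * e)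
  have r4 : (1 : ℝ) ≤ e := by exact_mod_cast (by omega : 1 ≤ e)
  refine ⟨e, 4 * (200 + s), e - 1, s * e,
    ⟨by omega, by omega, e1, by omega, by omega, by omega, by omega, h2⟩,
    ⟨by omega, by omega, e1, by omega, s6, by omega, by omega, h2⟩, by omega, ?_, ?_⟩
  · rw [Nat.cast_sub (by omega)]
    push_cast
    nlinarith [mul_le_mul_of_nonneg_right hA (by linarith : (0 : ℝ) ≤ s),
      mul_le_mul_of_nonneg_right r1 hKL]
  · push_cast
    nlinarith [mul_le_mul_of_nonneg_right hA (by linarith : (0 : ℝ) ≤ e),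
      mul_le_mul_of_nonneg_right r3 hKL]

end

end Pool.Agent.Lib.MP_45f16c_ag.EX
end

-- part Pool.Agent.Lib.MP_45f16c_ag.EX.Qf
section

/-! The residual intersection. -/

set_option autoImplicit false
open Metric MeasureTheory MvPolynomial Filter Real
open scoped ComplexConjugate Matrix Topology

namespace Pool.Agent.Lib.MP_45f16c_ag.EX

open AS

noncomputable section

namespace QfAux

theorem quot {ν : ℕ} (F : MP ν) : (Differentiable ℂ fun y : Fin ν → ℂ => eval y F) ∧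
    ∃ r : ℂ × (Fin ν → ℂ) × (Fin ν → ℂ) → ℂ, Differentiable ℂ r ∧
      ∀ s u y, s * r (s, u, y) = eval (y + s • u) F - eval y F := by
  induction F using MvPolynomial.induction_on with
  | C a => exact ⟨by simp, fun _ => 0, differentiable_const _, fun s u y => by simp⟩
  | add P Q hP hQ =>
    obtain ⟨h1, r, h2, h3⟩ := hP
    obtain ⟨k1, r', k2, k3⟩ := hQ
    refine ⟨by simpa only [map_add] using h1.fun_add k1, fun v => r v + r' v, h2.fun_add k2,
      fun s u y => ?_⟩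
    simp only [map_add, mul_add, h3, k3]
    ring
  | mul_X P a hP =>
    obtain ⟨h1, r, h2, h3⟩ := hP
    refine ⟨by simp only [map_mul, eval_X]; fun_prop,
      fun v => r v * (v.2.2 a + v.1 * v.2.1 a) + eval v.2.2 P * v.2.1 a, ?_, fun s u y => ?_⟩
    · have : Differentiable ℂ fun v : ℂ × (Fin ν → ℂ) × (Fin ν → ℂ) => eval v.2.2 P :=
        h1.comp (f := fun v : ℂ × (Fin ν → ℂ) × (Fin ν → ℂ) => v.2.2) (by fun_prop)
      fun_prop
    · simp only [map_mul, eval_X, Pi.add_apply, Pi.smul_apply, smul_eq_mul]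
      linear_combination (y a + s * u a) * h3 s u y

end QfAux

theorem qfS : QfStmt := by
  intro ν d F hF
  obtain ⟨-, r, h1, h2⟩ := QfAux.quot F
  let q : (Fin ν → ℂ) × (Fin ν → ℂ) × (Fin ν → ℂ) → ℂ := fun v =>
    r (v.1 ⬝ᵥ v.2.1, v.2.2, (-(v.1 ⬝ᵥ v.2.2)) • v.2.1)
  have hq : Differentiable ℂ q := h1.comp (by unfold dotProduct; fun_prop)
  have he : ∀ U x u, (U ⬝ᵥ x) * q (U, x, u) =
      eval (ct U x u) F - (-(U ⬝ᵥ u)) ^ d * eval x F := fun U x u => by
    rw [← eval_smul_of_isHomogeneous hF, h2, ct, neg_smul, neg_add_eq_sub]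
  refine ⟨q, hq, fun U x u => ⟨he U x u, fun hU => ?_⟩⟩
  have hn := n1_nonneg F
  by_cases hx : x = 0
  · rw [hx, norm_zero, mul_zero]
    positivity
  obtain ⟨a, -, ha⟩ := exists_max hx
  have hx' : 0 < ‖x‖ := norm_pos_iff.2 hx
  rw [← le_div_iff₀ hx']
  have hd : Differentiable ℂ fun θ : ℂ => q (U + θ • Pi.single a 1, x, u) :=
    hq.comp (by fun_prop)
  have := Complex.norm_le_of_forall_mem_frontier_norm_le (U := ball (0 : ℂ) 2) isBounded_ball
    hd.diffContOnCl (C := 3 ^ d * (n1 F * ‖bv x u‖ ^ d + ‖u‖ ^ d * ‖eval x F‖) / ‖x‖)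
    (fun θ hθ => ?_) (subset_closure (mem_ball_self two_pos))
  · simpa using this
  rw [frontier_ball _ two_ne_zero, mem_sphere_zero_iff_norm] at hθ
  rw [le_div_iff₀ hx']
  have h3 : nl (U + θ • Pi.single a 1) ≤ 3 := by
    refine (nl_add_le _ _).trans ?_
    rw [nl_smul, nl_single, hθ, norm_one]
    linarith
  have h4 : ‖x‖ ≤ ‖(U + θ • Pi.single a 1) ⬝ᵥ x‖ := by
    rw [add_dotProduct, smul_dotProduct, single_dotProduct, one_mul, smul_eq_mul]
    have k1 := norm_sub_le (U ⬝ᵥ x + θ * x a) (U ⬝ᵥ x)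
    have k2 := (norm_dot_le U x).trans (mul_le_of_le_one_left hx'.le hU)
    rw [add_sub_cancel_left, norm_mul, hθ, ha] at k1
    linarith
  generalize U + θ • Pi.single a 1 = U' at h3 h4
  have h5 : ‖ct U' x u‖ ≤ 3 * ‖bv x u‖ :=
    (norm_ct_le _ _ _).trans (mul_le_mul_of_nonneg_right h3 (norm_nonneg _))
  have h6 : ‖U' ⬝ᵥ u‖ ≤ 3 * ‖u‖ :=
    (norm_dot_le _ _).trans (mul_le_mul_of_nonneg_right h3 (norm_nonneg _))
  calc _ ≤ ‖(U' ⬝ᵥ x) * q (U', x, u)‖ := by
        rw [norm_mul, mul_comm]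
        exact mul_le_mul_of_nonneg_right h4 (norm_nonneg _)
    _ ≤ ‖eval (ct U' x u) F‖ + ‖U' ⬝ᵥ u‖ ^ d * ‖eval x F‖ := by
        rw [he]
        refine (norm_sub_le _ _).trans (le_of_eq ?_)
        rw [norm_mul, norm_pow, norm_neg]
    _ ≤ n1 F * (3 * ‖bv x u‖) ^ d + (3 * ‖u‖) ^ d * ‖eval x F‖ := by
        refine add_le_add ((norm_eval_le hF _).trans ?_) ?_ <;> gcongr
    _ = _ := by rw [mul_pow, mul_pow]; ring

end

end Pool.Agent.Lib.MP_45f16c_ag.EX
end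

-- part Pool.Agent.Lib.MP_45f16c_ag.EX.Lap
section

/-! Laplace expansion. -/

set_option autoImplicit false
open Metric MeasureTheory MvPolynomial Filter Real
open scoped ComplexConjugate Matrix Topology

namespace Pool.Agent.Lib.MP_45f16c_ag.EX

open AS

noncomputable section

theorem lapS : LapStmt := by
  intro ι _ n I H v
  simp only [dt_apply, Matrix.det_succ_column_zero, Finset.mul_sum, dotProduct, Finset.sum_mul]
  rw [Finset.sum_comm]
  refine Finset.sum_congr rfl fun k _ => Finset.sum_congr rfl fun e _ => ?_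
  have : (Matrix.of fun k i => v k ((Fin.cons e I : Fin (n + 1) → ι) i)).submatrix k.succAbove
      Fin.succ = Matrix.of fun k' i => v (k.succAbove k') (I i) := rfl
  rw [this, Matrix.of_apply, Fin.cons_zero]
  ring

theorem piS (hL : LapStmt) : PiStmt := by
  intro n H c₀ W a A E hA hc hW
  let w : Fin (n + 1) → Fin (n + 1) → ℂ := Fin.cons c₀ W
  let v : Fin (n + 2) → Fin (n + 1) → ℂ := Fin.cons (Pi.single a 1) w
  have hw : ∀ k, ‖w k‖ ≤ A := Fin.cases hc fun k => (hW k).1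
  have h := hL (Fin (n + 1)) (n + 1) id H v
  have h0 : ∀ e : Fin (n + 1), dt (Fin.cons e id : Fin (n + 2) → Fin (n + 1)) v = 0 := fun e =>
    dt_of_not_injective (fun hi => absurd (hi (a₁ := 0) (a₂ := e.succ) rfl)
      (Fin.succ_ne_zero e).symm) v
  have e0 : (fun i => v ((0 : Fin (n + 2)).succAbove i)) = w := rfl
  have e1 : (fun i => v ((Fin.succ 0 : Fin (n + 2)).succAbove i)) =
      Fin.cons (Pi.single a 1) W := funext (Fin.cases (by simp [v]) fun i => by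
    simp only [Fin.succ_succAbove_succ, Fin.succAbove_zero, v, w, Fin.cons_succ])
  simp only [h0, mul_zero, Finset.sum_const_zero] at h
  rw [Fin.sum_univ_succ, Fin.sum_univ_succ, e0, e1] at h
  have e2 : H ⬝ᵥ v 0 = H a := by simp [v]
  have e3 : v (Fin.succ 0) = c₀ := rfl
  rw [e2, e3] at h
  have e4 : H a * dt id w - (H ⬝ᵥ c₀) * dt id (Fin.cons (Pi.single a 1) W) =
      -∑ k : Fin n, (-1) ^ ((k.succ.succ : Fin (n + 2)) : ℕ) * (H ⬝ᵥ v k.succ.succ) *
        dt id fun i => v (k.succ.succ.succAbove i) := by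
    simp only [Fin.val_zero, pow_zero, one_mul, Fin.val_succ, zero_add, pow_one] at h ⊢
    linear_combination -h
  rw [e4, norm_neg]
  refine (norm_sum_le _ _).trans ((Finset.sum_le_card_nsmul _ _
    (E * ((n + 1).factorial * A ^ n)) fun k _ => ?_).trans (le_of_eq ?_))
  · rw [norm_mul, norm_mul, norm_pow, norm_neg, norm_one, one_pow, one_mul]
    refine mul_le_mul (hW k).2 ?_ (norm_nonneg _) ((norm_nonneg _).trans (hW k).2)
    have hb : ∀ i : Fin (n + 1), ‖v (k.succ.succ.succAbove i)‖ ≤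
        (Fin.cons 1 fun _ => A : Fin (n + 1) → ℝ) i := by
      refine Fin.cases ?_ fun i => ?_
      · rw [Fin.succ_succAbove_zero]
        exact (Pi.norm_single _).le.trans norm_one.le
      · rw [Fin.succ_succAbove_succ]
        exact hw _
    refine (norm_dt_le' id _ hb).trans (le_of_eq ?_)
    rw [Fin.prod_univ_succ]
    simp
  · simp only [Finset.card_univ, Fintype.card_fin, nsmul_eq_mul]
    ring

end

end Pool.Agent.Lib.MP_45f16c_ag.EX
end

-- part Pool.Agent.Lib.MP_45f16c_ag.EX.Cram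
section

/-! Coordinates given by a minor. -/

set_option autoImplicit false
open Metric MeasureTheory MvPolynomial Filter Real
open scoped ComplexConjugate Matrix Topology

namespace Pool.Agent.Lib.MP_45f16c_ag.EX

open AS

noncomputable section

namespace CramAux

theorem row_inv {n : ℕ} (M : Matrix (Fin n) (Fin n) ℂ) (h : M.det ≠ 0) (k : Fin n) :
    M k ᵥ* M⁻¹ = Pi.single k 1 := by
  have h1 : M * M⁻¹ = 1 := Matrix.mul_nonsing_inv M (isUnit_iff_ne_zero.2 h)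
  funext j
  have h2 := congrFun (congrFun h1 k) j
  rw [Matrix.mul_apply, Matrix.one_apply] at h2
  rw [Matrix.vecMul, dotProduct, Pi.single_apply]
  simpa [eq_comm] using h2

theorem det_first {n : ℕ} (Y : Matrix (Fin (n + 1)) (Fin (n + 1)) ℂ)
    (h : Y 0 = Pi.single 0 1) : Y.det = (Y.submatrix Fin.succ Fin.succ).det := by
  rw [Matrix.det_succ_row_zero, Fin.sum_univ_succ, h]
  simp

end CramAux

theorem cramS : CramStmt := by
  intro ι _ N I c₀ c h
  rw [dt_apply] at h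
  set M : Matrix (Fin (N + 1)) (Fin (N + 1)) ℂ :=
    Matrix.of fun k i => (Fin.cons c₀ c : Fin (N + 1) → ι → ℂ) k (I i) with hM
  let φ : (ι → ℂ) →ₗ[ℂ] (Fin N → ℂ) := (LinearMap.funLeft ℂ ℂ Fin.succ).comp
    ((Matrix.vecMulLinear M⁻¹).comp (LinearMap.funLeft ℂ ℂ I))
  have hφ : ∀ w k, φ w k = ((fun i => w (I i)) ᵥ* M⁻¹) k.succ := fun w k => rfl
  refine ⟨φ, fun k => funext fun j => ?_, fun w hw => funext fun j => ?_, fun v => ?_⟩
  · have e : (fun i => c k (I i)) = M k.succ := rfl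
    rw [hφ, e, CramAux.row_inv M h, Pi.single_apply, Pi.single_apply]
    simp
  · have e : (fun i => w (I i)) = 0 := funext hw
    rw [hφ, e, Matrix.zero_vecMul]; rfl
  · rw [dt_apply, dt_apply, dt_apply, ← hM]
    set A : Matrix (Fin (N + 1)) (Fin (N + 1)) ℂ :=
      Matrix.of fun k i => (Fin.cons c₀ v : Fin (N + 1) → ι → ℂ) k (I i) with hA
    have h1 : A = A * M⁻¹ * M := by
      rw [Matrix.mul_assoc, Matrix.nonsing_inv_mul M (isUnit_iff_ne_zero.2 h), Matrix.mul_one]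
    have h2 : (A * M⁻¹) 0 = Pi.single 0 1 := CramAux.row_inv M h 0
    have h3 : (A * M⁻¹).submatrix Fin.succ Fin.succ = Matrix.of fun k i => φ (v k) (id i) := rfl
    rw [← h3, ← CramAux.det_first _ h2, mul_comm, ← Matrix.det_mul, ← h1]

theorem pmS : PmStmt := by
  intro N p r w hr
  let e : Fin p ⊕ {k : Fin N // k ∉ Set.range r} ≃ Fin N :=
    (Equiv.sumCongr (Equiv.ofInjective r hr) (Equiv.refl _)).trans
      (Equiv.sumCompl fun k => k ∈ Set.range r)
  have e1 : ∀ a, e (Sum.inl a) = r a := fun a => rfl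
  have e2 : ∀ b, e (Sum.inr b) = b.1 := fun b => rfl
  rw [dt_apply, dt_apply, ← Matrix.det_submatrix_equiv_self e]
  have h : (Matrix.of fun k i => Function.extend r w (fun k => Pi.single k 1) k (id i)).submatrix
      e e = Matrix.fromBlocks (Matrix.of fun k i => w k (r i))
        (Matrix.of fun k (b : {k : Fin N // k ∉ Set.range r}) => w k b.1) 0 1 := by
    ext (a | a) (b | b)
    · simp [e1, hr.extend_apply]
    · simp [e1, e2, hr.extend_apply]
    · have h1 : r b ≠ a.1 := fun h => a.2 ⟨b, h⟩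
      simp [e1, e2, Function.extend_apply' _ _ _ a.2, h1]
    · simp [e2, Function.extend_apply' _ _ _ a.2, Pi.single_apply, Matrix.one_apply,
        Subtype.ext_iff, eq_comm]
  rw [h, Matrix.det_fromBlocks_zero₂₁, Matrix.det_one, mul_one]

end

end Pool.Agent.Lib.MP_45f16c_ag.EX
end

-- part Pool.Agent.Lib.MP_45f16c_ag.EX.BdE
section

/-! Extended configurations. -/

set_option autoImplicit false
open Metric MeasureTheory MvPolynomial Filter Real
open scoped ComplexConjugate Matrix Topology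

namespace Pool.Agent.Lib.MP_45f16c_ag.EX

open AS

noncomputable section

namespace BdEAux

theorem pow_le {a b : ℝ} (ha : 0 ≤ a) (hab : a ≤ b) {s m c : ℕ} (h1 : s ≤ m) (h2 : m ≤ c) :
    b ^ s * a ^ (c - s) ≤ a ^ (c - m) * b ^ m := by
  obtain ⟨r, rfl⟩ := Nat.exists_eq_add_of_le h1
  obtain ⟨t, rfl⟩ := Nat.exists_eq_add_of_le h2
  have hb := ha.trans hab
  rw [Nat.add_sub_cancel_left, add_assoc, Nat.add_sub_cancel_left, pow_add, pow_add]
  calc b ^ s * (a ^ r * a ^ t) ≤ b ^ s * (b ^ r * a ^ t) := by gcongr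
    _ = _ := by ring

variable {ν d N : ℕ} {ι : Type} {T : MP ν →ₗ[ℂ] (ι → ℂ)} {x : Fin ν → ℂ} {η B : ℝ}
  {I : Fin (N + 1) → ι} {c₀ : ι → ℂ} {G : Fin N → MP ν} {β : Fin N → ℕ}

/-- One term of the expansion. -/
theorem term (hB : 0 ≤ B) (h : Bd1 T x d η I c₀ B) (hG : Lab d G β) {et : Fin ν → ℂ}
    {l l' : Fin N → Fin ν → ℂ} (e1 : et ⬝ᵥ x = 0) (e2 : nl et ≤ 2) (h1 : ∀ k, l' k ⬝ᵥ x = 0)
    (h2 : ∀ k, nl (l' k) ≤ 2 * nl (l k)) {a : Fin N → ℂ} (ha : ∀ k, ‖a k‖ ≤ nl (l k) * ‖x‖)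
    (σ : Finset (Fin N)) :
    exp (η * rew β) * ‖(∏ k ∈ σ, a k) *
      dtc I c₀ (σ.piecewise (fun k => T (LL et * G k)) fun k => T (LL (l' k) * G k))‖ ≤
      2 ^ N * B * ‖x‖ ^ σ.card * ∏ k, nl (l k) * n1 (G k) := by
  have e : (σ.piecewise (fun k => T (LL et * G k)) fun k => T (LL (l' k) * G k)) =
      fun k => T (LL (σ.piecewise (fun _ => et) l' k) * G k) := funext fun k => by
    by_cases hk : k ∈ σ <;> simp [hk]
  have h3 := h (σ.piecewise (fun _ => et) l') G β ⟨fun k => by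
    by_cases hk : k ∈ σ <;> simp [hk, e1, h1], hG⟩
  have h4 : (∏ k ∈ σ, ‖a k‖) * ∏ k, nl (σ.piecewise (fun _ => et) l' k) * n1 (G k) ≤
      2 ^ N * ‖x‖ ^ σ.card * ∏ k, nl (l k) * n1 (G k) := by
    have e3 : (2 : ℝ) ^ N = ∏ _k : Fin N, (2 : ℝ) := by simp
    rw [← Finset.prod_const, ← Finset.prod_ite_mem_eq, ← Finset.prod_ite_mem_eq σ fun _ => ‖x‖, e3,
      ← Finset.prod_mul_distrib, ← Finset.prod_mul_distrib, ← Finset.prod_mul_distrib]
    refine Finset.prod_le_prod (fun k _ => mul_nonneg (by split_ifs <;> positivity)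
      (mul_nonneg (nl_nonneg _) (n1_nonneg _))) fun k _ => ?_
    have n0 := n1_nonneg (G k)
    by_cases hk : k ∈ σ
    · rw [if_pos hk, if_pos hk, Finset.piecewise_eq_of_mem _ _ _ hk]
      have l0 := nl_nonneg (l k)
      calc ‖a k‖ * (nl et * n1 (G k)) ≤ nl (l k) * ‖x‖ * (2 * n1 (G k)) :=
            mul_le_mul (ha k) (mul_le_mul_of_nonneg_right e2 n0) (mul_nonneg (nl_nonneg _) n0)
              (by positivity)
        _ = _ := by ring
    · rw [if_neg hk, if_neg hk, Finset.piecewise_eq_of_notMem _ _ _ hk, one_mul, mul_one,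
        ← mul_assoc]
      exact mul_le_mul_of_nonneg_right (h2 k) n0
  rw [e, norm_mul, norm_prod, mul_left_comm]
  calc _ ≤ (∏ k ∈ σ, ‖a k‖) * (B * ∏ k, nl (σ.piecewise (fun _ => et) l' k) * n1 (G k)) :=
        mul_le_mul_of_nonneg_left h3 (Finset.prod_nonneg fun _ _ => norm_nonneg _)
    _ = B * ((∏ k ∈ σ, ‖a k‖) * ∏ k, nl (σ.piecewise (fun _ => et) l' k) * n1 (G k)) := by ring
    _ ≤ B * (2 ^ N * ‖x‖ ^ σ.card * ∏ k, nl (l k) * n1 (G k)) := mul_le_mul_of_nonneg_left h4 hB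
    _ = _ := by ring

theorem prod_c {S σ : Finset (Fin N)} (h : σ ⊆ Sᶜ) (y : ℂ) :
    (∏ k ∈ σᶜ, if k ∈ S then 1 else y) = y ^ (Sᶜ.card - σ.card) := by
  rw [Finset.prod_ite, Finset.prod_const_one, one_mul, Finset.prod_const,
    ← Finset.card_sdiff_of_subset h]
  congr 2
  ext k
  simp [and_comm]

end BdEAux

theorem bdES : BdEStmt := by
  intro ν d N ι T x η B I c₀ a₀ S l G β hx hB h hl hG
  obtain ⟨a₁, h0, h1⟩ := exists_max hx
  obtain ⟨l', hl'⟩ : ∃ l' : Fin N → Fin ν → ℂ, ∀ k,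
      l' k = if k ∈ S then l k else l k - (l k ⬝ᵥ x / x a₁) • Pi.single a₁ 1 := ⟨_, fun _ => rfl⟩
  have h2 : ∀ k, l' k ⬝ᵥ x = 0 := fun k => by
    rw [hl']
    split_ifs with hk
    · exact hl k hk
    · simp [h0]
  have h3 : ∀ k, nl (l' k) ≤ 2 * nl (l k) := fun k => by
    have l0 := nl_nonneg (l k)
    rw [hl']
    split_ifs with hk
    · linarith
    · refine (nl_sub_le _ _).trans ?_
      rw [nl_smul, nl_single, norm_one, mul_one, norm_div, h1]
      have := (div_le_iff₀ (norm_pos_iff.2 hx)).2 (norm_dot_le (l k) x)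
      linarith
  have e : (fun k => T (LL ((S.piecewise l fun k => ex a₀ x (l k)) k) * G k)) = fun k =>
      (if k ∈ S then 0 else -(l k ⬝ᵥ x)) • T (LL (sh x a₁ a₀) * G k) +
        (if k ∈ S then 1 else x a₀) • T (LL (l' k) * G k) := funext fun k => by
    rw [← map_smul, ← map_smul, ← map_add, ← smul_mul_assoc, ← smul_mul_assoc, ← add_mul, ← LL_smul,
      ← LL_smul, ← LL_add, hl']
    congr 3
    by_cases hk : k ∈ S
    · simp [hk]
    · simp only [Finset.piecewise_eq_of_notMem _ _ _ hk, if_neg hk, ex, sh]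
      match_scalars <;> ring
  have hW : ∀ a b : ℕ, 0 ≤ 2 ^ N * B * (‖x a₀‖ ^ a * ‖x‖ ^ b) * ∏ k, nl (l k) * n1 (G k) :=
    fun a b => mul_nonneg (by positivity) (prod_nn _ _ _)
  rw [cols, ← dtc_apply, e, expand _ β _ _ _ _ fun k k' hk => by rw [hG.2 k k' hk]]
  refine (mul_le_mul_of_nonneg_left (norm_sum_le _ _) (exp_pos _).le).trans ?_
  rw [Finset.mul_sum]
  refine (Finset.sum_le_card_nsmul _ _ (2 ^ N * B * (‖x a₀‖ ^ (Sᶜ.card - (Sᶜ.image β).card) *
    ‖x‖ ^ (Sᶜ.image β).card) * ∏ k, nl (l k) * n1 (G k)) fun σ hσ => ?_).trans ?_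
  · by_cases hs : σ ⊆ Sᶜ
    · have h4 := BdEAux.term hB h hG (sh_dot h0 a₀) (nl_sh_le h1 a₀) h2 h3
        (a := fun k => if k ∈ S then 0 else -(l k ⬝ᵥ x)) (fun k => by
          split_ifs
          · rw [norm_zero]; exact mul_nonneg (nl_nonneg _) (norm_nonneg _)
          · rw [norm_neg]; exact norm_dot_le _ _) σ
      have h5 : σ.card ≤ (Sᶜ.image β).card :=
        (Finset.mem_filter.1 hσ).2 ▸ Finset.card_le_card (Finset.image_subset_image hs)
      have h6 := BdEAux.pow_le (norm_nonneg (x a₀)) (norm_le_pi_norm x a₀) h5 Finset.card_image_le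
      rw [BdEAux.prod_c hs, mul_right_comm, norm_mul, norm_pow, ← mul_assoc]
      refine (mul_le_mul_of_nonneg_right h4 (by positivity)).trans ?_
      have p0 := prod_nn Finset.univ l G
      calc _ = 2 ^ N * B * (‖x‖ ^ σ.card * ‖x a₀‖ ^ (Sᶜ.card - σ.card)) *
            ∏ k, nl (l k) * n1 (G k) := by ring
        _ ≤ _ := by gcongr
    · obtain ⟨k, hk, hk'⟩ := Finset.not_subset.1 hs
      have h4 : k ∈ S := by simpa using hk'
      rw [Finset.prod_eq_zero hk (by exact if_pos h4), zero_mul, zero_mul, norm_zero, mul_zero]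
      exact hW _ _
  · have h4 : ((Finset.univ.filter fun σ : Finset (Fin N) =>
        (σ.image β).card = σ.card).card : ℝ) ≤ 2 ^ N := by
      exact_mod_cast (Finset.card_le_univ _).trans (by simp)
    rw [nsmul_eq_mul]
    refine (mul_le_mul_of_nonneg_right h4 (hW _ _)).trans (le_of_eq ?_)
    rw [show (4 : ℝ) = 2 * 2 by norm_num, mul_pow]
    ring

theorem divDS : DivDStmt := by
  intro ν N ι _ T x c I a₀ l G β s hT hx hc hG hβ
  refine ⟨fun z => ∑ σ ∈ Finset.univ.filter fun σ : Finset (Fin N) => (σ.image β).card = σ.card,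
    (∏ k ∈ σ, -(l k ⬝ᵥ x z)) * x z a₀ ^ (σᶜ.card - (N - nb β)) * dt I (Fin.cons (c z)
      (σ.piecewise (fun k => T z (X a₀ * G z k)) fun k => T z (LL (l k) * G z k))),
    DifferentiableOn.fun_sum fun σ _ => ?_, fun z => ?_⟩
  · refine DifferentiableOn.fun_mul (DifferentiableOn.fun_mul (DifferentiableOn.fun_finsetProd
      fun k _ => (differentiableOn_dot (differentiableOn_const _) hx).neg)
      ((differentiableOn_pi.1 hx a₀).pow _)) (differentiableOn_dt_cons I hc fun k => ?_)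
    by_cases hk : k ∈ σ
    · simp only [Finset.piecewise_eq_of_mem _ _ _ hk]
      exact hT s _ ((HolP.const s _).mul (hG k))
    · simp only [Finset.piecewise_eq_of_notMem _ _ _ hk]
      exact hT s _ ((HolP.const s _).mul (hG k))
  · have e : xc (T z) a₀ (x z) l (G z) = fun k => (-(l k ⬝ᵥ x z)) • T z (X a₀ * G z k) +
        x z a₀ • T z (LL (l k) * G z k) := funext fun k => by
      rw [xc, ex, LL_sub, LL_smul, LL_smul, LL_single, sub_mul, smul_mul_assoc, smul_mul_assoc,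
        map_sub, map_smul, map_smul, neg_smul, neg_add_eq_sub]
    rw [← dtc_apply, e, expand _ β _ (fun _ => x z a₀) _ _ fun k k' hk => by rw [hβ z k k' hk],
      Finset.mul_sum]
    refine Finset.sum_congr rfl fun σ hσ => ?_
    have h1 : σ.card ≤ nb β :=
      (Finset.mem_filter.1 hσ).2 ▸ Finset.card_le_card (Finset.image_subset_image σ.subset_univ)
    have h2 : N - nb β ≤ σᶜ.card := by
      rw [Finset.card_compl, Fintype.card_fin]; omega
    rw [Finset.prod_const, dtc_apply, ← pow_mul_pow_sub _ h2]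
    ring

end

end Pool.Agent.Lib.MP_45f16c_ag.EX
end

-- part Pool.Agent.Lib.MP_45f16c_ag.EX.Amb
section

/-! Ambiguity of the first column. -/

set_option autoImplicit false
open Metric MeasureTheory MvPolynomial Filter Real
open scoped ComplexConjugate Matrix Topology

namespace Pool.Agent.Lib.MP_45f16c_ag.EX

open AS

noncomputable section

namespace AmbAux

variable {ν d N : ℕ} {ι : Type} {T : MP ν →ₗ[ℂ] (ι → ℂ)} {x : Fin ν → ℂ}

theorem cols_succ (c : ι → ℂ) (L : Fin (N + 1) → Fin ν → ℂ) (G : Fin (N + 1) → MP ν)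
    (k : Fin (N + 1)) : (fun i => cols T c L G (k.succ.succAbove i)) =
      cols T c (fun i => L (k.succAbove i)) fun i => G (k.succAbove i) := by
  funext i
  refine Fin.cases ?_ (fun i => ?_) i
  · rw [Fin.succ_succAbove_zero]; rfl
  · rw [Fin.succ_succAbove_succ]; rfl

theorem adm_cons {l : Fin N → Fin ν → ℂ} {G : Fin N → MP ν} {β : Fin N → ℕ} (h : Adm x d l G β)
    {l' : Fin ν → ℂ} {G' : MP ν} (hl : l' ⬝ᵥ x = 0) (hG : G'.IsHomogeneous d) {b : ℕ}
    (hb : ∀ k, β k ≠ b) : Adm x d (Fin.cons l' l : Fin (N + 1) → Fin ν → ℂ) (Fin.cons G' G)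
      (Fin.cons b β) := by
  refine ⟨Fin.cases hl h.1, Fin.cases hG h.2.1, fun k k' => ?_⟩
  refine Fin.cases ?_ (fun k => ?_) k <;> refine Fin.cases ?_ (fun k' => ?_) k'
  · exact fun _ => rfl
  · exact fun e => (hb k' e.symm).elim
  · exact fun e => (hb k e).elim
  · exact h.2.2 k k'

theorem lap [Fintype ι] (hL : LapStmt) {η X CH E S : ℝ} {R : Finset ι} {sc : ι → ℝ} {α : ℂ}
    {H : ι → ℂ} (hη : 0 ≤ η) (hX : 0 ≤ X) (hE : 0 ≤ E) (hS : 0 ≤ S) (hsc : ∀ e, 0 ≤ sc e)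
    (hB : Bd T x d η R sc X) (h1 : ∀ e, e ∉ R → H e = 0) (h2 : ∑ e, ‖H e‖ * sc e ≤ CH * S)
    (h3 : ∀ g : MP ν, g.IsHomogeneous (d + 1) → ‖H ⬝ᵥ T g + α * eval x g‖ ≤ E * S * n1 g)
    {l₀ : Fin ν → ℂ} (h0 : nl l₀ = 1) {I : Fin (N + 1) → ι} (hI : ∀ i, I i ∈ R)
    {L : Fin (N + 1) → Fin ν → ℂ} {G : Fin (N + 1) → MP ν} {β : Fin (N + 1) → ℕ}
    (ha : Adm x d L G β) {r : ℕ} (hr : r + 1 ≤ rew β) (hr' : ∀ k : Fin (N + 1),
      r ≤ rew (fun i => β (k.succAbove i)) + 2 * N) :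
    ‖H ⬝ᵥ T (LL l₀ ^ (d + 1))‖ * (exp (η * r) * ‖dt I fun k => T (LL (L k) * G k)‖) ≤
      (CH * exp (-η) + (N + 1) * (E * exp (2 * N * η))) * S * (X * ∏ i, sc (I i)) *
        ∏ k, nl (L k) * n1 (G k) := by
  have e := hL ι (N + 1) I H (cols T (T (LL l₀ ^ (d + 1))) L G)
  rw [Fin.sum_univ_succ] at e
  simp only [cols_succ] at e
  have hP : 0 ≤ ∏ i, sc (I i) := Finset.prod_nonneg fun _ _ => hsc _
  have hQ := prod_nn Finset.univ L G
  have a1 : ∀ e : ι, exp (η * r) * ‖H e * dt (Fin.cons e I : Fin (N + 2) → ι)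
      (cols T (T (LL l₀ ^ (d + 1))) L G)‖ ≤
      ‖H e‖ * sc e * (exp (-η) * (X * ∏ i, sc (I i)) * ∏ k, nl (L k) * n1 (G k)) := fun e => by
    by_cases he : e ∈ R
    · have b1 := hB (N + 1) (Fin.cons e I) l₀ (Fin.cases he hI) L G β ha
      rw [h0, one_pow, mul_one, Fin.prod_univ_succ] at b1
      simp only [Fin.cons_zero, Fin.cons_succ] at b1
      have b2 : exp (η * r) ≤ exp (-η) * exp (η * rew β) := by
        rw [← exp_add]
        have : (r : ℝ) + 1 ≤ rew β := by exact_mod_cast hr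
        exact exp_le_exp.2 (by nlinarith)
      rw [norm_mul]
      have hD := norm_nonneg (dt (Fin.cons e I : Fin (N + 2) → ι)
        (cols T (T (LL l₀ ^ (d + 1))) L G))
      generalize ‖dt _ _‖ = D, ∏ k, nl (L k) * n1 (G k) = Q, ∏ i, sc (I i) = P at *
      calc exp (η * r) * (‖H e‖ * D) = ‖H e‖ * (exp (η * r) * D) := by ring
        _ ≤ ‖H e‖ * (exp (-η) * (X * (sc e * P) * Q)) := by
          refine mul_le_mul_of_nonneg_left ?_ (norm_nonneg _)
          exact (mul_le_mul_of_nonneg_right b2 hD).trans (by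
            rw [mul_assoc]; exact mul_le_mul_of_nonneg_left b1 (exp_pos _).le)
        _ = _ := by ring
    · simp [h1 e he]
  have a2 : ∀ k : Fin (N + 1), exp (η * r) * ‖(-1) ^ (k.succ : ℕ) *
      (H ⬝ᵥ cols T (T (LL l₀ ^ (d + 1))) L G k.succ) * dt I (cols T (T (LL l₀ ^ (d + 1)))
        (fun i => L (k.succAbove i)) fun i => G (k.succAbove i))‖ ≤
      E * exp (2 * N * η) * S * (X * ∏ i, sc (I i)) * ∏ k, nl (L k) * n1 (G k) := fun k => by
    have b1 := hB N I l₀ hI (fun i => L (k.succAbove i)) (fun i => G (k.succAbove i))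
      (fun i => β (k.succAbove i)) ⟨fun _ => ha.1 _, fun _ => ha.2.1 _, fun _ _ => ha.2.2 _ _⟩
    rw [h0, one_pow, mul_one] at b1
    have b2 : exp (η * r) ≤ exp (2 * N * η) * exp (η * rew fun i => β (k.succAbove i)) := by
      rw [← exp_add]
      have : (r : ℝ) ≤ rew (fun i => β (k.succAbove i)) + 2 * N := by exact_mod_cast hr' k
      exact exp_le_exp.2 (by nlinarith)
    have b3 := h3 _ (hom_LL_mul (L k) (ha.2.1 k))
    rw [map_mul (eval x), eval_LL, ha.1 k, zero_mul, mul_zero, add_zero] at b3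
    have b4 := b3.trans (mul_le_mul_of_nonneg_left (n1_LL_mul_le _ _) (mul_nonneg hE hS))
    rw [norm_mul, norm_mul, norm_pow, norm_neg, norm_one, one_pow, one_mul,
      Fin.prod_univ_succAbove (fun k => nl (L k) * n1 (G k)) k]
    have b5 := (mul_le_mul_of_nonneg_right b2 (norm_nonneg _)).trans ((mul_assoc _ _ _).trans_le
      (mul_le_mul_of_nonneg_left b1 (exp_pos _).le))
    refine (mul_left_comm _ _ _).le.trans ((mul_le_mul b4 b5 (by positivity)
      ((norm_nonneg _).trans b4)).trans (le_of_eq ?_))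
    ring
  have e' := eq_sub_of_add_eq e.symm
  rw [Fin.val_zero, pow_zero, one_mul] at e'
  have e2 : (H ⬝ᵥ T (LL l₀ ^ (d + 1))) * (dt I fun k => T (LL (L k) * G k)) = _ := e'
  rw [mul_left_comm, ← norm_mul, e2]
  refine (mul_le_mul_of_nonneg_left ((norm_sub_le _ _).trans
    (add_le_add (norm_sum_le _ _) (norm_sum_le _ _))) (exp_pos _).le).trans ?_
  rw [mul_add, Finset.mul_sum, Finset.mul_sum]
  refine (add_le_add (Finset.sum_le_sum fun e _ => a1 e)
    (Finset.sum_le_sum fun k _ => a2 k)).trans ?_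
  rw [← Finset.sum_mul, Finset.sum_const, Finset.card_univ, Fintype.card_fin, nsmul_eq_mul]
  refine (add_le_add_left (mul_le_mul_of_nonneg_right h2 (by positivity)) _).trans (le_of_eq ?_)
  push_cast
  ring

end AmbAux

theorem ambS (hD : DecStmt) (hL : LapStmt) : AmbStmt := by
  intro ν d ι _ T x η X CH E S R sc α hx hα hη hX hC hE hS hsc hB ⟨H, h1, h2, h3⟩ hES N I g₀ hI
    hg h0 l G β ha
  have hP : 0 ≤ ∏ i, sc (I i) := Finset.prod_nonneg fun _ _ => hsc _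
  have hQ := prod_nn Finset.univ l G
  have hn := n1_nonneg g₀
  by_cases hz : dt I (cols T (T g₀) l G) = 0
  · rw [hz, norm_zero, mul_zero]; positivity
  have hc : (N : ℝ) + 1 ≤ Fintype.card ι := by exact_mod_cast le_card_of_dt hz
  obtain ⟨a₁, x1, x2⟩ := exists_max hx
  obtain ⟨G', g1, g2⟩ := (hD ν d x g₀ hg).1 a₁ hx x2 h0
  obtain ⟨b, hb⟩ := exists_fresh β
  have n0 : nl (Pi.single a₁ 1 : Fin ν → ℂ) = 1 := by rw [nl_single, norm_one]
  have hA : 0 < ‖α‖ * ‖x‖ ^ (d + 1) := by positivity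
  have k1 : ‖α‖ * ‖x‖ ^ (d + 1) / 2 ≤ ‖H ⬝ᵥ T (LL (Pi.single a₁ 1) ^ (d + 1))‖ := by
    have b1 := (h3 _ (LL_pow_hom (Pi.single a₁ 1) (d + 1))).trans
      (mul_le_mul_of_nonneg_left (n1_LL_pow_le _ _) (mul_nonneg hE hS))
    rw [n0, one_pow, mul_one, map_pow (eval x), eval_LL, single_dotProduct, one_mul] at b1
    have b2 := norm_sub_le (H ⬝ᵥ T (LL (Pi.single a₁ 1) ^ (d + 1)) + α * x a₁ ^ (d + 1))
      (H ⬝ᵥ T (LL (Pi.single a₁ 1) ^ (d + 1)))
    rw [add_sub_cancel_left, norm_mul, norm_pow, x2] at b2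
    linarith
  obtain ⟨W, hW⟩ : ∃ W, W = Fintype.card ι * (CH * exp (-η) + E * exp (2 * Fintype.card ι * η)) :=
    ⟨_, rfl⟩
  have w1 : CH * exp (-η) + (N + 1) * (E * exp (2 * N * η)) ≤ W := by
    have hN : (0 : ℝ) ≤ N := N.cast_nonneg
    rw [hW, mul_add]
    refine add_le_add (le_mul_of_one_le_left (by positivity) (by linarith)) ?_
    have hN' : (N : ℝ) ≤ Fintype.card ι := by linarith
    gcongr
  have w0 : 0 ≤ W := by rw [hW]; positivity
  have k2 : ∀ a, exp (η * rew β) * ‖dt I (cols T (T (LL (sh x a₁ a) * G' a)) l G)‖ ≤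
      4 * (d + 1) * W * S / (‖α‖ * ‖x‖ ^ (d + 1)) * X * (∏ i, sc (I i)) * n1 g₀ *
        ∏ k, nl (l k) * n1 (G k) := fun a => by
    have b1 := AmbAux.lap hL hη hX hE hS hsc hB h1 h2 h3 n0 hI
      (AmbAux.adm_cons ha (sh_dot x1 a) (g1 a).1 hb) (rew_cons b β) fun k => by
        have := rew_cons b β
        have := rew_succAbove (Fin.cons b β : Fin (N + 1) → ℕ) k
        omega
    have b2 : (fun k => T (LL ((Fin.cons (sh x a₁ a) l : Fin (N + 1) → Fin ν → ℂ) k) *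
        (Fin.cons (G' a) G : Fin (N + 1) → MP ν) k)) = cols T (T (LL (sh x a₁ a) * G' a)) l G :=
      funext (Fin.cases rfl fun _ => rfl)
    have b7 : ∏ k, nl ((Fin.cons (sh x a₁ a) l : Fin (N + 1) → Fin ν → ℂ) k) *
        n1 ((Fin.cons (G' a) G : Fin (N + 1) → MP ν) k) =
        nl (sh x a₁ a) * n1 (G' a) * ∏ k, nl (l k) * n1 (G k) := Fin.prod_univ_succ _
    rw [b2, b7] at b1
    have b3 : nl (sh x a₁ a) * n1 (G' a) ≤ 2 * ((d + 1) * n1 g₀) :=
      mul_le_mul (nl_sh_le x2 a) (g1 a).2 (n1_nonneg _) zero_le_two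
    have b4 := nl_nonneg (sh x a₁ a)
    have b5 := n1_nonneg (G' a)
    have b6 := ((mul_le_mul_of_nonneg_right k1 (by positivity)).trans b1).trans
      (show _ ≤ W * S * (X * ∏ i, sc (I i)) * (2 * ((d + 1) * n1 g₀) * ∏ k, nl (l k) * n1 (G k)) by
        gcongr)
    rw [← le_div_iff₀' (half_pos hA)] at b6
    refine b6.trans (le_of_eq ?_)
    field_simp
    ring
  have k3 : dt I (cols T (T g₀) l G) = ∑ a, dt I (cols T (T (LL (sh x a₁ a) * G' a)) l G) := by
    conv_lhs => rw [g2, map_sum]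
    exact dt_cons_sum _ _ _ _
  rw [k3]
  refine (mul_le_mul_of_nonneg_left (norm_sum_le _ _) (exp_pos _).le).trans ?_
  rw [Finset.mul_sum]
  refine (Finset.sum_le_sum fun a _ => k2 a).trans (le_of_eq ?_)
  rw [Finset.sum_const, Finset.card_univ, Fintype.card_fin, nsmul_eq_mul, hW]
  ring

end

end Pool.Agent.Lib.MP_45f16c_ag.EX
end

-- part Pool.Agent.Lib.MP_45f16c_ag.EX.Fst
section

/-! Change of the first column. -/

set_option autoImplicit false
open Metric MeasureTheory MvPolynomial Filter Real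
open scoped ComplexConjugate Matrix Topology

namespace Pool.Agent.Lib.MP_45f16c_ag.EX

open AS

noncomputable section

theorem fstS : FstStmt := by
  intro ν d ι T x m η X A R sc hm hX hA hsc hB h0 hs
  have hx : x ≠ 0 := fun e => by simp [e] at hm
  have hn : 0 < ‖x‖ := norm_pos_iff.2 hx
  have hnD : 0 < ‖x‖ ^ (d + 1) := pow_pos hn _
  have h1 : 1 ≤ (nl m * ‖x‖) ^ (d + 1) := one_le_pow₀ (by simpa [hm] using norm_dot_le m x)
  have hW : ∀ {N : ℕ} (I : Fin (N + 1) → ι), 0 ≤ X * ∏ i, sc (I i) := fun I =>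
    mul_nonneg hX (Finset.prod_nonneg fun _ _ => hsc _)
  constructor
  · intro N I hI
    obtain ⟨a, ha, ha'⟩ := exists_max hx
    have h2 := (hB N I (Pi.single a 1) hI).smul ((x a)⁻¹ ^ (d + 1))
    have h3 := h0 N I (LL m ^ (d + 1) - (x a)⁻¹ ^ (d + 1) • LL (Pi.single a 1) ^ (d + 1)) hI
      ((LL_pow_hom _ _).sub (hom_smul _ (LL_pow_hom _ _))) (by
        rw [map_sub, smul_eval, map_pow, map_pow, eval_LL, eval_LL, hm, single_dotProduct, one_mul,
          ← mul_pow, inv_mul_cancel₀ ha, sub_self])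
    have h4 := h2.add h3
    rw [map_sub, map_smul, add_sub_cancel] at h4
    refine h4.mono ?_
    have h5 : n1 (LL m ^ (d + 1) - (x a)⁻¹ ^ (d + 1) • LL (Pi.single a (1 : ℂ)) ^ (d + 1)) *
        ‖x‖ ^ (d + 1) ≤ 2 * (nl m * ‖x‖) ^ (d + 1) := by
      have h6 := n1_LL_pow_le (Pi.single a (1 : ℂ)) (d + 1)
      rw [nl_single, norm_one, one_pow] at h6
      have h7 := (n1_sub_le (LL m ^ (d + 1)) ((x a)⁻¹ ^ (d + 1) • LL (Pi.single a 1) ^ (d + 1))).trans
        (add_le_add (n1_LL_pow_le m _) ((n1_smul _ _).le.trans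
          (mul_le_of_le_one_right (norm_nonneg _) h6)))
      rw [norm_pow, norm_inv, ha', inv_pow ‖x‖] at h7
      have h8 := mul_le_mul_of_nonneg_right h7 hnD.le
      rw [add_mul, inv_mul_cancel₀ hnD.ne', ← mul_pow] at h8
      linarith
    rw [nl_single, norm_one, one_pow, mul_one, norm_pow, norm_inv, ha', inv_pow, le_div_iff₀ hnD,
      add_mul, mul_right_comm _ _ (‖x‖ ^ (d + 1)), inv_mul_cancel₀ hnD.ne']
    have h9 := mul_le_mul_of_nonneg_left h5 (mul_nonneg hA (hW I))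
    have h10 := mul_le_mul_of_nonneg_left hs (hW I)
    have := hW I
    linarith
  · rintro ⟨N, I, l₀, l, G, β, hI, hadm, hl₀, hN, hle⟩
    refine ⟨N, I, l, G, β, hI, hadm, hN, ?_⟩
    have h2 : ‖(l₀ ⬝ᵥ x) ^ (d + 1)‖ ≤ ‖x‖ ^ (d + 1) := by
      rw [norm_pow]
      exact pow_le_pow_left₀ (norm_nonneg _)
        ((norm_dot_le _ _).trans (mul_le_of_le_one_left hn.le hl₀)) _
    have h3 := h0 N I (LL l₀ ^ (d + 1) - (l₀ ⬝ᵥ x) ^ (d + 1) • LL m ^ (d + 1)) hI
      ((LL_pow_hom _ _).sub (hom_smul _ (LL_pow_hom _ _))) (by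
        rw [map_sub, smul_eval, map_pow, map_pow, eval_LL, eval_LL, hm, one_pow, mul_one, sub_self])
      l G β hadm
    have h5 : n1 (LL l₀ ^ (d + 1) - (l₀ ⬝ᵥ x) ^ (d + 1) • LL m ^ (d + 1)) ≤
        2 * (nl m * ‖x‖) ^ (d + 1) := by
      have h7 := (n1_sub_le (LL l₀ ^ (d + 1)) ((l₀ ⬝ᵥ x) ^ (d + 1) • LL m ^ (d + 1))).trans
        (add_le_add ((n1_LL_pow_le l₀ _).trans (pow_le_one₀ (nl_nonneg _) hl₀))
          ((n1_smul _ _).le.trans (mul_le_mul h2 (n1_LL_pow_le m _) (n1_nonneg _) hnD.le)))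
      rw [mul_comm, ← mul_pow] at h7
      linarith
    have h6 := h3.trans (mul_le_of_le_one_right
      (mul_nonneg (by rw [mul_assoc]; exact mul_nonneg hA (hW I)) (n1_nonneg _)) (hN.prod_le _))
    have e : dt I (cols T (T (LL l₀ ^ (d + 1))) l G) =
        (l₀ ⬝ᵥ x) ^ (d + 1) * dt I (cols T (T (LL m ^ (d + 1))) l G) +
          dt I (cols T (T (LL l₀ ^ (d + 1) - (l₀ ⬝ᵥ x) ^ (d + 1) • LL m ^ (d + 1))) l G) := by
      rw [cols, cols, cols, ← dt_cons_smul, ← dt_cons_add, map_sub, map_smul, add_sub_cancel]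
    have h8 := mul_le_mul_of_nonneg_left ((norm_add_le _ _).trans (add_le_add_left
      ((norm_mul_le _ _).trans (mul_le_mul_of_nonneg_right h2
        (norm_nonneg (dt I (cols T (T (LL m ^ (d + 1))) l G)))))
      ‖dt I (cols T (T (LL l₀ ^ (d + 1) - (l₀ ⬝ᵥ x) ^ (d + 1) • LL m ^ (d + 1))) l G)‖))
      (exp_pos (η * rew β)).le
    rw [← e] at h8
    have h9 := mul_le_mul_of_nonneg_left h5 (mul_nonneg hA (hW I))
    have h10 := mul_le_mul_of_nonneg_left hs (hW I)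
    rw [div_le_iff₀ hnD]
    linarith

end

end Pool.Agent.Lib.MP_45f16c_ag.EX
end

-- part Pool.Agent.Lib.MP_45f16c_ag.EX.Sup
section

/-! The best bound. -/

set_option autoImplicit false
open Metric MeasureTheory MvPolynomial Filter Real
open scoped ComplexConjugate Matrix Topology

namespace Pool.Agent.Lib.MP_45f16c_ag.EX

open AS

noncomputable section

namespace SupAux

variable {ν d : ℕ} {ι : Type}

theorem inv_le (a : ℝ) (h : 0 ≤ a) : ‖((a : ℂ))⁻¹‖ * a ≤ 1 := by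
  rw [norm_inv, Complex.norm_real, Real.norm_of_nonneg h]
  exact inv_mul_le_one_of_le₀ le_rfl h

theorem nl_eq (l : Fin ν → ℂ) : (nl l : ℂ) • ((nl l : ℂ)⁻¹ • l) = l := by
  by_cases h : nl l = 0
  · rw [nl_eq_zero h, smul_zero, smul_zero]
  · exact smul_inv_smul₀ (Complex.ofReal_ne_zero.2 h) l

theorem n1_eq (G : MP ν) : (n1 G : ℂ) • ((n1 G : ℂ)⁻¹ • G) = G := by
  by_cases h : n1 G = 0
  · rw [n1_eq_zero h, smul_zero, smul_zero]
  · exact smul_inv_smul₀ (Complex.ofReal_ne_zero.2 h) G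

/-- It is enough to bound the normalised configurations. -/
theorem bd_of {T : MP ν →ₗ[ℂ] (ι → ℂ)} {x : Fin ν → ℂ} {η X : ℝ} {R : Finset ι} {sc : ι → ℝ}
    (h : ∀ (N : ℕ) (I : Fin (N + 1) → ι) (l₀ : Fin ν → ℂ) (l : Fin N → Fin ν → ℂ)
      (G : Fin N → MP ν) (β : Fin N → ℕ), (∀ i, I i ∈ R) → Adm x d l G β → nl l₀ ≤ 1 → Nrm l G →
      exp (η * rew β) * ‖dt I (cols T (T (LL l₀ ^ (d + 1))) l G)‖ ≤ X * ∏ i, sc (I i)) :
    Bd T x d η R sc X := fun N I l₀ hI l G β ha => by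
  have h1 := h N I ((nl l₀ : ℂ)⁻¹ • l₀) (fun k => (nl (l k) : ℂ)⁻¹ • l k)
    (fun k => (n1 (G k) : ℂ)⁻¹ • G k) β hI
    ⟨fun k => by rw [smul_dotProduct, ha.1 k, smul_zero],
      fun k => (homogeneousSubmodule (Fin ν) ℂ d).smul_mem _ (ha.2.1 k),
      fun k k' e => congrArg (fun P : MP ν => (n1 P : ℂ)⁻¹ • P) (ha.2.2 k k' e)⟩
    (by rw [nl_smul]; exact inv_le _ (nl_nonneg _))
    fun k => ⟨by rw [nl_smul]; exact inv_le _ (nl_nonneg _),
      by rw [n1_smul]; exact inv_le _ (n1_nonneg _)⟩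
  have e0 : T (LL l₀ ^ (d + 1)) =
      (nl l₀ : ℂ) ^ (d + 1) • T (LL ((nl l₀ : ℂ)⁻¹ • l₀) ^ (d + 1)) := by
    rw [← map_smul, ← smul_pow, ← LL_smul, nl_eq]
  have e1 : (fun k => T (LL (l k) * G k)) = fun k => ((nl (l k) * n1 (G k) : ℝ) : ℂ) •
      T (LL ((nl (l k) : ℂ)⁻¹ • l k) * ((n1 (G k) : ℂ)⁻¹ • G k)) := funext fun k => by
    rw [← map_smul, Complex.ofReal_mul, ← smul_mul_smul_comm, ← LL_smul, nl_eq, n1_eq]
  have hp := prod_nn Finset.univ l G
  have hq := pow_nonneg (nl_nonneg l₀) (d + 1)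
  rw [cols] at h1
  rw [cols, e1, dt_cons_smul_cols, e0, dt_cons_smul, norm_mul, norm_mul, norm_pow,
    ← Complex.ofReal_prod, Complex.norm_real, Complex.norm_real, Real.norm_of_nonneg hp,
    Real.norm_of_nonneg (nl_nonneg _)]
  exact le_of_eq_of_le (by ring) ((mul_le_mul_of_nonneg_left h1 (mul_nonneg hp hq)).trans_eq
    (by ring))

theorem le_of {T : MP ν →ₗ[ℂ] (ι → ℂ)} {x : Fin ν → ℂ} {η X : ℝ} {R : Finset ι} {sc : ι → ℝ}
    (hsc : ∀ e, 0 < sc e) (h : Bd T x d η R sc X) (hX : 0 ≤ X) {N : ℕ} {I : Fin (N + 1) → ι}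
    {l₀ : Fin ν → ℂ} {l : Fin N → Fin ν → ℂ} {G : Fin N → MP ν} {β : Fin N → ℕ}
    (hI : ∀ i, I i ∈ R) (ha : Adm x d l G β) (h0 : nl l₀ ≤ 1) (hn : Nrm l G) :
    exp (η * rew β) * ‖dt I (cols T (T (LL l₀ ^ (d + 1))) l G)‖ ≤ X * ∏ i, sc (I i) := by
  have hp : 0 ≤ X * ∏ i, sc (I i) := mul_nonneg hX (Finset.prod_nonneg fun i _ => (hsc _).le)
  refine (h N I l₀ hI l G β ha).trans ?_
  rw [mul_assoc]
  exact mul_le_of_le_one_right hp (mul_le_one₀ (pow_le_one₀ (nl_nonneg _) h0) (prod_nn _ _ _)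
    (hn.prod_le _))

end SupAux

theorem supS : SupStmt := by
  intro ν d ι T x η R sc hsc
  have hp : ∀ {N : ℕ} (I : Fin (N + 1) → ι), 0 < ∏ i, sc (I i) := fun I =>
    Finset.prod_pos fun i _ => hsc _
  refine ⟨fun X X' ⟨N, I, l₀, l, G, β, hI, ha, h0, hn, h⟩ h' hX => ?_,
    fun X X' hX h N I l₀ hI => (h N I l₀ hI).mono ?_,
    fun X X' hX ⟨N, I, l₀, l, G, β, hI, ha, h0, hn, h⟩ =>
      ⟨N, I, l₀, l, G, β, hI, ha, h0, hn,
        (mul_le_mul_of_nonneg_right hX (hp I).le).trans h⟩, fun X₀ ⟨e, he⟩ hX h => ?_⟩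
  · have h1 := SupAux.le_of hsc h' hX hI ha h0 hn
    refine le_of_mul_le_mul_right (h.trans ?_) (hp I)
    rw [mul_assoc]
    exact mul_le_mul_of_nonneg_left h1 zero_le_two
  · exact mul_le_mul_of_nonneg_right (mul_le_mul_of_nonneg_right hX (hp I).le)
      (pow_nonneg (nl_nonneg _) _)
  let S : Set ℝ := {y | ∃ (N : ℕ) (I : Fin (N + 1) → ι) (l₀ : Fin ν → ℂ)
    (l : Fin N → Fin ν → ℂ) (G : Fin N → MP ν) (β : Fin N → ℕ), (∀ i, I i ∈ R) ∧ Adm x d l G β ∧
    nl l₀ ≤ 1 ∧ Nrm l G ∧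
    y * ∏ i, sc (I i) = exp (η * rew β) * ‖dt I (cols T (T (LL l₀ ^ (d + 1))) l G)‖}
  have hb : BddAbove S := ⟨X₀, fun y ⟨N, I, l₀, l, G, β, hI, ha, h0, hn, e⟩ =>
    le_of_mul_le_mul_right (e.le.trans (SupAux.le_of hsc h hX hI ha h0 hn)) (hp I)⟩
  have h0 : ∀ y ∈ S, 0 ≤ y := fun y ⟨N, I, l₀, l, G, β, _, _, _, _, e⟩ =>
    nonneg_of_mul_nonneg_left (e ▸ mul_nonneg (exp_pos _).le (norm_nonneg _)) (hp I)
  have hne : S.Nonempty := ⟨_, 0, fun _ => e, 0, fun k => k.elim0, fun k => k.elim0,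
    fun k => k.elim0, fun _ => he, ⟨fun k => k.elim0, fun k => k.elim0, fun k => k.elim0⟩,
    nl_zero.le.trans zero_le_one, fun k => k.elim0, div_mul_cancel₀ _ (hp _).ne'⟩
  have hS := Real.sSup_nonneg h0
  refine ⟨sSup S, hS, SupAux.bd_of fun N I l₀ l G β hI ha h1 hn => ?_, ?_⟩
  · exact (div_le_iff₀ (hp I)).1
      (le_csSup hb ⟨N, I, l₀, l, G, β, hI, ha, h1, hn, div_mul_cancel₀ _ (hp I).ne'⟩)
  obtain ⟨y, hy, h2⟩ : ∃ y ∈ S, 3 / 2 * sSup S ≤ 2 * y := by
    rcases hS.eq_or_lt with h1 | h1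
    · obtain ⟨y, hy⟩ := hne
      exact ⟨y, hy, by linarith [h0 y hy]⟩
    · obtain ⟨y, hy, h2⟩ := exists_lt_of_lt_csSup hne (show 3 / 4 * sSup S < sSup S by linarith)
      exact ⟨y, hy, by linarith⟩
  obtain ⟨N, I, l₀, l, G, β, hI, ha, h1, hn, e⟩ := hy
  refine ⟨N, I, l₀, l, G, β, hI, ha, h1, hn, ?_⟩
  rw [← e, ← mul_assoc]
  exact mul_le_mul_of_nonneg_right h2 (hp I).le

end

end Pool.Agent.Lib.MP_45f16c_ag.EX
end
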