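import Pool.Agent.Lib.MP_45f16c_ag.EX.BR
import Pool.Agent.Lib.MP_45f16c_ag.AS.Roots
import Pool.Agent.Lib.MP_45f16c_ag.AS.Lev
import Pool.Agent.Lib.MP_45f16c_ag.AS.An
import Pool.Agent.Lib.MP_45f16c_ag.Three

-- part Pool.Agent.Lib.MP_45f16c_ag.EX.Last2
section

/-! The two levels. -/

set_option autoImplicit false
open Metric MeasureTheory MvPolynomial Filter Real
open scoped ComplexConjugate Matrix Topology

namespace Pool.Agent.Lib.MP_45f16c_ag.EX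

open AS

noncomputable section

open LastAux in
theorem last2S (hLev : Lev2Stmt) (hNo : NoRel2Stmt) (hC : NLcStmt) (hN : NLnStmt)
    (hNum : Num2Stmt) (hAS : AS.MainStmt) : MainStmt := by
  obtain ⟨K, C, hK, hC1, hL⟩ := hLev
  obtain ⟨n₁, h₁⟩ := hAS (1 / 2) (by norm_num)
  obtain ⟨n₀, hN0⟩ := hNum K hK
  refine ⟨max (max n₀ n₁) 2, fun n d hn hd => ?_⟩
  simp only [max_le_iff] at hn
  rcases le_total (5 * (n + 2)) (2 * d) with h | h
  · refine h₁ n d hn.1.2 ?_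
    have : (5 * (n + 2) : ℝ) ≤ 2 * d := by exact_mod_cast h
    linarith
  obtain ⟨e, p, j₁, j₂, N1, N2, hj, i1, i2⟩ := hN0 (n + 2) d (by omega) (by omega) h
  have p1 := N1.p4
  have p2 := N1.pe
  have p3 := N1.e1
  refine ae_of_null (by omega) fun η hη => ?_
  have key : ∀ k : ℕ, volume {c : Mon (n + 2) d → ℂ | c ∈ Usm (n + 2) d η ∩
      {c | NL (form c) d (1 / (k + 1))} ∧ ¬IsBrody (form c)} = 0 := fun k => by
    have hk : (0 : ℝ) < 1 / (k + 1) := by positivity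
    set U := Usm (n + 2) d η ∩ {c | NL (form c) d (1 / (k + 1))} with hU'
    have hU : MeasurableSet U :=
      ((isClosed_Usm η).inter ((hC (n + 2) d).1 _)).measurableSet
    obtain ⟨b, g₁, Z, hg₁, hL⟩ := hL (n + 2) d η _ (by omega) (by omega) hη hk
    obtain ⟨g, hg, hg', hA⟩ := hNo (n + 2) j₁ d p e b K 0 1 C _ g₁ N1 hK one_pos hC1 hk hg₁
    have L1 := hL p j₁ U g (by omega) (by omega) hU (fun c hc => hc) hg hg' i1 (by
      filter_upwards [hA] with T hT c hc using hT c hc.1.1 hc.2 (Or.inl hj))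
    refine le_antisymm (ge_of_tendsto' L1 fun τ => ?_) zero_le
    set B := {c | c ∈ U ∧ ¬Hyp c p τ (exp (-(Z * τ))) C} with hB
    obtain ⟨g, hg, hg', hA⟩ := hNo (n + 2) j₂ d p e b K τ (exp (-(Z * τ))) C _ g₁ N2 hK
      (exp_pos _) hC1 hk hg₁
    have L2 := hL (n + 2) j₂ (U \ toMeasurable volume B) g (by omega) le_rfl
      (hU.diff (measurableSet_toMeasurable _ _)) (fun c hc => hc.1) hg hg' i2 (by
        filter_upwards [hA] with T hT c hc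
        exact hT c hc.1.1.1 hc.1.2
          (Or.inr (not_not.1 fun h' => hc.2 (subset_toMeasurable _ _ ⟨hc.1, h'⟩))))
    have h0 : volume {c | c ∈ U \ toMeasurable volume B ∧ ¬IsBrody (form c)} = 0 :=
      le_antisymm (ge_of_tendsto' L2 fun τ' => measure_mono fun c hc =>
        ⟨hc.1, not_hyp hc.2 _ _ _ (exp_pos _).le⟩) zero_le
    rw [← measure_toMeasurable B, ← add_zero (volume (toMeasurable volume B)), ← h0]
    refine (measure_mono fun c hc => ?_).trans (measure_union_le _ _)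
    by_cases h' : c ∈ toMeasurable volume B
    · exact Or.inl h'
    · exact Or.inr ⟨⟨hc.1, h'⟩, hc.2⟩
  refine measure_mono_null (fun c hc => ?_)
    (measure_union_null (ae_iff.1 (hN (n + 2) d (by omega))) (measure_iUnion_null key))
  by_cases h' : ∀ x u, VanL x u (form c) → bv x u = 0
  · obtain ⟨k, hk⟩ := (hC (n + 2) d).2 c (by omega) h'
    exact Or.inr (Set.mem_iUnion.2 ⟨k, ⟨hc.1, hk⟩, hc.2⟩)
  · exact Or.inl h'

end

end Pool.Agent.Lib.MP_45f16c_ag.EX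
end

-- part Pool.Agent.Lib.MP_45f16c_ag.EX.Core3
section

/-! The measure estimate without obstructions. -/

set_option autoImplicit false
open Metric MeasureTheory MvPolynomial Filter Real
open scoped ComplexConjugate Matrix Topology

namespace Pool.Agent.Lib.MP_45f16c_ag.EX

open AS

noncomputable section

namespace Core3Aux

open CoreAux Core2Aux

theorem region_step3 (hReg : Region2Stmt) {ν p d j N m : ℕ} {K g ε χ s₀ T ρ Cd Cm P : ℝ}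
    {cl : Cls N} {Pt : Fin 3 → Fin m → ℂ} {e : Fin p → Fin ν} {ω' : Fin N → ℝ} {i₀ i₁ k : ℕ}
    (hp : 1 ≤ p) (hd : 1 ≤ d) (hK : 1 ≤ K) (hT : 1 ≤ T) (hg : 0 < g) (hg3 : g ≤ 3 * K)
    (hε1 : ε ≤ 1) (hCd0 : 0 < Cd) (hm1 : 1 ≤ m)
    (hP1 : 1 ≤ P) (hmp : (m : ℝ) + 1 ≤ P) (hMp : (((d + 2) * m + 1 : ℕ) : ℝ) ≤ P)
    (e1 : 4 * P ^ 2 ≤ exp T) (e2 : 2 * p * (Cd + 1) * P ^ 2 ≤ exp T)
    (e3 : 3 * (p + 1) * P ^ 7 ≤ exp T)
    (e5 : (2 + j) * (2 * p * (Cd + 1)) ^ d * P ^ (2 * d + 2) ≤ exp T)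
    (x1 : 2 * p * (Cd + 1) * P ^ 2 ≤ exp (χ * T)) (x2 : 2 * (p + 1) * P ^ 3 ≤ exp (χ * T))
    (x3 : 4 * (p + 1) * (1 + j) * P ^ 2 ≤ exp (χ * T))
    (x4 : 2 * (p + 1) ^ 2 * exp Cm * P ^ 3 ≤ exp (χ * T))
    (x5 : (p + 1) * exp Cm * P ^ 1 ≤ exp (χ * T))
    (hv : cl.Valid ρ (exp (g * T))) (he : Function.Injective e)
    (hω : ∀ i, exp (-(4 * (K * T))) ≤ cl.ω i) (hω' : ∀ i, 0 < ω' i)
    (hPt : ∀ z ∈ closedBall (0 : ℂ) 2, ∀ i,
      ‖cl.P i z - ∑ s : Fin m, Pt i s * (z / 2) ^ (s : ℕ)‖ ≤ del d K g T)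
    (hi₀ : (i₀ : ℝ) + T ≤ i₁ + Cm) (hs₀ : (i₀ : ℝ) ≤ s₀ + Cm) (hk : k ≤ m)
    (v : (Unk2 ν p m → ℂ) × (Mon ν d → ℂ)) (hv1 : ‖v.1‖ ≤ P)
    (hG : ∀ r : Con2 p N ((d + 2) * m + 1),
      ‖Gm2 cl (par d K g T Cd Pt i₀ i₁ k) ((d + 2) * m + 1) e ω' r v‖ ≤ P)
    (hL : LiftL (fun r : Con2 p N ((d + 2) * m + 1) =>
      fderiv ℂ (Gm2 cl (par d K g T Cd Pt i₀ i₁ k) ((d + 2) * m + 1) e ω' r) v) j
      (exp (ε * T))) : ∃ (y : Fin j → Mon ν d → ℂ) (f : ℂ → Fin ν → ℂ)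
      (ξ : Mon ν d → ℂ → Fin ν → ℂ) (γ : ℂ → ℂ),
      Dat cl ω' m (exp ((4 * g + χ) * T)) (exp (χ * T)) (exp ((ε + χ) * T))
        (exp (-(17 * (K * T)))) (exp (17 * (K * T))) (exp (-(100 * (K * T))))
        (exp ((1 - χ) * T)) (exp (-s₀ - χ * T)) v.2 y f ξ γ := by
  set u := K * T with hu
  have hTu : T ≤ u := by nlinarith
  set w := d * (g * T) with hw
  have hw0 : 0 ≤ w := by positivity
  have hgu : g * T ≤ 3 * u := by nlinarith
  set Γ := exp (g * T) with hΓ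
  have hΓ1 : 1 ≤ Γ := one_le_exp (by positivity)
  have hΓ3 : Γ ≤ exp (3 * u) := exp_le_exp.2 hgu
  set M : ℕ := (d + 2) * m + 1 with hM
  have hMS : M * P ≤ P ^ 2 := by rw [sq]; gcongr
  have hp2 : 1 ≤ P ^ 2 := one_le_pow₀ hP1
  have hW : 2 * p * M * P * ((Cd + 1) * Γ ^ 3) * Γ ≤ 2 * p * (Cd + 1) * P ^ 2 * Γ ^ 4 := by
    calc _ = 2 * p * (Cd + 1) * (M * P) * Γ ^ 4 := by ring
      _ ≤ _ := by gcongr
  have hΓ4 : Γ ^ 4 ≤ exp (12 * u) := by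
    rw [hΓ, ← exp_nat_mul]; exact exp_le_exp.2 (by push_cast; linarith)
  have hΓ4' : Γ ^ 4 ≤ exp (4 * (g * T)) := by
    rw [hΓ, ← exp_nat_mul]; exact exp_le_exp.2 (by push_cast; linarith)
  have hδ : del d K g T ≤ exp (-(20 * u)) := exp_le_exp.2 (by linarith)
  have hpS : p * P + 1 ≤ (p + 1) * P := by linarith
  obtain ⟨y, f, ξ, γ, key⟩ := hReg ν p d j N m M cl (par d K g T Cd Pt i₀ i₁ k) e ω' ρ Γ P
    (exp (ε * T)) (del d K g T) (exp ((4 * g + χ) * T)) (exp (χ * T)) (exp ((ε + χ) * T))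
    (exp (-(17 * u))) (exp (17 * u)) (exp (-(100 * u))) (exp ((1 - χ) * T)) (exp (-s₀ - χ * T))
    hv he hp hd hm1 hk (by omega) hΓ1 hP1 (exp_pos _)
    (one_le_exp (by linarith)) (exp_pos _) (exp_pos _) (by simp only [par]; positivity)
    (exp_pos _) (exp_pos _) (exp_le_one_iff.2 (by
      have : (0 : ℝ) ≤ i₀ := by positivity
      linarith)) (exp_pos _) hω' (fun i z hz => hPt z hz i)
    (fun i => by
      change 2 * Γ * (M * P * exp (-(20 * u)) + del d K g T) ≤ _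
      have a1 : 2 * Γ * (M * P * exp (-(20 * u)) + del d K g T) ≤
          4 * P ^ 2 * Γ * exp (-(20 * u)) := by
        have a2 : M * P * exp (-(20 * u)) ≤ P ^ 2 * exp (-(20 * u)) := by gcongr
        have a3 : del d K g T ≤ P ^ 2 * exp (-(20 * u)) :=
          hδ.trans (le_mul_of_one_le_left (exp_pos _).le hp2)
        nlinarith
      have a4 : exp (-(8 * u)) ≤ cl.ω i ^ 2 := by
        rw [show -(8 * u) = (2 : ℕ) * -(4 * u) by push_cast; ring, exp_nat_mul]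
        gcongr; exact hω i
      exact a1.trans ((ele (mle (mle e1 hΓ3 (by positivity)) le_rfl (exp_pos _).le)
        (by linarith)).trans a4))
    (fun i => by
      change exp (-(17 * u)) * (2 * p * M * P * ((Cd + 1) * Γ ^ 3) * Γ) ≤ _
      exact (ele (mle le_rfl (hW.trans (mle e2 hΓ4 (by positivity))) (by positivity))
        (by linarith)).trans (hω i))
    (by
      change M * P * exp (-(20 * u)) ≤ _
      exact ele (mle (hMS.trans (by linarith : P ^ 2 ≤ exp T)) le_rfl (exp_pos _).le)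
        (by linarith))
    (by
      change 2 * p * M * P * ((Cd + 1) * Γ ^ 3) * Γ ≤ _
      exact ele (hW.trans (mle x1 hΓ4' (by positivity))) (by linarith))
    (by
      calc _ ≤ 2 * ((p + 1) * P) * P * P := by gcongr
        _ = 2 * (p + 1) * P ^ 3 := by ring
        _ ≤ _ := x2)
    (by
      calc _ ≤ 4 * ((p + 1) * P) * P * (exp (ε * T) * (1 + j)) := by gcongr
        _ = 4 * (p + 1) * (1 + j) * P ^ 2 * exp (ε * T) := by ring
        _ ≤ _ := ele (mle x3 le_rfl (exp_pos _).le) (by linarith))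
    (by
      change 3 * (p * P + 1) * ((m + 1) ^ 2 * exp (8 * u) * P) ^ 2 ≤ _
      calc _ ≤ 3 * ((p + 1) * P) * (P ^ 2 * exp (8 * u) * P) ^ 2 := by gcongr
        _ = 3 * (p + 1) * P ^ 7 * exp (8 * u) * exp (8 * u) := by ring
        _ ≤ _ := ele (mle (mle e3 le_rfl (exp_pos _).le) le_rfl (exp_pos _).le) (by linarith))
    (by
      change M * (P + exp (ε * T) * (1 + j)) * exp (-(194 * u) - 4 * w) *
        (2 * p * M * P * ((Cd + 1) * Γ ^ 3) * Γ) ^ d ≤ _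
      have a1 : (Γ ^ 4) ^ d = exp (4 * w) := by
        rw [hΓ, ← exp_nat_mul, ← exp_nat_mul, hw]; congr 1; push_cast; ring
      have a2 : exp (ε * T) ≤ exp u := exp_le_exp.2 (by nlinarith)
      have a3 : 1 ≤ exp u := one_le_exp (by linarith)
      have a4 : P + exp (ε * T) * (1 + j) ≤ (2 + j) * P * exp u := by
        have b1 : P ≤ P * exp u := le_mul_of_one_le_right (by linarith) a3
        have b2 : exp (ε * T) * (1 + j) ≤ (P * exp u) * (1 + j) := by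
          gcongr
          exact a2.trans (le_mul_of_one_le_left (exp_pos _).le hP1)
        linarith
      calc _ ≤ P * ((2 + j) * P * exp u) * exp (-(194 * u) - 4 * w) *
            (2 * p * (Cd + 1) * P ^ 2 * Γ ^ 4) ^ d := by gcongr
        _ = (2 + j) * (2 * p * (Cd + 1)) ^ d * P ^ (2 * d + 2) * exp u *
            exp (-(194 * u) - 4 * w) * exp (4 * w) := by
          rw [mul_pow, mul_pow _ (P ^ 2), a1, ← pow_mul, pow_add]; ring
        _ ≤ _ := ele (mle (mle (mle e5 le_rfl (exp_pos _).le) le_rfl (exp_pos _).le) le_rfl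
          (exp_pos _).le) (by linarith))
    (by
      change exp ((1 - χ) * T) * (2 * (p * P + 1) ^ 2 * exp (-(i₁ : ℝ)) * P) ≤ exp (-(i₀ : ℝ))
      calc _ ≤ exp ((1 - χ) * T) * (2 * ((p + 1) * P) ^ 2 * exp (-(i₁ : ℝ)) * P) := by gcongr
        _ = 2 * (p + 1) ^ 2 * exp Cm * P ^ 3 * exp ((1 - χ) * T) * exp (-(i₁ : ℝ)) *
            exp (-Cm) := by
          rw [exp_neg Cm]; field_simp
        _ ≤ _ := ele (mle (mle (mle x4 le_rfl (exp_pos _).le) le_rfl (exp_pos _).le) le_rfl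
          (exp_pos _).le) (by linarith))
    (by
      change exp (-s₀ - χ * T) * (p * P + 1) ≤ exp (-(i₀ : ℝ))
      calc _ ≤ exp (-s₀ - χ * T) * ((p + 1) * P) := by gcongr
        _ = (p + 1) * exp Cm * P ^ 1 * exp (-s₀ - χ * T) * exp (-Cm) := by
          rw [exp_neg Cm]; field_simp
        _ ≤ _ := ele (mle (mle x5 le_rfl (exp_pos _).le) le_rfl (exp_pos _).le) (by linarith))
    (exp_pos _).le v hv1 hG hL
  exact ⟨y, f, ξ, γ, key⟩

theorem count_step3 {ν p d m n a' κ : ℕ} {K a ε T C P x : ℝ} (hp : 1 ≤ p) (hK : 1 ≤ K)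
    (hT : 1 ≤ T) (ha : 1 ≤ a) (hC : 0 < C)
    (hj : 2912 * p * K * log (4 * d + 3) / a ≤ ε / 4)
    (hm : (m : ℝ) ≤ 208 * (K * T) / a + 1)
    (hκ : κ = (5 * p + 2) * m + ν * p) (hnp : (n : ℝ) + 1 ≤ P) (hx0 : 0 ≤ x) (hx : x ≤ P)
    (e : C * exp ((2 * (5 * p + 2) + 2 * (ν * p) + 2 * a') * log (4 * d + 3)) *
      P ^ (4 * a' + 3) ≤ exp (ε / 4 * T)) :
    ((n + 1) ^ 3 : ℕ) * (C * (P * x) ^ (2 * a') *
      (2 * ((2 * d + 1 : ℕ) : ℝ) + 1) ^ (2 * (κ + a')) / exp (ε * T) ^ (0 + 1)) ≤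
      exp (-(ε * T / 2)) := by
  have hP : 0 ≤ P := by have : (0 : ℝ) ≤ n := by positivity
                        linarith
  set Lg := log (4 * d + 3) with hLg
  have hL : 0 ≤ Lg := by
    have : (0 : ℝ) ≤ d := by positivity
    exact log_nonneg (by linarith)
  have a0 : (2 * ((2 * d + 1 : ℕ) : ℝ) + 1) = 4 * d + 3 := by push_cast; ring
  have a1 : (4 * d + 3 : ℝ) ^ (2 * (κ + a')) = exp ((2 * (κ + a') : ℕ) * Lg) := by
    rw [exp_nat_mul, hLg, exp_log (by positivity)]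
  have hp' : (1 : ℝ) ≤ p := by exact_mod_cast hp
  set v := K * T / a with hv
  have hv0 : 0 ≤ v := by positivity
  have hm' : (m : ℝ) ≤ 208 * v + 1 := by rw [hv, ← mul_div_assoc]; exact hm
  have a2 : ((2 * (κ + a') : ℕ) : ℝ) * Lg ≤
      (2 * (5 * p + 2) + 2 * (ν * p) + 2 * a') * Lg + 2912 * p * v * Lg := by
    rw [← add_mul]
    refine mul_le_mul_of_nonneg_right ?_ hL
    rw [hκ]; push_cast
    have b1 : (5 * p + 2 : ℝ) * m ≤ (5 * p + 2) * (208 * v + 1) := by gcongr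
    have b2 : v ≤ p * v := le_mul_of_one_le_left hv0 hp'
    nlinarith
  have a3 : 2912 * p * v * Lg ≤ ε / 4 * T := by
    have b1 : 2912 * p * K * Lg / a * T ≤ ε / 4 * T := by gcongr
    have b2 : 2912 * p * K * Lg / a * T = 2912 * p * v * Lg := by
      rw [hv]; ring
    linarith
  rw [a0, a1, zero_add, pow_one, ← mul_div_assoc, div_le_iff₀ (exp_pos _), ← exp_add]
  calc _ ≤ P ^ 3 * (C * (P * P) ^ (2 * a') *
        exp ((2 * (5 * p + 2) + 2 * (ν * p) + 2 * a') * Lg + 2912 * p * v * Lg)) := by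
        push_cast at a2 ⊢; gcongr
    _ = C * exp ((2 * (5 * p + 2) + 2 * (ν * p) + 2 * a') * Lg) * P ^ (4 * a' + 3) *
        exp (2912 * p * v * Lg) := by
        rw [← sq, ← pow_mul, exp_add]; ring
    _ ≤ _ := ele (mle e le_rfl (exp_pos _).le) (by linarith)

end Core3Aux

open CoreAux Core2Aux Core3Aux Module in
theorem core3S (hSard : SardStmt) (hTrue : True2Stmt) (hReg : Region2Stmt) (hG : Gdeg2Stmt)
    (hDiv : DivStmt) (hMon : Mon2Stmt) (hTr : TruncStmt) : Core3Stmt := by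
  intro ν p d N K a ε g χ ρ hK hp hd ha hε hε1 hg hg3 hχ hρ hj
  have hR := eight_le hg (rho_le ha hg hρ)
  obtain ⟨CS, hCS, hS⟩ := hSard (Mon ν d) 0
  obtain ⟨Cd, hCd, hDv⟩ := hDiv p ρ (by linarith)
  obtain ⟨Cm, hCm, hMn⟩ := hMon p
  set a' := Fintype.card (Mon ν d) with ha'
  set c₁ : ℕ := 2 * (5 * p + 2) + 2 * (ν * p) + N * (d + 2) * (4 * p + 6) + 2 * p + 2 + a' +
    (d + 2) with hc₁
  set c₂ : ℝ := c₁ * (210 * K) with hc₂
  filter_upwards [eventually_ge_atTop 1, eventually_ge_atTop Cm, ev Cd 1 0,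
    ev (2 * (a' * d * (p + 1) ^ d * 2 ^ d)) 1 0, ev (3 * p + 3) 1 0, ev 4 c₂ 2,
    ev (2 * p * (Cd + 1)) c₂ 2, ev (3 * (p + 1)) c₂ 7,
    ev ((2 + (0 : ℕ)) * (2 * p * (Cd + 1)) ^ d) c₂ (2 * d + 2),
    ev' (CS * exp ((2 * (5 * p + 2) + 2 * (ν * p) + 2 * a') * log (4 * d + 3))) c₂ (4 * a' + 3)
      (by positivity : 0 < ε / 4),
    ev' (2 * p * (Cd + 1)) c₂ 2 hχ, ev' (2 * (p + 1)) c₂ 3 hχ,
    ev' (4 * (p + 1) * (1 + (0 : ℕ))) c₂ 2 hχ, ev' (2 * (p + 1) ^ 2 * exp Cm) c₂ 3 hχ,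
    ev' ((p + 1) * exp Cm) c₂ 1 hχ] with T hT hTm b1 b2 b3 e1 e2 e3 e5 e7 x1 x2 x3 x4 x5
  intro cl e ω' s₀ U hv he hUm hU1 hU
  simp only [pow_zero, mul_one] at b1 b2 b3
  set P := c₂ * T with hP
  obtain ⟨n, hn1, hn2, hn3, hn4, hle⟩ := level hK hT c₁
  rw [← hc₂, ← hP] at hle
  have hu : 1 ≤ K * T := by nlinarith
  have ha0 : 0 < a := by linarith
  obtain ⟨m, hm1, hm2, hm3, hmn⟩ : ∃ m : ℕ, 208 * (K * T) ≤ a * m ∧
      (m : ℝ) ≤ 208 * (K * T) / a + 1 ∧ 1 ≤ m ∧ m ≤ n := by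
    have h0 : 0 < 208 * (K * T) / a := by positivity
    refine ⟨⌈208 * (K * T) / a⌉₊, ?_, (Nat.ceil_lt_add_one h0.le).le, Nat.ceil_pos.2 h0,
      Nat.ceil_le.2 ((div_le_self (by positivity) ha).trans hn1)⟩
    have h1 := Nat.le_ceil (208 * (K * T) / a)
    rwa [div_le_iff₀' ha0] at h1
  have hmn' : (m : ℝ) ≤ n := by exact_mod_cast hmn
  set M : ℕ := (d + 2) * m + 1 with hM
  have cκ := card_unk2 ν p m
  have hMle : M ≤ (d + 2) * (n + 1) := by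
    have := Nat.mul_le_mul_left (d + 2) hmn
    rw [hM, mul_add]; omega
  have hnp : (n : ℝ) + 1 ≤ P := by
    exact_mod_cast hle (n + 1) (Nat.le_mul_of_pos_left _ (by omega))
  have hMp : (M : ℝ) ≤ P := hle M (hMle.trans (Nat.mul_le_mul_right _ (by omega)))
  have hP1 : 1 ≤ P := by have : (0 : ℝ) ≤ n := by positivity
                         linarith
  have hSp : (2 * Fintype.card (Unk2 ν p m) + Fintype.card (Con2 p N M) + 2 : ℝ) ≤ P := by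
    exact_mod_cast hle _ (card_le2 ν p d N m n a' hmn).1
  have hxp : (Fintype.card (Unk2 ν p m) + a' + Fintype.card (Con2 p N M) : ℝ) ≤ P := by
    exact_mod_cast hle _ (card_le2 ν p d N m n a' hmn).2
  by_cases hne : ∃ f : ℂ → Fin p → ℂ, Disc ρ K T f ∧ cl.Mem ρ (exp (g * T)) f ∧
    ∀ i, ∀ w ∈ closedBall (cl.z i) cl.σ, ‖f w‖ ≤ ω' i
  swap
  · refine (measure_mono (t := ∅) ?_).trans (by simp)
    rintro c ⟨_, A, f, _, f1, _, f3, f4, _⟩
    exact hne ⟨f, f1, f3, f4⟩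
  obtain ⟨f₀, f1, f2, f3⟩ := hne
  have hω := omega_ge hR hg3 (by linarith) hv f1 f2
  have hω' : ∀ i, 0 < ω' i := fun i => (exp_pos _).trans_le
    ((f1.lo (cl.z i) (by rw [mem_ball_zero_iff]; linarith [hv.hz i])).trans
      (f3 i _ (mem_closedBall_self hv.σpos.le)))
  have hsub : ball (0 : ℂ) (ρ / 2) ⊆ ball 0 ρ := ball_subset_ball (by linarith)
  choose Pt _ hPt using fun l => hTr m (cl.P l) (ρ / 2) (exp (8 * (K * T))) hR
    ((hv.diff l).mono hsub) fun z hz => (f2.P l z (hsub hz)).trans (by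
      have h1 : ‖f₀ z‖ ^ 2 ≤ exp 0 := by
        rw [exp_zero]; exact pow_le_one₀ (norm_nonneg _) (f1.hi z (hsub hz))
      have h2 : g * T ≤ 3 * K * T := by gcongr
      exact ele (mle le_rfl h1 (by positivity)) (by linarith [mul_pos hg (by linarith : 0 < T)]))
  have hPt' : ∀ z ∈ closedBall (0 : ℂ) 2, ∀ i,
      ‖cl.P i z - ∑ s : Fin m, Pt i s * (z / 2) ^ (s : ℕ)‖ ≤ del d K g T :=
    fun z hz i => (hPt i z hz).trans (trunc_le' hK hT hg hρ hm1)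
  let B : ℕ × ℕ × ℕ → Set (Mon ν d → ℂ) := fun t =>
    {y | ((t.1 : ℝ) + T ≤ t.2.1 + Cm ∧ (t.1 : ℝ) ≤ s₀ + Cm ∧ t.2.2 ≤ m) ∧ y ∈ U ∧
      ∃ x : Unk2 ν p m → ℂ, ‖x‖ ≤ 1 ∧
        ∀ r : Con2 p N M, ‖Gm2 cl (par d K g T Cd Pt t.1 t.2.1 t.2.2) M e ω' r (x, y)‖ ≤ 1}
  let I := Finset.range (n + 1) ×ˢ Finset.range (n + 1) ×ˢ Finset.range (n + 1)
  have hcov : {c | c ∈ U ∧ ∃ (A : Fin ν → Fin p → ℂ) (f : ℂ → Fin p → ℂ), ‖A‖ ≤ 1 ∧
      Disc ρ K T f ∧ Apx c e A (Real.exp (-((195 + 15 * d) * (K * T)))) ρ f ∧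
      cl.Mem ρ (Real.exp (g * T)) f ∧ (∀ i, ∀ w ∈ closedBall (cl.z i) cl.σ, ‖f w‖ ≤ ω' i) ∧
      -s₀ ≤ Real.circleAverage (lg f) 0 1} ⊆ ⋃ t ∈ I, B t := by
    rintro c ⟨hc, A, f, g0, g1, g2, g3, g4, g5⟩
    obtain ⟨i₀, i₁, k, t1, t2, t2', t3, t4⟩ := true_step2 (M := M) hTrue hK hT ha hg hg3 hd hρ hm1
      hm3 hCd b1 hTm b2 b3 hv he hPt' hDv hMn (mem_closedBall_zero_iff.1 (hU1 hc)) g0 g1 g2 g3 g4
      g5
    refine Set.mem_iUnion₂.2 ⟨(i₀, i₁, k), ?_, ⟨t2, t2', t3⟩, hc, t4⟩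
    simp only [I, Finset.mem_product, Finset.mem_range, Nat.lt_succ_iff]
    exact ⟨by exact_mod_cast (by linarith : (i₀ : ℝ) ≤ n),
      by exact_mod_cast (by linarith : (i₁ : ℝ) ≤ n), t3.trans hmn⟩
  have hB : ∀ t, volume (B t) ≤ ENNReal.ofReal (CS * (P * (Fintype.card (Unk2 ν p m) + a' +
      Fintype.card (Con2 p N M))) ^ (2 * a') * (2 * ((2 * d + 1 : ℕ) : ℝ) + 1) ^
        (2 * (Fintype.card (Unk2 ν p m) + a')) / exp (ε * T) ^ (0 + 1)) := fun t => by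
    by_cases ht : (t.1 : ℝ) + T ≤ t.2.1 + Cm ∧ (t.1 : ℝ) ≤ s₀ + Cm ∧ t.2.2 ≤ m
    · refine (measure_mono fun y hy => hy.2).trans (hS (Unk2 ν p m) (Con2 p N M) (2 * d + 1) _
        U P _ (by omega) (hG ν p d N m M cl _ e ω' hd) hUm hU1 hSp (exp_pos _)
        fun v v1 v2 v3 hL => hU v.2 v1 ?_)
      obtain ⟨y, f, ξ, γ, key⟩ := region_step3 hReg hp hd hK hT hg hg3 hε1 hCd hm3 hP1
        (by linarith) hMp e1 e2 e3 e5 x1 x2 x3 x4 x5 hv he hω hω' hPt' ht.1 ht.2.1 ht.2.2 v v2 v3 hL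
      exact ⟨m, y, f, ξ, γ, hm2, key⟩
    · rw [show B t = ∅ from Set.eq_empty_of_forall_notMem fun y hy => ht hy.1]; simp
  refine (measure_mono hcov).trans ((measure_biUnion_finset_le _ _).trans
    ((Finset.sum_le_card_nsmul _ _ _ fun t _ => hB t).trans ?_))
  have hI : I.card = (n + 1) ^ 3 := by simp [I]; ring
  rw [hI, nsmul_eq_mul, ← ENNReal.ofReal_natCast, ← ENNReal.ofReal_mul (by positivity)]
  exact ENNReal.ofReal_le_ofReal
    (count_step3 hp hK hT ha hCS hj hm2 cκ hnp (by positivity) hxp e7)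

end

end Pool.Agent.Lib.MP_45f16c_ag.EX
end

-- part Pool.Agent.Lib.MP_45f16c_ag.EX.Lev2
section

/-! One level. -/

set_option autoImplicit false
open Metric MeasureTheory MvPolynomial Filter Real
open scoped ComplexConjugate Matrix Topology

namespace Pool.Agent.Lib.MP_45f16c_ag.EX

open AS

noncomputable section

namespace Lev2Aux

open LevAux

/-- Slow discs. -/
theorem slowPart (hSlow : SlowStmt) (hCore : Core3Stmt) (hSR : SRelStmt) {ν p d : ℕ}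
    {K K' K₁ ε χ a ρ' : ℝ} {U : Set (Mon ν d → ℂ)} (hd : 1 ≤ d) (hK : 1 ≤ K) (hK₁ : K ≤ K₁)
    (hK' : K' ≤ 100 * K₁) (hε : 0 < ε) (hε1 : ε ≤ 1 / 4) (hχ : 3 * ε ≤ χ) (hp : 1 ≤ p)
    (ha : 1 ≤ a) (ha₁ : 208 * K₁ / a ≤ ε) (ha₂ : 2912 * p * K₁ * log (4 * d + 3) / a ≤ ε / 4)
    (hU : MeasurableSet U) (hU1 : U ⊆ closedBall 0 1)
    (hno : ∀ᶠ T : ℝ in atTop, ∀ c ∈ U, ∀ (f : ℂ → Fin ν → ℂ) (ξ : Mon ν d → ℂ → Fin ν → ℂ),
      ¬SDat K K' χ T c f ξ)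
    (hR : ∀ (T : ℝ) (g : ℂ → Fin p → ℂ), 0 ≤ T → Disc ρ' K T g → ∃ t : ℝ, 1 ≤ t ∧
      t * (2 * (8 * exp (a * (1 + d * (2 * K + 1))))) ≤ ρ' ∧
      Disc (2 * (8 * exp (a * (1 + d * (2 * K + 1))))) K T (fun ζ => g (t * ζ)) ∧
      ∀ z ∈ closedBall (0 : ℂ) 2,
        lg g (t * z) ≤ circleAverage (lg fun ζ => g (t * ζ)) 0 1 + ε * T) :
    ∃ n : ℝ, 0 ≤ n ∧ ∀ᶠ T : ℝ in atTop,
      volume {c | c ∈ U ∧ ∃ (e : Fin p → Fin ν) (A : Fin ν → Fin p → ℂ) (f : ℂ → Fin p → ℂ),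
        Function.Injective e ∧ ‖A‖ ≤ 1 ∧ Disc ρ' K T f ∧
        Apx c e A (exp (-((195 + 15 * d) * (K₁ * T)))) ρ' f} ≤
      ENNReal.ofReal (n * T * exp (-(ε * T / 2))) := by
  set ρ := 8 * exp (a * (1 + d * (2 * K + 1))) with hρ
  have hρ8 : 16 ≤ ρ := by
    have h1 : 1 * 1 ≤ a * (1 + d * (2 * K + 1)) := by
      gcongr
      exact le_add_of_nonneg_right (by positivity)
    linarith [add_one_le_exp (a * (1 + d * (2 * K + 1)))]
  obtain ⟨cl, hcl⟩ := hSlow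
  have hC := hCore ν p d 1 K₁ a ε (2 * K + 1) ε ρ (by linarith) hp hd ha hε (by linarith)
    (by linarith) (by linarith) hε le_rfl ha₂
  refine ⟨Fintype.card (Fin p → Fin ν) * (2 * K), by positivity, ?_⟩
  filter_upwards [hC, hno, eventually_ge_atTop 1, eventually_ge_atTop (1 / ε)] with T hC hno hT hT'
  rw [div_le_iff₀' hε] at hT'
  obtain ⟨hv, hm⟩ := hcl p ρ K T (by linarith) hK (by linarith)
  have hKT : 1 ≤ K * T := one_le_mul_of_one_le_of_one_le hK hT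
  refine cover_le volume (Finset.univ ×ˢ Finset.range (⌊K * T⌋₊ + 1))
    (fun t : (Fin p → Fin ν) × ℕ =>
    {c | (Function.Injective t.1 ∧ ∀ i, exp (-(4 * (K * T))) ≤ cl.ω i) ∧ c ∈ U ∧
      ∃ (A : Fin ν → Fin p → ℂ) (f : ℂ → Fin p → ℂ), ‖A‖ ≤ 1 ∧
      Disc ρ K₁ T f ∧ Apx c t.1 A (exp (-((195 + 15 * d) * (K₁ * T)))) ρ f ∧
      cl.Mem ρ (exp ((2 * K + 1) * T)) f ∧
      (∀ i, ∀ w ∈ closedBall (cl.z i) cl.σ, ‖f w‖ ≤ exp (-(t.2 : ℝ))) ∧
      -(t.2 + 1 + ε * T) ≤ circleAverage (lg f) 0 1}) (x := exp (-(ε * T / 2))) ?_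
      (fun t _ => ?_) ?_
  · rw [Finset.card_product, Finset.card_range, Finset.card_univ]
    have h1 : (⌊K * T⌋₊ : ℝ) ≤ K * T := Nat.floor_le (by linarith)
    push_cast
    rw [mul_assoc _ (2 * K) T]
    gcongr
    linarith
  · by_cases ht : Function.Injective t.1 ∧ ∀ i, exp (-(4 * (K * T))) ≤ cl.ω i
    · refine (measure_mono fun c hc => hc.2).trans (hC cl t.1 (fun _ => exp (-(t.2 : ℝ)))
        (t.2 + 1 + ε * T) U hv ht.1 hU hU1 fun c hc hD => ?_)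
      obtain ⟨f, ξ, h⟩ := hSR ν d 1 K K' K₁ a ε χ t.2 T ρ _ cl c hd hK hK' hε hε1 hχ ha₁
        (Nat.cast_nonneg _) hT' hv ht.2 hD
      exact hno c hc f ξ h
    · exact (measure_mono (t := ∅) fun c hc => ht hc.1).trans (by simp)
  · rintro c ⟨hc, e, A, f, he, hA, h1, h3⟩
    obtain ⟨t, t1, t2, t3, t4⟩ := hR T f (by linarith) h1
    set x := circleAverage (lg fun ζ => f (t * ζ)) 0 1 with hx
    have hx1 : -(K * T) ≤ x := by
      have h4 := t3.gr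
      have h5 := t3.le_lg (z := 0) (mem_ball_self (by linarith))
      rw [Tch] at h4
      linarith
    have hεT : 0 ≤ ε * T := by positivity
    have t5 : Disc ρ K T fun ζ => f (t * ζ) := t3.mono (by linarith)
    refine Set.mem_iUnion₂.2 ⟨(e, ⌊-x - ε * T⌋₊), ?_, ⟨he, CoreAux.omega_ge (by linarith)
      (by linarith) (by linarith) hv t5 (hm _ t3)⟩, hc, A, fun ζ => f (t * ζ), hA,
      ⟨t5.diff, fun z hz => le_trans (by gcongr) (t5.lo z hz), t5.hi, t5.gr⟩,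
      fun z hz => h3 _ ?_, hm _ t3, fun i w hw => ?_, ?_⟩
    · simp only [Finset.mem_product, Finset.mem_univ, Finset.mem_range, true_and, Nat.lt_succ_iff]
      exact Nat.floor_le_floor (by linarith)
    · rw [mem_ball_zero_iff] at hz ⊢
      rw [norm_mul, Complex.norm_real, Real.norm_of_nonneg (by linarith)]
      nlinarith [norm_nonneg z]
    · have hw2 := small_disc_subset (hv.hz i) hv.σle hw
      have hw3 : w ∈ ball (0 : ℂ) (2 * ρ) := closedBall_subset_ball (by linarith) hw2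
      rcases le_or_gt 0 (-x - ε * T) with h0 | h0
      · have h6 := Nat.floor_le h0
        have h7 := t4 w hw2
        rw [← exp_lg (t3.ne hw3)]
        exact exp_le_exp.2 (h7.trans (by linarith))
      · rw [Nat.floor_of_nonpos h0.le]
        simpa using t3.hi w hw3
    · have := Nat.lt_floor_add_one (-x - ε * T)
      dsimp only
      linarith

end Lev2Aux

open LevAux in
theorem lev2S (hSel : Sel2Stmt) (hResc : RescStmt) (hFast : Fast2Stmt) (hSlow : SlowStmt)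
    (hCore : Core2Stmt) (hCore3 : Core3Stmt) (hNo : NoSlow2Stmt) (hSR : SRelStmt)
    (hRel : RelStmt) : Lev2Stmt := by
  obtain ⟨K, C, hK, hC, hS⟩ := hSel (2 * (8 * exp 2) + 2) (by have := exp_pos 2; linarith)
  refine ⟨K, C, hK, hC, fun ν d η c₀ hν hD hη hc₀ => ?_⟩
  have hd : 1 ≤ d := by omega
  have hd' : (1 : ℝ) ≤ d := by exact_mod_cast hd
  have hl := log_nonneg (x := 4 * d + 3) (by linarith)
  obtain ⟨χ, K', hχ, hNo⟩ := hNo ν d η c₀ K hν hD hη hc₀ hK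
  obtain ⟨ε, hε, ε1, ε2⟩ : ∃ ε : ℝ, 0 < ε ∧ ε ≤ 1 / 4 ∧ 3 * ε ≤ χ :=
    ⟨min (1 / 4) (χ / 3), by positivity, min_le_left _ _, by linarith [min_le_right (1 / 4) (χ / 3)]⟩
  obtain ⟨K₁, k1, k2⟩ : ∃ K₁ : ℝ, K ≤ K₁ ∧ K' ≤ 100 * K₁ :=
    ⟨max K (K' / 100), le_max_left _ _, by linarith [le_max_right K (K' / 100)]⟩
  have k0 : 0 < K₁ := by linarith
  obtain ⟨a, ha1, ha2, ha3⟩ : ∃ a : ℝ, 1 ≤ a ∧ 208 * K₁ / ε ≤ a ∧
      2912 * ν * K₁ * log (4 * d + 3) / (ε / 4) ≤ a :=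
    ⟨max 1 (max _ _), le_max_left _ _, (le_max_left _ _).trans (le_max_right _ _),
      (le_max_right _ _).trans (le_max_right _ _)⟩
  rw [div_le_comm₀ (by positivity) (by linarith)] at ha2 ha3
  have hρ := one_le_exp (x := a * (1 + d * (2 * K + 1))) (by positivity)
  obtain ⟨ρ', hρ', hR⟩ := hResc K ε (2 * (8 * exp (a * (1 + d * (2 * K + 1))))) hK hε
    (by linarith)
  obtain ⟨b, hS⟩ := hS ρ' (by linarith)
  refine ⟨2 * b + 4, min (1 / 2000) (min (100 / K) (10 / d)), (195 + 15 * d) * K₁, by positivity,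
    fun p j U g hp hpν hU hUs hg hg1 hj hno => ?_⟩
  obtain ⟨θ, rfl⟩ : ∃ θ, g = 200 * θ := ⟨g / 200, by ring⟩
  simp only [le_min_iff] at hg1
  obtain ⟨g1, g3, g4⟩ := hg1
  have hθ : 0 < θ := by linarith
  have hU1 : U ⊆ closedBall 0 1 := fun c hc => Usm_subset η (hUs c hc).1
  obtain ⟨n₁, hf⟩ := fastPart (σ := θ ^ b) (ε := 1 / 2000) hFast hCore hRel hK hp hd (by norm_num)
    (by norm_num) hθ (by linarith) (by linarith)
    (by rw [le_div_iff₀ (by linarith)] at g4; linarith) (pow_pos hθ b)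
    (pow_le_one₀ hθ.le (by linarith)) (scale b hK hθ (by linarith) g3) hU hU1 hj
    (by rwa [show (2 * (1 / 2000) : ℝ) = 1 / 1000 by norm_num])
  obtain ⟨n₂, hn₂, hs⟩ := Lev2Aux.slowPart (p := p) hSlow hCore3 hSR hd hK k1 k2 hε ε1 ε2 hp ha1 ha2
    (le_trans (by gcongr) ha3) hU hU1
    (hNo.mono fun T h c hc => h c (hUs c hc).1 (hUs c hc).2) (hR p)
  obtain ⟨T₀, hs⟩ := eventually_atTop.1 hs
  have e1 := tendsto_natCast_atTop_atTop (R := ℝ)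
  have e2 : Tendsto (fun τ : ℕ => θ * τ / 4) atTop atTop :=
    (e1.const_mul_atTop hθ).atTop_div_const (by norm_num)
  have t1 := ENNReal.tendsto_ofReal ((tendsto_exp_neg_atTop_nhds_zero.comp e1).const_mul n₁)
  have t2 := ENNReal.tendsto_ofReal (tends (2 * n₂) (show 0 < ε / 2 * θ by positivity))
  have t3 := t1.add t2
  simp only [mul_zero, ENNReal.ofReal_zero, add_zero] at t3
  refine tendsto_of_tendsto_of_tendsto_of_le_of_le' tendsto_const_nhds t3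
    (Eventually.of_forall fun _ => zero_le) ?_
  filter_upwards [e1.eventually hf, e2.eventually_ge_atTop T₀, e2.eventually_ge_atTop 1,
    e1.eventually_ge_atTop 1] with τ a1 a2 a3 a4
  let S : ℕ → Set (Mon ν d → ℂ) := fun T => {c | θ * τ / 4 ≤ T ∧ c ∈ U ∧
    ∃ (e : Fin p → Fin ν) (A : Fin ν → Fin p → ℂ) (f : ℂ → Fin p → ℂ),
      Function.Injective e ∧ ‖A‖ ≤ 1 ∧ Disc ρ' K T f ∧
      Apx c e A (exp (-((195 + 15 * d) * (K₁ * T)))) ρ' f}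
  have b2 : volume (⋃ T ∈ Finset.range (τ + 1), S T) ≤
      ENNReal.ofReal (2 * n₂ * (τ : ℝ) ^ 2 * exp (-(ε / 2 * θ * τ / 4))) := by
    refine cover_le volume _ S (x := n₂ * τ * exp (-(ε / 2 * θ * τ / 4))) ?_
      (fun T hT => ?_) subset_rfl
    · rw [Finset.card_range]
      push_cast
      calc ((τ : ℝ) + 1) * (n₂ * τ * exp (-(ε / 2 * θ * τ / 4))) ≤
            (2 * τ) * (n₂ * τ * exp (-(ε / 2 * θ * τ / 4))) := by gcongr; linarith
        _ = _ := by ring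
    · by_cases h : θ * τ / 4 ≤ T
      · refine (measure_mono fun c hc => hc.2).trans ((hs T (a2.trans h)).trans
          (ENNReal.ofReal_le_ofReal ?_))
        have : T ≤ τ := Nat.lt_succ_iff.1 (Finset.mem_range.1 hT)
        have h' := mul_le_mul_of_nonneg_left h hε.le
        gcongr n₂ * ?_ * exp ?_
        · exact_mod_cast this
        · linarith
      · rw [show S T = ∅ from Set.eq_empty_of_forall_notMem fun c hc => h hc.1]; simp
  refine (measure_mono ?_).trans ((measure_union_le _ _).trans (add_le_add a1 b2))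
  rintro c ⟨hc, hb⟩
  simp only [Hyp, not_forall, not_le] at hb
  obtain ⟨e, A, f, z, t, he, hA, f1, ht, f2, f3⟩ := hb
  obtain ⟨g, ⟨k1, k2, k3⟩ | ⟨T, k0, k0', k1, k2⟩⟩ := hS θ hθ (by linarith) p f z t τ f1 ht
    (fun w hw => (f2 w hw).1) (by linarith) f3.le
  · refine Or.inl ⟨hc, e, A, g, he, hA, k2, k3, apx_of_from k1 (fun w hw => (f2 w hw).2) ?_⟩
    rw [mul_assoc]
    gcongr
  · refine Or.inr (Set.mem_iUnion₂.2 ⟨T, Finset.mem_range.2 (by omega), k0, hc, e, A, g, he, hA,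
      k2, apx_of_from k1 (fun w hw => (f2 w hw).2) ?_⟩)
    rw [mul_assoc]
    gcongr

end

end Pool.Agent.Lib.MP_45f16c_ag.EX
end

-- part Pool.Agent.Lib.MP_45f16c_ag.EX.U0
section

/-! The small linear form. -/

set_option autoImplicit false
open Metric MeasureTheory MvPolynomial Filter Real
open scoped ComplexConjugate Matrix Topology

namespace Pool.Agent.Lib.MP_45f16c_ag.EX

open AS

noncomputable section

namespace U0Aux

variable {ν : ℕ}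

theorem avg_lin {f g : ℂ → ℝ} {t a b : ℝ} (ht : 0 < t) (hf : ContinuousOn f (sphere 0 t))
    (hg : ContinuousOn g (sphere 0 t)) (h : ∀ z ∈ sphere (0 : ℂ) t, f z ≤ a * g z + b) :
    circleAverage f 0 t ≤ a * circleAverage g 0 t + b := by
  have h1 : ContinuousOn (fun z => a • g z) (sphere (0 : ℂ) t) := hg.const_smul a
  have h2 := circleAverage_mono (f₂ := fun z => a • g z + b) (hf.circleIntegrable ht.le)
    ((h1.add continuousOn_const).circleIntegrable ht.le) fun z hz => by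
      rw [abs_of_pos ht] at hz; exact h z hz
  rwa [circleAverage_fun_add (h1.circleIntegrable ht.le)
    (continuousOn_const.circleIntegrable ht.le), circleAverage_fun_smul, circleAverage_const,
    smul_eq_mul] at h2

/-- The normalised rows of the bivector. -/
def pp (x u : Fin ν → ℂ) (i : Fin ν) : Fin ν → ℂ := fun a => bv x u (i, a) / (‖bv x u‖ : ℝ)

theorem norm_pp_le (x u : Fin ν → ℂ) (i : Fin ν) : ‖pp x u i‖ ≤ 1 :=
  (pi_norm_le_iff_of_nonneg zero_le_one).2 fun a => by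
    rw [pp, norm_div, Complex.norm_real, norm_norm]
    exact div_le_one_of_le₀ (norm_le_pi_norm _ _) (norm_nonneg _)

theorem dot_pp (q x u : Fin ν → ℂ) (i : Fin ν) :
    q ⬝ᵥ pp x u i = (x i * (q ⬝ᵥ u) - u i * (q ⬝ᵥ x)) / (‖bv x u‖ : ℝ) := by
  simp only [dotProduct, pp, bv, Finset.mul_sum, ← Finset.sum_sub_distrib, Finset.sum_div]
  exact Finset.sum_congr rfl fun a _ => by ring

theorem cont_pp {x u : ℂ → Fin ν → ℂ} {s : Set ℂ} (hx : ContinuousOn x s) (hu : ContinuousOn u s)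
    (h : ∀ z ∈ s, bv (x z) (u z) ≠ 0) (i : Fin ν) : ContinuousOn (fun z => pp (x z) (u z) i) s := by
  have h1 : ContinuousOn (fun z => bv (x z) (u z)) s :=
    continuous_bv.comp_continuousOn (hx.prodMk hu)
  refine continuousOn_pi.2 fun a => ?_
  refine (continuousOn_pi.1 h1 (i, a)).div (Complex.continuous_ofReal.comp_continuousOn h1.norm)
    fun z hz => ?_
  exact Complex.ofReal_ne_zero.2 (norm_ne_zero_iff.2 (h z hz))

/-- A short form with the same restriction to the plane. -/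
theorem short {x u : Fin ν → ℂ} (h : bv x u ≠ 0) (U : Fin ν → ℂ) {ρ : ℝ}
    (hρ : ∀ i, ‖U ⬝ᵥ pp x u i‖ ≤ ρ) :
    ∃ U' : Fin ν → ℂ, (U - U') ⬝ᵥ x = 0 ∧ (U - U') ⬝ᵥ u = 0 ∧ nl U' ≤ 2 * ρ := by
  obtain ⟨b, b', y, y', -, hn, hy, hy', -, -, -, -, -, -, ex, eu, -⟩ := frame h
  have hp : (0 : ℝ) < ‖bv x u‖ := norm_pos_iff.2 h
  have h0 : bv x u (b, b') ≠ 0 := norm_pos_iff.1 (hn ▸ hp)
  have hc : ((‖bv x u‖ : ℝ) : ℂ) ≠ 0 := Complex.ofReal_ne_zero.2 hp.ne'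
  have hk : ‖((‖bv x u‖ : ℝ) : ℂ) / bv x u (b, b')‖ = 1 := by
    rw [norm_div, Complex.norm_real, norm_norm, hn, div_self hp.ne']
  have e1 : y = (-(((‖bv x u‖ : ℝ) : ℂ) / bv x u (b, b'))) • pp x u b' := funext fun a => by
    have : bv x u (a, b') = -bv x u (b', a) := by simp only [bv]; ring
    rw [hy, this, Pi.smul_apply, pp, smul_eq_mul]; field_simp
  have e2 : y' = (((‖bv x u‖ : ℝ) : ℂ) / bv x u (b, b')) • pp x u b := funext fun a => by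
    rw [hy', Pi.smul_apply, pp, smul_eq_mul]; field_simp
  have n1' : ‖U ⬝ᵥ y‖ ≤ ρ := by
    rw [e1, dotProduct_smul, norm_smul, norm_neg, hk, one_mul]; exact hρ _
  have n2' : ‖U ⬝ᵥ y'‖ ≤ ρ := by
    rw [e2, dotProduct_smul, norm_smul, hk, one_mul]; exact hρ _
  have key : ∀ w : Fin ν → ℂ, w = w b • y + w b' • y' →
      (U - (Pi.single b (U ⬝ᵥ y) + Pi.single b' (U ⬝ᵥ y'))) ⬝ᵥ w = 0 := fun w hw => by
    have : U ⬝ᵥ w = w b * (U ⬝ᵥ y) + w b' * (U ⬝ᵥ y') := by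
      conv_lhs => rw [hw]
      rw [dotProduct_add, dotProduct_smul, dotProduct_smul, smul_eq_mul, smul_eq_mul]
    rw [sub_dotProduct, add_dotProduct, single_dotProduct, single_dotProduct, this]; ring
  refine ⟨_, key x ex, key u eu, (nl_add_le _ _).trans ?_⟩
  rw [nl_single, nl_single]; linarith

/-- The quadratic quantity of the duality lemma. -/
def WW (ε : ℝ) (x u U : ℂ → Fin ν → ℂ) (z : ℂ) : ℝ :=
  ∑ i, ‖U z ⬝ᵥ pp (x z) (u z) i‖ ^ 2 + ε ^ 2 * ∑ a, ‖U z a‖ ^ 2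

theorem WW_nonneg (ε : ℝ) (x u U : ℂ → Fin ν → ℂ) (z : ℂ) : 0 ≤ WW ε x u U z := by
  unfold WW; positivity

theorem le_WW1 (ε : ℝ) (x u U : ℂ → Fin ν → ℂ) (z : ℂ) (i : Fin ν) :
    ‖U z ⬝ᵥ pp (x z) (u z) i‖ ^ 2 ≤ WW ε x u U z := by
  have h1 := Finset.single_le_sum (f := fun i => ‖U z ⬝ᵥ pp (x z) (u z) i‖ ^ 2)
    (fun _ _ => sq_nonneg _) (Finset.mem_univ i)
  have h2 : 0 ≤ ε ^ 2 * ∑ a, ‖U z a‖ ^ 2 := by positivity
  unfold WW; linarith

theorem le_WW2 (ε : ℝ) (x u U : ℂ → Fin ν → ℂ) (z : ℂ) (a : Fin ν) :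
    (ε * ‖U z a‖) ^ 2 ≤ WW ε x u U z := by
  have h1 := Finset.single_le_sum (f := fun a => ‖U z a‖ ^ 2)
    (fun _ _ => sq_nonneg _) (Finset.mem_univ a)
  have h2 : 0 ≤ ∑ i, ‖U z ⬝ᵥ pp (x z) (u z) i‖ ^ 2 := by positivity
  have h3 := mul_le_mul_of_nonneg_left h1 (sq_nonneg ε)
  unfold WW; rw [mul_pow]; linarith

theorem WW_smul (ε : ℝ) (x u U : ℂ → Fin ν → ℂ) (s : ℂ) (z : ℂ) :
    WW ε x u (fun z => s • U z) z = ‖s‖ ^ 2 * WW ε x u U z := by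
  simp only [WW, smul_dotProduct, Pi.smul_apply, norm_smul, mul_pow, mul_add, Finset.mul_sum]
  congr 1
  exact Finset.sum_congr rfl fun a _ => by ring

theorem cont_WW (ε : ℝ) {x u U : ℂ → Fin ν → ℂ} {s : Set ℂ} (hx : ContinuousOn x s)
    (hu : ContinuousOn u s) (h : ∀ z ∈ s, bv (x z) (u z) ≠ 0) (hU : Continuous U) :
    ContinuousOn (WW ε x u U) s := by
  have h1 : ∀ a, ContinuousOn (fun z => U z a) s := fun a =>
    ((continuous_apply a).comp hU).continuousOn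
  refine ContinuousOn.add (continuousOn_finsetSum _ fun i _ => ?_)
    (continuousOn_const.mul (continuousOn_finsetSum _ fun a _ => (h1 a).norm.pow 2))
  refine (ContinuousOn.norm ?_).pow 2
  exact continuousOn_finsetSum _ fun a _ => (h1 a).mul (continuousOn_pi.1 (cont_pp hx hu h i) a)

/-- The conclusion from the first alternative of the duality lemma. -/
theorem fin {x u U : ℂ → Fin ν → ℂ} {x₀ u₀ v v' V : Fin ν → ℂ} {t ε B : ℝ} (ht : 0 < t)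
    (hε : 0 < ε) (hB : 1 ≤ B) (hεB : ε * B ≤ 1) (hx : ContinuousOn x (sphere 0 t))
    (hu : ContinuousOn u (sphere 0 t)) (h : ∀ z ∈ sphere (0 : ℂ) t, bv (x z) (u z) ≠ 0)
    (hU : Differentiable ℂ U) (hav : circleAverage (WW ε x u U) 0 t ≤ (B ^ 2)⁻¹)
    (h1 : U 0 ⬝ᵥ v = 1) (h2 : ‖U 0 ⬝ᵥ v'‖ ≤ 1) (h3 : V ⬝ᵥ v = 0) (h4 : V ⬝ᵥ v' = 1)
    (hv : ‖v‖ ≤ 1) (hv' : ‖v'‖ ≤ 1) (hx₀ : ∃ s s' : ℂ, x₀ = s • v + s' • v')
    (hu₀ : ∃ s s' : ℂ, u₀ = s • v + s' • v') :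
    ∃ (ρ : ℂ → ℝ) (P P' : Fin ν → ℂ), ContinuousOn ρ (sphere 0 t) ∧
      (∀ z ∈ sphere (0 : ℂ) t, 0 < ρ z ∧ nl (U z) ≤ ν * ε⁻¹ * ρ z ∧ ∃ U' : Fin ν → ℂ,
        (U z - U') ⬝ᵥ x z = 0 ∧ (U z - U') ⬝ᵥ u z = 0 ∧ nl U' ≤ 2 * ρ z) ∧
      circleAverage (fun z => log (ρ z)) 0 t ≤ 1 / 2 - log B ∧
      U 0 ⬝ᵥ P = 1 ∧ V ⬝ᵥ P = 0 ∧ U 0 ⬝ᵥ P' = 0 ∧ V ⬝ᵥ P' = 1 ∧ ‖P‖ ≤ 2 ∧ ‖P'‖ ≤ 2 ∧
      nl (U 0) ≤ ν * ε⁻¹ ∧ (∃ s s' : ℂ, x₀ = s • P + s' • P') ∧
      ∃ s s' : ℂ, u₀ = s • P + s' • P' := by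
  have hW := cont_WW ε hx hu h hU.continuous
  have hB0 : 0 < B := by linarith
  have hpos : ∀ z, 0 < WW ε x u U z + ε ^ 2 := fun z => by
    have := WW_nonneg ε x u U z; positivity
  have hρ : ∀ z, 0 < √(WW ε x u U z + ε ^ 2) := fun z => sqrt_pos.2 (hpos z)
  have hcρ : ContinuousOn (fun z => √(WW ε x u U z + ε ^ 2)) (sphere 0 t) :=
    (hW.add continuousOn_const).sqrt
  have hspan : ∀ w : Fin ν → ℂ, (∃ s s' : ℂ, w = s • v + s' • v') →
      ∃ s s' : ℂ, w = s • v + s' • (v' - (U 0 ⬝ᵥ v') • v) := fun w ⟨s, s', e⟩ =>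
    ⟨s + s' * (U 0 ⬝ᵥ v'), s', by rw [e]; module⟩
  have hBi : (B ^ 2)⁻¹ ≤ 1 := inv_le_one_of_one_le₀ (one_le_pow₀ hB)
  refine ⟨fun z => √(WW ε x u U z + ε ^ 2), v, v' - (U 0 ⬝ᵥ v') • v, hcρ, fun z hz => ⟨hρ z, ?_,
    short (h z hz) (U z) fun i => ?_⟩, ?_, h1, h3, ?_, ?_, by linarith, ?_, ?_, hspan _ hx₀,
    hspan _ hu₀⟩
  · refine (nl_le _).trans ?_
    rw [mul_assoc]
    refine mul_le_mul_of_nonneg_left ?_ (Nat.cast_nonneg _)
    refine (pi_norm_le_iff_of_nonneg (mul_pos (inv_pos.2 hε) (hρ z)).le).2 fun a => ?_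
    rw [le_inv_mul_iff₀ hε]
    exact le_sqrt_of_sq_le ((le_WW2 ε x u U z a).trans (le_add_of_nonneg_right (sq_nonneg _)))
  · exact le_sqrt_of_sq_le ((le_WW1 ε x u U z i).trans (le_add_of_nonneg_right (sq_nonneg _)))
  · refine (avg_lin (a := B ^ 2 / 2) (b := (ε * B) ^ 2 / 2 - 1 / 2 - log B) ht
      (hcρ.log fun z _ => (hρ z).ne') hW fun z _ => ?_).trans ?_
    · have e := log_le_sub_one_of_pos (mul_pos (hpos z) (pow_pos hB0 2))
      rw [log_mul (hpos z).ne' (pow_pos hB0 2).ne', log_pow] at e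
      rw [log_sqrt (hpos z).le]
      push_cast at e
      nlinarith
    · have e := mul_le_mul_of_nonneg_left hav (show 0 ≤ B ^ 2 / 2 by positivity)
      have e2 : B ^ 2 / 2 * (B ^ 2)⁻¹ = 1 / 2 := by field_simp
      have e3 : (ε * B) ^ 2 ≤ 1 := pow_le_one₀ (by positivity) hεB
      linarith
  · rw [dotProduct_sub, dotProduct_smul, h1]; simp
  · rw [dotProduct_sub, dotProduct_smul, h3, h4]; simp
  · refine (norm_sub_le _ _).trans ?_
    rw [norm_smul]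
    nlinarith [norm_nonneg v, norm_nonneg (U 0 ⬝ᵥ v')]
  · refine (nl_le _).trans (mul_le_mul_of_nonneg_left ?_ (Nat.cast_nonneg _))
    refine (pi_norm_le_iff_of_nonneg (inv_pos.2 hε).le).2 fun a => ?_
    obtain ⟨c, hc, e⟩ := Complex.exists_norm_eq_mul_self (U 0 a)
    have hd : Differentiable ℂ fun z => c * U z a := (differentiable_pi.1 hU a).const_mul c
    have m := GaugeAux.re_mean (U := Set.univ) hd.differentiableOn (z := 0) ht (Set.subset_univ _)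
    rw [← e, Complex.ofReal_re] at m
    rw [← m]
    refine (avg_lin (a := ε⁻¹ / 2) (b := ε⁻¹ / 2) ht
      (Complex.continuous_re.comp hd.continuous).continuousOn hW fun z _ => ?_).trans ?_
    · have e1 : (c * U z a).re ≤ ‖U z a‖ :=
        (Complex.re_le_norm _).trans (by rw [norm_mul, hc, one_mul])
      have e2 := le_WW2 ε x u U z a
      have e3 : ‖U z a‖ = ε⁻¹ * (ε * ‖U z a‖) := by field_simp
      have e4 : ε * ‖U z a‖ ≤ WW ε x u U z / 2 + 1 / 2 := by nlinarith [sq_nonneg (ε * ‖U z a‖ - 1)]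
      have e5 := mul_le_mul_of_nonneg_left e4 (inv_pos.2 hε).le
      calc (c * U z a).re ≤ ε⁻¹ * (ε * ‖U z a‖) := e1.trans e3.le
        _ ≤ _ := e5.trans (le_of_eq (by ring))
    · have e := mul_le_mul_of_nonneg_left (hav.trans hBi) (show 0 ≤ ε⁻¹ / 2 by positivity)
      linarith

/-- The same without the condition on the second vector. -/
theorem fin2 {x u U : ℂ → Fin ν → ℂ} {x₀ u₀ v v' V V' : Fin ν → ℂ} {t ε B : ℝ} (ht : 0 < t)
    (hε : 0 < ε) (hB : 1 ≤ B) (hεB : ε * B ≤ 1) (hx : ContinuousOn x (sphere 0 t))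
    (hu : ContinuousOn u (sphere 0 t)) (h : ∀ z ∈ sphere (0 : ℂ) t, bv (x z) (u z) ≠ 0)
    (hU : Differentiable ℂ U) (hav : circleAverage (WW ε x u U) 0 t ≤ (B ^ 2)⁻¹)
    (h1 : U 0 ⬝ᵥ v = 1) (h3 : V ⬝ᵥ v = 0) (h4 : V ⬝ᵥ v' = 1) (h5 : V' ⬝ᵥ v = 1)
    (h6 : V' ⬝ᵥ v' = 0) (nV : nl V ≤ 2) (nV' : nl V' ≤ 2)
    (hv : ‖v‖ ≤ 1) (hv' : ‖v'‖ ≤ 1) (hx₀ : ∃ s s' : ℂ, x₀ = s • v + s' • v')
    (hu₀ : ∃ s s' : ℂ, u₀ = s • v + s' • v') :
    ∃ (U : ℂ → Fin ν → ℂ) (ρ : ℂ → ℝ) (V P P' : Fin ν → ℂ), Differentiable ℂ U ∧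
      ContinuousOn ρ (sphere 0 t) ∧
      (∀ z ∈ sphere (0 : ℂ) t, 0 < ρ z ∧ nl (U z) ≤ ν * ε⁻¹ * ρ z ∧ ∃ U' : Fin ν → ℂ,
        (U z - U') ⬝ᵥ x z = 0 ∧ (U z - U') ⬝ᵥ u z = 0 ∧ nl U' ≤ 2 * ρ z) ∧
      circleAverage (fun z => log (ρ z)) 0 t ≤ 1 / 2 - log B ∧
      U 0 ⬝ᵥ P = 1 ∧ V ⬝ᵥ P = 0 ∧ U 0 ⬝ᵥ P' = 0 ∧ V ⬝ᵥ P' = 1 ∧ ‖P‖ ≤ 2 ∧ ‖P'‖ ≤ 2 ∧
      nl (U 0) ≤ ν * ε⁻¹ ∧ nl V ≤ 2 ∧ (∃ s s' : ℂ, x₀ = s • P + s' • P') ∧
      ∃ s s' : ℂ, u₀ = s • P + s' • P' := by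
  by_cases h2 : ‖U 0 ⬝ᵥ v'‖ ≤ 1
  · obtain ⟨ρ, P, P', a1, a2, a3, a4, a5, a6, a7, a8, a9, a10, a11, a12⟩ :=
      fin ht hε hB hεB hx hu h hU hav h1 h2 h3 h4 hv hv' hx₀ hu₀
    exact ⟨U, ρ, V, P, P', hU, a1, a2, a3, a4, a5, a6, a7, a8, a9, a10, nV, a11, a12⟩
  · push Not at h2
    have hs : U 0 ⬝ᵥ v' ≠ 0 := norm_pos_iff.1 (zero_lt_one.trans h2)
    have hn : ‖(U 0 ⬝ᵥ v')⁻¹‖ ≤ 1 := by rw [norm_inv]; exact inv_le_one_of_one_le₀ h2.le
    have hU' : Differentiable ℂ fun z => (U 0 ⬝ᵥ v')⁻¹ • U z := hU.fun_const_smul _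
    have hW := cont_WW ε hx hu h hU.continuous
    have hav' : circleAverage (WW ε x u fun z => (U 0 ⬝ᵥ v')⁻¹ • U z) 0 t ≤ (B ^ 2)⁻¹ := by
      refine (avg_lin (a := 1) (b := 0) ht (cont_WW ε hx hu h hU'.continuous) hW
        fun z _ => ?_).trans (by linarith)
      rw [WW_smul, add_zero]
      exact mul_le_mul_of_nonneg_right (pow_le_one₀ (norm_nonneg _) hn) (WW_nonneg _ _ _ _ _)
    have sw : ∀ w : Fin ν → ℂ, (∃ s s' : ℂ, w = s • v + s' • v') →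
        ∃ s s' : ℂ, w = s • v' + s' • v := fun w ⟨s, s', e⟩ => ⟨s', s, by rw [e, add_comm]⟩
    obtain ⟨ρ, P, P', a1, a2, a3, a4, a5, a6, a7, a8, a9, a10, a11, a12⟩ :=
      fin (v := v') (v' := v) (V := V') ht hε hB hεB hx hu h hU' hav'
        (by rw [smul_dotProduct, smul_eq_mul, inv_mul_cancel₀ hs])
        (by rw [smul_dotProduct, h1, smul_eq_mul, mul_one]; exact hn) h6 h5 hv' hv (sw _ hx₀)
        (sw _ hu₀)
    exact ⟨_, ρ, V', P, P', hU', a1, a2, a3, a4, a5, a6, a7, a8, a9, a10, nV', a11, a12⟩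

end U0Aux

open U0Aux in
theorem u0S (hD : DLStmt) (hR : RHStmt) : U0Stmt := by
  intro ν dF c₀ CF hd hc
  obtain ⟨C₁, hC₁, hRH⟩ := hR ν dF c₀ CF hd hc
  have hν : (0 : ℝ) ≤ ν := Nat.cast_nonneg _
  refine ⟨C₁ + ν + 2, by linarith, ?_⟩
  intro F x m u u₀ t δ E ht hδ hE hH hdx hx0 hsz hu hb hb0
  have ht0 : 0 < t := zero_lt_one.trans_le ht.1
  have hsub : sphere (0 : ℂ) t ⊆ BB := sphere_subset_ball (by linarith [ht.2])
  have hx : ContinuousOn x (sphere 0 t) := hdx.continuousOn.mono hsub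
  have hd1 : (1 : ℝ) ≤ dF := by exact_mod_cast hd
  obtain ⟨b, b', y, y', -, -, -, -, ny, ny', yb, yb', y'b, y'b', ex, eu, -, -, -, nb⟩ := frame hb0
  have hC : 0 ≤ (C₁ + ν + 2) * δ := by positivity
  by_cases hτ : Tch x 0 t / (2 * dF) ≤ C₁
  · refine ⟨fun _ => Pi.single b 1, fun _ => 1, Pi.single b' 1, y, y', differentiable_const _,
      continuousOn_const, fun z _ => ⟨one_pos, ?_, Pi.single b 1, by simp, by simp, ?_⟩, ?_,
      by simpa using yb, by simpa using yb', by simpa using y'b, by simpa using y'b', by linarith,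
      by linarith, ?_, ?_, ⟨_, _, ex⟩, ⟨_, _, eu⟩⟩
    · rw [nl_single, norm_one, mul_one]; exact one_le_exp hC
    · rw [nl_single]; norm_num
    · simp only [log_one, circleAverage_const]; linarith
    · rw [nl_single, norm_one]; exact one_le_exp hC
    · rw [nl_single]; norm_num
  push Not at hτ
  have hτδ : Tch x 0 t ≤ δ := by
    have := circleAverage_mono_on_of_le_circle (a := δ) (c := 0) (R := t)
      ((continuousOn_lg hx fun z hz => ne_of_bv (hb z hz)).circleIntegrable ht0.le) fun z hz => by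
        rw [abs_of_pos ht0] at hz
        exact (log_le_iff_le_exp (norm_pos_iff.2 (ne_of_bv (hb z hz)))).2 (hsz z (hsub hz)).2
    rw [Tch, lg, hx0, log_one, sub_zero]; exact this
  have hτ2 : Tch x 0 t / (2 * dF) ≤ δ := by
    rw [div_le_iff₀ (by positivity)]; nlinarith
  set B := exp (Tch x 0 t / (2 * dF) - C₁) with hBdef
  set ε := exp (-(2 * δ)) with hεdef
  have hB : 1 ≤ B := one_le_exp (by linarith)
  have hε : 0 < ε := exp_pos _
  have hε1 : ε ≤ 1 := exp_le_one_iff.2 (by linarith)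
  have hεB : ε * B ≤ 1 := by rw [hεdef, hBdef, ← exp_add]; exact exp_le_one_iff.2 (by linarith)
  have hlog : log B = Tch x 0 t / (2 * dF) - C₁ := log_exp _
  have hQ : ν * ε⁻¹ ≤ exp ((C₁ + ν + 2) * δ) := by
    rw [hεdef, ← exp_neg, neg_neg]
    have e1 : (ν : ℝ) ≤ exp (ν * δ) := by
      have := add_one_le_exp (ν * δ); nlinarith
    refine (mul_le_mul_of_nonneg_right e1 (exp_pos _).le).trans ?_
    rw [← exp_add]; exact exp_le_exp.2 (by nlinarith)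
  have DL := fun v => hD ν (Fin ν) (fun i z => pp (x z) (u z) i) v t ε B ht0 hε hε1 (by linarith)
    (cont_pp hx hu hb) fun i z _ => norm_pp_le _ _ i
  have out : (∃ (U : ℂ → Fin ν → ℂ) (ρ : ℂ → ℝ) (V P P' : Fin ν → ℂ), Differentiable ℂ U ∧
      ContinuousOn ρ (sphere 0 t) ∧
      (∀ z ∈ sphere (0 : ℂ) t, 0 < ρ z ∧ nl (U z) ≤ ν * ε⁻¹ * ρ z ∧ ∃ U' : Fin ν → ℂ,
        (U z - U') ⬝ᵥ x z = 0 ∧ (U z - U') ⬝ᵥ u z = 0 ∧ nl U' ≤ 2 * ρ z) ∧
      circleAverage (fun z => log (ρ z)) 0 t ≤ 1 / 2 - log B ∧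
      U 0 ⬝ᵥ P = 1 ∧ V ⬝ᵥ P = 0 ∧ U 0 ⬝ᵥ P' = 0 ∧ V ⬝ᵥ P' = 1 ∧ ‖P‖ ≤ 2 ∧ ‖P'‖ ≤ 2 ∧
      nl (U 0) ≤ ν * ε⁻¹ ∧ nl V ≤ 2 ∧ (∃ s s' : ℂ, x 0 = s • P + s' • P') ∧
      ∃ s s' : ℂ, u₀ = s • P + s' • P') := by
    have n1' : ∀ a : Fin ν, nl (Pi.single a (1 : ℂ)) ≤ 2 := fun a => by rw [nl_single]; norm_num
    rcases DL y with ⟨U, hU, h1, hav⟩ | ⟨y₁, d1, e1, a1, q1⟩
    · exact fin2 (v := y) (v' := y') (V := Pi.single b' 1) (V' := Pi.single b 1) ht0 hε hB hεB hx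
        hu hb hU hav h1 (by simpa using yb') (by simpa using y'b') (by simpa using yb)
        (by simpa using y'b) (n1' _) (n1' _) ny ny' ⟨_, _, ex⟩ ⟨_, _, eu⟩
    rcases DL y' with ⟨U, hU, h1, hav⟩ | ⟨y₂, d2, e2, a2, q2⟩
    · exact fin2 (v := y') (v' := y) (V := Pi.single b 1) (V' := Pi.single b' 1) ht0 hε hB hεB hx
        hu hb hU hav h1 (by simpa using y'b) (by simpa using yb) (by simpa using y'b')
        (by simpa using yb') (n1' _) (n1' _) ny' ny ⟨_, _, ex.trans (add_comm _ _)⟩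
        ⟨_, _, eu.trans (add_comm _ _)⟩
    exfalso
    rw [Fintype.card_fin] at a1 a2
    have hq : ∀ q : ℂ → Fin ν → ℂ,
        (∀ z ∈ sphere (0 : ℂ) t, nl (q z) ≤ 1 ∧ q z ⬝ᵥ x z = 0 ∧ q z ⬝ᵥ u z = 0) →
        ∀ z ∈ sphere (0 : ℂ) t, nl (q z) ≤ 1 ∧ ∀ i, q z ⬝ᵥ pp (x z) (u z) i = 0 :=
      fun q hq z hz => ⟨(hq z hz).1, fun i => by
        rw [dot_pp, (hq z hz).2.1, (hq z hz).2.2]; simp⟩
    have key := hRH F x m u y₁ y₂ t δ E ε B ht hδ hB hε.le le_rfl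
      (hE.trans (exp_le_exp.2 (by nlinarith))) hH hdx hx0 hsz hu hb
      (by
        rintro w (rfl | rfl)
        · exact ⟨d1, e1 ▸ ny, a1, fun q hc hz => q1 q hc (hq q hz)⟩
        · exact ⟨d2, e2 ▸ ny', a2, fun q hc hz => q2 q hc (hq q hz)⟩)
      ⟨_, _, by rw [e1, e2]; exact ex⟩ (by rw [e1, e2, nb])
    rw [hlog, mul_sub, mul_div_cancel₀ _ (by positivity)] at key
    nlinarith
  obtain ⟨U, ρ, V, P, P', a0, a1, a2, a3, a4, a5, a6, a7, a8, a9, a10, a11, a12, a13⟩ := out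
  refine ⟨U, ρ, V, P, P', a0, a1, fun z hz => ⟨(a2 z hz).1, (a2 z hz).2.1.trans
    (mul_le_mul_of_nonneg_right hQ (a2 z hz).1.le), (a2 z hz).2.2⟩, by linarith, a4, a5, a6, a7, a8,
    a9, a10.trans hQ, a11, a12, a13⟩

end

end Pool.Agent.Lib.MP_45f16c_ag.EX
end
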