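import Pool.Agent.Lib.MP_45f16c_ag.AS.All
import Pool.Agent.Lib.MP_45f16c_ag.EX.DL

import Pool.Agent.Lib.MP_45f16c_ag.EX.Sup






import Pool.Agent.Lib.MP_45f16c_ag.EX.Ap
import Pool.Agent.Lib.MP_45f16c_ag.EX.Fl
import Pool.Agent.Lib.MP_45f16c_ag.EX.Sm
import Pool.Agent.Lib.MP_45f16c_ag.EX.Cnt
import Pool.Agent.Lib.MP_45f16c_ag.EX.R1
import Pool.Agent.Lib.MP_45f16c_ag.EX.RH








import Pool.Agent.Lib.MP_45f16c_ag.EX.U0
import Pool.Agent.Lib.MP_45f16c_ag.EX.Orc



import Pool.Agent.Lib.MP_45f16c_ag.EX.Mid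
import Pool.Agent.Lib.MP_45f16c_ag.EX.An2

import Pool.Agent.Lib.MP_45f16c_ag.EX.Kill
import Pool.Agent.Lib.MP_45f16c_ag.EX.KD
import Pool.Agent.Lib.MP_45f16c_ag.EX.NoRel2
import Pool.Agent.Lib.MP_45f16c_ag.EX.Slot
import Pool.Agent.Lib.MP_45f16c_ag.EX.PiZ

import Pool.Agent.Lib.MP_45f16c_ag.EX.SRel


import Pool.Agent.Lib.MP_45f16c_ag.EX.NLc
import Pool.Agent.Lib.MP_45f16c_ag.EX.NLn



/-! Almost every hypersurface of degree at least `2 n + 1` is smooth and Brody hyperbolic when
the dimension is large. -/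

set_option autoImplicit false

namespace Pool.Agent.Lib.MP_45f16c_ag.EX

open AS

theorem decAll : DecStmt := decS subS

theorem pMAll : PMStmt := pMS radS rootsS

theorem subMAll : SubMStmt := subMS (pois fact)

theorem gainAll : GainStmt :=
  gainS (kPS cramS bdES (r1S pmS) (kLS decAll)) (cenS binS telS) (circS telS)
    (u0S dLS (rHS qfS subMAll plS)) subMAll

theorem midAll : MidStmt :=
  midS (jumpS (preS (ambS decAll lapS) fstS (mMS fact (pois fact) radS) (corS divS)) gainAll
    (finS divDS subMAll) bdES) (caseS (smS cramS pmS flS) cntS)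

theorem noRelAll : NoRel2Stmt :=
  noRel2S (an2S rootsS jmpAll (annS (pois fact)) (badS jmpAll)) (orcS subspS pMAll)
    (killS subspS) kDS midAll supS apS extS htS

theorem noSlowAll : NoSlow2Stmt :=
  noSlow2S (slowCS (piZS (piS lapS) (slotS decAll pmS) (corS divS)) qfS) (startS pMAll) pMAll

theorem mainEX : MainStmt :=
  last2S
    (lev2S (sel2S (gauge (pois fact)) (mono (pois fact)) (dbl (mono (pois fact))))
      (rescS (osc (pois fact))) (fast2S (osc (pois fact)) three) slow
      (core2S (sard bez area detS) (true2S trunc) (region2S interp projS) gdeg2S divS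
        (mon2S (monS fact)) trunc)
      (core3S (sard bez area detS) (true2S trunc) (region2S interp projS) gdeg2S divS
        (mon2S (monS fact)) trunc)
      noSlowAll sRelS relS)
    noRelAll nLcS nLnS num2S mainAS

end Pool.Agent.Lib.MP_45f16c_ag.EX
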