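import Pool.Agent.Lib.MP_45f16c_ag.EX.BN

/-! Basic facts on minors and configurations. -/

set_option autoImplicit false
open Metric MvPolynomial Real
open scoped Matrix

namespace Pool.Agent.Lib.MP_45f16c_ag.EX

open AS

noncomputable section

variable {ν d n N : ℕ} {ι : Type}

theorem dt_apply (I : Fin n → ι) (v : Fin n → ι → ℂ) :
    dt I v = (Matrix.of fun k i => v k (I i)).det := rfl

theorem dt_congr (I : Fin n → ι) {v w : Fin n → ι → ℂ} (h : ∀ k i, v k (I i) = w k (I i)) :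
    dt I v = dt I w := by
  rw [dt_apply, dt_apply]; congr 1; ext k i; exact h k i

theorem dt_zero (I : Fin 0 → ι) (v : Fin 0 → ι → ℂ) : dt I v = 1 := by
  rw [dt_apply, Matrix.det_fin_zero]

theorem dt_one (I : Fin 1 → ι) (v : Fin 1 → ι → ℂ) : dt I v = v 0 (I 0) := by
  rw [dt_apply, Matrix.det_fin_one]; rfl

theorem dt_two (I : Fin 2 → ι) (v : Fin 2 → ι → ℂ) :
    dt I v = v 0 (I 0) * v 1 (I 1) - v 0 (I 1) * v 1 (I 0) := by
  rw [dt_apply, Matrix.det_fin_two]; rfl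

theorem dt_of_not_injective {I : Fin n → ι} (h : ¬Function.Injective I) (v : Fin n → ι → ℂ) :
    dt I v = 0 := by
  simp only [Function.Injective, not_forall] at h
  obtain ⟨i, i', h, hne⟩ := h
  exact Matrix.det_zero_of_column_eq hne fun k => by simp [h]

theorem injective_of_dt {I : Fin n → ι} {v : Fin n → ι → ℂ} (h : dt I v ≠ 0) :
    Function.Injective I := not_not.1 fun h' => h (dt_of_not_injective h' v)

theorem le_card_of_dt [Fintype ι] {I : Fin n → ι} {v : Fin n → ι → ℂ} (h : dt I v ≠ 0) :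
    n ≤ Fintype.card ι := by
  simpa using Fintype.card_le_of_injective I (injective_of_dt h)

theorem norm_dt_le (I : Fin n → ι) (v : Fin n → ι → ℂ) {r A : Fin n → ℝ}
    (h : ∀ k i, ‖v k (I i)‖ ≤ r i * A k) :
    ‖dt I v‖ ≤ n.factorial * (∏ i, r i) * ∏ k, A k := by
  rw [dt_apply, Matrix.det_apply']
  refine (norm_sum_le _ _).trans ((Finset.sum_le_card_nsmul _ _ ((∏ i, r i) * ∏ k, A k)
    fun σ _ => ?_).trans (by simp [Fintype.card_perm, mul_assoc]))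
  have h1 : ‖((Equiv.Perm.sign σ : ℤ) : ℂ)‖ = 1 := by
    rcases Int.units_eq_one_or (Equiv.Perm.sign σ) with h | h <;> simp [h]
  rw [norm_mul, h1, one_mul, norm_prod, ← Equiv.prod_comp σ A, ← Finset.prod_mul_distrib]
  exact Finset.prod_le_prod (fun _ _ => norm_nonneg _) fun i _ => h (σ i) i

theorem norm_dt_le' [Fintype ι] (I : Fin n → ι) (v : Fin n → ι → ℂ) {A : Fin n → ℝ}
    (h : ∀ k, ‖v k‖ ≤ A k) : ‖dt I v‖ ≤ n.factorial * ∏ k, A k := by
  simpa using norm_dt_le I v (r := fun _ => 1) (A := A) fun k i => by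
    rw [one_mul]; exact (norm_le_pi_norm _ _).trans (h k)

theorem differentiableOn_dt [Fintype ι] (I : Fin n → ι) {v : ℂ → Fin n → ι → ℂ} {s : Set ℂ}
    (h : ∀ k, DifferentiableOn ℂ (fun z => v z k) s) :
    DifferentiableOn ℂ (fun z => dt I (v z)) s := by
  simp only [dt_apply, Matrix.det_apply', Matrix.of_apply]
  exact DifferentiableOn.fun_sum fun σ _ => DifferentiableOn.const_mul
    (DifferentiableOn.fun_finsetProd fun i _ => differentiableOn_pi.1 (h (σ i)) (I i)) _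

theorem differentiableOn_dt_cons [Fintype ι] (I : Fin (n + 1) → ι) {c : ℂ → ι → ℂ}
    {v : ℂ → Fin n → ι → ℂ} {s : Set ℂ} (hc : DifferentiableOn ℂ c s)
    (h : ∀ k, DifferentiableOn ℂ (fun z => v z k) s) :
    DifferentiableOn ℂ (fun z => dt I (Fin.cons (c z) (v z))) s :=
  differentiableOn_dt I (Fin.cases hc h)

/-- The minor with a fixed first column. -/
def dtc (I : Fin (n + 1) → ι) (c₀ : ι → ℂ) : (ι → ℂ) [⋀^Fin n]→ₗ[ℂ] ℂ := (dt I).curryLeft c₀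

theorem dtc_apply (I : Fin (n + 1) → ι) (c₀ : ι → ℂ) (v : Fin n → ι → ℂ) :
    dtc I c₀ v = dt I (Fin.cons c₀ v) := rfl

theorem dt_cons_add (I : Fin (n + 1) → ι) (c c' : ι → ℂ) (v : Fin n → ι → ℂ) :
    dt I (Fin.cons (c + c') v) = dt I (Fin.cons c v) + dt I (Fin.cons c' v) :=
  (dt I).toMultilinearMap.cons_add v c c'

theorem dt_cons_smul (I : Fin (n + 1) → ι) (a : ℂ) (c : ι → ℂ) (v : Fin n → ι → ℂ) :
    dt I (Fin.cons (a • c) v) = a * dt I (Fin.cons c v) :=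
  (dt I).toMultilinearMap.cons_smul v a c

theorem dt_cons_sum {α : Type} (S : Finset α) (I : Fin (n + 1) → ι) (c : α → ι → ℂ)
    (v : Fin n → ι → ℂ) :
    dt I (Fin.cons (∑ a ∈ S, c a) v) = ∑ a ∈ S, dt I (Fin.cons (c a) v) := by
  have h := map_sum (dt I).curryLeft c S
  exact (DFunLike.congr_fun h v).trans (by
    rw [← AlternatingMap.coe_multilinearMap, AlternatingMap.coe_multilinearMap]
    induction S using Finset.cons_induction with
    | empty => simp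
    | cons a S ha ih =>
      rw [Finset.sum_cons, Finset.sum_cons, AlternatingMap.add_apply, ih (map_sum _ _ _)]; rfl)

theorem dt_cons_smul_cols (I : Fin (n + 1) → ι) (c₀ : ι → ℂ) (a : Fin n → ℂ) (v : Fin n → ι → ℂ) :
    dt I (Fin.cons c₀ fun k => a k • v k) = (∏ k, a k) * dt I (Fin.cons c₀ v) :=
  (dtc I c₀).map_smul_univ a v

/-- Expansion when the second summands are constant on the blocks. -/
theorem expand {M : Type} [AddCommGroup M] [Module ℂ M] (Λ : M [⋀^Fin N]→ₗ[ℂ] ℂ) (β : Fin N → ℕ)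
    (a c : Fin N → ℂ) (s t : Fin N → M) (hs : ∀ k k', β k = β k' → s k = s k') :
    (Λ fun k => a k • s k + c k • t k) =
      ∑ σ ∈ Finset.univ.filter fun σ : Finset (Fin N) => (σ.image β).card = σ.card,
        (∏ k ∈ σ, a k) * (∏ k ∈ σᶜ, c k) * Λ (σ.piecewise s t) := by
  have h := Λ.map_add_univ (fun k => a k • s k) fun k => c k • t k
  refine h.trans ?_
  rw [Finset.sum_filter]
  refine Finset.sum_congr rfl fun σ _ => ?_
  have e : σ.piecewise (fun k => a k • s k) (fun k => c k • t k) =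
      fun k => σ.piecewise a c k • σ.piecewise s t k := funext fun k => by
    by_cases hk : k ∈ σ <;> simp [hk]
  rw [e, Λ.map_smul_univ, Finset.prod_piecewise, Finset.univ_inter, ← Finset.compl_eq_univ_sdiff,
    smul_eq_mul]
  split_ifs with hσ
  · rfl
  · rw [Finset.card_image_iff] at hσ
    simp only [Set.InjOn, not_forall] at hσ
    obtain ⟨k, hk, k', hk', h1, h2⟩ := hσ
    rw [Λ.map_eq_zero_of_eq _ (i := k) (j := k') (by
      rw [Finset.piecewise_eq_of_mem _ _ _ hk, Finset.piecewise_eq_of_mem _ _ _ hk', hs k k' h1])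
      h2, mul_zero]

variable {T : MP ν →ₗ[ℂ] (ι → ℂ)} {I : Fin (N + 1) → ι} {c₀ : ι → ℂ} {x : Fin ν → ℂ}

theorem Lam_apply (S : Finset (Fin N)) (v : Fin N → ι → ℂ) (g : S → MP ν) :
    Lam T I c₀ S v g = dt I (Fin.cons c₀ fun k => if h : k ∈ S then T (g ⟨k, h⟩) else v k) := rfl

theorem Lam_apply' (S : Finset (Fin N)) (v : Fin N → ι → ℂ) (g : Fin N → MP ν) :
    (Lam T I c₀ S v fun k => g k) = dt I (Fin.cons c₀ (S.piecewise (fun k => T (g k)) v)) := by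
  rw [Lam_apply]; congr 2

theorem uu_dot (v : Fin N → ι → ℂ) (k₁ : Fin N) (G₁ : MP ν) (l : Fin ν → ℂ) :
    l ⬝ᵥ uu T I c₀ v k₁ G₁ = dt I (Fin.cons c₀ (Function.update v k₁ (T (LL l * G₁)))) := by
  rw [← dtc_apply, LL, Finset.sum_mul, map_sum, AlternatingMap.map_update_sum]
  refine Finset.sum_congr rfl fun b _ => ?_
  rw [smul_mul_assoc, map_smul, AlternatingMap.map_update_smul]
  rfl

theorem cols_ex (a₀ : Fin ν) (l : Fin N → Fin ν → ℂ) (G : Fin N → MP ν) :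
    cols T c₀ (fun k => ex a₀ x (l k)) G = Fin.cons c₀ (xc T a₀ x l G) := rfl

theorem dt_xc (a₀ : Fin ν) {l : Fin N → Fin ν → ℂ} (hl : ∀ k, l k ⬝ᵥ x = 0) (G : Fin N → MP ν) :
    dt I (Fin.cons c₀ (xc T a₀ x l G)) = x a₀ ^ N * dt I (cols T c₀ l G) := by
  have e : xc T a₀ x l G = fun k => x a₀ • T (LL (l k) * G k) := funext fun k => by
    rw [xc, ex_of_dot a₀ (hl k), LL_smul, smul_mul_assoc, map_smul]
  rw [e, dt_cons_smul_cols]
  simp [cols]

theorem prod_nn (S : Finset (Fin N)) (l : Fin N → Fin ν → ℂ) (G : Fin N → MP ν) :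
    0 ≤ ∏ k ∈ S, nl (l k) * n1 (G k) :=
  Finset.prod_nonneg fun _ _ => mul_nonneg (nl_nonneg _) (n1_nonneg _)

theorem Nrm.prod_le {l : Fin N → Fin ν → ℂ} {G : Fin N → MP ν} (h : Nrm l G)
    (S : Finset (Fin N)) : ∏ k ∈ S, nl (l k) * n1 (G k) ≤ 1 :=
  Finset.prod_le_one (fun _ _ => mul_nonneg (nl_nonneg _) (n1_nonneg _)) fun k _ =>
    mul_le_one₀ (h k).1 (n1_nonneg _) (h k).2

theorem Bd1.mono {η B B' : ℝ} (h : Bd1 T x d η I c₀ B) (hB : B ≤ B') : Bd1 T x d η I c₀ B' :=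
  fun l G β ha => (h l G β ha).trans (mul_le_mul_of_nonneg_right hB (prod_nn _ _ _))

theorem Bd1.add {η B B' : ℝ} {c₁ : ι → ℂ} (h : Bd1 T x d η I c₀ B) (h' : Bd1 T x d η I c₁ B') :
    Bd1 T x d η I (c₀ + c₁) (B + B') := fun l G β ha => by
  have h1 := h l G β ha
  have h2 := h' l G β ha
  rw [cols] at h1 h2 ⊢
  rw [dt_cons_add, add_mul]
  refine le_trans ?_ (add_le_add h1 h2)
  rw [← mul_add]
  exact mul_le_mul_of_nonneg_left (norm_add_le _ _) (exp_pos _).le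

theorem Bd1.smul {η B : ℝ} (h : Bd1 T x d η I c₀ B) (a : ℂ) :
    Bd1 T x d η I (a • c₀) (‖a‖ * B) := fun l G β ha => by
  have h1 := h l G β ha
  rw [cols] at h1 ⊢
  rw [dt_cons_smul, norm_mul, mul_left_comm, mul_assoc]
  exact mul_le_mul_of_nonneg_left h1 (norm_nonneg _)

theorem adm_smul {a : ℂ} (ha : a ≠ 0) {l : Fin N → Fin ν → ℂ} {G : Fin N → MP ν} {β : Fin N → ℕ} :
    Adm (a • x) d l G β ↔ Adm x d l G β := by
  simp [Adm, ha]

theorem bd1_smul {a : ℂ} (ha : a ≠ 0) {η B : ℝ} : Bd1 T (a • x) d η I c₀ B ↔ Bd1 T x d η I c₀ B := by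
  simp only [Bd1, adm_smul ha]

theorem bd_smul {a : ℂ} (ha : a ≠ 0) {η X : ℝ} {R : Finset ι} {sc : ι → ℝ} :
    Bd T (a • x) d η R sc X ↔ Bd T x d η R sc X := by
  simp only [Bd, bd1_smul ha]

theorem nr_smul {a : ℂ} (ha : a ≠ 0) {η X : ℝ} {R : Finset ι} {sc : ι → ℝ} :
    Nr T (a • x) d η R sc X ↔ Nr T x d η R sc X := by
  simp only [Nr, adm_smul ha]

theorem Fn.mono [Fintype ι] {R : Finset ι} {sc : ι → ℝ} {α : ℂ} {CH E S E' S' : ℝ}
    (h : Fn T x d R sc α CH E S) (hC : 0 ≤ CH) (hE : E ≤ E') (hE' : 0 ≤ E') (hS : 0 ≤ S)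
    (hS' : S ≤ S') : Fn T x d R sc α CH E' S' := by
  obtain ⟨H, h1, h2, h3⟩ := h
  exact ⟨H, h1, h2.trans (by gcongr), fun g hg => (h3 g hg).trans (by
    have := n1_nonneg g
    gcongr)⟩

theorem Fn.smul [Fintype ι] {R : Finset ι} {sc : ι → ℝ} {α : ℂ} {CH E S : ℝ} {a : ℂ}
    (h : Fn T (a • x) d R sc α CH E S) : Fn T x d R sc (α * a ^ (d + 1)) CH E S := by
  obtain ⟨H, h1, h2, h3⟩ := h
  exact ⟨H, h1, h2, fun g hg => by
    rw [mul_assoc, ← eval_smul_of_isHomogeneous hg]; exact h3 g hg⟩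

theorem KL.mono {κ : Type} [Fintype κ] {u : Fin ν → ℂ} {Λ : MP ν [⋀^κ]→ₗ[ℂ] ℂ} {B ε B' ε' : ℝ}
    (h : KL d x u Λ B ε) (h0 : 0 ≤ B) (hB : B ≤ B') (h1 : 0 ≤ ε') (hε : ε ≤ ε') :
    KL d x u Λ B' ε' := fun g hg => by
  have h2 : 0 ≤ ∏ k, n1 (g k) := Finset.prod_nonneg fun _ _ => n1_nonneg _
  exact ⟨(h g hg).1.trans (by gcongr), fun k₀ hk => ((h g hg).2 k₀ hk).trans (by gcongr)⟩

theorem prod_scf {j : ℕ} (x : Fin ν → ℂ) (I : Fin n → Fin ν ⊕ Fin j) :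
    ∏ i, scf j x (I i) = ‖x‖ ^ ∑ i, wv ν j (I i) := Finset.prod_pow_eq_pow_sum _ _ _

theorem wv_le {j : ℕ} (e : Fin ν ⊕ Fin j) : wv ν j e ≤ 1 := by rcases e with e | e <;> simp [wv]

theorem sum_wv_le {j : ℕ} {I : Fin n → Fin ν ⊕ Fin j} (h : Function.Injective I) :
    ∑ i, wv ν j (I i) ≤ ν := by
  rw [← Finset.sum_image (f := wv ν j) h.injOn]
  refine (Finset.sum_le_sum_of_subset (Finset.subset_univ _)).trans ?_
  simp [wv]

theorem Xf_pos (μ : ℝ) (χ : ℂ → ℝ) (N₁ D : ℕ) (f : ℂ → Fin ν → ℂ) (G : ℂ → ℂ) (z : ℂ) :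
    0 < Xf μ χ N₁ D f G z := exp_pos _

theorem Xf_pow {μ : ℝ} {χ : ℂ → ℝ} {N₁ D : ℕ} {f : ℂ → Fin ν → ℂ} {G : ℂ → ℂ} {z : ℂ}
    (hN : 1 ≤ N₁) (hG : G z ≠ 0) :
    Xf μ χ N₁ D f G z ^ N₁ * ‖G z‖ = exp (μ + N₁ * D * lg f z - χ z) := by
  have h : (N₁ : ℝ) ≠ 0 := by exact_mod_cast (by omega : N₁ ≠ 0)
  rw [Xf, ← exp_nat_mul, mul_div_cancel₀ _ h]
  conv_lhs => rw [← exp_log (norm_pos_iff.2 hG), log_exp, ← exp_add]
  congr 1
  ring

end

end Pool.Agent.Lib.MP_45f16c_ag.EX
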