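import Pool.Agent.Lib.MP_45f16c_ag.EX.Stmts

/-! Basic facts on the norms `n1` and `nl`, and on holomorphic families. -/

set_option autoImplicit false
open Metric MvPolynomial Real
open scoped Matrix

namespace Pool.Agent.Lib.MP_45f16c_ag.EX

open AS

noncomputable section

variable {ν d : ℕ} {ι : Type} {P Q : MP ν} {l x : Fin ν → ℂ}

theorem n1_nonneg (P : MP ν) : 0 ≤ n1 P := Finset.sum_nonneg fun _ _ => norm_nonneg _

theorem n1_eq_sum {S : Finset (Fin ν →₀ ℕ)} (h : P.support ⊆ S) : n1 P = ∑ m ∈ S, ‖coeff m P‖ :=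
  Finset.sum_subset h fun m _ hm => by rw [notMem_support_iff.1 hm, norm_zero]

theorem n1_zero : n1 (0 : MP ν) = 0 := by simp [n1]

theorem n1_eq_zero (h : n1 P = 0) : P = 0 := by
  ext m
  by_contra hm
  have := (Finset.sum_eq_zero_iff_of_nonneg fun _ _ => norm_nonneg _).1 h m (mem_support_iff.2 hm)
  exact hm (norm_eq_zero.1 this)

theorem n1_add_le (P Q : MP ν) : n1 (P + Q) ≤ n1 P + n1 Q := by
  rw [n1_eq_sum (support_add (p := P) (q := Q)),
    n1_eq_sum (P := P) (Finset.subset_union_left (s₂ := Q.support)),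
    n1_eq_sum (P := Q) (Finset.subset_union_right (s₁ := P.support)), ← Finset.sum_add_distrib]
  exact Finset.sum_le_sum fun m _ => by rw [coeff_add]; exact norm_add_le _ _

theorem n1_smul (a : ℂ) (P : MP ν) : n1 (a • P) = ‖a‖ * n1 P := by
  rw [n1_eq_sum (support_smul (a := a) (f := P)), n1, Finset.mul_sum]
  exact Finset.sum_congr rfl fun m _ => by rw [coeff_smul, norm_smul]

theorem n1_neg (P : MP ν) : n1 (-P) = n1 P := by simpa using n1_smul (-1) P

theorem n1_sub_le (P Q : MP ν) : n1 (P - Q) ≤ n1 P + n1 Q := by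
  rw [sub_eq_add_neg, ← n1_neg Q]; exact n1_add_le _ _

theorem n1_sum_le {α : Type} (s : Finset α) (P : α → MP ν) :
    n1 (∑ a ∈ s, P a) ≤ ∑ a ∈ s, n1 (P a) :=
  Finset.le_sum_of_subadditive n1 n1_zero.le n1_add_le s P

theorem n1_monomial (m : Fin ν →₀ ℕ) (a : ℂ) : n1 (monomial m a) = ‖a‖ := by
  rw [n1_eq_sum (support_monomial_subset (s := m) (a := a))]; simp

theorem n1_one : n1 (1 : MP ν) = 1 := by simpa using n1_monomial (0 : Fin ν →₀ ℕ) 1

theorem n1_X (a : Fin ν) : n1 (X a : MP ν) = 1 := by rw [X, n1_monomial, norm_one]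

/-- A subadditive, homogeneous function is bounded by its values on the monomials. -/
theorem le_n1 {E : Type} [AddCommGroup E] [Module ℂ E] (N : E → ℝ) (h0 : N 0 ≤ 0)
    (ha : ∀ u v, N (u + v) ≤ N u + N v) (hs : ∀ (a : ℂ) v, N (a • v) ≤ ‖a‖ * N v)
    (T : MP ν →ₗ[ℂ] E) {B : ℝ} (h : ∀ m ∈ P.support, N (T (monomial m 1)) ≤ B) :
    N (T P) ≤ B * n1 P := by
  conv_lhs => rw [P.as_sum, map_sum]
  refine (Finset.le_sum_of_subadditive N h0 ha _ _).trans ?_
  rw [n1, Finset.mul_sum]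
  refine Finset.sum_le_sum fun m hm => ?_
  rw [show monomial m (coeff m P) = coeff m P • monomial m (1 : ℂ) by simp [smul_monomial],
    map_smul, mul_comm]
  exact (hs _ _).trans (mul_le_mul_of_nonneg_left (h m hm) (norm_nonneg _))

theorem norm_map_le {E : Type} [SeminormedAddCommGroup E] [NormedSpace ℂ E] (T : MP ν →ₗ[ℂ] E)
    {B : ℝ} (h : ∀ m ∈ P.support, ‖T (monomial m 1)‖ ≤ B) : ‖T P‖ ≤ B * n1 P :=
  le_n1 norm norm_zero.le norm_add_le norm_smul_le T h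

theorem n1_map_le {μ : ℕ} (T : MP ν →ₗ[ℂ] MP μ) {B : ℝ}
    (h : ∀ m ∈ P.support, n1 (T (monomial m 1)) ≤ B) : n1 (T P) ≤ B * n1 P :=
  le_n1 n1 n1_zero.le n1_add_le (fun a v => (n1_smul a v).le) T h

theorem n1_mul_le (P Q : MP ν) : n1 (P * Q) ≤ n1 P * n1 Q := by
  refine n1_map_le (LinearMap.mulLeft ℂ P) fun m _ => ?_
  have := n1_map_le (P := P) (LinearMap.mulRight ℂ (monomial m (1 : ℂ))) (B := 1) fun m' _ => by
    rw [LinearMap.mulRight_apply, monomial_mul, n1_monomial]; simp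
  rwa [one_mul] at this

theorem n1_mul_le' {A B : ℝ} (hP : n1 P ≤ A) (hQ : n1 Q ≤ B) : n1 (P * Q) ≤ A * B :=
  (n1_mul_le P Q).trans (mul_le_mul hP hQ (n1_nonneg _) ((n1_nonneg _).trans hP))

theorem n1_pow_le {A : ℝ} (hP : n1 P ≤ A) (k : ℕ) : n1 (P ^ k) ≤ A ^ k := by
  induction k with
  | zero => simp [n1_one]
  | succ k ih => rw [pow_succ, pow_succ]; exact n1_mul_le' ih hP

theorem n1_prod_le {α : Type} (s : Finset α) (P : α → MP ν) :
    n1 (∏ a ∈ s, P a) ≤ ∏ a ∈ s, n1 (P a) := by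
  classical
  induction s using Finset.induction_on with
  | empty => simp [n1_one]
  | insert a s ha ih => rw [Finset.prod_insert ha, Finset.prod_insert ha]; exact n1_mul_le' le_rfl ih

theorem n1_LL_le (l : Fin ν → ℂ) : n1 (LL l) ≤ nl l :=
  (n1_sum_le _ _).trans (Finset.sum_le_sum fun a _ => by rw [n1_smul, n1_X, mul_one])

theorem n1_LL_mul_le (l : Fin ν → ℂ) (G : MP ν) : n1 (LL l * G) ≤ nl l * n1 G :=
  n1_mul_le' (n1_LL_le l) le_rfl

theorem n1_LL_pow_le (l : Fin ν → ℂ) (k : ℕ) : n1 (LL l ^ k) ≤ nl l ^ k := n1_pow_le (n1_LL_le l) k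

theorem hom_LL_mul (l : Fin ν → ℂ) (h : P.IsHomogeneous d) : (LL l * P).IsHomogeneous (d + 1) := by
  rw [add_comm]; exact (LL_hom l).mul h

theorem hom_smul (a : ℂ) (h : P.IsHomogeneous d) : (a • P).IsHomogeneous d :=
  (homogeneousSubmodule (Fin ν) ℂ d).smul_mem a h

theorem degree_of_mem (h : P.IsHomogeneous d) {m : Fin ν →₀ ℕ} (hm : m ∈ P.support) :
    m.degree = d := by
  by_contra h'
  exact mem_support_iff.1 hm (h.coeff_eq_zero h')

theorem n1_eq_sum_mon (h : P.IsHomogeneous d) : n1 P = ∑ m : Mon ν d, ‖coeff m.1 P‖ := by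
  rw [n1_eq_sum (S := Finset.finsuppAntidiag Finset.univ d)
    fun m hm => mem_mon.2 (degree_of_mem h hm)]
  exact (Finset.sum_coe_sort _ fun m => ‖coeff m P‖).symm

theorem eval_eq_sum_mon (h : P.IsHomogeneous d) (x : Fin ν → ℂ) :
    eval x P = ∑ m : Mon ν d, coeff m.1 P * mon m x := by
  conv_lhs => rw [← form_coeff h, eval_form]

/-- Sums against the coefficients. -/
theorem norm_sum_coeff_le (h : P.IsHomogeneous d) {w : Mon ν d → ℂ} {B : ℝ} (hw : ∀ m, ‖w m‖ ≤ B) :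
    ‖∑ m : Mon ν d, coeff m.1 P * w m‖ ≤ B * n1 P := by
  rw [n1_eq_sum_mon h, Finset.mul_sum]
  refine (norm_sum_le _ _).trans (Finset.sum_le_sum fun m _ => ?_)
  rw [norm_mul, mul_comm]
  exact mul_le_mul_of_nonneg_right (hw m) (norm_nonneg _)

theorem norm_eval_le (h : P.IsHomogeneous d) (x : Fin ν → ℂ) : ‖eval x P‖ ≤ n1 P * ‖x‖ ^ d := by
  rw [eval_eq_sum_mon h, mul_comm]
  exact norm_sum_coeff_le h fun m => norm_mon_le m x

theorem n1_form_le (c : Mon ν d → ℂ) : n1 (form c) ≤ Fintype.card (Mon ν d) * ‖c‖ := by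
  rw [n1_eq_sum_mon (form_isHomogeneous c)]
  refine (Finset.sum_le_card_nsmul _ _ ‖c‖ fun m _ => ?_).trans (by simp)
  rw [coeff_form]; exact norm_le_pi_norm c m

theorem n1_pderiv_le (h : P.IsHomogeneous d) (a : Fin ν) : n1 (pderiv a P) ≤ d * n1 P :=
  n1_map_le (pderiv a : Derivation ℂ (MP ν) (MP ν)).toLinearMap fun m hm => by
    have h1 : m a ≤ d := degree_of_mem h hm ▸ Finsupp.le_degree a m
    rw [Derivation.coeFn_coe, pderiv_monomial, n1_monomial]
    simpa using h1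

theorem exists_bound {E : Type} [SeminormedAddCommGroup E] [NormedSpace ℂ E] (T : MP ν →ₗ[ℂ] E)
    (d : ℕ) : ∃ B : ℝ, 0 ≤ B ∧ ∀ P : MP ν, P.IsHomogeneous d → ‖T P‖ ≤ B * n1 P :=
  ⟨‖fun m : Mon ν d => T (monomial m.1 1)‖, norm_nonneg _, fun _ h => norm_map_le T fun m hm =>
    norm_le_pi_norm (fun m : Mon ν d => T (monomial m.1 1)) ⟨m, mem_mon.2 (degree_of_mem h hm)⟩⟩

/-! ### Linear forms -/

theorem nl_nonneg (l : Fin ν → ℂ) : 0 ≤ nl l := Finset.sum_nonneg fun _ _ => norm_nonneg _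

theorem nl_zero : nl (0 : Fin ν → ℂ) = 0 := by simp [nl]

theorem nl_add_le (l l' : Fin ν → ℂ) : nl (l + l') ≤ nl l + nl l' := by
  rw [nl, nl, nl, ← Finset.sum_add_distrib]
  exact Finset.sum_le_sum fun a _ => norm_add_le _ _

theorem nl_sub_le (l l' : Fin ν → ℂ) : nl (l - l') ≤ nl l + nl l' := by
  rw [nl, nl, nl, ← Finset.sum_add_distrib]
  exact Finset.sum_le_sum fun a _ => norm_sub_le _ _

theorem nl_smul (a : ℂ) (l : Fin ν → ℂ) : nl (a • l) = ‖a‖ * nl l := by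
  simp [nl, Finset.mul_sum]

theorem nl_single (a : Fin ν) (s : ℂ) : nl (Pi.single a s) = ‖s‖ := by
  rw [nl, Finset.sum_eq_single a (fun b _ hb => by simp [hb]) (by simp)]; simp

theorem norm_le_nl (l : Fin ν → ℂ) : ‖l‖ ≤ nl l :=
  (pi_norm_le_iff_of_nonneg (nl_nonneg l)).2 fun a =>
    Finset.single_le_sum (f := fun a => ‖l a‖) (fun _ _ => norm_nonneg _) (Finset.mem_univ a)

theorem nl_eq_zero (h : nl l = 0) : l = 0 := norm_le_zero_iff.1 (h ▸ norm_le_nl l)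

theorem nl_le (l : Fin ν → ℂ) : nl l ≤ ν * ‖l‖ :=
  (Finset.sum_le_card_nsmul _ _ ‖l‖ fun a _ => norm_le_pi_norm l a).trans (by simp)

theorem norm_dot_le (l x : Fin ν → ℂ) : ‖l ⬝ᵥ x‖ ≤ nl l * ‖x‖ := by
  rw [nl, Finset.sum_mul]
  refine (norm_sum_le _ _).trans (Finset.sum_le_sum fun a _ => ?_)
  rw [norm_mul]
  exact mul_le_mul_of_nonneg_left (norm_le_pi_norm x a) (norm_nonneg _)

theorem lf_eq (l x : Fin ν → ℂ) : lf l x = l ⬝ᵥ x := rfl

theorem continuous_nl : Continuous (nl : (Fin ν → ℂ) → ℝ) := by unfold nl; fun_prop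

theorem exists_max (hx : x ≠ 0) : ∃ a, x a ≠ 0 ∧ ‖x a‖ = ‖x‖ := by
  have : Nonempty (Fin ν) := by
    by_contra h
    rw [not_nonempty_iff] at h
    exact hx (Subsingleton.elim _ _)
  obtain ⟨a, ha⟩ := exists_norm_eq x
  exact ⟨a, norm_pos_iff.1 (ha ▸ norm_pos_iff.2 hx), ha⟩

theorem sh_dot {a₁ : Fin ν} (h : x a₁ ≠ 0) (a : Fin ν) : sh x a₁ a ⬝ᵥ x = 0 := by
  simp [sh, h]

theorem nl_sh_le {a₁ : Fin ν} (h : ‖x a₁‖ = ‖x‖) (a : Fin ν) : nl (sh x a₁ a) ≤ 2 := by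
  refine (nl_sub_le _ _).trans ?_
  rw [nl_smul, nl_single, nl_single, norm_one, mul_one, norm_div, h]
  linarith [div_le_one_of_le₀ (norm_le_pi_norm x a) (norm_nonneg x)]

theorem ex_dot (a₀ : Fin ν) (x l : Fin ν → ℂ) : ex a₀ x l ⬝ᵥ x = 0 := by simp [ex, mul_comm]

theorem ex_of_dot (a₀ : Fin ν) (h : l ⬝ᵥ x = 0) : ex a₀ x l = x a₀ • l := by simp [ex, h]

theorem nl_ex_le (a₀ : Fin ν) (x l : Fin ν → ℂ) : nl (ex a₀ x l) ≤ 2 * ‖x‖ * nl l := by
  refine (nl_sub_le _ _).trans ?_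
  rw [nl_smul, nl_smul, nl_single, norm_one, mul_one]
  nlinarith [norm_dot_le l x, mul_le_mul_of_nonneg_right (norm_le_pi_norm x a₀) (nl_nonneg l)]

/-! ### The map given on monomials -/

theorem TT_apply (t : Mon ν d → ι → ℂ) (P : MP ν) : TT t P = ∑ m : Mon ν d, coeff m.1 P • t m := by
  simp [TT]

theorem TT_apply' (t : Mon ν d → ι → ℂ) (P : MP ν) (e : ι) :
    TT t P e = ∑ m : Mon ν d, coeff m.1 P * t m e := by
  simp [TT_apply]

theorem norm_TT_le (t : Mon ν d → ι → ℂ) (h : P.IsHomogeneous d) {e : ι} {B : ℝ}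
    (ht : ∀ m, ‖t m e‖ ≤ B) : ‖TT t P e‖ ≤ B * n1 P := by
  rw [TT_apply']; exact norm_sum_coeff_le h ht

theorem dot_TT [Fintype ι] (t : Mon ν d → ι → ℂ) (H : ι → ℂ) (P : MP ν) :
    H ⬝ᵥ TT t P = ∑ m : Mon ν d, coeff m.1 P * (H ⬝ᵥ t m) := by
  rw [TT_apply, dotProduct_sum]
  simp

/-! ### Holomorphic families -/

section hol
variable {s : Set ℂ} {g h : ℂ → MP ν}

theorem HolP.const (s : Set ℂ) (P : MP ν) : HolP s fun _ => P := fun _ => differentiableOn_const _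

theorem HolP.add (hg : HolP s g) (hh : HolP s h) : HolP s fun z => g z + h z := fun m => by
  simp only [coeff_add]; exact (hg m).add (hh m)

theorem HolP.sub (hg : HolP s g) (hh : HolP s h) : HolP s fun z => g z - h z := fun m => by
  simp only [coeff_sub]; exact (hg m).sub (hh m)

theorem HolP.smul {a : ℂ → ℂ} (ha : DifferentiableOn ℂ a s) (hg : HolP s g) :
    HolP s fun z => a z • g z := fun m => by
  simp only [coeff_smul, smul_eq_mul]; exact ha.mul (hg m)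

theorem HolP.mul (hg : HolP s g) (hh : HolP s h) : HolP s fun z => g z * h z := fun m => by
  simp only [coeff_mul]
  exact DifferentiableOn.fun_sum fun p _ => (hg _).mul (hh _)

theorem HolP.pow (hg : HolP s g) (k : ℕ) : HolP s fun z => g z ^ k := by
  induction k with
  | zero => simpa using HolP.const s 1
  | succ k ih => simpa only [pow_succ] using ih.mul hg

theorem HolP.sum {α : Type} (S : Finset α) {g : α → ℂ → MP ν} (hg : ∀ a ∈ S, HolP s (g a)) :
    HolP s fun z => ∑ a ∈ S, g a z := fun m => by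
  simp only [coeff_sum]
  exact DifferentiableOn.fun_sum fun a ha => hg a ha m

theorem HolP.LL {l : ℂ → Fin ν → ℂ} (hl : DifferentiableOn ℂ l s) : HolP s fun z => LL (l z) :=
  HolP.sum _ fun a _ => HolP.smul (differentiableOn_pi.1 hl a) (HolP.const s _)

theorem differentiableOn_dot {α : Type} [Fintype α] {l x : ℂ → α → ℂ}
    (hl : DifferentiableOn ℂ l s) (hx : DifferentiableOn ℂ x s) :
    DifferentiableOn ℂ (fun z => l z ⬝ᵥ x z) s :=
  DifferentiableOn.fun_sum fun a _ => (differentiableOn_pi.1 hl a).mul (differentiableOn_pi.1 hx a)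

theorem differentiableOn_ex (a₀ : Fin ν) (l : Fin ν → ℂ) {x : ℂ → Fin ν → ℂ}
    (hx : DifferentiableOn ℂ x s) : DifferentiableOn ℂ (fun z => ex a₀ (x z) l) s :=
  ((differentiableOn_pi.1 hx a₀).smul_const l).sub
    ((differentiableOn_dot (differentiableOn_const l) hx).smul_const _)

variable [Fintype ι]

theorem holT_TT {t : ℂ → Mon ν d → ι → ℂ} (ht : ∀ m, Differentiable ℂ fun z => t z m) (P : MP ν) :
    HolT fun z => TT (t z) ∘ₗ LinearMap.mulLeft ℂ P := fun s g hg => by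
  simp only [LinearMap.comp_apply, LinearMap.mulLeft_apply, TT_apply]
  exact DifferentiableOn.fun_sum fun m _ =>
    (((HolP.const s P).mul hg) m.1).smul (ht m).differentiableOn

theorem holT_TT' {t : ℂ → Mon ν d → ι → ℂ} (ht : ∀ m, Differentiable ℂ fun z => t z m) :
    HolT fun z => TT (t z) := fun s g hg => by
  simpa using holT_TT ht 1 s g hg

theorem HolT.comp_affine {T : ℂ → MP ν →ₗ[ℂ] (ι → ℂ)} (hT : HolT T) (z₀ : ℂ) {r : ℂ} (hr : r ≠ 0) :
    HolT fun ζ => T (z₀ + r * ζ) := fun s g hg => by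
  have h1 := hT ((fun z => (z - z₀) / r) ⁻¹' s) (fun z => g ((z - z₀) / r)) fun m =>
    (hg m).comp (by fun_prop) (Set.mapsTo_preimage _ _)
  have e : ∀ ζ, (z₀ + r * ζ - z₀) / r = ζ := fun ζ => by field_simp; ring
  have h2 := h1.comp (f := fun ζ => z₀ + r * ζ) (s := s) (by fun_prop) fun ζ hζ => by
    simpa only [Set.mem_preimage, e] using hζ
  simpa only [Function.comp_def, e] using h2

theorem HolT.xc {T : ℂ → MP ν →ₗ[ℂ] (ι → ℂ)} (hT : HolT T) {N : ℕ} {x : ℂ → Fin ν → ℂ}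
    (hx : DifferentiableOn ℂ x s) (a₀ : Fin ν) (l : Fin N → Fin ν → ℂ) {G : ℂ → Fin N → MP ν}
    (hG : ∀ k, HolP s fun z => G z k) (k : Fin N) :
    DifferentiableOn ℂ (fun z => xc (T z) a₀ (x z) l (G z) k) s :=
  hT s _ ((HolP.LL (differentiableOn_ex a₀ (l k) hx)).mul (hG k))

end hol

end

end Pool.Agent.Lib.MP_45f16c_ag.EX
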