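import Pool.Agent.Lib.MP_45f16c_ag.EX.BD

/-! Basic facts on blocks and on planes. -/

set_option autoImplicit false
open Metric MvPolynomial Real
open scoped Matrix

namespace Pool.Agent.Lib.MP_45f16c_ag.EX

open AS Finset

noncomputable section

section rew
variable {N : ℕ} {β β' : Fin N → ℕ}

theorem sz_eq (β : Fin N → ℕ) (k : Fin N) : sz β k = ∑ k', if β k' = β k then 1 else 0 :=
  card_filter _ _

theorem one_le_sz (β : Fin N → ℕ) (k : Fin N) : 1 ≤ sz β k :=
  card_pos.2 ⟨k, by simp⟩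

theorem sz_le (β : Fin N → ℕ) (k : Fin N) : sz β k ≤ N := by
  simpa [sz] using card_le_univ (univ.filter fun k' => β k' = β k)

theorem rew_le (β : Fin N → ℕ) : rew β ≤ N ^ 2 :=
  (sum_le_card_nsmul _ _ N fun k _ => sz_le β k).trans (by simp [sq])

theorem eq_of_sz {k k' : Fin N} (h : sz β k = 1) (e : β k' = β k) : k' = k :=
  card_le_one.1 h.le k' (by simp [e]) k (by simp)

theorem nb_le (β : Fin N → ℕ) : nb β ≤ N := card_image_le.trans (by simp)

/-- Merging the columns of `S` into one block. -/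
theorem rew_merge (S : Finset (Fin N)) (h1 : ∀ k ∉ S, ∀ k' ∉ S, β k = β k' → β' k = β' k')
    (h2 : ∀ k ∈ S, ∀ k' ∈ S, β' k = β' k') :
    rew β + S.card ^ 2 + S.card ≤ rew β' + 2 * ∑ k ∈ S, sz β k := by
  have e1 : S.card ^ 2 = ∑ k : Fin N, ∑ k' : Fin N, if k ∈ S ∧ k' ∈ S then 1 else 0 := by
    simp only [ite_and, sum_ite_irrel, sum_const_zero, sum_ite_mem, univ_inter]; simp [sq]
  have e2 : S.card = ∑ k : Fin N, ∑ k' : Fin N, if k ∈ S ∧ k' = k then 1 else 0 := by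
    simp [ite_and]
  have e3 : ∑ k ∈ S, sz β k =
      ∑ k : Fin N, ∑ k' : Fin N, if k ∈ S ∧ β k' = β k then 1 else 0 := by
    simp only [ite_and, sum_ite_irrel, sum_const_zero, sum_ite_mem, univ_inter, sz_eq]
  have e4 : ∑ k ∈ S, sz β k =
      ∑ k : Fin N, ∑ k' : Fin N, if k' ∈ S ∧ β k' = β k then 1 else 0 := by
    rw [e3, sum_comm]; simp only [eq_comm]
  rw [two_mul]
  nth_rewrite 1 [e3]
  rw [e4, e1]
  nth_rewrite 1 [e2]
  simp only [rew, sz_eq, ← sum_add_distrib]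
  refine sum_le_sum fun k _ => sum_le_sum fun k' _ => ?_
  by_cases hk : k ∈ S <;> by_cases hk' : k' ∈ S
  · by_cases e : k' = k <;> simp [hk, hk', h2 k' hk' k hk, e]
    split_ifs <;> omega
  · have : k' ≠ k := fun e => hk' (e ▸ hk)
    simp [hk, hk', this]
  · simp [hk, hk']
  · by_cases e : β k' = β k
    · simp [hk, hk', e, h1 k' hk' k hk e]
    · simp [hk, hk', e]

theorem rew_cons (b : ℕ) (β : Fin N → ℕ) : rew β + 1 ≤ rew (Fin.cons b β : Fin (N + 1) → ℕ) := by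
  have h := one_le_sz (Fin.cons b β : Fin (N + 1) → ℕ) 0
  have h2 : rew β ≤ ∑ k : Fin N, sz (Fin.cons b β : Fin (N + 1) → ℕ) k.succ :=
    sum_le_sum fun k _ => by rw [sz_eq, sz_eq, Fin.sum_univ_succ]; simp
  rw [rew, rew, Fin.sum_univ_succ] at *
  omega

theorem rew_succAbove (β : Fin (N + 1) → ℕ) (k : Fin (N + 1)) :
    rew β ≤ rew (fun i => β (k.succAbove i)) + 2 * N + 1 := by
  have h := sz_le β k
  have h2 : ∑ i : Fin N, sz β (k.succAbove i) ≤
      ∑ i : Fin N, (sz (fun i => β (k.succAbove i)) i + 1) := sum_le_sum fun i _ => by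
    rw [sz_eq, sz_eq, Fin.sum_univ_succAbove _ k]
    split_ifs <;> omega
  rw [sum_add_distrib] at h2
  rw [rew, rew, Fin.sum_univ_succAbove _ k]
  simp at h2
  omega

/-- A label that is not used. -/
theorem exists_fresh (β : Fin N → ℕ) : ∃ b, ∀ k, β k ≠ b :=
  ⟨univ.sup β + 1, fun k => (Nat.lt_succ_of_le (le_sup (f := β) (mem_univ k))).ne⟩

theorem nb_singles {S : Finset (Fin N)} (h : ∀ k ∈ S, sz β k = 1) :
    nb β = S.card + (Sᶜ.image β).card := by
  rw [nb, ← union_compl S, image_union, card_union_of_disjoint, card_image_of_injOn]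
  · exact fun k hk k' _ e => (eq_of_sz (h k hk) e.symm).symm
  · rw [disjoint_left]
    intro b hb hb'
    obtain ⟨k, hk, rfl⟩ := mem_image.1 hb
    obtain ⟨k', hk', e⟩ := mem_image.1 hb'
    exact mem_compl.1 hk' (eq_of_sz (h k hk) e ▸ hk)

theorem sum_inj_ge {κ : Type} [Fintype κ] {e : κ → ℕ} (he : Function.Injective e) :
    Fintype.card κ * (Fintype.card κ - 1) ≤ 2 * ∑ k, e k := by
  classical
  have key : ∀ s : Finset ℕ, s.card * (s.card - 1) ≤ 2 * ∑ i ∈ s, i := fun s => by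
    induction s using Finset.induction_on_max with
    | empty => simp
    | insert a s ha ih =>
      have h1 : a ∉ s := fun h => lt_irrefl _ (ha a h)
      have h2 : s.card ≤ a := by
        simpa using card_le_card (show s ⊆ range a from fun i hi => mem_range.2 (ha i hi))
      rw [card_insert_of_notMem h1, sum_insert h1, Nat.add_sub_cancel]
      rcases Nat.eq_zero_or_pos s.card with h | h
      · simp [h]
      · obtain ⟨c, hc⟩ : ∃ c, s.card = c + 1 := ⟨s.card - 1, by omega⟩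
        rw [hc] at ih h2 ⊢
        rw [Nat.add_sub_cancel] at ih
        nlinarith
  have h := key (univ.image e)
  rwa [card_image_of_injective _ he, sum_image he.injOn, card_univ] at h

end rew

variable {ν : ℕ} {x u : Fin ν → ℂ}

theorem norm_bv_le (x u : Fin ν → ℂ) : ‖bv x u‖ ≤ 2 * ‖x‖ * ‖u‖ :=
  (pi_norm_le_iff_of_nonneg (by positivity)).2 fun b => by
    refine (norm_sub_le _ _).trans ?_
    rw [norm_mul, norm_mul]
    have h : ∀ a a', ‖x a‖ * ‖u a'‖ ≤ ‖x‖ * ‖u‖ := fun a a' =>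
      mul_le_mul (norm_le_pi_norm _ _) (norm_le_pi_norm _ _) (norm_nonneg _) (norm_nonneg _)
    linarith [h b.1 b.2, h b.2 b.1]

theorem ct_apply (U x u : Fin ν → ℂ) (a : Fin ν) : ct U x u a = ∑ b, U b * bv x u (b, a) := by
  simp only [ct, bv, dotProduct, Pi.sub_apply, Pi.smul_apply, smul_eq_mul, sum_mul,
    ← sum_sub_distrib]
  exact sum_congr rfl fun b _ => by ring

theorem norm_ct_le (U x u : Fin ν → ℂ) : ‖ct U x u‖ ≤ nl U * ‖bv x u‖ :=
  (pi_norm_le_iff_of_nonneg (mul_nonneg (nl_nonneg U) (norm_nonneg _))).2 fun a => by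
    rw [ct_apply]
    exact (norm_dot_le U fun b => bv x u (b, a)).trans (mul_le_mul_of_nonneg_left
      ((pi_norm_le_iff_of_nonneg (norm_nonneg _)).2 fun b => norm_le_pi_norm _ _) (nl_nonneg U))

theorem norm_tv_le (x y u : Fin ν → ℂ) (a b c : Fin ν) : ‖tv x y u a b c‖ ≤ 3 * ‖x‖ * ‖bv y u‖ := by
  have h : ∀ a p, ‖x a * bv y u p‖ ≤ ‖x‖ * ‖bv y u‖ := fun a p => by
    rw [norm_mul]
    exact mul_le_mul (norm_le_pi_norm _ _) (norm_le_pi_norm _ _) (norm_nonneg _) (norm_nonneg _)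
  refine (norm_add_le _ _).trans ?_
  linarith [norm_sub_le (x a * bv y u (b, c)) (x b * bv y u (a, c)), h a (b, c), h b (a, c),
    h c (a, b)]

theorem ne_of_bv (h : bv x u ≠ 0) : x ≠ 0 := fun e => h (by funext b; simp [bv, e])

theorem bv_ne {l : Fin ν → ℂ} (hx : x ≠ 0) (h1 : l ⬝ᵥ x = 0) (h2 : l ⬝ᵥ u ≠ 0) : bv x u ≠ 0 :=
  fun h => by
    obtain ⟨a, ha, -⟩ := exists_max hx
    have := ct_apply l x u a
    simp [ct, h, h1, h2, ha] at this

theorem continuous_bv : Continuous fun v : (Fin ν → ℂ) × (Fin ν → ℂ) => bv v.1 v.2 := by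
  unfold bv; fun_prop

/-- A normalised basis of a plane. -/
theorem frame (h : bv x u ≠ 0) : ∃ (b b' : Fin ν) (y y' : Fin ν → ℂ), b ≠ b' ∧
    ‖bv x u (b, b')‖ = ‖bv x u‖ ∧ (∀ a, y a = bv x u (a, b') / bv x u (b, b')) ∧
    (∀ a, y' a = bv x u (b, a) / bv x u (b, b')) ∧ ‖y‖ ≤ 1 ∧ ‖y'‖ ≤ 1 ∧ y b = 1 ∧ y b' = 0 ∧
    y' b = 0 ∧ y' b' = 1 ∧ x = x b • y + x b' • y' ∧ u = u b • y + u b' • y' ∧
    (∃ s t : ℂ, y = s • x + t • u) ∧ (∃ s t : ℂ, y' = s • x + t • u) ∧
    bv x u = bv x u (b, b') • bv y y' ∧ ‖bv y y'‖ = 1 := by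
  have : Nonempty (Fin ν × Fin ν) := by
    by_contra h'
    rw [not_nonempty_iff] at h'
    exact h (Subsingleton.elim _ _)
  obtain ⟨⟨b, b'⟩, hb⟩ := exists_norm_eq (bv x u)
  have hp := norm_pos_iff.2 h
  have h0 : bv x u (b, b') ≠ 0 := norm_pos_iff.1 (hb ▸ hp)
  have h0' : x b * u b' - x b' * u b ≠ 0 := h0
  have hn : ∀ q, ‖bv x u q / bv x u (b, b')‖ ≤ 1 := fun q => by
    rw [norm_div, hb]; exact div_le_one_of_le₀ (norm_le_pi_norm _ _) hp.le
  have e : bv x u = bv x u (b, b') • bv (fun a => bv x u (a, b') / bv x u (b, b'))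
      fun a => bv x u (b, a) / bv x u (b, b') := funext fun q => by
    simp only [bv, Pi.smul_apply, smul_eq_mul]; field_simp; ring
  refine ⟨b, b', _, _, fun e => h0 (by simp [bv, e]), hb, fun _ => rfl, fun _ => rfl,
    (pi_norm_le_iff_of_nonneg zero_le_one).2 fun a => hn _,
    (pi_norm_le_iff_of_nonneg zero_le_one).2 fun a => hn _, div_self h0, by simp [bv],
    by simp [bv], div_self h0, funext fun a => ?_, funext fun a => ?_,
    ⟨u b' / bv x u (b, b'), -x b' / bv x u (b, b'), funext fun a => ?_⟩,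
    ⟨-u b / bv x u (b, b'), x b / bv x u (b, b'), funext fun a => ?_⟩, e, ?_⟩
  · simp only [bv, Pi.add_apply, Pi.smul_apply, smul_eq_mul]; field_simp; ring
  · simp only [Pi.add_apply, Pi.smul_apply, smul_eq_mul]
    rw [← mul_div_assoc, ← mul_div_assoc, ← add_div, eq_div_iff h0]
    simp only [bv]; ring
  · simp only [bv, Pi.add_apply, Pi.smul_apply, smul_eq_mul]; field_simp; ring
  · simp only [bv, Pi.add_apply, Pi.smul_apply, smul_eq_mul]; field_simp; ring
  · have h1 := congrArg norm e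
    rw [norm_smul, hb] at h1
    exact mul_left_cancel₀ hp.ne' (by rw [mul_one]; exact h1.symm)

end

end Pool.Agent.Lib.MP_45f16c_ag.EX
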