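import Pool.Agent.Lib.MP_45f16c_ag.EX.BR
import Pool.Agent.Lib.MP_45f16c_ag.AS.Jmp

/-! The jump at a good point. -/

set_option autoImplicit false
open Metric MeasureTheory MvPolynomial Filter Real
open scoped ComplexConjugate Matrix Topology

namespace Pool.Agent.Lib.MP_45f16c_ag.EX

open AS

noncomputable section

namespace MidAux

variable {ν : ℕ}

/-- The rescaled disc. -/
def rsc (f : ℂ → Fin ν → ℂ) (z₀ : ℂ) (r : ℝ) (ζ : ℂ) : Fin ν → ℂ :=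
  ((‖f z₀‖ : ℝ) : ℂ)⁻¹ • f (z₀ + r * ζ)

theorem norm_rsc (f : ℂ → Fin ν → ℂ) (z₀ : ℂ) (r : ℝ) (ζ : ℂ) :
    ‖rsc f z₀ r ζ‖ = ‖f (z₀ + r * ζ)‖ / ‖f z₀‖ := by
  rw [rsc, norm_smul, norm_inv, Complex.norm_real, norm_norm, div_eq_inv_mul]

theorem smul_rsc {f : ℂ → Fin ν → ℂ} {z₀ : ℂ} (h : f z₀ ≠ 0) (r : ℝ) (ζ : ℂ) :
    ((‖f z₀‖ : ℝ) : ℂ) • rsc f z₀ r ζ = f (z₀ + r * ζ) := by
  rw [rsc, smul_inv_smul₀ (Complex.ofReal_ne_zero.2 (norm_ne_zero_iff.2 h))]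

theorem sc_rsc {f : ℂ → Fin ν → ℂ} {z₀ : ℂ} (h : f z₀ ≠ 0) (r : ℝ) (j : ℕ) (ζ : ℂ) :
    (fun e => ‖f z₀‖ ^ wv ν j e * ‖rsc f z₀ r ζ‖ ^ wv ν j e) = scf j (f (z₀ + r * ζ)) :=
  funext fun e => by
    rw [← mul_pow, norm_rsc, mul_div_cancel₀ _ (norm_ne_zero_iff.2 h), scf]

theorem Xf_rsc {f : ℂ → Fin ν → ℂ} {z₀ : ℂ} (h : f z₀ ≠ 0) (r μ : ℝ) (χ : ℂ → ℝ) (N₁ D : ℕ)
    (G : ℂ → ℂ) {ζ : ℂ} (h' : f (z₀ + r * ζ) ≠ 0) :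
    Xf (μ + N₁ * D * log ‖f z₀‖) (fun ζ => χ (z₀ + r * ζ)) N₁ D (rsc f z₀ r)
      (fun ζ => G (z₀ + r * ζ)) ζ = Xf μ χ N₁ D f G (z₀ + r * ζ) := by
  rw [Xf, Xf, lg, lg, norm_rsc, log_div (norm_ne_zero_iff.2 h') (norm_ne_zero_iff.2 h)]
  congr 2
  ring

theorem mem6 (z₀ : ℂ) {r : ℝ} (hr : 0 < r) {ζ : ℂ} (h : ζ ∈ ball (0 : ℂ) 6) :
    z₀ + r * ζ ∈ closedBall z₀ (6 * r) := by
  rw [mem_ball_zero_iff] at h
  rw [mem_closedBall, dist_eq_norm, add_sub_cancel_left, norm_mul, Complex.norm_real,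
    Real.norm_of_nonneg hr.le, mul_comm]
  exact mul_le_mul_of_nonneg_right h.le hr.le

theorem BB6 {ζ : ℂ} (h : ζ ∈ BB) : ζ ∈ ball (0 : ℂ) 6 := ball_subset_ball (by norm_num) h

theorem var {z₀ ζ : ℂ} {r : ℝ} (hr : 0 < r) (h0 : ‖z₀‖ ≤ 1) (h : ζ ∈ BB) :
    ‖z₀‖ ^ 2 ≤ ‖z₀ + r * ζ‖ ^ 2 + 5 * r := by
  rw [mem_ball_zero_iff] at h
  have h1 : ‖z₀‖ ≤ ‖z₀ + r * ζ‖ + r * ‖ζ‖ := by
    have := norm_sub_le (z₀ + r * ζ) (r * ζ)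
    rwa [add_sub_cancel_right, norm_mul, Complex.norm_real, Real.norm_of_nonneg hr.le] at this
  have h2 : r * ‖ζ‖ ≤ r * (5 / 2) := mul_le_mul_of_nonneg_left h.le hr.le
  have h3 := norm_nonneg (z₀ + r * ζ)
  have h4 := norm_nonneg z₀
  nlinarith [sq_nonneg (‖z₀‖ - ‖z₀ + r * ζ‖), mul_nonneg h4 (sub_nonneg.2 (h1.trans
    (add_le_add_right h2 _))), mul_nonneg hr.le (sub_nonneg.2 h0)]

theorem prod_ge {a : ℕ} {U : Fin a → Fin ν → ℂ} {y : Fin ν → ℂ} {b : ℝ} (hb : 0 ≤ b)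
    (h : ∀ i, b ≤ ‖U i ⬝ᵥ y‖) : b ^ a ≤ ‖∏ i, U i ⬝ᵥ y‖ := by
  rw [norm_prod]
  simpa using Finset.prod_le_prod (s := Finset.univ) (f := fun _ : Fin a => b) (fun _ _ => hb)
    fun i _ => h i

theorem prod_le {a : ℕ} {U : Fin a → Fin ν → ℂ} (y : Fin ν → ℂ) (h : ∀ i, nl (U i) ≤ 1) :
    ‖∏ i, U i ⬝ᵥ y‖ ≤ ‖y‖ ^ a := by
  rw [norm_prod]
  simpa using Finset.prod_le_prod (s := Finset.univ) (g := fun _ : Fin a => ‖y‖)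
    (fun _ _ => norm_nonneg _) fun i _ =>
      (norm_dot_le (U i) y).trans (mul_le_of_le_one_left (norm_nonneg _) (h i))

theorem avg (κ : ℝ) (z₀ : ℂ) {r t : ℝ} (hr : 0 < r) (ht : 0 < t) :
    circleAverage (fun ζ => κ * ‖z₀ + r * ζ‖ ^ 2) 0 t = κ * (‖z₀‖ ^ 2 + (r * t) ^ 2) := by
  rw [GaugeAux.avg_scale (fun z => κ * ‖z‖ ^ 2) z₀ 0 r t, mul_zero, add_zero,
    ← JmpAux.avg3 z₀ (mul_pos hr ht)]
  exact circleAverage_fun_smul (a := κ) (f := fun z : ℂ => ‖z‖ ^ 2)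

/-- The rescaled data. -/
theorem jin {j dF p e a d N₁ : ℕ} {f : ℂ → Fin ν → ℂ} {T : ℂ → MP ν →ₗ[ℂ] (Fin ν ⊕ Fin j → ℂ)}
    {U : Fin a → Fin ν → ℂ} {J : Finset (Fin j)} {G : ℂ → ℂ} {z₀ : ℂ} {Λ CH E E' η δ μ κ r : ℝ}
    (had : a + (d + 1) = dF) (hN : 1 ≤ N₁) (hδ : 0 ≤ δ) (hCH : 0 ≤ CH) (hE : E ≤ E')
    (hE' : 0 ≤ E') (hr : 0 < r) (hκ : 0 ≤ κ) (hκr : 5 * κ * r ≤ N₁ * δ)
    (hK : KD dF p e d f T U J Λ CH E (exp (-η))) (hf : Differentiable ℂ f)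
    (hG : Differentiable ℂ G) (h0 : ∀ z ∈ DD1, f z ≠ 0) (hs : closedBall z₀ (6 * r) ⊆ DD1)
    (hc : ∀ z ∈ closedBall z₀ (6 * r), ‖f z‖ ≤ exp δ * ‖f z₀‖ ∧ ‖f z₀‖ ≤ exp δ * ‖f z‖)
    (hU : ∀ i, exp (-δ) * ‖f z₀‖ ≤ ‖U i ⬝ᵥ f z₀‖) (hG0 : G z₀ ≠ 0)
    (hnr : Nr (T z₀) (f z₀) d η (RR ν J) (scf j (f z₀))
      (Xf μ (fun z => κ * ‖z‖ ^ 2) N₁ e f G z₀))
    (hbd : ∀ z ∈ DD1, G z ≠ 0 →
      Bd (T z) (f z) d η (RR ν J) (scf j (f z)) (Xf μ (fun z => κ * ‖z‖ ^ 2) N₁ e f G z)) :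
    JIn d (fun ζ => T (z₀ + r * ζ)) (rsc f z₀ r) (RR ν J)
      (fun ζ i => ‖f z₀‖ ^ wv ν j i * ‖rsc f z₀ r ζ‖ ^ wv ν j i)
      (fun ζ => (∏ i, U i ⬝ᵥ f (z₀ + r * ζ)) * ((‖f z₀‖ : ℝ) : ℂ) ^ (d + 1))
      (fun ζ => G (z₀ + r * ζ))
      (Xf (μ + N₁ * e * log ‖f z₀‖) (fun ζ => κ * ‖z₀ + r * ζ‖ ^ 2) N₁ e (rsc f z₀ r)
        fun ζ => G (z₀ + r * ζ)) N₁ CH E' η ((2 * dF + e + 2) * δ) := by
  have hz : z₀ ∈ DD1 := hs (mem_closedBall_self (by positivity))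
  have f0 := h0 z₀ hz
  have hρ := norm_pos_iff.2 f0
  have hρ' : ((‖f z₀‖ : ℝ) : ℂ) ≠ 0 := Complex.ofReal_ne_zero.2 hρ.ne'
  have e0 : z₀ + r * (0 : ℂ) = z₀ := by rw [mul_zero, add_zero]
  have hD : ∀ ζ ∈ BB, z₀ + r * ζ ∈ DD1 := fun ζ h => hs (mem6 z₀ hr (BB6 h))
  have hk : ∀ k : ℝ, k ≤ 2 * dF + e + 2 → exp (k * δ) ≤ exp ((2 * dF + e + 2) * δ) :=
    fun k h => exp_le_exp.2 (mul_le_mul_of_nonneg_right h hδ)
  have hdF : (0 : ℝ) ≤ dF := Nat.cast_nonneg _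
  have he : (0 : ℝ) ≤ e := Nat.cast_nonneg _
  have ha : (a : ℝ) ≤ dF := by exact_mod_cast (by omega : a ≤ dF)
  have h1 : exp δ ≤ exp ((2 * dF + e + 2) * δ) := by
    simpa only [one_mul] using hk 1 (by linarith)
  have x0 : ‖rsc f z₀ r 0‖ = 1 := by rw [norm_rsc, e0, div_self hρ.ne']
  have up : ∀ ζ ∈ ball (0 : ℂ) 6, ‖rsc f z₀ r ζ‖ ≤ exp δ := fun ζ h => by
    rw [norm_rsc, div_le_iff₀ hρ]; exact (hc _ (mem6 z₀ hr h)).1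
  have lo : ∀ ζ ∈ ball (0 : ℂ) 6, exp (-δ) ≤ ‖rsc f z₀ r ζ‖ := fun ζ h => by
    rw [norm_rsc, le_div_iff₀ hρ, exp_neg, inv_mul_le_iff₀ (exp_pos _)]
    exact (hc _ (mem6 z₀ hr h)).2
  have hw : Differentiable ℂ fun ζ : ℂ => f (z₀ + r * ζ) := hf.comp (by fun_prop)
  have a0 : ‖f z₀‖ ^ dF ≤ exp (a * δ) *
      ‖(∏ i, U i ⬝ᵥ f (z₀ + r * (0 : ℂ))) * ((‖f z₀‖ : ℝ) : ℂ) ^ (d + 1)‖ := by
    have h2 := prod_ge (by positivity) hU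
    rw [mul_pow, ← exp_nat_mul, mul_neg, exp_neg, inv_mul_le_iff₀ (exp_pos _)] at h2
    rw [e0, norm_mul, norm_pow, Complex.norm_real, norm_norm, ← had, pow_add, ← mul_assoc]
    exact mul_le_mul_of_nonneg_right h2 (by positivity)
  have a1 : ∀ k : ℕ, k ≤ dF → exp (k * δ) * ‖f z₀‖ ^ dF ≤ exp ((2 * dF + e + 2) * δ) *
      ‖(∏ i, U i ⬝ᵥ f (z₀ + r * (0 : ℂ))) * ((‖f z₀‖ : ℝ) : ℂ) ^ (d + 1)‖ := fun k h => by
    have h' : (k : ℝ) ≤ dF := by exact_mod_cast h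
    refine (mul_le_mul_of_nonneg_left a0 (exp_pos _).le).trans ?_
    rw [← mul_assoc, ← exp_add, ← add_mul]
    exact mul_le_mul_of_nonneg_right (hk _ (by linarith)) (norm_nonneg _)
  have fp : ∀ ζ ∈ BB, ∀ k : ℕ, ‖f (z₀ + r * ζ)‖ ^ k ≤ exp (k * δ) * ‖f z₀‖ ^ k := fun ζ h k => by
    rw [exp_nat_mul, ← mul_pow]
    exact pow_le_pow_left₀ (norm_nonneg _) (hc _ (mem6 z₀ hr (BB6 h))).1 k
  refine ⟨hK.hol.comp_affine z₀ (Complex.ofReal_ne_zero.2 hr.ne'),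
    (hw.const_smul ((‖f z₀‖ : ℝ) : ℂ)⁻¹).differentiableOn, x0,
    fun ζ h => ⟨le_trans ?_ (lo ζ h), (up ζ h).trans h1⟩, fun ζ h i => ⟨?_, ?_⟩, ?_, ?_,
    fun ζ h => ?_, fun ζ h => ?_, (hG.comp (by fun_prop)).differentiableOn, by rwa [e0], hN,
    fun ζ h hζ => ⟨Xf_pos _ _ _ _ _ _ _, ?_, ?_⟩, ?_⟩
  · exact exp_le_exp.2 (neg_le_neg (exp_le_exp.1 h1))
  · exact mul_pos (pow_pos hρ _) (pow_pos ((exp_pos _).trans_le (lo ζ (BB6 h))) _)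
  · rw [x0, one_pow, mul_one, mul_comm]
    refine mul_le_mul_of_nonneg_right ?_ (by positivity)
    refine ((pow_le_pow_left₀ (norm_nonneg _) (up ζ (BB6 h)) _).trans ?_).trans h1
    simpa only [pow_one] using pow_le_pow_right₀ (one_le_exp hδ) (wv_le i)
  · exact (DifferentiableOn.fun_finsetProd fun i _ =>
      differentiableOn_dot (differentiableOn_const _) hw.differentiableOn).mul_const _
  · exact norm_pos_iff.1 (pos_of_mul_pos_right ((pow_pos hρ dF).trans_le a0) (exp_pos _).le)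
  · refine le_trans ?_ (a1 a (by omega))
    rw [norm_mul, norm_pow, Complex.norm_real, norm_norm, ← had, pow_add _ a, ← mul_assoc]
    exact mul_le_mul_of_nonneg_right ((prod_le _ hK.nU).trans (fp ζ h a)) (by positivity)
  · have h2 := hK.fn _ (hD ζ h)
    rw [sc_rsc f0]
    nth_rewrite 1 [← smul_rsc f0 r ζ] at h2
    exact h2.smul.mono hCH hE hE' (by positivity) ((fp ζ h dF).trans (a1 dF le_rfl))
  · have hG0' : G (z₀ + r * (0 : ℂ)) ≠ 0 := by rwa [e0]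
    rw [mul_pow, mul_assoc (exp _ ^ N₁), Xf_pow (G := fun ζ => G (z₀ + r * ζ)) (z := 0) hN hG0',
      Xf_pow (G := fun ζ => G (z₀ + r * ζ)) (z := ζ) hN hζ, ← exp_nat_mul, ← exp_add, exp_le_exp,
      lg, lg, x0, log_one, e0]
    have h2 : log ‖rsc f z₀ r ζ‖ ≤ δ :=
      (log_le_iff_le_exp ((exp_pos _).trans_le (lo ζ (BB6 h)))).2 (up ζ (BB6 h))
    have h3 := mul_le_mul_of_nonneg_left (var hr (mem_closedBall_zero_iff.1 hz) h) hκ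
    have h4 : (0 : ℝ) ≤ N₁ := Nat.cast_nonneg _
    have h5 := mul_le_mul_of_nonneg_left h2 (mul_nonneg h4 he)
    have h6 := mul_nonneg h4 (mul_nonneg hdF hδ)
    have h7 := mul_nonneg h4 hδ
    nlinarith
  · rw [sc_rsc f0, Xf_rsc f0 r μ (fun z => κ * ‖z‖ ^ 2) N₁ e G (h0 _ (hD ζ h)), rsc,
      bd_smul (inv_ne_zero hρ')]
    exact hbd _ (hD ζ h) hζ
  · rw [sc_rsc f0, Xf_rsc f0 r μ (fun z => κ * ‖z‖ ^ 2) N₁ e G (by rwa [e0]), rsc,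
      nr_smul (inv_ne_zero hρ'), e0]
    exact hnr

end MidAux

open MidAux in
theorem midS (hJ : JumpStmt) (hC : CaseStmt) : MidStmt := by
  intro ν j dF p e CH c₀ CF hN hCH hc₀
  have h1 : 1 ≤ dF := by
    have := hN.p4; have := hN.pe; have := hN.e1; have := hN.d1; omega
  choose CJ hCJ1 hCJ using fun d => hJ ν d dF (Fin ν ⊕ Fin j) CH c₀ CF h1 hCH hc₀
  obtain ⟨S, hS0, hS⟩ : ∃ S : ℝ, 0 ≤ S ∧ ∀ d, d < dF → CJ d ≤ S :=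
    ⟨∑ d ∈ Finset.range dF, CJ d, Finset.sum_nonneg fun d _ => zero_le_one.trans (hCJ1 d),
      fun d hd => Finset.single_le_sum (f := CJ) (fun d _ => zero_le_one.trans (hCJ1 d))
        (Finset.mem_range.2 hd)⟩
  obtain ⟨Q, hQ0, hQ⟩ : ∃ Q : ℝ, 0 ≤ Q ∧ Q = 2 * (ν + j) ^ 2 * 4 ^ (p + 1) :=
    ⟨_, by positivity, rfl⟩
  have hdF : (0 : ℝ) ≤ dF := Nat.cast_nonneg _
  have he : (0 : ℝ) ≤ e := Nat.cast_nonneg _
  have hM : (0 : ℝ) ≤ 2 * dF + e + 2 := by positivity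
  have hSM : 2 * S ≤ S * (2 * dF + e + 2) := by nlinarith
  refine ⟨(1 + S) * (2 * dF + e + 2) + 1 + Q, by nlinarith, ?_⟩
  intro a d N₁ f T U J F G z₀ Λ E η δ μ κ r had hae hN₁ hδ hη hE0 hE hr hκ hκr hK hf hG hF hn hL
    h0 hs hc hU hG0 hnr hbd
  have hd := hS d (by omega)
  have hd1 := hCJ1 d
  have hδ0 : 0 ≤ δ := zero_le_one.trans hδ
  have hz : z₀ ∈ DD1 := hs (mem_closedBall_self (by positivity))
  have hρ := norm_pos_iff.2 (h0 z₀ hz).1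
  have hSδ : 0 ≤ (1 + S) * (2 * dF + e + 2) * δ := by positivity
  have hQδ : Q ≤ Q * δ := le_mul_of_one_le_right hQ0 hδ
  have hδη : δ ≤ η := by nlinarith
  have hη0 : 0 ≤ η := hδ0.trans hδη
  have hEE : E ≤ E * exp (dF * δ) := le_mul_of_one_le_right hE0 (one_le_exp (by positivity))
  have c1 : CJ d * ((2 * dF + e + 2) * δ) ≤ η := by
    have h2 := mul_le_mul_of_nonneg_right hd (mul_nonneg hM hδ0)
    have h3 := mul_nonneg hM hδ0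
    nlinarith
  have c2 : E * exp (dF * δ) ≤ exp (-(CJ d * η)) := by
    refine (mul_le_mul_of_nonneg_right hE (exp_pos _).le).trans ?_
    rw [← exp_add, exp_le_exp]
    have h2 : CJ d + dF ≤ (1 + S) * (2 * dF + e + 2) + 1 + Q := by nlinarith
    have h3 := mul_le_mul_of_nonneg_right h2 hη0
    have h4 := mul_le_mul_of_nonneg_left hδη hdF
    linarith
  have c3 : ∀ ζ ∈ BB, ‖eval (rsc f z₀ r ζ) F‖ ≤ E * exp (dF * δ) := fun ζ hζ => by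
    have hm := mem6 z₀ hr (BB6 hζ)
    rw [rsc, eval_smul_of_isHomogeneous hF, norm_mul, norm_pow, norm_inv, Complex.norm_real,
      norm_norm, inv_pow, inv_mul_le_iff₀ (pow_pos hρ _)]
    refine (h0 _ (hs hm)).2.trans ?_
    rw [mul_left_comm, exp_nat_mul, ← mul_pow, mul_comm ‖f z₀‖]
    exact mul_le_mul_of_nonneg_left (pow_le_pow_left₀ (norm_nonneg _) (hc _ hm).1 _) hE0
  have c4 : 2 * (ν + j) ^ 2 * 4 ^ (p + 1) ≤ exp η := by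
    rw [← hQ]
    have := add_one_le_exp η
    nlinarith
  have c5 : z₀ + r * (0 : ℂ) ∈ DD1 := by rwa [mul_zero, add_zero]
  obtain ⟨t, ht, h⟩ := hCJ d _ _ _ (wv ν j) (fun i => ‖f z₀‖ ^ wv ν j i) _ _ _ e N₁ _ _ η _ F
    (jin had hN₁ hδ0 (zero_le_one.trans hCH) hEE (hE0.trans hEE) hr hκ hκr hK hf hG
      (fun z hz => (h0 z hz).1) hs hc hU hG0 hnr hbd) (by nlinarith) c1 (hE0.trans hEE) c2 hF hn hL
    c3 (by fun_prop)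
    (hC ν j dF p e a d _ _ η J hN had hae c4 (fun g hg => (hK.ent _ c5 g hg).2) (hK.nk _))
  rw [avg κ z₀ hr (zero_lt_one.trans_le ht.1), mul_zero, add_zero] at h
  have h2 : r ^ 2 ≤ (r * t) ^ 2 := pow_le_pow_left₀ hr.le (le_mul_of_one_le_right hr.le ht.1) 2
  have h3 := mul_le_mul_of_nonneg_left h2 hκ
  have h4 : CJ d * N₁ ≤ ((1 + S) * (2 * dF + e + 2) + 1 + Q) * N₁ :=
    mul_le_mul_of_nonneg_right (by nlinarith) (Nat.cast_nonneg _)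
  linarith

end

end Pool.Agent.Lib.MP_45f16c_ag.EX
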