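import Pool.Agent.Lib.MP_45f16c_ag.AS.BL

/-! Objects used in the proof of the exact bound (not in the hand-in statement). -/

set_option autoImplicit false
open Metric MeasureTheory MvPolynomial Filter Real
open scoped ComplexConjugate Matrix

namespace Pool.Agent.Lib.MP_45f16c_ag.EX

open AS

noncomputable section

/-- Polynomials. -/
abbrev MP (ν : ℕ) : Type := MvPolynomial (Fin ν) ℂ

/-- The closed unit disc. -/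
abbrev DD1 : Set ℂ := closedBall 0 1

/-- The disc on which the jump takes place. -/
abbrev BB : Set ℂ := ball 0 (5 / 2)

section basic
variable {ν d n N j : ℕ} {ι : Type}

/-- Sum of the moduli of the coefficients. -/
def n1 (P : MP ν) : ℝ := ∑ m ∈ P.support, ‖coeff m P‖

/-- Sum of the moduli of the coordinates. -/
def nl (l : Fin ν → ℂ) : ℝ := ∑ a, ‖l a‖

/-- The linear map with the value `t m` on the monomial `m` of degree `d`. -/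
def TT (t : Mon ν d → ι → ℂ) : MP ν →ₗ[ℂ] (ι → ℂ) :=
  ∑ m : Mon ν d, (lcoeff ℂ m.1).smulRight (t m)

/-- The minor with rows `I`. -/
def dt (I : Fin n → ι) : (ι → ℂ) [⋀^Fin n]→ₗ[ℂ] ℂ :=
  Matrix.detRowAlternating.compLinearMap (LinearMap.funLeft ℂ ℂ I)

/-- The principal minor on `S`. -/
def pm (S : Finset (Fin N)) (v : Fin N → Fin N → ℂ) : ℂ :=
  dt id (S.piecewise v fun k => Pi.single k 1)

/-- Holomorphic families of polynomials. -/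
def HolP (s : Set ℂ) (g : ℂ → MP ν) : Prop :=
  ∀ m, DifferentiableOn ℂ (fun z => coeff m (g z)) s

/-- Holomorphic families of linear maps on polynomials. -/
def HolT [Fintype ι] (T : ℂ → MP ν →ₗ[ℂ] (ι → ℂ)) : Prop :=
  ∀ (s : Set ℂ) (g : ℂ → MP ν), HolP s g → DifferentiableOn ℂ (fun z => T z (g z)) s

/-! ### Configurations -/

/-- Size of the block of `k`. -/
def sz (β : Fin N → ℕ) (k : Fin N) : ℕ := (Finset.univ.filter fun k' => β k' = β k).card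

/-- The reward: sum of the squares of the sizes of the blocks. -/
def rew (β : Fin N → ℕ) : ℕ := ∑ k, sz β k

/-- Number of blocks. -/
def nb (β : Fin N → ℕ) : ℕ := (Finset.univ.image β).card

/-- The columns of a configuration. -/
def cols (T : MP ν →ₗ[ℂ] (ι → ℂ)) (c₀ : ι → ℂ) (l : Fin N → Fin ν → ℂ) (G : Fin N → MP ν) :
    Fin (N + 1) → ι → ℂ :=
  Fin.cons c₀ fun k => T (LL (l k) * G k)

/-- The cofactors have degree `d` and are constant on the blocks. -/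
def Lab (d : ℕ) (G : Fin N → MP ν) (β : Fin N → ℕ) : Prop :=
  (∀ k, (G k).IsHomogeneous d) ∧ ∀ k k', β k = β k' → G k = G k'

/-- Admissible configurations at `x`. -/
def Adm (x : Fin ν → ℂ) (d : ℕ) (l : Fin N → Fin ν → ℂ) (G : Fin N → MP ν) (β : Fin N → ℕ) : Prop :=
  (∀ k, l k ⬝ᵥ x = 0) ∧ Lab d G β

/-- Normalised configurations. -/
def Nrm (l : Fin N → Fin ν → ℂ) (G : Fin N → MP ν) : Prop := ∀ k, nl (l k) ≤ 1 ∧ n1 (G k) ≤ 1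

/-- Bound for all configurations with given rows and first column. -/
def Bd1 (T : MP ν →ₗ[ℂ] (ι → ℂ)) (x : Fin ν → ℂ) (d : ℕ) (η : ℝ) (I : Fin (N + 1) → ι)
    (c₀ : ι → ℂ) (B : ℝ) : Prop :=
  ∀ (l : Fin N → Fin ν → ℂ) (G : Fin N → MP ν) (β : Fin N → ℕ), Adm x d l G β →
    exp (η * rew β) * ‖dt I (cols T c₀ l G)‖ ≤ B * ∏ k, nl (l k) * n1 (G k)

/-- Bound for all configurations. -/
def Bd (T : MP ν →ₗ[ℂ] (ι → ℂ)) (x : Fin ν → ℂ) (d : ℕ) (η : ℝ) (R : Finset ι) (sc : ι → ℝ)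
    (X : ℝ) : Prop :=
  ∀ (N : ℕ) (I : Fin (N + 1) → ι) (l₀ : Fin ν → ℂ), (∀ i, I i ∈ R) →
    Bd1 T x d η I (T (LL l₀ ^ (d + 1))) (X * (∏ i, sc (I i)) * nl l₀ ^ (d + 1))

/-- The bound is nearly attained. -/
def Nr (T : MP ν →ₗ[ℂ] (ι → ℂ)) (x : Fin ν → ℂ) (d : ℕ) (η : ℝ) (R : Finset ι) (sc : ι → ℝ)
    (X : ℝ) : Prop :=
  ∃ (N : ℕ) (I : Fin (N + 1) → ι) (l₀ : Fin ν → ℂ) (l : Fin N → Fin ν → ℂ) (G : Fin N → MP ν)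
    (β : Fin N → ℕ), (∀ i, I i ∈ R) ∧ Adm x d l G β ∧ nl l₀ ≤ 1 ∧ Nrm l G ∧
    X * ∏ i, sc (I i) ≤ 2 * (exp (η * rew β) * ‖dt I (cols T (T (LL l₀ ^ (d + 1))) l G)‖)

/-- Evaluation at `x` nearly factors through `T`. -/
def Fn [Fintype ι] (T : MP ν →ₗ[ℂ] (ι → ℂ)) (x : Fin ν → ℂ) (d : ℕ) (R : Finset ι) (sc : ι → ℝ)
    (α : ℂ) (CH E S : ℝ) : Prop :=
  ∃ H : ι → ℂ, (∀ e, e ∉ R → H e = 0) ∧ ∑ e, ‖H e‖ * sc e ≤ CH * S ∧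
    ∀ g : MP ν, g.IsHomogeneous (d + 1) → ‖H ⬝ᵥ T g + α * eval x g‖ ≤ E * S * n1 g

/-- The coordinate form `a` sheared so as to vanish at `x`. -/
def sh (x : Fin ν → ℂ) (a₁ a : Fin ν) : Fin ν → ℂ :=
  Pi.single a 1 - (x a / x a₁) • Pi.single a₁ 1

/-- Extension of a linear form to a form that vanishes at `x` and is linear in `x`. -/
def ex (a₀ : Fin ν) (x l : Fin ν → ℂ) : Fin ν → ℂ := x a₀ • l - (l ⬝ᵥ x) • Pi.single a₀ 1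

/-- The extended columns. -/
def xc (T : MP ν →ₗ[ℂ] (ι → ℂ)) (a₀ : Fin ν) (x : Fin ν → ℂ) (l : Fin N → Fin ν → ℂ)
    (G : Fin N → MP ν) : Fin N → ι → ℂ := fun k => T (LL (ex a₀ x (l k)) * G k)

/-- The minor as an alternating form in the polynomials placed in the columns of `S`. -/
def Lam (T : MP ν →ₗ[ℂ] (ι → ℂ)) (I : Fin (N + 1) → ι) (c₀ : ι → ℂ) (S : Finset (Fin N))
    (v : Fin N → ι → ℂ) : MP ν [⋀^S]→ₗ[ℂ] ℂ where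
  toMultilinearMap := (((dt I).curryLeft c₀).toMultilinearMap.domDomRestrict (· ∈ S)
    fun k => v k).compLinearMap fun _ => T
  map_eq_zero_of_eq' g k k' h hk := ((dt I).curryLeft c₀).map_eq_zero_of_eq _
    (i := k.1) (j := k'.1) (by simp [h]) fun e => hk (Subtype.ext e)

/-- The direction defined by one column. -/
def uu (T : MP ν →ₗ[ℂ] (ι → ℂ)) (I : Fin (N + 1) → ι) (c₀ : ι → ℂ) (v : Fin N → ι → ℂ)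
    (k₁ : Fin N) (G₁ : MP ν) : Fin ν → ℂ :=
  fun b => dt I (Fin.cons c₀ (Function.update v k₁ (T (X b * G₁))))

/-! ### Planes -/

/-- The bivector of two vectors. -/
def bv (x u : Fin ν → ℂ) : Fin ν × Fin ν → ℂ := fun b => x b.1 * u b.2 - x b.2 * u b.1

/-- Contraction of the bivector with a linear form. -/
def ct (U x u : Fin ν → ℂ) : Fin ν → ℂ := (U ⬝ᵥ x) • u - (U ⬝ᵥ u) • x

/-- The trivector of three vectors. -/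
def tv (x y u : Fin ν → ℂ) (a b c : Fin ν) : ℂ :=
  x a * bv y u (b, c) - x b * bv y u (a, c) + x c * bv y u (a, b)

/-- Vanishing on the plane spanned by `x` and `u`. -/
def VanL (x u : Fin ν → ℂ) (g : MP ν) : Prop := ∀ s t : ℂ, eval (s • x + t • u) g = 0

/-- Quantitative absence of lines. -/
def NL (F : MP ν) (d : ℕ) (c₀ : ℝ) : Prop :=
  ∀ x u : Fin ν → ℂ, ∃ U : Fin ν → ℂ, nl U ≤ 1 ∧ c₀ * ‖bv x u‖ ^ d ≤ ‖eval (ct U x u) F‖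

/-- An alternating form that nearly kills the ideal of a plane. -/
def KL {κ : Type} [Fintype κ] (d : ℕ) (x u : Fin ν → ℂ) (Λ : MP ν [⋀^κ]→ₗ[ℂ] ℂ) (B ε : ℝ) :
    Prop :=
  ∀ g : κ → MP ν, (∀ k, (g k).IsHomogeneous (d + 1) ∧ eval x (g k) = 0) →
    ‖Λ g‖ ≤ B * ∏ k, n1 (g k) ∧ ∀ k₀, VanL x u (g k₀) → ‖Λ g‖ ≤ ε * B * ∏ k, n1 (g k)

/-! ### Killing obstructions -/

/-- No space of `s₀` obstructions is nearly killed by the ideal of a small subspace. -/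
def NK (ψ : MP ν →ₗ[ℂ] (Fin j → ℂ)) (J : Finset (Fin j)) (d p s₀ : ℕ) (θ : ℝ) : Prop :=
  ∀ (b : Fin p → Fin ν → ℂ) (Φ : Fin s₀ → Fin j → ℂ), LinearIndependent ℂ Φ →
    (∀ k e, e ∉ J → Φ k e = 0) →
    ¬∀ φ ∈ Submodule.span ℂ (Set.range Φ), ∀ (l : Fin ν → ℂ) (G : MP ν), (∀ κ, l ⬝ᵥ b κ = 0) →
      G.IsHomogeneous d → ‖φ ⬝ᵥ ψ (LL l * G)‖ ≤ θ * ‖φ‖ * (nl l * n1 G)

/-- The rows in use. -/
def RR (ν : ℕ) (J : Finset (Fin j)) : Finset (Fin ν ⊕ Fin j) := Finset.univ.disjSum J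

/-- The weights of the rows. -/
def wv (ν j : ℕ) : Fin ν ⊕ Fin j → ℕ := Sum.elim (fun _ => 1) fun _ => 0

/-- The scales of the rows. -/
def scf (j : ℕ) (x : Fin ν → ℂ) : Fin ν ⊕ Fin j → ℝ := fun e => ‖x‖ ^ wv ν j e

/-- The obstruction part. -/
def obs (T : MP ν →ₗ[ℂ] (Fin ν ⊕ Fin j → ℂ)) : MP ν →ₗ[ℂ] (Fin j → ℂ) :=
  LinearMap.funLeft ℂ ℂ Sum.inr ∘ₗ T

/-- The data after killing. -/
structure KD (dF p s₀ d : ℕ) {a : ℕ} (f : ℂ → Fin ν → ℂ)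
    (T : ℂ → MP ν →ₗ[ℂ] (Fin ν ⊕ Fin j → ℂ)) (U : Fin a → Fin ν → ℂ) (J : Finset (Fin j))
    (Λ CH E θ : ℝ) : Prop where
  hol : HolT T
  nU : ∀ i, nl (U i) ≤ 1
  ent : ∀ z ∈ DD1, ∀ g : MP ν, g.IsHomogeneous (d + 1) →
    (∀ e, ‖T z g (.inl e)‖ ≤ Λ * ‖f z‖ * n1 g) ∧ ∀ e, ‖T z g (.inr e)‖ ≤ n1 g
  fn : ∀ z ∈ DD1, Fn (T z) (f z) d (RR ν J) (scf j (f z)) (∏ i, U i ⬝ᵥ f z) CH E (‖f z‖ ^ dF)
  nk : ∀ z, NK (obs (T z)) J d p s₀ θ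

/-- The bound at the point `z`. -/
def Xf (μ : ℝ) (χ : ℂ → ℝ) (N₁ D : ℕ) (f : ℂ → Fin ν → ℂ) (G : ℂ → ℂ) (z : ℂ) : ℝ :=
  exp ((μ + N₁ * D * lg f z - log ‖G z‖ - χ z) / N₁)

/-- The numerical conditions. -/
structure Nums (ν j d p e : ℕ) : Prop where
  p4 : 4 ≤ p
  pe : p ≤ e
  e1 : 100 * e ≤ ν
  e2 : ν ≤ 200 * e
  je : j ≤ e * e
  jp : 4 * (ν + j) ≤ p * e
  d1 : 2 * ν ≤ d + 4
  d2 : 2 * d ≤ 5 * ν

/-- What the rank one analysis provides. -/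
def GainOut (T : ℂ → MP ν →ₗ[ℂ] (ι → ℂ)) (x : ℂ → Fin ν → ℂ) (c : ℂ → ι → ℂ)
    (I : Fin (N + 1) → ι) (a₀ : Fin ν) (β : Fin N → ℕ) (B : ℂ → ℝ) (t η C gain : ℝ) : Prop :=
  ∃ (l : Fin N → Fin ν → ℂ) (G : ℂ → Fin N → MP ν) (gn : ℂ → ℝ),
    (∀ k, HolP BB fun z => G z k) ∧ (∀ z k k', β k = β k' → G z k = G z k') ∧
    ContinuousOn gn (sphere 0 t) ∧
    B 0 ≤ C * (exp (η * rew β) * ‖dt I (Fin.cons (c 0) (xc (T 0) a₀ (x 0) l (G 0)))‖) ∧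
    (∀ z ∈ sphere (0 : ℂ) t,
      exp (η * rew β) * ‖dt I (Fin.cons (c z) (xc (T z) a₀ (x z) l (G z)))‖ ≤
        C * B z * (‖x z a₀‖ ^ (N - nb β) * ‖x z‖ ^ nb β) * exp (gn z)) ∧
    circleAverage gn 0 t ≤ C - gain * Tch x 0 t

/-- A nearly extremal configuration and a circle on which it is not small. -/
structure GIn (d : ℕ) (T : ℂ → MP ν →ₗ[ℂ] (ι → ℂ)) [Fintype ι] (x : ℂ → Fin ν → ℂ)
    (c : ℂ → ι → ℂ) (I : Fin (N + 1) → ι) (a₀ : Fin ν) (l : Fin N → Fin ν → ℂ) (G : Fin N → MP ν)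
    (β : Fin N → ℕ) (B : ℂ → ℝ) (t η δ : ℝ) : Prop where
  hol : HolT T
  dx : DifferentiableOn ℂ x BB
  dc : DifferentiableOn ℂ c BB
  t1 : 1 ≤ t
  t2 : t ≤ 2
  x0 : ‖x 0‖ = 1
  xa : ‖x 0 a₀‖ = 1
  size : ∀ z ∈ BB, exp (-δ) ≤ ‖x z‖ ∧ ‖x z‖ ≤ exp δ
  adm : Adm (x 0) d l G β
  nrm : Nrm l G
  pos : ∀ z ∈ insert 0 (sphere (0 : ℂ) t), 0 < B z
  bd : ∀ z ∈ insert 0 (sphere (0 : ℂ) t), Bd1 (T z) (x z) d η I (c z) (B z)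
  top : B 0 ≤ 8 * (exp (η * rew β) * ‖dt I (cols (T 0) (c 0) l G)‖)
  low : ∀ z ∈ sphere (0 : ℂ) t, exp (-δ) ≤ ‖x z a₀‖ ∧
    B z ≤ exp δ * (exp (η * rew β) * ‖dt I (Fin.cons (c z) (xc (T z) a₀ (x z) l G))‖)

/-- A disc close to a hypersurface without lines, with a holomorphic dual form. -/
structure HIn (dF : ℕ) (c₀ CF : ℝ) (F : MP ν) (x m : ℂ → Fin ν → ℂ) (δ E : ℝ) : Prop where
  hom : F.IsHomogeneous dF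
  nF : n1 F ≤ CF
  noL : NL F dF c₀
  dm : DifferentiableOn ℂ m BB
  mx : ∀ z ∈ BB, m z ⬝ᵥ x z = 1 ∧ nl (m z) ≤ exp δ
  onF : ∀ z ∈ BB, ‖eval (x z) F‖ ≤ E

/-- The data before the jump. -/
structure JIn (d : ℕ) (T : ℂ → MP ν →ₗ[ℂ] (ι → ℂ)) [Fintype ι] (x : ℂ → Fin ν → ℂ) (R : Finset ι)
    (sc : ℂ → ι → ℝ) (α G : ℂ → ℂ) (X : ℂ → ℝ) (N₁ : ℕ) (CH E η δ : ℝ) : Prop where
  hol : HolT T
  dx : DifferentiableOn ℂ x (ball 0 6)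
  x0 : ‖x 0‖ = 1
  size : ∀ z ∈ ball (0 : ℂ) 6, exp (-δ) ≤ ‖x z‖ ∧ ‖x z‖ ≤ exp δ
  hsc : ∀ z ∈ BB, ∀ e, 0 < sc z e ∧ sc z e ≤ exp δ * sc 0 e
  dα : DifferentiableOn ℂ α BB
  α0 : α 0 ≠ 0
  hα : ∀ z ∈ BB, ‖α z‖ ≤ exp δ * ‖α 0‖
  fn : ∀ z ∈ BB, Fn (T z) (x z) d R (sc z) (α z) CH E (exp δ * ‖α 0‖)
  dG : DifferentiableOn ℂ G BB
  G0 : G 0 ≠ 0
  N1 : 1 ≤ N₁
  hX : ∀ z ∈ BB, G z ≠ 0 → 0 < X z ∧ X z ^ N₁ * ‖G z‖ ≤ (exp δ * X 0) ^ N₁ * ‖G 0‖ ∧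
    Bd (T z) (x z) d η R (sc z) (X z)
  nr : Nr (T 0) (x 0) d η R (sc 0) (X 0)

/-- Nearly extremal configurations have few blocks or many singletons. -/
def Cases (dF d D : ℕ) (T : MP ν →ₗ[ℂ] (ι → ℂ)) (x : Fin ν → ℂ) (R : Finset ι) (v : ι → ℕ)
    (η : ℝ) : Prop :=
  ∀ (N : ℕ) (I : Fin (N + 1) → ι) (c₀ : ι → ℂ) (B : ℝ) (l : Fin N → Fin ν → ℂ) (G : Fin N → MP ν)
    (β : Fin N → ℕ), (∀ i, I i ∈ R) → Adm x d l G β → Nrm l G → Bd1 T x d η I c₀ B → 0 < B →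
    B ≤ 8 * (exp (η * rew β) * ‖dt I (cols T c₀ l G)‖) →
    ∑ i, v (I i) + nb β + D ≤ d + 1 ∨ ∃ S : Finset (Fin N), (∀ k ∈ S, sz β k = 1) ∧ 2 ≤ S.card ∧
      4 * dF * (∑ i, v (I i) + nb β + D) ≤ 4 * dF * (d + 1) + S.card * (S.card - 1)

/-- The result of killing obstructions. -/
structure Kil (d p s₀ : ℕ) {a : ℕ} (ψ : MP ν →ₗ[ℂ] (Fin j → ℂ)) (U : Fin a → Fin ν → ℂ)
    (J : Finset (Fin j)) (R : Matrix (Fin j) (Fin j) ℂ) (C θ θ' : ℝ) : Prop where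
  nU : ∀ i, nl (U i) ≤ 1
  sup : ∀ e e', e' ∉ J → R e e' = 0
  nR : ∀ e e', ‖R e e'‖ ≤ C
  err : ∀ g : MP ν, g.IsHomogeneous (d + 1) →
    ‖ψ ((∏ i, LL (U i)) * g) - R *ᵥ ψ ((∏ i, LL (U i)) * g)‖ ≤ C * θ * n1 g
  nk : NK (ψ ∘ₗ LinearMap.mulLeft ℂ (∏ i, LL (U i))) J d p s₀ θ'

/-- The linear form sees the distance to a small subspace at the scale `r`. -/
def Sees (p : ℕ) (r c₁ : ℝ) (f : ℂ → Fin ν → ℂ) (U : Fin ν → ℂ) : Prop :=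
  ∃ (e : Fin p → Fin ν) (A : Fin ν → Fin p → ℂ), Function.Injective e ∧ ‖A‖ ≤ 1 ∧
    ∀ (z₀ : ℂ) (θ : ℝ), closedBall z₀ (2 * r) ⊆ DD1 →
      (∀ z ∈ closedBall z₀ (2 * r), ‖U ⬝ᵥ f z‖ ≤ θ * ‖f z‖) →
      ∀ z ∈ closedBall z₀ r, c₁ * ‖res e A (f z)‖ ≤ θ * ‖f z‖

/-! ### Slow discs -/

/-- A column built from a slot. -/
def sg (x : Fin ν → ℂ) (Ψ : Fin ν → Fin ν → ℂ) (b b' : Fin ν) : Fin ν → ℂ :=
  x b • Ψ b' - x b' • Ψ b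

/-- A slot. -/
structure Slot (c : Mon ν d → ℂ) (f : ℂ → Fin ν → ℂ) (A E : ℝ) (Ψ : ℂ → Fin ν → Fin ν → ℂ) :
    Prop where
  diff : Differentiable ℂ Ψ
  bd : ∀ z ∈ DD1, ‖Ψ z‖ ≤ A
  err : ∀ z ∈ DD1, ∃ g : ℂ, ∀ b, ‖grad c (f z) ⬝ᵥ Ψ z b + f z b * g‖ ≤ E

/-- Data at the starting point of a slow disc. -/
structure SIn (c : Mon ν d → ℂ) (f : ℂ → Fin ν → ℂ) (ξ : Mon ν d → ℂ → Fin ν → ℂ) (z₁ : ℂ)
    (κ δ E : ℝ) : Prop where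
  df : Differentiable ℂ f
  dξ : ∀ n, Differentiable ℂ (ξ n)
  k1 : 1 ≤ κ
  k2 : κ ≤ δ
  abs : ∀ z ∈ DD1, exp (-δ) ≤ ‖f z‖ ∧ ‖f z‖ ≤ exp κ
  hξ : ∀ z ∈ DD1, ∀ n, ‖ξ n z‖ ≤ exp κ
  err : ∀ z ∈ DD1, ∀ n, ‖mon n (f z) + grad c (f z) ⬝ᵥ ξ n z‖ ≤ E
  onX : ∀ z ∈ DD1, ‖eval (f z) (form c)‖ ≤ E
  z1 : ‖z₁‖ ≤ 1 / 8
  f1 : ‖f z₁‖ ≤ 1
  sph : ‖f z₁‖ ^ 2 ≤ ‖bv (f z₁) (deriv f z₁)‖

/-- Normalised data for slow discs. -/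
structure SDat (K K' χ T : ℝ) (c : Mon ν d → ℂ) (f : ℂ → Fin ν → ℂ)
    (ξ : Mon ν d → ℂ → Fin ν → ℂ) : Prop where
  pf : ∃ m : ℕ, (m : ℝ) ≤ χ * T ∧ ∀ a, PD ℂ m fun z => f z a
  dξ : ∀ n, Differentiable ℂ (ξ n)
  abs : ∀ z ∈ DD1, exp (-(17 * (K * T))) ≤ ‖f z‖ ∧ ‖f z‖ ≤ exp (χ * T)
  hξ : ∀ z ∈ DD1, ∀ n, ‖ξ n z‖ ≤ exp (χ * T)
  err : ∀ z ∈ DD1, ∀ n, ‖mon n (f z) + grad c (f z) ⬝ᵥ ξ n z‖ ≤ exp (-(K' * T)) * ‖f z‖ ^ d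
  onX : ∀ z ∈ DD1, ‖eval (f z) (form c)‖ ≤ exp (-(K' * T)) * ‖f z‖ ^ d
  big : ∃ z ∈ DD1, exp (-(χ * T)) ≤ ‖f z‖
  small : ‖f 0‖ ≤ exp (-(T / 2))

/-- The data at the level `T` without obstructions, with the degree of the disc. -/
def DatT3 (K a g ε χ s₀ T : ℝ) (cl : Cls N) (ω' : Fin N → ℝ) (c : Mon ν d → ℂ) : Prop :=
  ∃ (m : ℕ) (y : Fin 0 → Mon ν d → ℂ) (f : ℂ → Fin ν → ℂ) (ξ : Mon ν d → ℂ → Fin ν → ℂ)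
    (γ : ℂ → ℂ), (m : ℝ) ≤ 208 * (K * T) / a + 1 ∧
    Dat cl ω' m (exp ((4 * g + χ) * T)) (exp (χ * T)) (exp ((ε + χ) * T))
      (exp (-(17 * (K * T)))) (exp (17 * (K * T))) (exp (-(100 * (K * T))))
      (exp ((1 - χ) * T)) (exp (-s₀ - χ * T)) c y f ξ γ

end basic

end

end Pool.Agent.Lib.MP_45f16c_ag.EX
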