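import Pool.Agent.Lib.MP_45f16c_ag.EX.Obj

/-! The statements of the modules of the proof. Each one is proved in its own file. -/

set_option autoImplicit false
open Metric MeasureTheory MvPolynomial Filter Real
open scoped ComplexConjugate Matrix Topology

namespace Pool.Agent.Lib.MP_45f16c_ag.EX

open AS

noncomputable section

/-! ### Polynomials -/

/-- Substitution of linear forms. -/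
def SubStmt : Prop :=
  ∀ (ν k : ℕ) (p q : Fin ν → Fin ν → ℂ) (B : ℝ) (P : MP ν), (∀ a, p a + q a = Pi.single a 1) →
    (∀ a, nl (p a) ≤ B) → 1 ≤ B → P.IsHomogeneous (k + 1) →
    ∃ G : Fin ν → MP ν, (∀ a, (G a).IsHomogeneous k ∧ n1 (G a) ≤ (k + 1) * B ^ k * n1 P) ∧
      P = aeval (fun a => LL (p a)) P + ∑ a, LL (q a) * G a

/-- Forms vanishing at a point or on a plane. -/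
def DecStmt : Prop :=
  ∀ (ν k : ℕ) (x : Fin ν → ℂ) (g : MP ν), g.IsHomogeneous (k + 1) →
    (∀ a₁, x ≠ 0 → ‖x a₁‖ = ‖x‖ → eval x g = 0 → ∃ G : Fin ν → MP ν,
      (∀ a, (G a).IsHomogeneous k ∧ n1 (G a) ≤ (k + 1) * n1 g) ∧ g = ∑ a, LL (sh x a₁ a) * G a) ∧
    ∀ u, bv x u ≠ 0 → VanL x u g → ∃ (q : Fin ν → Fin ν → ℂ) (G : Fin ν → MP ν),
      (∀ a, q a ⬝ᵥ x = 0 ∧ q a ⬝ᵥ u = 0 ∧ nl (q a) ≤ 3 ∧ (G a).IsHomogeneous k ∧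
        n1 (G a) ≤ (k + 1) * 2 ^ k * n1 g) ∧ g = ∑ a, LL (q a) * G a

/-- Restriction of a form to a plane. -/
def BinStmt : Prop :=
  ∀ (ν k : ℕ) (p q : Fin ν → ℂ) (B : ℝ) (G : MP ν), ‖p‖ ≤ B → ‖q‖ ≤ B → G.IsHomogeneous k →
    ∃ c : Fin (k + 1) → ℂ, ∑ e, ‖c e‖ ≤ (2 * B) ^ k * n1 G ∧
      ∀ s t : ℂ, eval (s • p + t • q) G = ∑ e, c e * s ^ (e : ℕ) * t ^ (k - e)

/-- The residual intersection of a line through a point of the hypersurface. -/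
def QfStmt : Prop :=
  ∀ (ν d : ℕ) (F : MP ν), F.IsHomogeneous d →
    ∃ q : (Fin ν → ℂ) × (Fin ν → ℂ) × (Fin ν → ℂ) → ℂ, Differentiable ℂ q ∧ ∀ U x u,
      (U ⬝ᵥ x) * q (U, x, u) = eval (ct U x u) F - (-(U ⬝ᵥ u)) ^ d * eval x F ∧
      (nl U ≤ 1 → ‖q (U, x, u)‖ * ‖x‖ ≤
        3 ^ d * (n1 F * ‖bv x u‖ ^ d + ‖u‖ ^ d * ‖eval x F‖))

/-! ### Minors -/

/-- Laplace expansion against a functional. -/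
def LapStmt : Prop :=
  ∀ (ι : Type) [Fintype ι] (n : ℕ) (I : Fin n → ι) (H : ι → ℂ) (v : Fin (n + 1) → ι → ℂ),
    ∑ e, H e * dt (Fin.cons e I : Fin (n + 1) → ι) v =
      ∑ k : Fin (n + 1), (-1) ^ (k : ℕ) * (H ⬝ᵥ v k) * dt I fun i => v (k.succAbove i)

/-- Coordinates in the basis given by the columns of a nonzero minor. -/
def CramStmt : Prop :=
  ∀ (ι : Type) [Fintype ι] (N : ℕ) (I : Fin (N + 1) → ι) (c₀ : ι → ℂ) (c : Fin N → ι → ℂ),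
    dt I (Fin.cons c₀ c) ≠ 0 → ∃ φ : (ι → ℂ) →ₗ[ℂ] (Fin N → ℂ), (∀ k, φ (c k) = Pi.single k 1) ∧
      (∀ w, (∀ i, w (I i) = 0) → φ w = 0) ∧
      ∀ v : Fin N → ι → ℂ, dt I (Fin.cons c₀ v) = dt I (Fin.cons c₀ c) * dt id fun k => φ (v k)

/-- Minors as determinants with unit rows. -/
def PmStmt : Prop :=
  ∀ (N p : ℕ) (r : Fin p → Fin N) (w : Fin p → Fin N → ℂ), Function.Injective r →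
    dt id (Function.extend r w fun k => Pi.single k 1) = dt r w

/-- Bound for partly extended configurations. -/
def BdEStmt : Prop :=
  ∀ (ν d N : ℕ) (ι : Type) (T : MP ν →ₗ[ℂ] (ι → ℂ)) (x : Fin ν → ℂ) (η B : ℝ)
    (I : Fin (N + 1) → ι) (c₀ : ι → ℂ) (a₀ : Fin ν) (S : Finset (Fin N)) (l : Fin N → Fin ν → ℂ)
    (G : Fin N → MP ν) (β : Fin N → ℕ), x ≠ 0 → 0 ≤ B → Bd1 T x d η I c₀ B →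
    (∀ k ∈ S, l k ⬝ᵥ x = 0) → Lab d G β →
    exp (η * rew β) * ‖dt I (cols T c₀ (S.piecewise l fun k => ex a₀ x (l k)) G)‖ ≤
      4 ^ N * B * (‖x a₀‖ ^ (Sᶜ.card - (Sᶜ.image β).card) * ‖x‖ ^ (Sᶜ.image β).card) *
        ∏ k, nl (l k) * n1 (G k)

/-- Divisibility of the extended minor. -/
def DivDStmt : Prop :=
  ∀ (ν N : ℕ) (ι : Type) [Fintype ι] (T : ℂ → MP ν →ₗ[ℂ] (ι → ℂ)) (x : ℂ → Fin ν → ℂ)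
    (c : ℂ → ι → ℂ) (I : Fin (N + 1) → ι) (a₀ : Fin ν) (l : Fin N → Fin ν → ℂ)
    (G : ℂ → Fin N → MP ν) (β : Fin N → ℕ) (s : Set ℂ), HolT T → DifferentiableOn ℂ x s →
    DifferentiableOn ℂ c s → (∀ k, HolP s fun z => G z k) →
    (∀ z k k', β k = β k' → G z k = G z k') → ∃ u : ℂ → ℂ, DifferentiableOn ℂ u s ∧
      ∀ z, dt I (Fin.cons (c z) (xc (T z) a₀ (x z) l (G z))) = x z a₀ ^ (N - nb β) * u z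

/-- Configurations whose first column comes from a form vanishing at the point are small. -/
def AmbStmt : Prop :=
  ∀ (ν d : ℕ) (ι : Type) [Fintype ι] (T : MP ν →ₗ[ℂ] (ι → ℂ)) (x : Fin ν → ℂ) (η X CH E S : ℝ)
    (R : Finset ι) (sc : ι → ℝ) (α : ℂ), x ≠ 0 → α ≠ 0 → 0 ≤ η → 0 ≤ X → 0 ≤ CH → 0 ≤ E → 0 ≤ S →
    (∀ e, 0 ≤ sc e) → Bd T x d η R sc X → Fn T x d R sc α CH E S →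
    2 * E * S ≤ ‖α‖ * ‖x‖ ^ (d + 1) → ∀ (N : ℕ) (I : Fin (N + 1) → ι) (g₀ : MP ν),
      (∀ i, I i ∈ R) → g₀.IsHomogeneous (d + 1) → eval x g₀ = 0 → Bd1 T x d η I (T g₀)
        (4 * ν * (d + 1) * Fintype.card ι * (CH * exp (-η) + E * exp (2 * Fintype.card ι * η)) *
          S / (‖α‖ * ‖x‖ ^ (d + 1)) * X * (∏ i, sc (I i)) * n1 g₀)

/-- Change of the first column. -/
def FstStmt : Prop :=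
  ∀ (ν d : ℕ) (ι : Type) (T : MP ν →ₗ[ℂ] (ι → ℂ)) (x m : Fin ν → ℂ) (η X A : ℝ) (R : Finset ι)
    (sc : ι → ℝ), m ⬝ᵥ x = 1 → 0 ≤ X → 0 ≤ A → (∀ e, 0 ≤ sc e) → Bd T x d η R sc X →
    (∀ (N : ℕ) (I : Fin (N + 1) → ι) (g₀ : MP ν), (∀ i, I i ∈ R) → g₀.IsHomogeneous (d + 1) →
      eval x g₀ = 0 → Bd1 T x d η I (T g₀) (A * X * (∏ i, sc (I i)) * n1 g₀)) →
    8 * A * (nl m * ‖x‖) ^ (d + 1) ≤ 1 →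
    (∀ (N : ℕ) (I : Fin (N + 1) → ι), (∀ i, I i ∈ R) →
      Bd1 T x d η I (T (LL m ^ (d + 1))) (2 * X * (∏ i, sc (I i)) / ‖x‖ ^ (d + 1))) ∧
    (Nr T x d η R sc X → ∃ (N : ℕ) (I : Fin (N + 1) → ι) (l : Fin N → Fin ν → ℂ)
      (G : Fin N → MP ν) (β : Fin N → ℕ), (∀ i, I i ∈ R) ∧ Adm x d l G β ∧ Nrm l G ∧
      2 * X * (∏ i, sc (I i)) / ‖x‖ ^ (d + 1) ≤
        8 * (exp (η * rew β) * ‖dt I (cols T (T (LL m ^ (d + 1))) l G)‖))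

/-- The best bound. -/
def SupStmt : Prop :=
  ∀ (ν d : ℕ) (ι : Type) (T : MP ν →ₗ[ℂ] (ι → ℂ)) (x : Fin ν → ℂ) (η : ℝ) (R : Finset ι)
    (sc : ι → ℝ), (∀ e, 0 < sc e) →
    (∀ X X', Nr T x d η R sc X → Bd T x d η R sc X' → 0 ≤ X' → X ≤ 2 * X') ∧
    (∀ X X', X ≤ X' → Bd T x d η R sc X → Bd T x d η R sc X') ∧
    (∀ X X', X' ≤ X → Nr T x d η R sc X → Nr T x d η R sc X') ∧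
    ∀ X₀, R.Nonempty → 0 ≤ X₀ → Bd T x d η R sc X₀ →
      ∃ X, 0 ≤ X ∧ Bd T x d η R sc X ∧ Nr T x d η R sc (3 / 2 * X)

/-- The a priori bounds. -/
def ApStmt : Prop :=
  ∀ (ν d j : ℕ) (T : MP ν →ₗ[ℂ] (Fin ν ⊕ Fin j → ℂ)) (x : Fin ν → ℂ) (η : ℝ)
    (R : Finset (Fin ν ⊕ Fin j)),
    (∀ Λ : ℝ, 1 ≤ Λ → 0 ≤ η → (∀ g : MP ν, g.IsHomogeneous (d + 1) →
      (∀ e, ‖T g (.inl e)‖ ≤ Λ * ‖x‖ * n1 g) ∧ ∀ e, ‖T g (.inr e)‖ ≤ n1 g) →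
      Bd T x d η R (scf j x) ((ν + j).factorial * Λ ^ ν * exp (η * (ν + j) ^ 2))) ∧
    ∀ (α : ℂ) (X CH E S : ℝ), x ≠ 0 → 0 ≤ X → Bd T x d η R (scf j x) X →
      Fn T x d R (scf j x) α CH E S → ‖α‖ * ‖x‖ ^ (d + 1) ≤ (X * CH + E) * S

/-- A nearly extremal configuration extends holomorphically. -/
def ExtStmt : Prop :=
  ∀ (ν d j : ℕ) (T : ℂ → MP ν →ₗ[ℂ] (Fin ν ⊕ Fin j → ℂ)) (f : ℂ → Fin ν → ℂ) (η X₀ : ℝ)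
    (R : Finset (Fin ν ⊕ Fin j)) (z₀ : ℂ), HolT T → Differentiable ℂ f → f z₀ ≠ 0 →
    Nr (T z₀) (f z₀) d η R (scf j (f z₀)) X₀ → ∃ (P : ℂ → ℂ) (e : ℕ), Differentiable ℂ P ∧
      e ≤ 2 * (ν + j) ∧ X₀ * ‖f z₀‖ ^ e ≤ 2 ^ (ν + j) * ‖P z₀‖ ∧ ∀ z X, 0 ≤ X →
        Bd (T z) (f z) d η R (scf j (f z)) X → ‖P z‖ ≤ 2 ^ (ν + j) * X * ‖f z‖ ^ e

/-! ### Spaces of small rank -/

/-- A quantitative lemma of Flanders. -/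
def FlStmt : Prop :=
  ∀ (ν d p : ℕ) (κ : Type) [Fintype κ] (ψ : MP ν →ₗ[ℂ] (κ → ℂ)) (x : Fin ν → ℂ) (σ : Finset κ)
    (θ : ℝ), 1 ≤ p → 0 < θ →
    (∀ (r : Fin p → κ) (l : Fin p → Fin ν → ℂ) (G : MP ν), (∀ i, r i ∈ σ) → (∀ i, l i ⬝ᵥ x = 0) →
      G.IsHomogeneous d → ‖dt r fun i => ψ (LL (l i) * G)‖ ≤ θ ^ p * ∏ i, nl (l i) * n1 G) →
    ∃ (k : ℕ) (r : Fin k → κ) (b : Fin p → Fin ν → ℂ) (co : κ → Fin k → ℂ), k < p ∧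
      ∀ k₀ ∈ σ, ∀ (l : Fin ν → ℂ) (G : MP ν), (∀ i, l ⬝ᵥ b i = 0) → G.IsHomogeneous d →
        ‖ψ (LL l * G) k₀ - ∑ i, co k₀ i * ψ (LL l * G) (r i)‖ ≤ 4 ^ (p + 1) * θ * (nl l * n1 G)

/-- Few columns lie in small blocks. -/
def SmStmt : Prop :=
  ∀ (ν d j p s₀ N : ℕ) (T : MP ν →ₗ[ℂ] (Fin ν ⊕ Fin j → ℂ)) (x : Fin ν → ℂ) (η B : ℝ)
    (J : Finset (Fin j)) (I : Fin (N + 1) → Fin ν ⊕ Fin j) (c₀ : Fin ν ⊕ Fin j → ℂ)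
    (l : Fin N → Fin ν → ℂ) (G : Fin N → MP ν) (β : Fin N → ℕ), 4 ≤ p →
    2 * (ν + j) ^ 2 * 4 ^ (p + 1) ≤ exp η →
    (∀ g : MP ν, g.IsHomogeneous (d + 1) → ∀ e, ‖T g (.inr e)‖ ≤ n1 g) →
    NK (obs T) J d p s₀ (exp (-η)) → (∀ i, I i ∈ RR ν J) → Adm x d l G β → Nrm l G →
    Bd1 T x d η I c₀ B → 0 < B → B ≤ 8 * (exp (η * rew β) * ‖dt I (cols T c₀ l G)‖) →
    (Finset.univ.filter fun k => 4 * sz β k ≤ p).card < ν + s₀ + p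

/-- Counting blocks. -/
def CntStmt : Prop :=
  ∀ (N p e : ℕ) (β : Fin N → ℕ), 4 ≤ p → 4 * N ≤ p * e →
    nb β ≤ (Finset.univ.filter fun k => 4 * sz β k ≤ p).card + e ∧
    2 * nb β ≤ (Finset.univ.filter fun k => sz β k = 1).card +
      (Finset.univ.filter fun k => 4 * sz β k ≤ p).card + 2 * e

/-- The two cases. -/
def CaseStmt : Prop :=
  ∀ (ν j dF p e a d : ℕ) (T : MP ν →ₗ[ℂ] (Fin ν ⊕ Fin j → ℂ)) (x : Fin ν → ℂ) (η : ℝ)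
    (J : Finset (Fin j)), Nums ν j dF p e → a + (d + 1) = dF → a ≤ e →
    2 * (ν + j) ^ 2 * 4 ^ (p + 1) ≤ exp η →
    (∀ g : MP ν, g.IsHomogeneous (d + 1) → ∀ e, ‖T g (.inr e)‖ ≤ n1 g) →
    NK (obs T) J d p e (exp (-η)) → Cases dF d e T x (RR ν J) (wv ν j) η

/-- Spaces of maps of rank one. -/
def R1Stmt : Prop :=
  ∀ (ν d N : ℕ) (Φ : MP ν →ₗ[ℂ] (Fin N → ℂ)) (x : Fin ν → ℂ) (S : Finset (Fin N))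
    (l : Fin N → Fin ν → ℂ) (G : Fin N → MP ν) (k₁ : Fin N) (ρ Q ε : ℝ), k₁ ∈ S → 2 ≤ S.card →
    0 < ρ → 1 ≤ Q → 0 ≤ ε → (∀ k, l k ⬝ᵥ x = 0 ∧ (G k).IsHomogeneous d) →
    (∀ k ∈ S, nl (l k) ≤ ρ ∧ n1 (G k) ≤ 1 ∧ Φ (LL (l k) * G k) = Pi.single k 1) →
    (∀ (l' : Fin N → Fin ν → ℂ) (G' : Fin N → MP ν),
      (∀ k, l' k ⬝ᵥ x = 0 ∧ (G' k).IsHomogeneous d) →
      ‖pm S fun k => Φ (LL (l' k) * G' k)‖ * ρ ^ S.card ≤ Q * ∏ k ∈ S, nl (l' k) * n1 (G' k) ∧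
      ∀ k ∈ S, ∀ k' ∈ S, k ≠ k' → G' k = G' k' → ‖pm S fun k => Φ (LL (l' k) * G' k)‖ *
        ρ ^ S.card ≤ ε * Q * ∏ k ∈ S, nl (l' k) * n1 (G' k)) →
    ∀ (l' : Fin N → Fin ν → ℂ) (G' : Fin N → MP ν),
      (∀ k, l' k ⬝ᵥ x = 0 ∧ (G' k).IsHomogeneous d) → ∀ k₀ ∈ S, Φ (LL (l' k₀) * G k₁) k₁ = 0 →
      ‖pm S fun k => Φ (LL (l' k) * G' k)‖ * ρ ^ S.card ≤
        15 * N * ε * Q ^ 4 * ∏ k ∈ S, nl (l' k) * n1 (G' k)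

/-- From products to the ideals of the point and of the plane. -/
def KLStmt : Prop :=
  ∀ (ν d : ℕ) (κ : Type) [Fintype κ] [DecidableEq κ] (x u : Fin ν → ℂ) (Λ : MP ν [⋀^κ]→ₗ[ℂ] ℂ)
    (B ε : ℝ), bv x u ≠ 0 → 0 ≤ B → 0 ≤ ε →
    (∀ (l : κ → Fin ν → ℂ) (G : κ → MP ν), (∀ k, l k ⬝ᵥ x = 0 ∧ (G k).IsHomogeneous d) →
      ‖Λ fun k => LL (l k) * G k‖ ≤ B * ∏ k, nl (l k) * n1 (G k) ∧ ∀ k₀, l k₀ ⬝ᵥ u = 0 →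
        ‖Λ fun k => LL (l k) * G k‖ ≤ ε * B * ∏ k, nl (l k) * n1 (G k)) →
    KL d x u Λ ((3 * ν * (d + 1) * 2 ^ d) ^ Fintype.card κ * B) ε

/-- The singletons of a configuration that is not small see only a plane. -/
def KPStmt : Prop :=
  ∀ ν d N : ℕ, ∃ C : ℝ, 1 ≤ C ∧ ∀ (ι : Type) [Fintype ι] (T : MP ν →ₗ[ℂ] (ι → ℂ)) (x : Fin ν → ℂ)
    (η B Q : ℝ) (I : Fin (N + 1) → ι) (c₀ : ι → ℂ) (a₀ : Fin ν) (S : Finset (Fin N))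
    (l : Fin N → Fin ν → ℂ) (G : Fin N → MP ν) (β : Fin N → ℕ) (k₁ : Fin N), k₁ ∈ S →
    2 ≤ S.card → (∀ k ∈ S, sz β k = 1) → x a₀ ≠ 0 → 0 ≤ η → 0 < B → 1 ≤ Q → Lab d G β → Nrm l G →
    Bd1 T x d η I c₀ B → B * (‖x a₀‖ ^ (N - nb β) * ‖x‖ ^ nb β) ≤
      Q * (exp (η * rew β) * ‖dt I (Fin.cons c₀ (xc T a₀ x l G))‖) →
    bv x (uu T I c₀ (xc T a₀ x l G) k₁ (G k₁)) ≠ 0 ∧
    KL d x (uu T I c₀ (xc T a₀ x l G) k₁ (G k₁)) (Lam T I c₀ S (xc T a₀ x l G))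
      (C * B * exp (-(η * rew β)) * (‖x a₀‖ ^ (N - nb β) * ‖x‖ ^ (nb β - S.card)))
      (C * Q ^ 4 * exp (-(2 * η)))

/-- Changing the arguments modulo the ideal of the plane. -/
def TelStmt : Prop :=
  ∀ (ν d : ℕ) (κ : Type) [Fintype κ] [DecidableEq κ] (x u : Fin ν → ℂ) (Λ : MP ν [⋀^κ]→ₗ[ℂ] ℂ)
    (B ε : ℝ) (g w : κ → MP ν) (A : κ → ℝ), 0 ≤ B → 0 ≤ ε → KL d x u Λ B ε →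
    (∀ k, (g k).IsHomogeneous (d + 1) ∧ eval x (g k) = 0 ∧ n1 (g k) ≤ A k) →
    (∀ k, (w k).IsHomogeneous (d + 1) ∧ eval x (w k) = 0 ∧ n1 (w k) ≤ A k) →
    (∀ k, VanL x u (g k - w k)) → ‖Λ g - Λ w‖ ≤ 2 * Fintype.card κ * ε * B * ∏ k, A k

/-- At the centre: replacing the cofactors by distinct monomials. -/
def CenStmt : Prop :=
  ∀ (ν d : ℕ) (κ : Type) [Fintype κ] [DecidableEq κ] (x u U V P P' : Fin ν → ℂ)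
    (Λ : MP ν [⋀^κ]→ₗ[ℂ] ℂ) (B ε Q : ℝ) (l : κ → Fin ν → ℂ) (G : κ → MP ν) (k₁ : κ), 0 ≤ B →
    0 ≤ ε → KL d x u Λ B ε →
    (∀ k, l k ⬝ᵥ x = 0 ∧ nl (l k) ≤ 1 ∧ (G k).IsHomogeneous d ∧ n1 (G k) ≤ 1) → l k₁ ⬝ᵥ u ≠ 0 →
    U ⬝ᵥ P = 1 → V ⬝ᵥ P = 0 → U ⬝ᵥ P' = 0 → V ⬝ᵥ P' = 1 → ‖P‖ ≤ 2 → ‖P'‖ ≤ 2 → nl U ≤ Q →
    nl V ≤ 2 → 2 ≤ Q → (∃ s t : ℂ, x = s • P + t • P') → (∃ s t : ℂ, u = s • P + t • P') →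
    (Λ fun k => LL (l k) * G k) ≠ 0 →
    4 * Fintype.card κ * ε * B * (4 * Q) ^ (d * Fintype.card κ) ≤ ‖Λ fun k => LL (l k) * G k‖ →
    ∃ (k₂ : κ) (e : κ → ℕ), Function.Injective e ∧ (∀ k, e k ≤ d) ∧
      ‖Λ fun k => LL (l k) * G k‖ ≤ 2 * 4 ^ (d * Fintype.card κ) *
        ‖Λ fun k => LL (l k₂) * (LL U ^ e k * LL V ^ (d - e k))‖

/-- On the circle: the gain. -/
def CircStmt : Prop :=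
  ∀ (ν d : ℕ) (κ : Type) [Fintype κ] [DecidableEq κ] (x u w U U' V : Fin ν → ℂ)
    (Λ : MP ν [⋀^κ]→ₗ[ℂ] ℂ) (B ε Q ρ : ℝ) (e : κ → ℕ), 0 ≤ B → 0 ≤ ε → KL d x u Λ B ε →
    w ⬝ᵥ x = 0 → (U - U') ⬝ᵥ x = 0 → (U - U') ⬝ᵥ u = 0 → nl U' ≤ 2 * ρ → nl U ≤ Q * ρ → 2 ≤ Q →
    nl V ≤ 2 → (∀ k, e k ≤ d) → 2 * Fintype.card κ * ε * Q ^ (d * Fintype.card κ) ≤ 1 →
    ‖Λ fun k => LL w * (LL U ^ e k * LL V ^ (d - e k))‖ ≤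
      2 * B * (nl w * 2 ^ d) ^ Fintype.card κ * ρ ^ ∑ k, e k

/-! ### One complex variable -/

/-- A radius far from given radii. -/
def RadStmt : Prop :=
  ∀ (κ : Type) [Fintype κ] (s : κ → ℝ) (A B : ℝ), A < B →
    ∃ t ∈ Set.Icc A B, ((B - A) / 4) ^ Fintype.card κ ≤ ∏ k, |t - s k|

/-- Minimum modulus for polynomials. -/
def PMStmt : Prop :=
  ∀ (κ : Type) [Fintype κ] (m : ℕ) (h : κ → ℂ → ℂ) (A B : ℝ), (∀ k, PD ℂ m (h k)) → 0 ≤ A →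
    A < B → B ≤ 1 → ∃ t ∈ Set.Icc A B, ∀ (k : κ) (z w : ℂ), ‖z‖ = t → ‖w‖ ≤ 1 →
      ‖h k w‖ ≤ (200 / (B - A)) ^ (m * Fintype.card κ) * ‖h k z‖

/-- Minimum modulus. -/
def MMStmt : Prop :=
  ∃ C : ℝ, 1 ≤ C ∧ ∀ (h : ℂ → ℂ) (Ω : ℝ), 1 ≤ Ω → DifferentiableOn ℂ h BB →
    (∀ z ∈ BB, ‖h z‖ ≤ exp Ω * ‖h 0‖) →
    ∃ t ∈ Set.Icc (1 : ℝ) 2, ∀ z ∈ sphere (0 : ℂ) t, ‖h 0‖ ≤ exp (C * Ω) * ‖h z‖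

/-- The sub-mean inequality. -/
def SubMStmt : Prop :=
  ∀ t ∈ Set.Icc (1 : ℝ) 2, (∀ (h : ℂ → ℂ) (φ : ℂ → ℝ), DifferentiableOn ℂ h BB → h 0 ≠ 0 →
      ContinuousOn φ (sphere 0 t) → (∀ z ∈ sphere (0 : ℂ) t, ‖h z‖ ≤ exp (φ z)) →
      log ‖h 0‖ ≤ circleAverage φ 0 t) ∧
    ∀ (ν : ℕ) (x : ℂ → Fin ν → ℂ), DifferentiableOn ℂ x BB → (∀ z ∈ BB, x z ≠ 0) → 0 ≤ Tch x 0 t

/-- A holomorphic dual form. -/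
def CorStmt : Prop :=
  ∀ ν : ℕ, ∃ C : ℝ, 1 ≤ C ∧ ∀ (x : ℂ → Fin ν → ℂ) (δ : ℝ), 0 ≤ δ →
    DifferentiableOn ℂ x (ball 0 6) → (∀ z ∈ ball (0 : ℂ) 6, exp (-δ) ≤ ‖x z‖ ∧ ‖x z‖ ≤ exp δ) →
    ∃ m : ℂ → Fin ν → ℂ, DifferentiableOn ℂ m BB ∧
      ∀ z ∈ BB, m z ⬝ᵥ x z = 1 ∧ nl (m z) ≤ C * exp (5 * δ)

/-- A point where a polynomial disc starts to move. -/
def StartStmt : Prop :=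
  ∀ (ν m : ℕ) (f : ℂ → Fin ν → ℂ), (∀ a, PD ℂ m fun z => f z a) → (∀ z ∈ DD1, f z ≠ 0) →
    (∀ z ∈ DD1, ‖f z‖ ≤ 2 * 6400 ^ m * ‖f 0‖) ∨ ∃ z : ℂ, ‖z‖ ≤ 1 / 8 ∧
      ‖f z‖ ≤ 2 * 2 ^ m * ‖f 0‖ ∧ ‖f z‖ ^ 2 ≤ ‖bv (f z) (deriv f z)‖

/-- Duality on a circle. -/
def DLStmt : Prop :=
  ∀ (ν : ℕ) (I : Type) [Fintype I] (p : I → ℂ → Fin ν → ℂ) (v : Fin ν → ℂ) (t ε B : ℝ), 0 < t →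
    0 < ε → ε ≤ 1 → 0 < B → (∀ i, ContinuousOn (p i) (sphere 0 t)) →
    (∀ i, ∀ z ∈ sphere (0 : ℂ) t, ‖p i z‖ ≤ 1) →
    (∃ U : ℂ → Fin ν → ℂ, Differentiable ℂ U ∧ U 0 ⬝ᵥ v = 1 ∧ circleAverage
      (fun z => ∑ i, ‖U z ⬝ᵥ p i z‖ ^ 2 + ε ^ 2 * ∑ a, ‖U z a‖ ^ 2) 0 t ≤ (B ^ 2)⁻¹) ∨
    ∃ y : ℂ → Fin ν → ℂ, Differentiable ℂ y ∧ y 0 = v ∧
      circleAverage (fun z => ‖y z‖ ^ 2) 0 t ≤ 4 * (Fintype.card I + 1) * B ^ 2 ∧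
      ∀ q : ℂ → Fin ν → ℂ, ContinuousOn q (sphere 0 t) →
        (∀ z ∈ sphere (0 : ℂ) t, nl (q z) ≤ 1 ∧ ∀ i, q z ⬝ᵥ p i z = 0) →
        circleAverage (fun z => ‖q z ⬝ᵥ y z‖ ^ 2) 0 t ≤ 4 * ε ^ 2 * B ^ 2

/-- Two vectors close to a plane through `x`. -/
def PlStmt : Prop :=
  ∀ (ν : ℕ) (x u y₁ y₂ : Fin ν → ℂ) (D₁ D₂ : ℝ), bv x u ≠ 0 →
    (∀ a b c, ‖tv y₁ x u a b c‖ ≤ D₁ * ‖bv x u‖) → (∀ a b c, ‖tv y₂ x u a b c‖ ≤ D₂ * ‖bv x u‖) →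
    ∀ a b c, ‖tv x y₁ y₂ a b c‖ ≤ 6 * ‖x‖ * (D₁ * ‖y₂‖ + 2 * ‖y₁‖ * D₂)

/-- A nearly flat scroll forces a small characteristic. -/
def RHStmt : Prop :=
  ∀ (ν dF : ℕ) (c₀ CF : ℝ), 1 ≤ dF → 0 < c₀ → ∃ C : ℝ, 1 ≤ C ∧ ∀ (F : MP ν)
    (x m u y₁ y₂ : ℂ → Fin ν → ℂ) (t δ E ε B : ℝ), t ∈ Set.Icc (1 : ℝ) 2 → 1 ≤ δ → 1 ≤ B →
    0 ≤ ε → ε ≤ exp (-(2 * δ)) → E ≤ exp (-(C * δ)) → HIn dF c₀ CF F x m δ E →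
    DifferentiableOn ℂ x BB → ‖x 0‖ = 1 → (∀ z ∈ BB, exp (-δ) ≤ ‖x z‖ ∧ ‖x z‖ ≤ exp δ) →
    ContinuousOn u (sphere 0 t) → (∀ z ∈ sphere (0 : ℂ) t, bv (x z) (u z) ≠ 0) →
    (∀ y, y = y₁ ∨ y = y₂ → Differentiable ℂ y ∧ ‖y 0‖ ≤ 1 ∧
      circleAverage (fun z => ‖y z‖ ^ 2) 0 t ≤ 4 * (ν + 1) * B ^ 2 ∧
      ∀ q : ℂ → Fin ν → ℂ, ContinuousOn q (sphere 0 t) →
        (∀ z ∈ sphere (0 : ℂ) t, nl (q z) ≤ 1 ∧ q z ⬝ᵥ x z = 0 ∧ q z ⬝ᵥ u z = 0) →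
        circleAverage (fun z => ‖q z ⬝ᵥ y z‖ ^ 2) 0 t ≤ 4 * ε ^ 2 * B ^ 2) →
    (∃ s s' : ℂ, x 0 = s • y₁ 0 + s' • y₂ 0) → 1 ≤ ‖bv (y₁ 0) (y₂ 0)‖ →
    Tch x 0 t ≤ 2 * dF * log B + C

/-- A holomorphic linear form that is small on the planes. -/
def U0Stmt : Prop :=
  ∀ (ν dF : ℕ) (c₀ CF : ℝ), 1 ≤ dF → 0 < c₀ → ∃ C : ℝ, 1 ≤ C ∧ ∀ (F : MP ν)
    (x m u : ℂ → Fin ν → ℂ) (u₀ : Fin ν → ℂ) (t δ E : ℝ), t ∈ Set.Icc (1 : ℝ) 2 → 1 ≤ δ →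
    E ≤ exp (-(C * δ)) → HIn dF c₀ CF F x m δ E → DifferentiableOn ℂ x BB → ‖x 0‖ = 1 →
    (∀ z ∈ BB, exp (-δ) ≤ ‖x z‖ ∧ ‖x z‖ ≤ exp δ) → ContinuousOn u (sphere 0 t) →
    (∀ z ∈ sphere (0 : ℂ) t, bv (x z) (u z) ≠ 0) → bv (x 0) u₀ ≠ 0 →
    ∃ (U : ℂ → Fin ν → ℂ) (ρ : ℂ → ℝ) (V P P' : Fin ν → ℂ), Differentiable ℂ U ∧
      ContinuousOn ρ (sphere 0 t) ∧
      (∀ z ∈ sphere (0 : ℂ) t, 0 < ρ z ∧ nl (U z) ≤ exp (C * δ) * ρ z ∧ ∃ U' : Fin ν → ℂ,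
        (U z - U') ⬝ᵥ x z = 0 ∧ (U z - U') ⬝ᵥ u z = 0 ∧ nl U' ≤ 2 * ρ z) ∧
      circleAverage (fun z => log (ρ z)) 0 t ≤ C - Tch x 0 t / (2 * dF) ∧
      U 0 ⬝ᵥ P = 1 ∧ V ⬝ᵥ P = 0 ∧ U 0 ⬝ᵥ P' = 0 ∧ V ⬝ᵥ P' = 1 ∧ ‖P‖ ≤ 2 ∧ ‖P'‖ ≤ 2 ∧
      nl (U 0) ≤ exp (C * δ) ∧ nl V ≤ 2 ∧ (∃ s s' : ℂ, x 0 = s • P + s' • P') ∧
      ∃ s s' : ℂ, u₀ = s • P + s' • P'

/-! ### The jump -/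

/-- The gain from many singletons. -/
def GainStmt : Prop :=
  ∀ (ν d dF N : ℕ) (c₀ CF : ℝ), 1 ≤ dF → 0 < c₀ → ∃ C : ℝ, 1 ≤ C ∧ ∀ (ι : Type) [Fintype ι]
    (T : ℂ → MP ν →ₗ[ℂ] (ι → ℂ)) (x m : ℂ → Fin ν → ℂ) (c : ℂ → ι → ℂ) (I : Fin (N + 1) → ι)
    (a₀ : Fin ν) (l : Fin N → Fin ν → ℂ) (G : Fin N → MP ν) (β : Fin N → ℕ) (B : ℂ → ℝ)
    (t η δ E : ℝ) (F : MP ν) (S : Finset (Fin N)), GIn d T x c I a₀ l G β B t η δ →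
    HIn dF c₀ CF F x m δ E → 1 ≤ δ → C * δ ≤ η → E ≤ exp (-(C * δ)) → (∀ k ∈ S, sz β k = 1) →
    2 ≤ S.card → GainOut T x c I a₀ β B t η C ((S.card * (S.card - 1) : ℕ) / (4 * dF))

/-- The choice of the configuration and of the circle. -/
def PreStmt : Prop :=
  ∀ (ν d : ℕ) (ι : Type) [Fintype ι] (CH : ℝ), 1 ≤ CH → ∃ C : ℝ, 1 ≤ C ∧
    ∀ (T : ℂ → MP ν →ₗ[ℂ] (ι → ℂ)) (x : ℂ → Fin ν → ℂ) (R : Finset ι) (sc : ℂ → ι → ℝ)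
      (α G : ℂ → ℂ) (X : ℂ → ℝ) (N₁ : ℕ) (E η δ : ℝ), JIn d T x R sc α G X N₁ CH E η δ → 1 ≤ δ →
      C * δ ≤ η → 0 ≤ E → E ≤ exp (-(C * η)) →
      ∃ (N : ℕ) (I : Fin (N + 1) → ι) (m : ℂ → Fin ν → ℂ) (a₀ : Fin ν) (l : Fin N → Fin ν → ℂ)
        (G₀ : Fin N → MP ν) (β : Fin N → ℕ) (t : ℝ), N + 1 ≤ Fintype.card ι ∧ (∀ i, I i ∈ R) ∧
        DifferentiableOn ℂ m BB ∧ (∀ z ∈ BB, m z ⬝ᵥ x z = 1 ∧ nl (m z) ≤ exp (C * δ)) ∧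
        (∀ z ∈ sphere (0 : ℂ) t, G z ≠ 0) ∧
        GIn d T x (fun z => T z (LL (m z) ^ (d + 1))) I a₀ l G₀ β
          (fun z => 2 * X z * (∏ i, sc z (I i)) / ‖x z‖ ^ (d + 1)) t η (C * δ)

/-- The final averaging. -/
def FinStmt : Prop :=
  ∀ (ν d N D w N₁ : ℕ) (ι : Type) [Fintype ι] (T : ℂ → MP ν →ₗ[ℂ] (ι → ℂ)) (x : ℂ → Fin ν → ℂ)
    (c : ℂ → ι → ℂ) (I : Fin (N + 1) → ι) (a₀ : Fin ν) (β : Fin N → ℕ) (G : ℂ → ℂ) (χ : ℂ → ℝ)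
    (μ s t η C gain : ℝ), t ∈ Set.Icc (1 : ℝ) 2 → 0 < s → 1 ≤ C → 1 ≤ N₁ → HolT T →
    DifferentiableOn ℂ x BB → DifferentiableOn ℂ c BB → DifferentiableOn ℂ G BB →
    (∀ z ∈ BB, x z ≠ 0) → ‖x 0‖ = 1 → ‖x 0 a₀‖ = 1 → G 0 ≠ 0 →
    (∀ z ∈ sphere (0 : ℂ) t, G z ≠ 0 ∧ x z a₀ ≠ 0) → ContinuousOn χ (sphere 0 t) →
    GainOut T x c I a₀ β (fun z => Xf μ χ N₁ D x G z * (s * ‖x z‖ ^ w) / ‖x z‖ ^ (d + 1))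
      t η C gain → (w + nb β + D : ℝ) ≤ d + 1 + gain →
    circleAverage χ 0 t ≤ χ 0 + 3 * C * N₁

/-- The jump. -/
def JumpStmt : Prop :=
  ∀ (ν d dF : ℕ) (ι : Type) [Fintype ι] (CH c₀ CF : ℝ), 1 ≤ dF → 1 ≤ CH → 0 < c₀ →
    ∃ C : ℝ, 1 ≤ C ∧ ∀ (T : ℂ → MP ν →ₗ[ℂ] (ι → ℂ)) (x : ℂ → Fin ν → ℂ) (R : Finset ι)
      (v : ι → ℕ) (s : ι → ℝ) (α G : ℂ → ℂ) (χ : ℂ → ℝ) (D N₁ : ℕ) (μ E η δ : ℝ) (F : MP ν),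
      JIn d T x R (fun z e => s e * ‖x z‖ ^ v e) α G (Xf μ χ N₁ D x G) N₁ CH E η δ → 1 ≤ δ →
      C * δ ≤ η → 0 ≤ E → E ≤ exp (-(C * η)) → F.IsHomogeneous dF → n1 F ≤ CF → NL F dF c₀ →
      (∀ z ∈ BB, ‖eval (x z) F‖ ≤ E) → Continuous χ → Cases dF d D (T 0) (x 0) R v η →
      ∃ t ∈ Set.Icc (1 : ℝ) 2, circleAverage χ 0 t ≤ χ 0 + C * N₁

/-- The jump at a good point of the disc. -/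
def MidStmt : Prop :=
  ∀ (ν j dF p e : ℕ) (CH c₀ CF : ℝ), Nums ν j dF p e → 1 ≤ CH → 0 < c₀ → ∃ C : ℝ, 1 ≤ C ∧
    ∀ (a d N₁ : ℕ) (f : ℂ → Fin ν → ℂ) (T : ℂ → MP ν →ₗ[ℂ] (Fin ν ⊕ Fin j → ℂ))
      (U : Fin a → Fin ν → ℂ) (J : Finset (Fin j)) (F : MP ν) (G : ℂ → ℂ) (z₀ : ℂ)
      (Λ E η δ μ κ r : ℝ), a + (d + 1) = dF → a ≤ e → 1 ≤ N₁ → 1 ≤ δ → C * δ ≤ η → 0 ≤ E →
      E ≤ exp (-(C * η)) → 0 < r → 0 ≤ κ → 5 * κ * r ≤ N₁ * δ →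
      KD dF p e d f T U J Λ CH E (exp (-η)) → Differentiable ℂ f → Differentiable ℂ G →
      F.IsHomogeneous dF → n1 F ≤ CF → NL F dF c₀ →
      (∀ z ∈ DD1, f z ≠ 0 ∧ ‖eval (f z) F‖ ≤ E * ‖f z‖ ^ dF) → closedBall z₀ (6 * r) ⊆ DD1 →
      (∀ z ∈ closedBall z₀ (6 * r), ‖f z‖ ≤ exp δ * ‖f z₀‖ ∧ ‖f z₀‖ ≤ exp δ * ‖f z‖) →
      (∀ i, exp (-δ) * ‖f z₀‖ ≤ ‖U i ⬝ᵥ f z₀‖) → G z₀ ≠ 0 →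
      Nr (T z₀) (f z₀) d η (RR ν J) (scf j (f z₀)) (Xf μ (fun z => κ * ‖z‖ ^ 2) N₁ e f G z₀) →
      (∀ z ∈ DD1, G z ≠ 0 →
        Bd (T z) (f z) d η (RR ν J) (scf j (f z)) (Xf μ (fun z => κ * ‖z‖ ^ 2) N₁ e f G z)) →
      κ * r ^ 2 ≤ C * N₁

/-! ### Fast discs -/

/-- The maximum principle selects a good point. -/
def An2Stmt : Prop :=
  ∀ (ν q D b : ℕ) (K t τ C₁ C' : ℝ), 1 ≤ ν → 1 ≤ q → 1 ≤ D → 1 ≤ K → 0 < t → 1 ≤ C₁ → 1 ≤ C' →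
    ∃ g₀ : ℝ, 0 < g₀ ∧ ∀ g : ℝ, 0 < g → g ≤ g₀ → ∃ (N₁ : ℕ) (σ' s : ℝ), 1 ≤ N₁ ∧ 0 < σ' ∧
      σ' ≤ g ∧ σ' ≤ g ^ b ∧ 0 < s ∧ ∀ᶠ T : ℝ in atTop, ∀ (a m : ℕ) (U : Fin a → Fin ν → ℂ)
        (f : ℂ → Fin ν → ℂ) (γ : ℂ → ℂ) (Bz Nz : ℂ → ℝ → Prop), a ≤ q → (m : ℝ) ≤ K * T →
        (∀ i, PD ℂ m fun z => f z i) → Differentiable ℂ γ →
        (∀ z ∈ DD1, exp (-(K * T)) ≤ ‖f z‖ ∧ ‖f z‖ ≤ exp (K * T)) →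
        (∀ z ∈ DD1, ∀ z' ∈ DD1, ‖z' - z‖ ≤ g ^ b → ‖f z'‖ ≤ exp (g * T) * ‖f z‖) →
        (∀ z : ℂ, ‖z‖ = 1 → ‖γ z‖ ≤ ‖f z‖) → exp (T / 2) * ‖f 0‖ ≤ ‖γ 0‖ →
        (∀ z ∈ DD1, (∀ X X', X ≤ X' → Bz z X → Bz z X') ∧ (∀ X X', X' ≤ X → Nz z X → Nz z X') ∧
          (∃ X, 0 ≤ X ∧ Bz z X ∧ Nz z (3 / 2 * X)) ∧ (∀ X, Nz z X → X ≤ exp (D * T / 4)) ∧
          ((∀ i, exp (-(t * T)) * ‖f z‖ ≤ ‖U i ⬝ᵥ f z‖) → ∀ X, 0 ≤ X → Bz z X →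
            exp (-(D * T / 100)) ≤ X) ∧
          ∀ X₀, Nz z X₀ → ∃ (P : ℂ → ℂ) (e : ℕ), Differentiable ℂ P ∧ e ≤ q ∧
            X₀ * ‖f z‖ ^ e ≤ C' * ‖P z‖ ∧
            ∀ z' ∈ DD1, ∀ X, 0 ≤ X → Bz z' X → ‖P z'‖ ≤ C' * X * ‖f z'‖ ^ e) →
        (∀ (i : Fin a) (z₀ : ℂ), closedBall z₀ (C₁ * s) ⊆ DD1 →
          (∀ z ∈ closedBall z₀ (C₁ * s), ‖U i ⬝ᵥ f z‖ ≤ exp (-(t * T / 2)) * ‖f z‖) →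
          Tch f z₀ s ≤ τ) →
        ∃ (G : ℂ → ℂ) (μ : ℝ) (z₀ : ℂ), Differentiable ℂ G ∧ ‖z₀‖ ≤ 1 - σ' ∧ G z₀ ≠ 0 ∧
          (∀ i, exp (-(t * T)) * ‖f z₀‖ ≤ ‖U i ⬝ᵥ f z₀‖) ∧
          Nz z₀ (Xf μ (fun z => N₁ * T / 100 * ‖z‖ ^ 2) N₁ D f G z₀) ∧
          ∀ z ∈ DD1, G z ≠ 0 → Bz z (Xf μ (fun z => N₁ * T / 100 * ‖z‖ ^ 2) N₁ D f G z)

/-- A linear form vanishing on a small subspace that sees the distance to it. -/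
def OrcStmt : Prop :=
  ∀ (ν p : ℕ) (r : ℝ), p ≤ ν → 0 < r → ∃ c₁ : ℝ, 0 < c₁ ∧ ∀ (f : ℂ → Fin ν → ℂ)
    (b : Fin p → Fin ν → ℂ), Continuous f → (∀ z ∈ DD1, f z ≠ 0) →
    ∃ U : Fin ν → ℂ, (∀ κ, U ⬝ᵥ b κ = 0) ∧ nl U ≤ 1 ∧ Sees p r c₁ f U

/-- Killing obstructions. -/
def KillStmt : Prop :=
  ∀ j s₀ : ℕ, 1 ≤ s₀ → ∃ C : ℝ, 1 ≤ C ∧ ∀ (ν dF p e : ℕ) (ψ : MP ν →ₗ[ℂ] (Fin j → ℂ))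
    (θ : ℕ → ℝ) (Or : (Fin ν → ℂ) → Prop), j ≤ s₀ * e → e < dF → (∀ i, 0 ≤ θ i) → Monotone θ →
    (∀ b : Fin p → Fin ν → ℂ, ∃ U, (∀ κ, U ⬝ᵥ b κ = 0) ∧ nl U ≤ 1 ∧ Or U) →
    ∃ (a d : ℕ) (U : Fin a → Fin ν → ℂ) (J : Finset (Fin j)) (R : Matrix (Fin j) (Fin j) ℂ),
      a + (d + 1) = dF ∧ a * s₀ ≤ j ∧ (∀ i, Or (U i)) ∧ Kil d p s₀ ψ U J R C (θ a) (θ (a + 1))

/-- The data after killing. -/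
def KDStmt : Prop :=
  ∀ (ν dF j : ℕ) (C : ℝ), 1 ≤ C → ∃ CH : ℝ, 1 ≤ CH ∧ ∀ (p s₀ d a : ℕ) (c : Mon ν dF → ℂ)
    (y : Fin j → Mon ν dF → ℂ) (f : ℂ → Fin ν → ℂ) (ξ : Mon ν dF → ℂ → Fin ν → ℂ)
    (U : Fin a → Fin ν → ℂ) (J : Finset (Fin j)) (R : Matrix (Fin j) (Fin j) ℂ) (Λ E θ θ' : ℝ),
    a + (d + 1) = dF → ‖c‖ ≤ 1 → ‖y‖ ≤ 1 → (∀ n, Differentiable ℂ (ξ n)) → 0 ≤ Λ → 0 ≤ E →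
    0 ≤ θ → (∀ z ∈ DD1, ∀ n, ‖ξ n z‖ ≤ Λ * ‖f z‖ ∧
      ‖eval (f z) (form (prj y n)) + lf (grad c (f z)) (ξ n z)‖ ≤ E * ‖f z‖ ^ dF) →
    Kil d p s₀ (TT fun n l => conj (y l n)) U J R C θ θ' →
    ∃ T : ℂ → MP ν →ₗ[ℂ] (Fin ν ⊕ Fin j → ℂ), KD dF p s₀ d f T U J Λ CH (E + CH * θ) θ'

/-- No relative data. -/
def NoRel2Stmt : Prop :=
  ∀ (ν j d p e b : ℕ) (K τ ζ C c₀ g₁ : ℝ), Nums ν j d p e → 1 ≤ K → 0 < ζ → 1 ≤ C → 0 < c₀ →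
    0 < g₁ → ∃ g : ℝ, 0 < g ∧ g ≤ g₁ ∧ ∀ᶠ T : ℝ in atTop, ∀ c : Mon ν d → ℂ, ‖c‖ ≤ 1 →
      NL (form c) d c₀ → (j < e ∨ Hyp c p τ ζ C) → ∀ (y : Fin j → Mon ν d → ℂ)
        (f : ℂ → Fin ν → ℂ) (ξ : Mon ν d → ℂ → Fin ν → ℂ) (γ : ℂ → ℂ),
        ¬RDat K (1 / 1000) g (g ^ b) T c y f ξ γ

/-! ### Slow discs -/

/-- Exchange of the first column of a full determinant. -/
def PiStmt : Prop :=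
  ∀ (n : ℕ) (H c₀ : Fin (n + 1) → ℂ) (W : Fin n → Fin (n + 1) → ℂ) (a : Fin (n + 1)) (A E : ℝ),
    1 ≤ A → ‖c₀‖ ≤ A → (∀ k, ‖W k‖ ≤ A ∧ ‖H ⬝ᵥ W k‖ ≤ E) →
    ‖H a * dt id (Fin.cons c₀ W : Fin (n + 1) → Fin (n + 1) → ℂ) -
      (H ⬝ᵥ c₀) * dt id (Fin.cons (Pi.single a 1) W : Fin (n + 1) → Fin (n + 1) → ℂ)‖ ≤
      n * (n + 1).factorial * E * A ^ n

/-- Slots that generate the tangent space at a point. -/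
def SlotStmt : Prop :=
  ∀ q d : ℕ, 1 ≤ d → ∃ C : ℝ, 1 ≤ C ∧ ∀ (c : Mon (q + 4) d → ℂ) (f : ℂ → Fin (q + 4) → ℂ)
    (ξ : Mon (q + 4) d → ℂ → Fin (q + 4) → ℂ) (z₁ : ℂ) (v : Fin (q + 4) → ℂ) (a : Fin (q + 4))
    (Λ E : ℝ), ‖c‖ ≤ 1 → Differentiable ℂ f → (∀ n, Differentiable ℂ (ξ n)) → 0 ≤ E →
    (∀ z ∈ DD1, ‖f z‖ ≤ Λ ∧ ∀ n, ‖ξ n z‖ ≤ Λ ∧ ‖mon n (f z) + grad c (f z) ⬝ᵥ ξ n z‖ ≤ E) →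
    f z₁ ≠ 0 → grad c (f z₁) ≠ 0 → ‖grad c (f z₁) a‖ = ‖grad c (f z₁)‖ →
    2 * (‖grad c (f z₁) ⬝ᵥ f z₁‖ * ‖v‖ + ‖f z₁‖ * ‖grad c (f z₁) ⬝ᵥ v‖) ≤
      ‖grad c (f z₁)‖ * ‖bv (f z₁) v‖ →
    ∃ (Ψ : Fin (q + 1) → ℂ → Fin (q + 4) → Fin (q + 4) → ℂ) (b b' : Fin (q + 1) → Fin (q + 4)),
      (∀ k, Slot c f (C * Λ) (C * E) (Ψ k)) ∧ ‖f z₁‖ ^ (2 * (q + 1)) * ‖bv (f z₁) v‖ ≤
        C * ‖dt id (Fin.cons (Pi.single a 1) (Fin.cons (f z₁) (Fin.cons v fun k =>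
          sg (f z₁) (Ψ k z₁) (b k) (b' k))) : Fin (q + 4) → Fin (q + 4) → ℂ)‖

/-- The field of planes along a slow disc. -/
def PiZStmt : Prop :=
  ∀ (q d : ℕ) (η : ℝ), 1 ≤ d → 0 < η → ∃ C : ℝ, 1 ≤ C ∧ ∀ c ∈ Usm (q + 4) d η,
    ∀ (f : ℂ → Fin (q + 4) → ℂ) (ξ : Mon (q + 4) d → ℂ → Fin (q + 4) → ℂ) (z₁ : ℂ) (κ δ E : ℝ),
      SIn c f ξ z₁ κ δ E → E ≤ exp (-(C * δ)) → ∃ u : ℂ → Fin (q + 4) → ℂ,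
        DifferentiableOn ℂ u (ball 0 (5 / 12)) ∧
        (∀ z ∈ ball (0 : ℂ) (5 / 12), ‖u z‖ ≤ exp (C * δ) ∧
          ‖bv (f z) (u z)‖ * ‖f z‖ ^ (d - 1) ≤ exp (C * κ)) ∧
        ‖f z₁‖ ^ (2 * q + 4) ≤ C * ‖bv (f z₁) (u z₁)‖ * ‖f z₁‖ ^ (d - 1)

/-- The jump for slow discs. -/
def SlowCStmt : Prop :=
  ∀ (ν d : ℕ) (η c₀ : ℝ), 4 ≤ ν → 2 * ν ≤ d + 3 → 0 < η → 0 < c₀ → ∃ C : ℝ, 1 ≤ C ∧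
    ∀ c ∈ Usm ν d η, NL (form c) d c₀ → ∀ (f : ℂ → Fin ν → ℂ) (ξ : Mon ν d → ℂ → Fin ν → ℂ)
      (z₁ : ℂ) (κ δ E t : ℝ), SIn c f ξ z₁ κ δ E → E ≤ exp (-(C * δ)) → 1 / 4 ≤ t → t ≤ 3 / 8 →
      (∀ z : ℂ, ‖z‖ = t → exp (-κ) ≤ ‖f z‖) → exp (-(C * κ)) ≤ ‖f z₁‖

/-- No data for slow discs. -/
def NoSlow2Stmt : Prop :=
  ∀ (ν d : ℕ) (η c₀ K : ℝ), 4 ≤ ν → 2 * ν ≤ d + 3 → 0 < η → 0 < c₀ → 1 ≤ K →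
    ∃ χ K' : ℝ, 0 < χ ∧ ∀ᶠ T : ℝ in atTop, ∀ c ∈ Usm ν d η, NL (form c) d c₀ →
      ∀ (f : ℂ → Fin ν → ℂ) (ξ : Mon ν d → ℂ → Fin ν → ℂ), ¬SDat K K' χ T c f ξ

/-- Normalisation of the data for slow discs. -/
def SRelStmt : Prop :=
  ∀ (ν d N : ℕ) (K K' K₁ a ε χ s T ρ Γ : ℝ) (cl : Cls N) (c : Mon ν d → ℂ), 1 ≤ d → 1 ≤ K →
    K' ≤ 100 * K₁ → 0 < ε → ε ≤ 1 / 4 → 3 * ε ≤ χ → 208 * K₁ / a ≤ ε → 0 ≤ s → 1 ≤ ε * T →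
    cl.Valid ρ Γ → (∀ i, exp (-(4 * (K * T))) ≤ cl.ω i) →
    DatT3 K₁ a (2 * K + 1) ε ε (s + 1 + ε * T) T cl (fun _ => exp (-s)) c →
    ∃ (f : ℂ → Fin ν → ℂ) (ξ : Mon ν d → ℂ → Fin ν → ℂ), SDat K K' χ T c f ξ

/-! ### Measure -/

/-- The measure estimate for one class without obstructions. -/
def Core3Stmt : Prop :=
  ∀ (ν p d N : ℕ) (K a ε g χ ρ : ℝ), 1 ≤ K → 1 ≤ p → 1 ≤ d → 1 ≤ a → 0 < ε → ε ≤ 1 → 0 < g →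
    g ≤ 3 * K → 0 < χ → 8 * exp (a * (1 + d * g)) ≤ ρ →
    2912 * p * K * log (4 * d + 3) / a ≤ ε / 4 →
    ∀ᶠ T : ℝ in atTop, ∀ (cl : Cls N) (e : Fin p → Fin ν) (ω' : Fin N → ℝ) (s₀ : ℝ)
      (U : Set (Mon ν d → ℂ)), cl.Valid ρ (exp (g * T)) → Function.Injective e →
      MeasurableSet U → U ⊆ closedBall 0 1 → (∀ c ∈ U, ¬DatT3 K a g ε χ s₀ T cl ω' c) →
      volume {c | c ∈ U ∧ ∃ (A : Fin ν → Fin p → ℂ) (f : ℂ → Fin p → ℂ), ‖A‖ ≤ 1 ∧ Disc ρ K T f ∧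
        Apx c e A (exp (-((195 + 15 * d) * (K * T)))) ρ f ∧ cl.Mem ρ (exp (g * T)) f ∧
        (∀ i, ∀ w ∈ closedBall (cl.z i) cl.σ, ‖f w‖ ≤ ω' i) ∧
        -s₀ ≤ circleAverage (lg f) 0 1} ≤ ENNReal.ofReal (exp (-(ε * T / 2)))

/-- One level. -/
def Lev2Stmt : Prop :=
  ∃ K C : ℝ, 1 ≤ K ∧ 1 ≤ C ∧ ∀ (ν d : ℕ) (η c₀ : ℝ), 4 ≤ ν → 2 * ν ≤ d + 3 → 0 < η → 0 < c₀ →
    ∃ (b : ℕ) (g₁ Z : ℝ), 0 < g₁ ∧ ∀ (p j : ℕ) (U : Set (Mon ν d → ℂ)) (g : ℝ), 1 ≤ p → p ≤ ν →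
      MeasurableSet U → (∀ c ∈ U, c ∈ Usm ν d η ∧ NL (form c) d c₀) → 0 < g → g ≤ g₁ →
      2912 * p * K * log (4 * d + 3) + 2 ≤ 1 / 2000 * (j + 1) →
      (∀ᶠ T : ℝ in atTop, ∀ c ∈ U, ∀ (y : Fin j → Mon ν d → ℂ) (f : ℂ → Fin ν → ℂ)
        (ξ : Mon ν d → ℂ → Fin ν → ℂ) (γ : ℂ → ℂ), ¬RDat K (1 / 1000) g (g ^ b) T c y f ξ γ) →
      Tendsto (fun τ : ℕ => volume {c | c ∈ U ∧ ¬Hyp c p τ (exp (-(Z * τ))) C}) atTop (𝓝 0)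

/-- Absence of lines is closed and quantitative. -/
def NLcStmt : Prop :=
  ∀ ν d : ℕ, (∀ c₀ : ℝ, IsClosed {c : Mon ν d → ℂ | NL (form c) d c₀}) ∧
    ∀ c : Mon ν d → ℂ, 1 ≤ d → (∀ x u, VanL x u (form c) → bv x u = 0) →
      ∃ k : ℕ, NL (form c) d (1 / (k + 1))

/-- Almost every hypersurface of large degree contains no line. -/
def NLnStmt : Prop :=
  ∀ ν d : ℕ, 2 * ν ≤ d + 4 → ∀ᵐ c : Mon ν d → ℂ, ∀ x u, VanL x u (form c) → bv x u = 0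

/-- The choice of the integers. -/
def Num2Stmt : Prop :=
  ∀ K : ℝ, 1 ≤ K → ∃ n₀ : ℕ, ∀ ν d : ℕ, n₀ ≤ ν → 2 * ν ≤ d + 3 → 2 * d ≤ 5 * ν →
    ∃ e p j₁ j₂ : ℕ, Nums ν j₁ d p e ∧ Nums ν j₂ d p e ∧ j₁ < e ∧
      2912 * p * K * log (4 * d + 3) + 2 ≤ 1 / 2000 * (j₁ + 1) ∧
      2912 * ν * K * log (4 * d + 3) + 2 ≤ 1 / 2000 * (j₂ + 1)

/-- The theorem. -/
def MainStmt : Prop :=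
  ∃ n₀ : ℕ, ∀ n d : ℕ, n₀ ≤ n → 2 * n + 1 ≤ d →
    ∀ᵐ c : Mon (n + 2) d → ℂ, IsSmooth (form c) ∧ IsBrody (form c)

end

end Pool.Agent.Lib.MP_45f16c_ag.EX
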